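import Pool.Agent.Lib_MP_204846_gt.InvDef

/-!
# MP_204846_gt: the state of the search at a cell of an array (definitions)
-/

namespace Pool.Agent.MP_204846_gt

/-- the nodes of the cells after the cell `(x, y)` -/
def restCode (A : Arr) (w h x y : ℕ) : Code :=
  ((List.range' (x + 1) (w - (x + 1))).flatMap fun x' => cellCode A x' y) ++
    (List.range' (y + 1) (h - (y + 1))).flatMap fun y' => rowCode A w y'

/-- the list of the tiles before the cell `(x, y)` -/
def histF (A : Arr) (w x y : ℕ) : List Kd :=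
  ((List.range y).flatMap fun y' => (List.range w).map fun x' => A x' y') ++
    (List.range x).map fun x' => A x' y

/-- the same in reverse order -/
def hist (A : Arr) (w x y : ℕ) : List Kd := (histF A w x y).reverse

/-- the upper profile, from the vertex `(x, y + 1)` to the left -/
def up (Γ : ℕ → Ent) (x y : ℕ) : LL := ((List.range (x + 1)).map fun j => Γ (vert j (y + 1))).reverse

/-- the lower profile, from the vertex `(x, y)` to the right -/
def low (Γ : ℕ → Ent) (w x y : ℕ) : LL := (List.range' x (w + 1 - x)).map fun j => Γ (vert j y)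

def Kd.isX : Kd → Bool
  | .x => true
  | _ => false

/-- the number of cells of the rows below `h`, from the cell `(x, y)` on, with the property `p` -/
def rem (A : Arr) (w h x y : ℕ) (p : Kd → Bool) : ℕ :=
  ((Finset.range w ×ˢ Finset.range h).filter fun c =>
    p (A c.1 c.2) = true ∧ (y < c.2 ∨ (c.2 = y ∧ x ≤ c.1))).card

def cnt (l : LL) : ℕ := (l.map opn).sum

/-- the potential -/
def pot : LL → LL → ℕ
  | l :: L, r :: R => cnt L + cnt R + xr (opn l) (opn r)
  | _, _ => 0

/-- the connectors which are reserved for the rows from `top` on -/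
def tau (top y : ℕ) : ℕ := if y < top then 4 else 0

/-- the budget -/
def Bud (A : Arr) (w h top x y : ℕ) (L R : LL) (P : ℕ) : Prop :=
  ∃ b m : ℕ, P = b + 16 * rem A w h x y Kd.isX + 256 * m ∧ b ≤ 7 ∧ rem A w h x y Kd.isX ≤ 8 ∧
    2 * b + pot L R = 2 * (m + tau top y) ∧ rem A w h x y Kd.isC ≤ m + tau top y ∧
    (y < top → rem A w top x y Kd.isC ≤ m)

/-- the names in a state -/
def Names (Γ : ℕ → Ent) (w m : ℕ) : Prop :=
  ∀ v s c, Γ v = .o s c → (s ≤ w + 1 ∨ m < s) ∧ (c / 4 ≤ w + 1 ∨ m < c / 4)

/-- the state of the search at the cell `(x, y)` -/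
structure St (A : Arr) (w h top x y : ℕ) (T : List Kd) (L R : LL) (P : ℕ) : Prop where
  ex : ∃ Γ, Inv (preCode A w x y) Γ ∧ L = up Γ x y ∧ R = low Γ w x y ∧ Names Γ w (w + 20 - x)
  hist : T = hist A w x y
  bud : Bud A w h top x y L R P

/-- the arrays to which the search applies -/
structure Std (A : Arr) (w h : ℕ) : Prop where
  good : GoodArr A w h
  w1 : 1 ≤ w
  wh : w ≤ h
  h15 : h ≤ 15
  row : ∀ y < h, ∃ x < w, A x y ≠ .bl
  col : ∀ x < w, ∃ y < h, A x y ≠ .bl
  top : nC A w (w / 2) ≤ 3

end Pool.Agent.MP_204846_gt
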