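import Pool.Agent.Lib_MP_204846_gt.ArrDef

/-!
# MP_204846_gt, piece ArrL: the labels of the cells of an array

`vert x y = Nat.pair x y` is injective. A tile uses each of its four corners at most once.
-/

namespace Pool.Agent.MP_204846_gt

theorem vert_inj {x y x' y' : ℕ} : vert x y = vert x' y' ↔ x = x' ∧ y = y' := by
  unfold vert
  exact Nat.pair_eq_pair

theorem corners_nodup (x y : ℕ) :
    [vert x y, vert (x + 1) y, vert (x + 1) (y + 1), vert x (y + 1)].Nodup := by
  simp [vert_inj]

theorem ends_append (D D' : Code) : ends (D ++ D') = ends D ++ ends D' := by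
  unfold ends
  rw [List.flatMap_append]

private theorem ArrL_mem_ends {v : ℕ} {D : Code} : v ∈ ends D ↔ ∃ N ∈ D, v ∈ N.ends := by
  unfold ends
  rw [List.mem_flatMap]

private theorem ArrL_mem_fm {ι : Type} {v : ℕ} {l : List ι} {g : ι → Code} :
    v ∈ ends (l.flatMap g) ↔ ∃ i ∈ l, v ∈ ends (g i) := by
  rw [ArrL_mem_ends]
  constructor
  · rintro ⟨N, hN, hv⟩
    obtain ⟨i, hi, hNi⟩ := List.mem_flatMap.mp hN
    exact ⟨i, hi, ArrL_mem_ends.mpr ⟨N, hNi, hv⟩⟩
  · rintro ⟨i, hi, hv⟩
    obtain ⟨N, hN, hv⟩ := ArrL_mem_ends.mp hv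
    exact ⟨N, List.mem_flatMap.mpr ⟨i, hi, hN⟩, hv⟩

private theorem ArrL_mem_row {A : Arr} {x y v : ℕ} :
    v ∈ ends (rowCode A x y) ↔ ∃ x' < x, v ∈ ends (cellCode A x' y) := by
  unfold rowCode
  rw [ArrL_mem_fm]
  simp only [List.mem_range]

private theorem ArrL_mem_arr {A : Arr} {w y v : ℕ} :
    v ∈ ends (arrCode A w y) ↔ ∃ y' < y, ∃ x' < w, v ∈ ends (cellCode A x' y') := by
  unfold arrCode
  rw [ArrL_mem_fm]
  simp only [List.mem_range, ArrL_mem_row]

private theorem ArrL_mem_pre {A : Arr} {w x y v : ℕ} : v ∈ ends (preCode A w x y) ↔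
    (∃ y' < y, ∃ x' < w, v ∈ ends (cellCode A x' y')) ∨ ∃ x' < x, v ∈ ends (cellCode A x' y) := by
  unfold preCode
  rw [ends_append, List.mem_append, ArrL_mem_arr, ArrL_mem_row]

private theorem ArrL_cell {A : Arr} {x y v : ℕ} (h : v ∈ ends (cellCode A x y)) :
    ∃ a b, v = vert a b ∧ (a = x ∨ a = x + 1) ∧ (b = y ∨ b = y + 1) := by
  have h4 : v = vert x y ∨ v = vert (x + 1) y ∨ v = vert (x + 1) (y + 1) ∨ v = vert x (y + 1) := by
    unfold cellCode at h
    cases hk : A x y <;> rw [hk] at h <;> simp [Kd.code, ends, Node.ends] at h <;> tauto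
  rcases h4 with h | h | h | h
  · exact ⟨x, y, h, Or.inl rfl, Or.inl rfl⟩
  · exact ⟨x + 1, y, h, Or.inr rfl, Or.inl rfl⟩
  · exact ⟨x + 1, y + 1, h, Or.inr rfl, Or.inr rfl⟩
  · exact ⟨x, y + 1, h, Or.inl rfl, Or.inr rfl⟩

private theorem ArrL_cell' {A : Arr} {x y a b : ℕ} (h : vert a b ∈ ends (cellCode A x y)) :
    (a = x ∨ a = x + 1) ∧ (b = y ∨ b = y + 1) := by
  obtain ⟨a', b', he, h1, h2⟩ := ArrL_cell h
  obtain ⟨rfl, rfl⟩ := vert_inj.mp he
  exact ⟨h1, h2⟩

private theorem ArrL_cell_nodup (A : Arr) (x y : ℕ) : (ends (cellCode A x y)).Nodup := by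
  unfold cellCode
  cases A x y <;> simp [Kd.code, ends, Node.ends, vert_inj]

theorem preCode_zero (A : Arr) (w y : ℕ) : preCode A w 0 y = arrCode A w y := by
  simp [preCode, rowCode]

private theorem ArrL_row_succ (A : Arr) (x y : ℕ) :
    rowCode A (x + 1) y = rowCode A x y ++ cellCode A x y := by
  unfold rowCode
  rw [List.range_succ, List.flatMap_append]
  simp

theorem preCode_succ (A : Arr) (w x y : ℕ) :
    preCode A w (x + 1) y = preCode A w x y ++ cellCode A x y := by
  unfold preCode
  rw [ArrL_row_succ, List.append_assoc]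

theorem preCode_row (A : Arr) (w y : ℕ) : preCode A w w y = arrCode A w (y + 1) := by
  unfold preCode arrCode
  rw [List.range_succ, List.flatMap_append]
  simp

private theorem ArrL_range {n k : ℕ} (h : k < n) :
    List.range n = List.range k ++ k :: List.range' (k + 1) (n - (k + 1)) := by
  obtain ⟨m, rfl⟩ : ∃ m, n = k + (m + 1) := ⟨n - (k + 1), by omega⟩
  have e : k + (m + 1) - (k + 1) = m := by omega
  rw [e, List.range_eq_range', List.range_eq_range', ← List.range'_succ]
  have := List.range'_append_1 (s := 0) (m := k) (n := m + 1)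
  rw [Nat.zero_add] at this
  exact this.symm

theorem arrCode_split {A : Arr} {w h x y : ℕ} (hx : x < w) (hy : y < h) :
    arrCode A w h = preCode A w x y ++ cellCode A x y ++ restCode A w h x y := by
  unfold arrCode preCode restCode
  rw [ArrL_range hy, List.flatMap_append, List.flatMap_cons]
  have e : rowCode A w y = rowCode A x y ++ cellCode A x y ++
      ((List.range' (x + 1) (w - (x + 1))).flatMap fun x' => cellCode A x' y) := by
    unfold rowCode
    rw [ArrL_range hx, List.flatMap_append, List.flatMap_cons, List.append_assoc]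
  rw [e]
  unfold arrCode
  simp only [List.append_assoc]

/-- the end of a row -/
theorem arrCode_split_row {A : Arr} {w h y : ℕ} (hy : y < h) :
    arrCode A w h = preCode A w w y ++
      (List.range' (y + 1) (h - (y + 1))).flatMap fun y' => rowCode A w y' := by
  unfold arrCode preCode
  rw [ArrL_range hy, List.flatMap_append, List.flatMap_cons]
  unfold arrCode
  simp only [List.append_assoc]

/-- the label of the upper right vertex of the cell `(x, y)` does not occur before this cell -/
theorem tr_fresh (A : Arr) (w x y : ℕ) :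
    (ends (preCode A w x y)).count (vert (x + 1) (y + 1)) = 0 := by
  rw [List.count_eq_zero]
  intro h
  rcases ArrL_mem_pre.mp h with ⟨y', hy', x', _, h⟩ | ⟨x', hx', h⟩
  · obtain ⟨_, h2⟩ := ArrL_cell' h; omega
  · obtain ⟨h1, _⟩ := ArrL_cell' h; omega

theorem tl_count (A : Arr) (w x y : ℕ) :
    (ends (preCode A w x y)).count (vert x (y + 1)) ≤ 1 := by
  cases x with
  | zero =>
    have : (ends (preCode A w 0 y)).count (vert 0 (y + 1)) = 0 := by
      rw [List.count_eq_zero]
      intro h
      rcases ArrL_mem_pre.mp h with ⟨y', hy', x', _, h⟩ | ⟨x', hx', h⟩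
      · obtain ⟨_, h2⟩ := ArrL_cell' h; omega
      · omega
    omega
  | succ x =>
    rw [preCode_succ, ends_append, List.count_append, tr_fresh, Nat.zero_add]
    exact List.nodup_iff_count_le_one.mp (ArrL_cell_nodup A x y) _

theorem bl_rest (A : Arr) (w h x y : ℕ) : vert x y ∉ ends (restCode A w h x y) := by
  intro hm
  unfold restCode at hm
  rw [ends_append, List.mem_append, ArrL_mem_fm, ArrL_mem_fm] at hm
  rcases hm with ⟨x', hx', hm⟩ | ⟨y', hy', hm⟩
  · obtain ⟨h1, _⟩ := ArrL_cell' hm
    rw [List.mem_range'_1] at hx'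
    omega
  · obtain ⟨x', _, hm⟩ := ArrL_mem_row.mp hm
    obtain ⟨_, h2⟩ := ArrL_cell' hm
    rw [List.mem_range'_1] at hy'
    omega

/-- a label which occurs once before the cell `(x, y)` in a closed array is a label of the profile -/
theorem frontier {A : Arr} {w h x y : ℕ} (hc : Closed (arrCode A w h)) (hx : x ≤ w) (hy : y < h)
    {v : ℕ} (hv : (ends (preCode A w x y)).count v = 1) :
    (∃ j ≤ x, v = vert j (y + 1)) ∨ ∃ j, x ≤ j ∧ j ≤ w ∧ v = vert j y := by
  -- a later cell contains the label
  have hmem : v ∈ ends (preCode A w x y) := List.count_pos_iff.mp (by omega)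
  have hlate : (∃ x', x ≤ x' ∧ x' < w ∧ v ∈ ends (cellCode A x' y)) ∨
      ∃ y' > y, ∃ x' < w, v ∈ ends (cellCode A x' y') := by
    rcases Nat.lt_or_ge x w with hxw | hxw
    · have hs := arrCode_split (A := A) hxw hy
      have hall : v ∈ ends (arrCode A w h) := by
        rw [hs, List.append_assoc, ends_append, List.mem_append]; exact Or.inl hmem
      have h2 := hc v hall
      rw [hs, List.append_assoc, ends_append, List.count_append, hv] at h2
      have h3 : v ∈ ends (cellCode A x y ++ restCode A w h x y) :=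
        List.count_pos_iff.mp (by omega)
      rw [ends_append, List.mem_append] at h3
      rcases h3 with h3 | h3
      · exact Or.inl ⟨x, le_rfl, hxw, h3⟩
      · unfold restCode at h3
        rw [ends_append, List.mem_append, ArrL_mem_fm, ArrL_mem_fm] at h3
        rcases h3 with ⟨x', hx', h3⟩ | ⟨y', hy', h3⟩
        · rw [List.mem_range'_1] at hx'
          exact Or.inl ⟨x', by omega, by omega, h3⟩
        · rw [List.mem_range'_1] at hy'
          exact Or.inr ⟨y', by omega, ArrL_mem_row.mp h3⟩
    · obtain rfl : x = w := by omega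
      have hs := arrCode_split_row (A := A) (w := x) hy
      have hall : v ∈ ends (arrCode A x h) := by
        rw [hs, ends_append, List.mem_append]; exact Or.inl hmem
      have h2 := hc v hall
      rw [hs, ends_append, List.count_append, hv] at h2
      have h3 : v ∈ ends ((List.range' (y + 1) (h - (y + 1))).flatMap fun y' => rowCode A x y') :=
        List.count_pos_iff.mp (by omega)
      rw [ArrL_mem_fm] at h3
      obtain ⟨y', hy', h3⟩ := h3
      rw [List.mem_range'_1] at hy'
      exact Or.inr ⟨y', by omega, ArrL_mem_row.mp h3⟩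
  rcases ArrL_mem_pre.mp hmem with ⟨y', hy', x', hx', h1⟩ | ⟨x', hx', h1⟩
  · obtain ⟨a, b, rfl, ha, hb⟩ := ArrL_cell h1
    rcases hlate with ⟨x2, hx2, hx2w, h2⟩ | ⟨y2, hy2, x2, hx2, h2⟩
    · obtain ⟨ha2, hb2⟩ := ArrL_cell' h2
      obtain rfl : b = y := by omega
      exact Or.inr ⟨a, by omega, by omega, rfl⟩
    · obtain ⟨ha2, hb2⟩ := ArrL_cell' h2
      omega
  · obtain ⟨a, b, rfl, ha, hb⟩ := ArrL_cell h1
    rcases hb with rfl | rfl
    · rcases hlate with ⟨x2, hx2, hx2w, h2⟩ | ⟨y2, hy2, x2, hx2, h2⟩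
      · obtain ⟨ha2, hb2⟩ := ArrL_cell' h2
        exact Or.inr ⟨a, by omega, by omega, rfl⟩
      · obtain ⟨ha2, hb2⟩ := ArrL_cell' h2
        omega
    · exact Or.inl ⟨a, by omega, rfl⟩

/-- the last vertex of the lower profile is complete at the end of the row -/
theorem low_end {A : Arr} {w h y : ℕ} (hc : Closed (arrCode A w h)) (hy : y < h) :
    (ends (preCode A w w y)).count (vert w y) ≠ 1 := by
  intro hv
  have hmem : vert w y ∈ ends (preCode A w w y) := List.count_pos_iff.mp (by omega)
  have hs := arrCode_split_row (A := A) (w := w) hy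
  have hall : vert w y ∈ ends (arrCode A w h) := by
    rw [hs, ends_append, List.mem_append]; exact Or.inl hmem
  have h2 := hc _ hall
  rw [hs, ends_append, List.count_append, hv] at h2
  have h3 : vert w y ∈ ends ((List.range' (y + 1) (h - (y + 1))).flatMap fun y' => rowCode A w y') :=
    List.count_pos_iff.mp (by omega)
  rw [ArrL_mem_fm] at h3
  obtain ⟨y', hy', h3⟩ := h3
  rw [List.mem_range'_1] at hy'
  obtain ⟨x', _, h4⟩ := ArrL_mem_row.mp h3
  obtain ⟨_, h5⟩ := ArrL_cell' h4
  omega

/-- all vertices are complete at the end of the last row -/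
theorem top_end {A : Arr} {w h y : ℕ} (hc : Closed (arrCode A w h)) (hy : y + 1 = h) (v : ℕ) :
    (ends (preCode A w w y)).count v ≠ 1 := by
  intro hv
  rw [preCode_row, hy] at hv
  have hmem : v ∈ ends (arrCode A w h) := List.count_pos_iff.mp (by omega)
  have := hc v hmem
  omega

/-- a vertex of the next row is not used before the row begins -/
theorem next_zero {A : Arr} {w y j : ℕ} :
    (ends (preCode A w 0 y)).count (vert j (y + 1)) = 0 := by
  rw [List.count_eq_zero]
  intro h
  rcases ArrL_mem_pre.mp h with ⟨y', hy', x', _, h⟩ | ⟨x', hx', h⟩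
  · obtain ⟨_, h2⟩ := ArrL_cell' h; omega
  · omega

theorem code_nil {k : Kd} {a b c d : ℕ} (h : k.code a b c d = []) : k = .bl := by
  cases k <;> simp [Kd.code] at h ⊢

/-- no nodes after the cell `(x, y)`: all later tiles are blank -/
theorem rest_nil {A : Arr} {w h x y : ℕ} (hr : restCode A w h x y = []) :
    (∀ x' y', x' < w → y' < h → (y < y' ∨ (y' = y ∧ x < x')) → A x' y' = .bl) := by
  intro x' y' hx' hy' hlt
  unfold restCode at hr
  rw [List.append_eq_nil_iff, List.flatMap_eq_nil_iff, List.flatMap_eq_nil_iff] at hr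
  obtain ⟨h1, h2⟩ := hr
  rcases hlt with hlt | ⟨rfl, hlt⟩
  · have h3 := h2 y' (by rw [List.mem_range'_1]; omega)
    unfold rowCode at h3
    rw [List.flatMap_eq_nil_iff] at h3
    exact code_nil (h3 x' (List.mem_range.mpr hx'))
  · exact code_nil (h1 x' (by rw [List.mem_range'_1]; omega))

theorem pre_ne_nil {A : Arr} {w x y x' y' : ℕ} (hx' : x' < w) (h : y' < y ∨ (y' = y ∧ x' < x))
    (hA : A x' y' ≠ .bl) : preCode A w x y ≠ [] := by
  intro hn
  unfold preCode arrCode rowCode at hn
  rw [List.append_eq_nil_iff, List.flatMap_eq_nil_iff, List.flatMap_eq_nil_iff] at hn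
  obtain ⟨h1, h2⟩ := hn
  rcases h with h | ⟨rfl, h⟩
  · have h3 := h1 y' (List.mem_range.mpr h)
    rw [List.flatMap_eq_nil_iff] at h3
    exact hA (code_nil (h3 x' (List.mem_range.mpr hx')))
  · exact hA (code_nil (h2 x' (List.mem_range.mpr h)))

end Pool.Agent.MP_204846_gt
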