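import Pool.Agent.Lib_MP_204846_gt.SDefs

/-!
# MP_204846_gt, piece CntL: the numbers of nodes of an array
-/

namespace Pool.Agent.MP_204846_gt

theorem crossings_perm {D D' : Code} (h : D.Perm D') : crossings D = crossings D' := by
  unfold crossings
  exact h.countP_eq _

private theorem CntL_range (g : Code → ℕ) (h0 : g [] = 0)
    (h1 : ∀ D D' : Code, g (D ++ D') = g D + g D') (f : ℕ → Code) (n : ℕ) :
    g ((List.range n).flatMap f) = ∑ i ∈ Finset.range n, g (f i) := by
  induction n with
  | zero => simp [h0]
  | succ n ih =>
    rw [List.range_succ, List.flatMap_append, h1, ih, Finset.sum_range_succ]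
    simp

private theorem CntL_arr (g : Code → ℕ) (h0 : g [] = 0)
    (h1 : ∀ D D' : Code, g (D ++ D') = g D + g D') (A : Arr) (w h : ℕ) :
    g (arrCode A w h) = ∑ y ∈ Finset.range h, ∑ x ∈ Finset.range w, g (cellCode A x y) := by
  unfold arrCode rowCode
  rw [CntL_range g h0 h1]
  apply Finset.sum_congr rfl
  intro y _
  rw [CntL_range g h0 h1]

private theorem CntL_card (A : Arr) (w h : ℕ) (p : Kd → Prop) [DecidablePred p] :
    ((Finset.range w ×ˢ Finset.range h).filter fun q => p (A q.1 q.2)).card =
      ∑ y ∈ Finset.range h, ∑ x ∈ Finset.range w, if p (A x y) then 1 else 0 := by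
  rw [Finset.card_filter, Finset.sum_product_right]

theorem crossings_arr (A : Arr) (w h : ℕ) : crossings (arrCode A w h) = nX A w h := by
  unfold nX
  rw [CntL_arr crossings (by simp [crossings]) (by intro D D'; simp [crossings]),
    CntL_card A w h (fun k => k = .x)]
  apply Finset.sum_congr rfl
  intro y _
  apply Finset.sum_congr rfl
  intro x _
  unfold cellCode
  cases A x y <;> simp [Kd.code, crossings, Node.isX]

/-- a connector has at most two nodes -/
theorem length_arr (A : Arr) (w h : ℕ) :
    (arrCode A w h).length ≤ crossings (arrCode A w h) + 2 * nC A w h := by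
  unfold nC
  rw [CntL_arr crossings (by simp [crossings]) (by intro D D'; simp [crossings]),
    CntL_arr List.length (by simp) (by intro D D'; simp),
    CntL_card A w h (fun k => k.isC = true), Finset.mul_sum, ← Finset.sum_add_distrib]
  apply Finset.sum_le_sum
  intro y _
  rw [Finset.mul_sum, ← Finset.sum_add_distrib]
  apply Finset.sum_le_sum
  intro x _
  unfold cellCode
  cases A x y <;> simp [Kd.code, crossings, Node.isX, Kd.isC]

/-- every label has two ends -/
theorem two_nl_closed {D : Code} (h : Closed D) : 2 * nl D = (ends D).length := by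
  unfold nl
  rw [← List.sum_toFinset_count_eq_length (ends D), mul_comm, ← smul_eq_mul, ← Finset.sum_const]
  apply Finset.sum_congr rfl
  intro a ha
  exact (h a (List.mem_toFinset.1 ha)).symm

end Pool.Agent.MP_204846_gt
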