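import Pool.Agent.Lib_MP_204846_gt.BDefs

/-!
# MP_204846_gt, piece Rank: linear algebra over F_2

`VV = ℕ →₀ ZMod 2`, `ev a b = a + b`, `EE a b` the line spanned by it, `ren f` the linear map of the
renaming `f`. All spaces which occur are finitely generated (`Submodule.FG`); a submodule
`S ≤ supp s` is finite dimensional.
-/

namespace Pool.Agent.MP_204846_gt

open Module

private theorem rank_add_self (v : VV) : v + v = 0 := by
  ext i
  rw [Finsupp.add_apply, Finsupp.zero_apply]
  exact CharTwo.add_self_eq_zero _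

theorem ev_comm (a b : ℕ) : ev a b = ev b a := by
  unfold ev
  exact add_comm _ _

theorem ev_self (a : ℕ) : ev a a = 0 := by
  unfold ev
  exact rank_add_self _

theorem ev_add (a b c : ℕ) : ev a b + ev b c = ev a c := by
  unfold ev
  have h := rank_add_self (Finsupp.single b 1)
  calc Finsupp.single a (1 : ZMod 2) + Finsupp.single b 1 + (Finsupp.single b 1 + Finsupp.single c 1)
      = Finsupp.single a 1 + (Finsupp.single b 1 + Finsupp.single b 1) + Finsupp.single c 1 := by abel
    _ = _ := by rw [h, add_zero]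

theorem EE_comm (a b : ℕ) : EE a b = EE b a := by
  unfold EE
  rw [ev_comm]

theorem EE_self (a : ℕ) : EE a a = ⊥ := by
  unfold EE
  rw [ev_self, Submodule.span_singleton_eq_bot]

theorem ev_mem_EE (a b : ℕ) : ev a b ∈ EE a b := Submodule.mem_span_singleton_self _

theorem EE_le {S : Submodule (ZMod 2) VV} {a b : ℕ} : EE a b ≤ S ↔ ev a b ∈ S := by
  unfold EE
  rw [Submodule.span_singleton_le_iff_mem]

theorem EE_tri (a b c : ℕ) : EE a b ⊔ EE b c = EE a b ⊔ EE a c := by
  apply le_antisymm
  · refine sup_le le_sup_left ?_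
    rw [EE_le, ← ev_add b a c]
    refine add_mem ?_ ?_
    · rw [ev_comm]
      exact (le_sup_left : EE a b ≤ _) (ev_mem_EE a b)
    · exact (le_sup_right : EE a c ≤ _) (ev_mem_EE a c)
  · refine sup_le le_sup_left ?_
    rw [EE_le, ← ev_add a b c]
    exact add_mem ((le_sup_left : EE a b ≤ _) (ev_mem_EE a b))
      ((le_sup_right : EE b c ≤ _) (ev_mem_EE b c))

theorem EE_fg (a b : ℕ) : (EE a b).FG := Submodule.fg_span (Set.finite_singleton _)

theorem ren_ev (f : ℕ → ℕ) (a b : ℕ) : ren f (ev a b) = ev (f a) (f b) := by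
  unfold ren ev
  rw [map_add, Finsupp.lmapDomain_apply, Finsupp.lmapDomain_apply, Finsupp.mapDomain_single,
    Finsupp.mapDomain_single]

theorem map_EE (f : ℕ → ℕ) (a b : ℕ) : (EE a b).map (ren f) = EE (f a) (f b) := by
  unfold EE
  rw [Submodule.map_span, Set.image_singleton, ren_ev]

theorem ev_mem_supp {s : Finset ℕ} {a b : ℕ} (ha : a ∈ s) (hb : b ∈ s) : ev a b ∈ supp s := by
  unfold ev supp
  exact add_mem (Finsupp.single_mem_supported _ _ (Finset.mem_coe.2 ha))
    (Finsupp.single_mem_supported _ _ (Finset.mem_coe.2 hb))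

theorem EE_le_supp {s : Finset ℕ} {a b : ℕ} (ha : a ∈ s) (hb : b ∈ s) : EE a b ≤ supp s :=
  EE_le.2 (ev_mem_supp ha hb)

private theorem rank_fin_supp (s : Finset ℕ) : FiniteDimensional (ZMod 2) (supp s) := by
  unfold supp
  have e := Finsupp.supportedEquivFinsupp (R := ZMod 2) (M := ZMod 2) (s : Set ℕ)
  have : Finite (s : Set ℕ) := s.finite_toSet
  exact Module.Finite.equiv e.symm

private theorem rank_finrank_supp (s : Finset ℕ) : finrank (ZMod 2) (supp s) = s.card := by
  unfold supp
  rw [(Finsupp.supportedEquivFinsupp (R := ZMod 2) (M := ZMod 2) (s : Set ℕ)).finrank_eq]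
  rw [Module.finrank_finsupp_self]
  simp

theorem fg_of_le_supp {S : Submodule (ZMod 2) VV} {s : Finset ℕ} (h : S ≤ supp s) : S.FG := by
  have := rank_fin_supp s
  have h1 : FiniteDimensional (ZMod 2) S := Submodule.finiteDimensional_of_le h
  exact Module.Finite.iff_fg.1 h1

/-- the dimension of a space of chains supported in `s` -/
theorem finrank_le_card {S : Submodule (ZMod 2) VV} {s : Finset ℕ} (h : S ≤ supp s) :
    finrank (ZMod 2) S ≤ s.card := by
  have := rank_fin_supp s
  rw [← rank_finrank_supp s]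
  exact Submodule.finrank_mono h

/-- Adding one line. -/
theorem finrank_sup_EE_le {S : Submodule (ZMod 2) VV} (hS : S.FG) (a b : ℕ) :
    finrank (ZMod 2) ↥(S ⊔ EE a b) ≤ finrank (ZMod 2) S + 1 := by
  have h1 : FiniteDimensional (ZMod 2) S := Module.Finite.iff_fg.2 hS
  have h2 : FiniteDimensional (ZMod 2) (EE a b) := Module.Finite.iff_fg.2 (EE_fg a b)
  refine (Submodule.finrank_add_le_finrank_add_finrank S (EE a b)).trans ?_
  refine Nat.add_le_add_left ?_ _
  unfold EE
  refine (finrank_span_le_card _).trans ?_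
  simp

theorem finrank_le_sup {S S' : Submodule (ZMod 2) VV} (hS : S.FG) (hS' : S'.FG) :
    finrank (ZMod 2) S ≤ finrank (ZMod 2) ↥(S ⊔ S') := by
  have h1 : FiniteDimensional (ZMod 2) S := Module.Finite.iff_fg.2 hS
  have h2 : FiniteDimensional (ZMod 2) S' := Module.Finite.iff_fg.2 hS'
  exact Submodule.finrank_mono le_sup_left

private theorem rank_scalar (c : ZMod 2) : c = 0 ∨ c = 1 := by
  revert c; decide

/-- If `a + b` is not in `S`, the dimension increases. -/
theorem finrank_sup_EE {S : Submodule (ZMod 2) VV} (hS : S.FG) {a b : ℕ} (h : ev a b ∉ S) :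
    finrank (ZMod 2) ↥(S ⊔ EE a b) = finrank (ZMod 2) S + 1 := by
  have h1 : FiniteDimensional (ZMod 2) S := Module.Finite.iff_fg.2 hS
  have h2 : FiniteDimensional (ZMod 2) (EE a b) := Module.Finite.iff_fg.2 (EE_fg a b)
  have h3 := Submodule.finrank_sup_add_finrank_inf_eq S (EE a b)
  have h4 : S ⊓ EE a b = ⊥ := by
    rw [eq_bot_iff]
    intro v hv
    obtain ⟨hv1, hv2⟩ := Submodule.mem_inf.1 hv
    obtain ⟨c, hc⟩ := Submodule.mem_span_singleton.1 hv2
    rcases rank_scalar c with h0 | h0
    · rw [h0, zero_smul] at hc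
      rw [← hc]
      exact zero_mem _
    · rw [h0, one_smul] at hc
      rw [← hc] at hv1
      exact absurd hv1 h
  rw [h4, finrank_bot, add_zero] at h3
  rw [h3]
  congr 1
  unfold EE
  refine finrank_span_singleton ?_
  intro h5
  rw [h5] at h
  exact h (zero_mem _)

/-- `a` does not occur in `S`. -/
theorem finrank_fresh {S : Submodule (ZMod 2) VV} (hS : S.FG) {a b : ℕ} (hab : a ≠ b)
    (h : ∀ v ∈ S, v a = 0) :
    finrank (ZMod 2) ↥(S ⊔ EE a b) = finrank (ZMod 2) S + 1 := by
  refine finrank_sup_EE hS fun h1 => ?_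
  have h2 := h _ h1
  unfold ev at h2
  rw [Finsupp.add_apply, Finsupp.single_eq_same, Finsupp.single_eq_of_ne hab, add_zero] at h2
  exact one_ne_zero h2

/-- The kernel of the renaming of `b` to `a` is the line `EE a b`. -/
theorem ker_ren_rn {a b : ℕ} (hab : a ≠ b) : LinearMap.ker (ren (rn a b)) = EE a b := by
  have hab' : ren (rn a b) (ev a b) = 0 := by
    rw [ren_ev]
    unfold rn
    rw [if_neg hab, if_pos rfl, ev_self]
  apply le_antisymm
  · intro v hv
    rw [LinearMap.mem_ker] at hv
    set w := v - v b • ev a b with hw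
    have h1 : ren (rn a b) w = 0 := by
      rw [hw, map_sub, map_smul, hab', smul_zero, hv, sub_zero]
    have h2 : w b = 0 := by
      rw [hw, Finsupp.sub_apply, Finsupp.smul_apply]
      unfold ev
      rw [Finsupp.add_apply, Finsupp.single_eq_same, Finsupp.single_eq_of_ne (Ne.symm hab), zero_add,
        smul_eq_mul, mul_one, sub_self]
    have h3 : ren (rn a b) w = w := by
      unfold ren
      rw [Finsupp.lmapDomain_apply]
      have : Finsupp.mapDomain (rn a b) w = Finsupp.mapDomain id w := by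
        refine Finsupp.mapDomain_congr fun x hx => ?_
        unfold rn
        rw [if_neg]
        · rfl
        · rintro rfl
          exact (Finsupp.mem_support_iff.1 hx) h2
      rw [this, Finsupp.mapDomain_id]
    rw [h3] at h1
    have h4 : v = v b • ev a b := sub_eq_zero.1 (hw.symm.trans h1)
    rw [h4]
    exact Submodule.smul_mem _ _ (ev_mem_EE a b)
  · rw [EE_le, LinearMap.mem_ker, hab']

/-- Contracting the pair `a, b`: `ren (rn a b)` has the kernel `EE a b`. -/
theorem finrank_point {S : Submodule (ZMod 2) VV} (hS : S.FG) {a b : ℕ} (hab : a ≠ b) :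
    finrank (ZMod 2) ↥(S ⊔ EE a b) = finrank (ZMod 2) ↥(S.map (ren (rn a b))) + 1 := by
  have h1 : FiniteDimensional (ZMod 2) S := Module.Finite.iff_fg.2 hS
  have h2 : FiniteDimensional (ZMod 2) (EE a b) := Module.Finite.iff_fg.2 (EE_fg a b)
  have h3 := LinearMap.finrank_range_add_finrank_ker (K := ZMod 2) (V := ↥(S ⊔ EE a b)) (V₂ := VV)
    ((ren (rn a b)).domRestrict (S ⊔ EE a b))
  rw [LinearMap.range_domRestrict, LinearMap.ker_domRestrict, ker_ren_rn hab, Submodule.map_sup] at h3
  have h4 : (EE a b).map (ren (rn a b)) = ⊥ := by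
    rw [map_EE]
    unfold rn
    rw [if_neg hab, if_pos rfl, EE_self]
  rw [h4, sup_bot_eq] at h3
  rw [← h3]
  congr 1
  rw [LinearEquiv.finrank_eq (Submodule.comapSubtypeEquivOfLe (le_sup_right : EE a b ≤ S ⊔ EE a b))]
  unfold EE
  refine finrank_span_singleton ?_
  intro h5
  have h6 : (ev a b) a = 0 := by rw [h5]; rfl
  unfold ev at h6
  rw [Finsupp.add_apply, Finsupp.single_eq_same, Finsupp.single_eq_of_ne hab, add_zero] at h6
  exact one_ne_zero h6

/-- Renaming by a map which is injective on the support. -/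
theorem finrank_label {S : Submodule (ZMod 2) VV} {s : Finset ℕ} (hS : S ≤ supp s) {f : ℕ → ℕ}
    (hf : Set.InjOn f s) :
    finrank (ZMod 2) ↥(S.map (ren f)) = finrank (ZMod 2) S := by
  have h1 : Function.Injective ((ren f).domRestrict S) := by
    rintro ⟨v, hv⟩ ⟨w, hw⟩ h
    have h2 := Finsupp.mapDomain_injOn (M := ZMod 2) (s : Set ℕ) hf
    have h3 : v = w := by
      refine h2 ?_ ?_ ?_
      · exact (Finsupp.mem_supported _ _).1 (hS hv)
      · exact (Finsupp.mem_supported _ _).1 (hS hw)
      · exact h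
    exact Subtype.ext h3
  rw [← LinearMap.range_domRestrict, LinearMap.finrank_range_of_inj h1]

/-- A coloring which is constant on the pairs detects that `a + b` is not in the span. -/
theorem ev_notMem {S : Submodule (ZMod 2) VV} (φ : VV →ₗ[ZMod 2] ZMod 2) (hS : ∀ v ∈ S, φ v = 0)
    {a b : ℕ} (h : φ (ev a b) ≠ 0) : ev a b ∉ S := fun h1 => h (hS _ h1)

/-- the functional of a coloring -/
noncomputable def fnl (f : ℕ → Bool) : VV →ₗ[ZMod 2] ZMod 2 :=
  Finsupp.lsum (ZMod 2) fun a => (if f a then (1 : ZMod 2) else 0) • LinearMap.id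

theorem fnl_ev (f : ℕ → Bool) (a b : ℕ) : fnl f (ev a b) = 0 ↔ f a = f b := by
  unfold fnl ev
  rw [map_add, Finsupp.lsum_single, Finsupp.lsum_single]
  simp only [LinearMap.smul_apply, LinearMap.id_apply, smul_eq_mul, mul_one]
  cases f a <;> cases f b <;> decide

end Pool.Agent.MP_204846_gt
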