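import Pool.Agent.Lib_MP_204846_gt.SmL
import Pool.Agent.Lib_MP_204846_gt.Rank

/-!
# MP_204846_gt, piece GoodMap: `GoodCode` and renaming of the labels
-/

namespace Pool.Agent.MP_204846_gt

theorem Sm_map {D : Code} {A B : Submodule (ZMod 2) VV} (h : Sm D A B) (f : ℕ → ℕ) :
    Sm (D.map (Node.map f)) (A.map (ren f)) (B.map (ren f)) := by
  induction h with
  | nil =>
    rw [Submodule.map_bot]
    exact Sm.nil
  | P a b _ ih =>
    rw [Submodule.map_sup, Submodule.map_sup, map_EE]
    exact Sm.P (f a) (f b) ih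
  | X1 a b c d _ ih =>
    rw [Submodule.map_sup, Submodule.map_sup, Submodule.map_sup, Submodule.map_sup, map_EE, map_EE,
      map_EE, map_EE]
    exact Sm.X1 (f a) (f b) (f c) (f d) ih
  | X2 a b c d _ ih =>
    rw [Submodule.map_sup, Submodule.map_sup, Submodule.map_sup, Submodule.map_sup, map_EE, map_EE,
      map_EE, map_EE]
    exact Sm.X2 (f a) (f b) (f c) (f d) ih

private theorem gm_ends_X (a b c d : ℕ) (D : Code) :
    ends (.X a b c d :: D) = a :: b :: c :: d :: ends D := rfl

private theorem gm_ends_P (a b : ℕ) (D : Code) : ends (.P a b :: D) = a :: b :: ends D := rfl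

private theorem gm_supp_mono {s t : Finset ℕ} (h : s ⊆ t) : supp s ≤ supp t :=
  Finsupp.supported_mono (by exact_mod_cast h)

theorem Sm_le {D : Code} {A B : Submodule (ZMod 2) VV} (h : Sm D A B) :
    A ≤ supp (ends D).toFinset ∧ B ≤ supp (ends D).toFinset := by
  induction h with
  | nil => exact ⟨bot_le, bot_le⟩
  | @P D A B a b _ ih =>
    have hm : supp (ends D).toFinset ≤ supp (ends (.P a b :: D)).toFinset := by
      apply gm_supp_mono
      rw [gm_ends_P]
      intro x hx
      simp only [List.mem_toFinset, List.mem_cons] at hx ⊢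
      tauto
    have ha : a ∈ (ends (.P a b :: D)).toFinset := by rw [gm_ends_P]; simp
    have hb : b ∈ (ends (.P a b :: D)).toFinset := by rw [gm_ends_P]; simp
    exact ⟨sup_le (EE_le_supp ha hb) (ih.1.trans hm), sup_le (EE_le_supp ha hb) (ih.2.trans hm)⟩
  | @X1 D A B a b c d _ ih =>
    have hm : supp (ends D).toFinset ≤ supp (ends (.X a b c d :: D)).toFinset := by
      apply gm_supp_mono
      rw [gm_ends_X]
      intro x hx
      simp only [List.mem_toFinset, List.mem_cons] at hx ⊢
      tauto
    have ha : a ∈ (ends (.X a b c d :: D)).toFinset := by rw [gm_ends_X]; simp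
    have hb : b ∈ (ends (.X a b c d :: D)).toFinset := by rw [gm_ends_X]; simp
    have hc : c ∈ (ends (.X a b c d :: D)).toFinset := by rw [gm_ends_X]; simp
    have hd : d ∈ (ends (.X a b c d :: D)).toFinset := by rw [gm_ends_X]; simp
    exact ⟨sup_le (sup_le (EE_le_supp ha hb) (EE_le_supp hc hd)) (ih.1.trans hm),
      sup_le (sup_le (EE_le_supp hb hc) (EE_le_supp hd ha)) (ih.2.trans hm)⟩
  | @X2 D A B a b c d _ ih =>
    have hm : supp (ends D).toFinset ≤ supp (ends (.X a b c d :: D)).toFinset := by
      apply gm_supp_mono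
      rw [gm_ends_X]
      intro x hx
      simp only [List.mem_toFinset, List.mem_cons] at hx ⊢
      tauto
    have ha : a ∈ (ends (.X a b c d :: D)).toFinset := by rw [gm_ends_X]; simp
    have hb : b ∈ (ends (.X a b c d :: D)).toFinset := by rw [gm_ends_X]; simp
    have hc : c ∈ (ends (.X a b c d :: D)).toFinset := by rw [gm_ends_X]; simp
    have hd : d ∈ (ends (.X a b c d :: D)).toFinset := by rw [gm_ends_X]; simp
    exact ⟨sup_le (sup_le (EE_le_supp hb hc) (EE_le_supp hd ha)) (ih.1.trans hm),
      sup_le (sup_le (EE_le_supp ha hb) (EE_le_supp hc hd)) (ih.2.trans hm)⟩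

private theorem gm_ends_map (f : ℕ → ℕ) (D : Code) :
    ends (D.map (Node.map f)) = (ends D).map f := by
  induction D with
  | nil => rfl
  | cons N D ih =>
    cases N with
    | X a b c d =>
      show ends (.X (f a) (f b) (f c) (f d) :: D.map (Node.map f)) = _
      rw [gm_ends_X, gm_ends_X, ih]; rfl
    | P a b =>
      show ends (.P (f a) (f b) :: D.map (Node.map f)) = _
      rw [gm_ends_P, gm_ends_P, ih]; rfl

private theorem gm_count {f : ℕ → ℕ} (l : List ℕ) {s : Set ℕ} (hf : Set.InjOn f s)
    (hl : ∀ x ∈ l, x ∈ s) {a : ℕ} (ha : a ∈ s) : (l.map f).count (f a) = l.count a := by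
  induction l with
  | nil => rfl
  | cons x l ih =>
    rw [List.map_cons, List.count_cons, List.count_cons, ih fun y hy => hl y (List.mem_cons_of_mem _ hy)]
    have hx : x ∈ s := hl x (List.mem_cons_self ..)
    by_cases h : x = a
    · subst h; simp
    · have h' : f x ≠ f a := fun h2 => h (hf hx ha h2)
      simp [h, h']

private theorem gm_thru {f : ℕ → ℕ} {N : Node} {u v : ℕ} (h : N.Thru u v) :
    (N.map f).Thru (f u) (f v) := by
  cases N with
  | X a b c d =>
    rcases h with ⟨rfl, rfl⟩ | ⟨rfl, rfl⟩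
    · exact Or.inl ⟨rfl, rfl⟩
    · exact Or.inr ⟨rfl, rfl⟩
  | P a b =>
    obtain ⟨rfl, rfl⟩ := h
    exact ⟨rfl, rfl⟩

private theorem gm_ends_node (f : ℕ → ℕ) (N : Node) : (N.map f).ends = N.ends.map f := by
  cases N <;> rfl

/-- Nug: a coloring `g` of the new labels gives the coloring `g ∘ f`. -/
theorem good_map {D : Code} {f : ℕ → ℕ} (hf : Set.InjOn f {a | a ∈ ends D}) (hG : GoodCode D) :
    GoodCode (D.map (Node.map f)) := by
  refine ⟨?_, ?_, ?_, ?_⟩
  · -- closed
    intro a ha
    rw [gm_ends_map] at ha ⊢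
    obtain ⟨b, hb, rfl⟩ := List.mem_map.1 ha
    rw [gm_count (ends D) hf (fun x hx => hx) hb]
    exact hG.closed b hb
  · -- one component
    refine ⟨?_, ?_⟩
    · intro h
      exact hG.oneComp.1 (List.map_eq_nil_iff.1 h)
    · intro u hu v hv
      rw [gm_ends_map] at hu hv
      obtain ⟨u', hu', rfl⟩ := List.mem_map.1 hu
      obtain ⟨v', hv', rfl⟩ := List.mem_map.1 hv
      have h := hG.oneComp.2 u' hu' v' hv'
      clear hu hv hu' hv'
      induction h with
      | rel x y hxy =>
        obtain ⟨N, hN, hT⟩ := hxy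
        exact Relation.EqvGen.rel _ _ ⟨N.map f, List.mem_map_of_mem hN, gm_thru hT⟩
      | refl x => exact Relation.EqvGen.refl _
      | symm x y _ ih => exact Relation.EqvGen.symm _ _ ih
      | trans x y z _ _ ih1 ih2 => exact Relation.EqvGen.trans _ _ _ ih1 ih2
  · -- nugatory
    rintro ⟨l₁, l₂, a, b, c, d, g, hD, hg, hc⟩
    apply hG.nug
    obtain ⟨k₁, k₂', hk, hk1, hk2⟩ := List.map_eq_append_iff.1 hD
    obtain ⟨N, k₂, hk3, hN, hk4⟩ := List.map_eq_cons_iff.1 hk2
    subst hk3 hk hk1 hk4
    cases N with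
    | P a' b' => exact absurd hN (by simp [Node.map])
    | X a' b' c' d' =>
      have hN' : Node.X (f a') (f b') (f c') (f d') = Node.X a b c d := hN
      injection hN' with h1 h2 h3 h4
      subst h1 h2 h3 h4
      refine ⟨k₁, k₂, a', b', c', d', g ∘ f, rfl, ?_, hc⟩
      intro N hN u hu v hv
      refine hg (N.map f) ?_ (f u) ?_ (f v) ?_
      · rw [← List.map_append]
        exact List.mem_map_of_mem hN
      · rw [gm_ends_node]; exact List.mem_map_of_mem hu
      · rw [gm_ends_node]; exact List.mem_map_of_mem hv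
  · -- states
    obtain ⟨A, B, hS, h⟩ := hG.fin5
    have hf' : Set.InjOn f ((ends D).toFinset : Set ℕ) := by
      intro x hx y hy hxy
      exact hf (by simpa using hx) (by simpa using hy) hxy
    have hn : nl (D.map (Node.map f)) = nl D := by
      unfold nl
      rw [gm_ends_map]
      have : ((ends D).map f).toFinset = (ends D).toFinset.image f := by
        ext x; simp
      rw [this, Finset.card_image_of_injOn hf']
    refine ⟨A.map (ren f), B.map (ren f), Sm_map hS f, ?_⟩
    rw [hn, finrank_label (Sm_le hS).1 hf', finrank_label (Sm_le hS).2 hf']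
    exact h

end Pool.Agent.MP_204846_gt
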