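import Pool.Agent.Lib_MP_204846_gt.GoodRel
import Pool.Agent.Lib_MP_204846_gt.GoodMap
import Pool.Agent.Lib_MP_204846_gt.CntL
import Pool.Agent.Lib_MP_204846_gt.ArrL

/-!
# MP_204846_gt, piece ArrSum: the code of an array as a sum of multisets, transfer of arrays
-/

namespace Pool.Agent.MP_204846_gt

private theorem ArrSum_fm (n : ℕ) (g : ℕ → Code) :
    (((List.range n).flatMap g : Code) : Multiset Node) =
      ∑ i ∈ Finset.range n, (g i : Multiset Node) := by
  induction n with
  | zero => simp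
  | succ n ih =>
    rw [List.range_succ, List.flatMap_append, Finset.sum_range_succ, ← ih,
      ← Multiset.coe_add]
    simp

theorem arrCode_coe (A : Arr) (w h : ℕ) :
    (arrCode A w h : Multiset Node) =
      ∑ c ∈ Finset.range w ×ˢ Finset.range h, (cellCode A c.1 c.2 : Multiset Node) := by
  unfold arrCode
  rw [ArrSum_fm, Finset.sum_product_right]
  refine Finset.sum_congr rfl fun y _ => ?_
  unfold rowCode
  rw [ArrSum_fm]

theorem rel_sum {ι : Type*} (s : Finset ι) {F G : ι → Multiset Node}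
    (h : ∀ c ∈ s, Multiset.Rel DEq (F c) (G c)) :
    Multiset.Rel DEq (∑ c ∈ s, F c) (∑ c ∈ s, G c) := by
  classical
  induction s using Finset.induction_on with
  | empty => simp
  | insert a s ha ih =>
    rw [Finset.sum_insert ha, Finset.sum_insert ha]
    exact Multiset.Rel.add (h a (Finset.mem_insert_self a s))
      (ih fun c hc => h c (Finset.mem_insert_of_mem hc))

private theorem ArrSum_blank {A : Arr} {x y : ℕ} (h : A x y = .bl) :
    (cellCode A x y : Multiset Node) = 0 := by
  unfold cellCode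
  rw [h]
  rfl

private theorem ArrSum_isC {k k' : Kd} (h : k ≠ .bl) (h' : k' ≠ .bl) (hC : k'.isC = k.isC) :
    k' = .x ↔ k = .x := by
  cases k <;> cases k' <;> simp_all [Kd.isC]

private theorem ArrSum_isC_ne {k : Kd} (h : k.isC = true) : k ≠ .bl := by
  rintro rfl
  simp [Kd.isC] at h

/-- The nonblank cells of `A` correspond to the nonblank cells of `A'` by `φ`, with inverse `ψ`; `f` is
the map of the labels; the nodes are rotated or reflected. (Use `arrCode_coe`, `Finset.sum_subset` to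
restrict the sums to the nonblank cells, and `Finset.sum_nbij'`; for `nX`, `nC` use
`Finset.card_nbij'`.) -/
theorem good_transfer {A A' : Arr} {w h w' h' : ℕ} (hG : GoodArr A w h) (φ ψ : ℕ × ℕ → ℕ × ℕ)
    (f : ℕ → ℕ) (hf : Set.InjOn f {a | a ∈ ends (arrCode A w h)})
    (h₁ : ∀ x y, x < w → y < h → A x y ≠ .bl → (φ (x, y)).1 < w' ∧ (φ (x, y)).2 < h' ∧
      A' (φ (x, y)).1 (φ (x, y)).2 ≠ .bl ∧ ψ (φ (x, y)) = (x, y) ∧
      (A' (φ (x, y)).1 (φ (x, y)).2).isC = (A x y).isC ∧
      Multiset.Rel DEq (((cellCode A x y).map (Node.map f) : Code) : Multiset Node)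
        (cellCode A' (φ (x, y)).1 (φ (x, y)).2 : Multiset Node))
    (h₂ : ∀ x y, x < w' → y < h' → A' x y ≠ .bl → (ψ (x, y)).1 < w ∧ (ψ (x, y)).2 < h ∧
      A (ψ (x, y)).1 (ψ (x, y)).2 ≠ .bl ∧ φ (ψ (x, y)) = (x, y)) :
    GoodArr A' w' h' := by
  classical
  have hkey : ∀ p : Kd → Prop, (∀ k, p k → k ≠ .bl) →
      (∀ k k' : Kd, k ≠ .bl → k' ≠ .bl → k'.isC = k.isC → (p k' ↔ p k)) →
      ((Finset.range w' ×ˢ Finset.range h').filter fun c => p (A' c.1 c.2)).card =
        ((Finset.range w ×ˢ Finset.range h).filter fun c => p (A c.1 c.2)).card := by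
    intro p hp hpp
    symm
    apply Finset.card_nbij' φ ψ
    · rintro ⟨x, y⟩ hc
      simp only [Finset.coe_filter, Finset.mem_product, Finset.mem_range, Set.mem_ofPred_eq] at hc
      obtain ⟨⟨hx, hy⟩, hc⟩ := hc
      obtain ⟨g1, g2, g3, g4, g5, g6⟩ := h₁ x y hx hy (hp _ hc)
      simp only [Finset.coe_filter, Finset.mem_product, Finset.mem_range, Set.mem_ofPred_eq]
      exact ⟨⟨g1, g2⟩, (hpp _ _ (hp _ hc) g3 g5).mpr hc⟩
    · rintro ⟨x, y⟩ hc
      simp only [Finset.coe_filter, Finset.mem_product, Finset.mem_range, Set.mem_ofPred_eq] at hc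
      obtain ⟨⟨hx, hy⟩, hc⟩ := hc
      obtain ⟨g1, g2, g3, g4⟩ := h₂ x y hx hy (hp _ hc)
      obtain ⟨k1, k2, k3, k4, k5, k6⟩ := h₁ _ _ g1 g2 g3
      simp only [Finset.coe_filter, Finset.mem_product, Finset.mem_range, Set.mem_ofPred_eq]
      refine ⟨⟨g1, g2⟩, ?_⟩
      have k5' : (A' x y).isC = (A (ψ (x, y)).1 (ψ (x, y)).2).isC := by
        rw [← k5, Prod.mk.eta, g4]
      exact (hpp _ _ g3 (hp _ hc) k5').mp hc
    · rintro ⟨x, y⟩ hc
      simp only [Finset.coe_filter, Finset.mem_product, Finset.mem_range, Set.mem_ofPred_eq] at hc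
      obtain ⟨⟨hx, hy⟩, hc⟩ := hc
      exact (h₁ x y hx hy (hp _ hc)).2.2.2.1
    · rintro ⟨x, y⟩ hc
      simp only [Finset.coe_filter, Finset.mem_product, Finset.mem_range, Set.mem_ofPred_eq] at hc
      obtain ⟨⟨hx, hy⟩, hc⟩ := hc
      exact (h₂ x y hx hy (hp _ hc)).2.2.2
  refine ⟨?_, ?_, ?_⟩
  · have hg := good_map hf hG.good
    refine good_rel ?_ hg
    have e1 : (((arrCode A w h).map (Node.map f) : Code) : Multiset Node) =
        ∑ c ∈ (Finset.range w ×ˢ Finset.range h).filter (fun c => A c.1 c.2 ≠ .bl),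
          (((cellCode A c.1 c.2).map (Node.map f) : Code) : Multiset Node) := by
      rw [← Multiset.map_coe, arrCode_coe, ← Multiset.coe_mapAddMonoidHom, map_sum]
      symm
      apply Finset.sum_subset (Finset.filter_subset _ _)
      intro c hc hc'
      rw [Finset.mem_filter, not_and] at hc'
      have hb : A c.1 c.2 = .bl := not_not.mp (hc' hc)
      have h0 : cellCode A c.1 c.2 = [] := by
        have := ArrSum_blank hb
        simpa using this
      rw [h0]
      rfl
    have e2 : (arrCode A' w' h' : Multiset Node) =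
        ∑ c ∈ (Finset.range w ×ˢ Finset.range h).filter (fun c => A c.1 c.2 ≠ .bl),
          (cellCode A' (φ c).1 (φ c).2 : Multiset Node) := by
      rw [arrCode_coe]
      have e3 : ∑ c ∈ Finset.range w' ×ˢ Finset.range h', (cellCode A' c.1 c.2 : Multiset Node) =
          ∑ c ∈ (Finset.range w' ×ˢ Finset.range h').filter (fun c => A' c.1 c.2 ≠ .bl),
            (cellCode A' c.1 c.2 : Multiset Node) := by
        symm
        apply Finset.sum_subset (Finset.filter_subset _ _)
        intro c hc hc'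
        rw [Finset.mem_filter, not_and] at hc'
        exact ArrSum_blank (not_not.mp (hc' hc))
      rw [e3]
      symm
      apply Finset.sum_nbij' φ ψ
      · rintro ⟨x, y⟩ hc
        simp only [Finset.mem_filter, Finset.mem_product, Finset.mem_range] at hc ⊢
        obtain ⟨⟨hx, hy⟩, hc⟩ := hc
        obtain ⟨g1, g2, g3, g4, g5, g6⟩ := h₁ x y hx hy hc
        exact ⟨⟨g1, g2⟩, g3⟩
      · rintro ⟨x, y⟩ hc
        simp only [Finset.mem_filter, Finset.mem_product, Finset.mem_range] at hc ⊢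
        obtain ⟨⟨hx, hy⟩, hc⟩ := hc
        obtain ⟨g1, g2, g3, g4⟩ := h₂ x y hx hy hc
        exact ⟨⟨g1, g2⟩, g3⟩
      · rintro ⟨x, y⟩ hc
        simp only [Finset.mem_filter, Finset.mem_product, Finset.mem_range] at hc
        obtain ⟨⟨hx, hy⟩, hc⟩ := hc
        exact (h₁ x y hx hy hc).2.2.2.1
      · rintro ⟨x, y⟩ hc
        simp only [Finset.mem_filter, Finset.mem_product, Finset.mem_range] at hc
        obtain ⟨⟨hx, hy⟩, hc⟩ := hc
        exact (h₂ x y hx hy hc).2.2.2
      · intro c _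
        rfl
    rw [e1, e2]
    apply rel_sum
    rintro ⟨x, y⟩ hc
    simp only [Finset.mem_filter, Finset.mem_product, Finset.mem_range] at hc
    obtain ⟨⟨hx, hy⟩, hc⟩ := hc
    exact (h₁ x y hx hy hc).2.2.2.2.2
  · have h1 := hkey (fun k => k = .x) (by rintro k rfl; simp) (fun k k' h h' hC => ArrSum_isC h h' hC)
    have h2 := hG.nX
    unfold nX at h2 ⊢
    rw [← h2]
    convert h1
  · have h1 := hkey (fun k => k.isC = true) (fun k hk => ArrSum_isC_ne hk)
      (fun k k' h h' hC => by rw [hC])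
    have h2 := hG.nC
    unfold nC at h2 ⊢
    refine le_trans (le_of_eq ?_) h2
    convert h1

end Pool.Agent.MP_204846_gt
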