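import Pool.Agent.Lib_MP_204846_gt.Defs

/-!
# MP_204846_gt: definitions for the proof (bracket, states, searched codes)
-/

namespace Pool.Agent.MP_204846_gt

open LaurentPolynomial

/-- chains of edges mod 2 -/
abbrev VV := ℕ →₀ ZMod 2

/-- the vector `a + b` -/
noncomputable def ev (a b : ℕ) : VV := Finsupp.single a 1 + Finsupp.single b 1

/-- the line spanned by `a + b` -/
noncomputable def EE (a b : ℕ) : Submodule (ZMod 2) VV := Submodule.span (ZMod 2) {ev a b}

/-- the subspace of chains supported in `s` -/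
noncomputable def supp (s : Finset ℕ) : Submodule (ZMod 2) VV := Finsupp.supported (ZMod 2) (ZMod 2) (s : Set ℕ)

/-- the number of labels -/
def nl (D : Code) : ℕ := (ends D).toFinset.card

/-- the linear map of a renaming -/
noncomputable def ren (f : ℕ → ℕ) : VV →ₗ[ZMod 2] VV := Finsupp.lmapDomain (ZMod 2) (ZMod 2) f

/-- the map which renames `b` to `a` -/
def rn (a b : ℕ) : ℕ → ℕ := fun v => if v = b then a else v

/-- the value of a closed curve -/
noncomputable def δ : ℤ[T;T⁻¹] := -T 2 - T (-2)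

/-- The Kauffman bracket of a code with `n` labels, `S` is spanned by the pairs of edges which are
already joined. (The bracket of the unknot is `δ`.) -/
noncomputable def br (n : ℕ) : Code → Submodule (ZMod 2) VV → ℤ[T;T⁻¹]
  | [], S => δ ^ (n - Module.finrank (ZMod 2) S)
  | .X a b c d :: D, S => T 1 * br n D (S ⊔ EE a b ⊔ EE c d) + T (-1) * br n D (S ⊔ EE b c ⊔ EE d a)
  | .P a b :: D, S => br n D (S ⊔ EE a b)

/-- the bracket -/
noncomputable def bracket (D : Code) : ℤ[T;T⁻¹] := br (nl D) D ⊥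

/-- equality up to a unit `± T^{3k}` -/
def Same (p q : ℤ[T;T⁻¹]) : Prop := ∃ k : ℤ, p = T (3 * k) * q ∨ p = -(T (3 * k) * q)

/-- all exponents of `p` lie between `lo` and `hi` -/
def Bd (p : ℤ[T;T⁻¹]) (lo hi : ℤ) : Prop := ∀ e, p.coeff e ≠ 0 → lo ≤ e ∧ e ≤ hi

/-- the span of the pairs joined in the state where all crossings are smoothed in the first way -/
noncomputable def spA : Code → Submodule (ZMod 2) VV
  | [] => ⊥
  | .X a b c d :: D => EE a b ⊔ EE c d ⊔ spA D
  | .P a b :: D => EE a b ⊔ spA D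

/-- the same for the second way -/
noncomputable def spB : Code → Submodule (ZMod 2) VV
  | [] => ⊥
  | .X a b c d :: D => EE b c ⊔ EE d a ⊔ spB D
  | .P a b :: D => EE a b ⊔ spB D

/-- the number of circles of the two extreme states -/
noncomputable def cA (D : Code) : ℤ := nl D - Module.finrank (ZMod 2) (spA D)
noncomputable def cB (D : Code) : ℤ := nl D - Module.finrank (ZMod 2) (spB D)

/-- There is a crossing `X a b c d` such that the other nodes do not connect the pair `a, b` to the
pair `c, d` (or `b, c` to `d, a`). -/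
def Nug (D : Code) : Prop :=
  ∃ (l₁ l₂ : Code) (a b c d : ℕ) (f : ℕ → Bool), D = l₁ ++ .X a b c d :: l₂ ∧
    (∀ N ∈ l₁ ++ l₂, ∀ u ∈ N.ends, ∀ v ∈ N.ends, f u = f v) ∧
    ((f a = f b ∧ f c = f d ∧ f a ≠ f c) ∨ (f b = f c ∧ f d = f a ∧ f a ≠ f b))

/-- Opposite states: at every crossing one smoothing is used in the first space, the other one in the
second space. -/
inductive Sm : Code → Submodule (ZMod 2) VV → Submodule (ZMod 2) VV → Prop
  | nil : Sm [] ⊥ ⊥
  | P {D : Code} {A B : Submodule (ZMod 2) VV} (a b : ℕ) : Sm D A B →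
      Sm (.P a b :: D) (EE a b ⊔ A) (EE a b ⊔ B)
  | X1 {D : Code} {A B : Submodule (ZMod 2) VV} (a b c d : ℕ) : Sm D A B →
      Sm (.X a b c d :: D) (EE a b ⊔ EE c d ⊔ A) (EE b c ⊔ EE d a ⊔ B)
  | X2 {D : Code} {A B : Submodule (ZMod 2) VV} (a b c d : ℕ) : Sm D A B →
      Sm (.X a b c d :: D) (EE b c ⊔ EE d a ⊔ A) (EE a b ⊔ EE c d ⊔ B)

/-- There are opposite states with `5` and `5`, or `2` and `8` circles. -/
def Fin5 (D : Code) : Prop :=
  ∃ A B, Sm D A B ∧
    ((nl D = Module.finrank (ZMod 2) A + 5 ∧ nl D = Module.finrank (ZMod 2) B + 5) ∨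
     (nl D = Module.finrank (ZMod 2) A + 2 ∧ nl D = Module.finrank (ZMod 2) B + 8) ∨
     (nl D = Module.finrank (ZMod 2) A + 8 ∧ nl D = Module.finrank (ZMod 2) B + 2))

/-- the conditions on the codes which are searched -/
structure GoodCode (D : Code) : Prop where
  closed : Closed D
  oneComp : OneComp D
  nug : ¬ Nug D
  fin5 : Fin5 D

/-- the same node up to rotation and reflection -/
inductive DEq : Node → Node → Prop
  | rfl (N : Node) : DEq N N
  | rot {N : Node} {a b c d : ℕ} : DEq N (.X a b c d) → DEq N (.X b c d a)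
  | refl {N : Node} {a b c d : ℕ} : DEq N (.X a b c d) → DEq N (.X d c b a)
  | swap {N : Node} {a b : ℕ} : DEq N (.P a b) → DEq N (.P b a)

end Pool.Agent.MP_204846_gt
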