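import Pool.Agent.Lib_MP_204846_gt.Trans

/-!
# MP_204846_gt, piece Box: blank rows and columns
-/

namespace Pool.Agent.MP_204846_gt

/-- the row `y` contains a nonblank tile -/
def RowN (A : Arr) (w y : ℕ) : Prop := ∃ x < w, A x y ≠ .bl

def ColN (A : Arr) (h x : ℕ) : Prop := ∃ y < h, A x y ≠ .bl

private theorem box_mem_arrCode {A : Arr} {w h : ℕ} {N : Node} :
    N ∈ arrCode A w h ↔ ∃ y < h, ∃ x < w, N ∈ cellCode A x y := by
  unfold arrCode rowCode
  simp only [List.mem_flatMap, List.mem_range]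

private theorem box_mem_ends {D : Code} {v : ℕ} : v ∈ ends D ↔ ∃ N ∈ D, v ∈ N.ends := by
  unfold ends
  simp only [List.mem_flatMap]

private theorem box_ends_sub (k : Kd) (bl br tr tl : ℕ) {N : Node} (hN : N ∈ k.code bl br tr tl)
    {v : ℕ} (hv : v ∈ N.ends) : v = bl ∨ v = br ∨ v = tr ∨ v = tl := by
  cases k <;> simp only [Kd.code, List.mem_cons, List.not_mem_nil, or_false] at hN
  all_goals first
    | (rcases hN with rfl | rfl <;> simp only [Node.ends, List.mem_cons, List.not_mem_nil, or_false] at hv <;> tauto)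
    | (subst hN; simp only [Node.ends, List.mem_cons, List.not_mem_nil, or_false] at hv; tauto)

private theorem box_nonblank_node (k : Kd) (hk : k ≠ .bl) (bl br tr tl : ℕ) :
    ∃ N ∈ k.code bl br tr tl, ∃ v, v ∈ N.ends := by
  cases k
  · exact absurd rfl hk
  all_goals exact ⟨_, List.mem_cons_self, _, List.mem_cons_self⟩

theorem exists_nonblank {A : Arr} {w h : ℕ} (hG : GoodArr A w h) :
    ∃ x y, x < w ∧ y < h ∧ A x y ≠ .bl := by
  have h8 := hG.nX
  unfold nX at h8
  have hne : ((Finset.range w ×ˢ Finset.range h).filter fun p => A p.1 p.2 = .x).Nonempty := by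
    rw [← Finset.card_pos]; omega
  obtain ⟨p, hp⟩ := hne
  rw [Finset.mem_filter, Finset.mem_product, Finset.mem_range, Finset.mem_range] at hp
  refine ⟨p.1, p.2, hp.1.1, hp.1.2, ?_⟩
  rw [hp.2]
  decide

private theorem box_unpair (x y : ℕ) : (Nat.unpair (vert x y)).2 = y := by
  unfold vert
  rw [Nat.unpair_pair]

/-- A blank row between two nonblank rows separates the diagram: the coloring
`fun v => decide ((Nat.unpair v).2 ≤ y₁)` is constant at all nodes. -/
theorem row_between {A : Arr} {w h : ℕ} (hG : GoodArr A w h) {y₀ y₁ y₂ : ℕ} (h₀ : RowN A w y₀)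
    (h₂ : RowN A w y₂) (h01 : y₀ < y₁) (h12 : y₁ < y₂) (hy₂ : y₂ < h) : RowN A w y₁ := by
  by_contra hcon
  -- the coloring
  have hconst : ∀ N ∈ arrCode A w h, ∀ u ∈ N.ends, ∀ v ∈ N.ends,
      ((Nat.unpair u).2 ≤ y₁ ↔ (Nat.unpair v).2 ≤ y₁) := by
    intro N hN u hu v hv
    obtain ⟨y, hy, x, hx, hN'⟩ := box_mem_arrCode.1 hN
    have hyne : y ≠ y₁ := by
      rintro rfl
      apply hcon
      refine ⟨x, hx, ?_⟩
      intro hbl
      unfold cellCode at hN'
      rw [hbl] at hN'
      simp [Kd.code] at hN'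
    have key : ∀ z ∈ N.ends, ((Nat.unpair z).2 ≤ y₁ ↔ y < y₁) := by
      intro z hz
      rcases box_ends_sub _ _ _ _ _ hN' hz with rfl | rfl | rfl | rfl <;> rw [box_unpair] <;> omega
    rw [key u hu, key v hv]
  have heqv : ∀ u v, Relation.EqvGen (fun a b => ∃ N ∈ arrCode A w h, N.Thru a b) u v →
      ((Nat.unpair u).2 ≤ y₁ ↔ (Nat.unpair v).2 ≤ y₁) := by
    intro u v huv
    induction huv with
    | rel a b hab =>
      obtain ⟨N, hN, hT⟩ := hab
      have hab' : a ∈ N.ends ∧ b ∈ N.ends := by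
        cases N with
        | X p q r s =>
          simp only [Node.Thru] at hT
          simp only [Node.ends, List.mem_cons, List.not_mem_nil, or_false]
          rcases hT with ⟨rfl, rfl⟩ | ⟨rfl, rfl⟩ <;> simp
        | P p q =>
          simp only [Node.Thru] at hT
          simp only [Node.ends, List.mem_cons, List.not_mem_nil, or_false]
          obtain ⟨rfl, rfl⟩ := hT
          simp
      exact hconst N hN a hab'.1 b hab'.2
    | refl a => exact Iff.rfl
    | symm a b _ ih => exact ih.symm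
    | trans a b c _ _ ih1 ih2 => exact ih1.trans ih2
  -- an end in the row y
  have hend : ∀ y, RowN A w y → y < h → ∃ u ∈ ends (arrCode A w h),
      (Nat.unpair u).2 = y ∨ (Nat.unpair u).2 = y + 1 := by
    intro y hy hyh
    obtain ⟨x, hx, hne⟩ := hy
    obtain ⟨N, hN, v, hv⟩ := box_nonblank_node (A x y) hne (vert x y) (vert (x + 1) y)
      (vert (x + 1) (y + 1)) (vert x (y + 1))
    refine ⟨v, box_mem_ends.2 ⟨N, box_mem_arrCode.2 ⟨y, hyh, x, hx, hN⟩, hv⟩, ?_⟩
    rcases box_ends_sub _ _ _ _ _ hN hv with rfl | rfl | rfl | rfl <;> rw [box_unpair] <;> simp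
  obtain ⟨u, hu, hu'⟩ := hend y₀ h₀ (by omega)
  obtain ⟨v, hv, hv'⟩ := hend y₂ h₂ hy₂
  have h3 := heqv u v (hG.good.oneComp.2 u hu v hv)
  omega

private theorem box_tp_ne (k : Kd) : k.tp ≠ .bl ↔ k ≠ .bl := by
  cases k <;> simp [Kd.tp]

/-- By `good_tp` from `row_between`. -/
theorem col_between {A : Arr} {w h : ℕ} (hG : GoodArr A w h) {x₀ x₁ x₂ : ℕ} (h₀ : ColN A h x₀)
    (h₂ : ColN A h x₂) (h01 : x₀ < x₁) (h12 : x₁ < x₂) (hx₂ : x₂ < w) : ColN A h x₁ := by
  have hconv : ∀ x, RowN (tpA A) h x ↔ ColN A h x := by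
    intro x
    unfold RowN ColN tpA
    constructor
    · rintro ⟨y, hy, hne⟩
      exact ⟨y, hy, (box_tp_ne _).1 hne⟩
    · rintro ⟨y, hy, hne⟩
      exact ⟨y, hy, (box_tp_ne _).2 hne⟩
  rw [← hconv] at h₀ h₂ ⊢
  exact row_between (good_tp hG) h₀ h₂ h01 h12 hx₂

private theorem box_min_max {P : ℕ → Prop} {n : ℕ} (hex : ∃ x < n, P x) :
    ∃ a b, a ≤ b ∧ b < n ∧ P a ∧ P b ∧ ∀ x < n, P x → a ≤ x ∧ x ≤ b := by
  classical
  have hne : ((Finset.range n).filter P).Nonempty := by
    obtain ⟨x, hx, hP⟩ := hex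
    exact ⟨x, by rw [Finset.mem_filter, Finset.mem_range]; exact ⟨hx, hP⟩⟩
  have h1 := Finset.min'_mem _ hne
  have h2 := Finset.max'_mem _ hne
  rw [Finset.mem_filter, Finset.mem_range] at h1 h2
  refine ⟨_, _, Finset.min'_le_max' _ hne, h2.1, h1.2, h2.2, ?_⟩
  intro x hx hP
  have hm : x ∈ (Finset.range n).filter P := by
    rw [Finset.mem_filter, Finset.mem_range]; exact ⟨hx, hP⟩
  exact ⟨Finset.min'_le _ _ hm, Finset.le_max' _ _ hm⟩

/-- Crop to the bounding box. -/
theorem exists_crop {A : Arr} {w h : ℕ} (hG : GoodArr A w h) :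
    ∃ A' w' h', GoodArr A' w' h' ∧ 1 ≤ w' ∧ 1 ≤ h' ∧ (∀ y < h', RowN A' w' y) ∧
      ∀ x < w', ColN A' h' x := by
  obtain ⟨x, y, hx, hy, hne⟩ := exists_nonblank hG
  obtain ⟨y₀, y₁, hy01, hy1, hP0, hP1, hall⟩ := box_min_max (P := RowN A w) (n := h)
    ⟨y, hy, x, hx, hne⟩
  obtain ⟨x₀, x₁, hx01, hx1, hQ0, hQ1, hall'⟩ := box_min_max (P := ColN A h) (n := w)
    ⟨x, hx, y, hy, hne⟩
  have hbox : ∀ x y, x < w → y < h → A x y ≠ .bl →
      x₀ ≤ x ∧ x < x₀ + (x₁ - x₀ + 1) ∧ y₀ ≤ y ∧ y < y₀ + (y₁ - y₀ + 1) := by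
    intro x y hx hy hne
    have h1 := hall y hy ⟨x, hx, hne⟩
    have h2 := hall' x hx ⟨y, hy, hne⟩
    omega
  refine ⟨trA A x₀ y₀, x₁ - x₀ + 1, y₁ - y₀ + 1,
    good_tr hG (by omega) (by omega) hbox, by omega, by omega, ?_, ?_⟩
  · intro y hy
    have hrow : RowN A w (y + y₀) := by
      rcases Nat.eq_zero_or_pos y with rfl | hpos
      · rw [zero_add]; exact hP0
      · by_cases hlt : y + y₀ < y₁
        · exact row_between hG hP0 hP1 (by omega) hlt hy1
        · have : y + y₀ = y₁ := by omega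
          rw [this]; exact hP1
    obtain ⟨x, hx, hne⟩ := hrow
    have h1 := hbox x (y + y₀) hx (by omega) hne
    refine ⟨x - x₀, by omega, ?_⟩
    unfold trA
    rw [Nat.sub_add_cancel h1.1]
    exact hne
  · intro x hx
    have hcol : ColN A h (x + x₀) := by
      rcases Nat.eq_zero_or_pos x with rfl | hpos
      · rw [zero_add]; exact hQ0
      · by_cases hlt : x + x₀ < x₁
        · exact col_between hG hQ0 hQ1 (by omega) hlt hx1
        · have : x + x₀ = x₁ := by omega
          rw [this]; exact hQ1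
    obtain ⟨y, hy, hne⟩ := hcol
    have h1 := hbox (x + x₀) y (by omega) hy hne
    refine ⟨y - y₀, by omega, ?_⟩
    unfold trA
    rw [Nat.sub_add_cancel h1.2.2.1]
    exact hne

/-- Each row contains a nonblank tile, there are at most `8 + 7` nonblank tiles. -/
theorem height_le {A : Arr} {w h : ℕ} (hG : GoodArr A w h) (hr : ∀ y < h, RowN A w y) :
    h ≤ 15 := by
  classical
  have hx : ∀ y : ℕ, ∃ x, y < h → (x < w ∧ A x y ≠ .bl) := by
    intro y
    by_cases hy : y < h
    · obtain ⟨x, hx, hne⟩ := hr y hy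
      exact ⟨x, fun _ => ⟨hx, hne⟩⟩
    · exact ⟨0, fun h' => absurd h' hy⟩
  choose g hg using hx
  have h1 : (Finset.range h).card ≤
      (((Finset.range w ×ˢ Finset.range h).filter fun p => A p.1 p.2 = .x) ∪
        ((Finset.range w ×ˢ Finset.range h).filter fun p => (A p.1 p.2).isC = true)).card := by
    apply Finset.card_le_card_of_injOn (fun y => (g y, y))
    · intro y hy
      rw [Finset.mem_coe, Finset.mem_range] at hy
      have h2 := hg y hy
      rw [Finset.mem_coe, Finset.mem_union, Finset.mem_filter, Finset.mem_filter,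
        Finset.mem_product, Finset.mem_range, Finset.mem_range]
      have h3 : A (g y) y = .x ∨ (A (g y) y).isC = true := by
        have h4 := h2.2
        revert h4
        cases A (g y) y <;> simp [Kd.isC]
      rcases h3 with h3 | h3
      · exact Or.inl ⟨⟨h2.1, hy⟩, h3⟩
      · exact Or.inr ⟨⟨h2.1, hy⟩, h3⟩
    · intro y _ y' _ heq
      simpa using (Prod.ext_iff.1 heq).2
  rw [Finset.card_range] at h1
  have h2 := Finset.card_union_le
    ((Finset.range w ×ˢ Finset.range h).filter fun p => A p.1 p.2 = .x)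
    ((Finset.range w ×ˢ Finset.range h).filter fun p => (A p.1 p.2).isC = true)
  have h3 := hG.nX
  have h4 := hG.nC
  unfold nX at h3
  unfold nC at h4
  omega

end Pool.Agent.MP_204846_gt
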