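import Pool.Agent.Lib_MP_204846_gt.Rank

/-!
# MP_204846_gt, piece BrBasic: basic properties of the bracket `br n D S`
-/

namespace Pool.Agent.MP_204846_gt

open Module LaurentPolynomial

theorem br_nil (n : ℕ) (S : Submodule (ZMod 2) VV) : br n [] S = δ ^ (n - finrank (ZMod 2) S) := by
  rw [br]

theorem br_X (n a b c d : ℕ) (D : Code) (S : Submodule (ZMod 2) VV) :
    br n (.X a b c d :: D) S = T 1 * br n D (S ⊔ EE a b ⊔ EE c d) +
      T (-1) * br n D (S ⊔ EE b c ⊔ EE d a) := by
  rw [br]

theorem br_P (n a b : ℕ) (D : Code) (S : Submodule (ZMod 2) VV) :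
    br n (.P a b :: D) S = br n D (S ⊔ EE a b) := by
  rw [br]

/-- Induction over `List.Perm`; in the case of a swap both sides are expanded (4 cases), use
`sup_assoc`, `sup_comm` (`sup_right_comm`) and `ring`. -/
theorem br_perm {D D' : Code} (h : D.Perm D') (n : ℕ) (S : Submodule (ZMod 2) VV) :
    br n D S = br n D' S := by
  induction h generalizing S with
  | nil => rfl
  | cons N _ ih =>
    cases N with
    | X a b c d => rw [br_X, br_X, ih, ih]
    | P a b => rw [br_P, br_P, ih]
  | trans _ _ ih1 ih2 => rw [ih1, ih2]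
  | swap N M l =>
    cases N with
    | X a b c d =>
      cases M with
      | X a' b' c' d' =>
        simp only [br_X]
        have h4 : ∀ S P Q R W : Submodule (ZMod 2) VV, S ⊔ P ⊔ Q ⊔ R ⊔ W = S ⊔ R ⊔ W ⊔ P ⊔ Q := by
          intro S P Q R W
          rw [sup_right_comm (S ⊔ P) Q R, sup_right_comm S P R,
            sup_right_comm (S ⊔ R ⊔ P) Q W, sup_right_comm (S ⊔ R) P W]
        rw [h4 S (EE a' b') (EE c' d') (EE a b) (EE c d), h4 S (EE a' b') (EE c' d') (EE b c) (EE d a),
          h4 S (EE b' c') (EE d' a') (EE a b) (EE c d), h4 S (EE b' c') (EE d' a') (EE b c) (EE d a)]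
        ring
      | P a' b' =>
        simp only [br_X, br_P]
        have h3 : ∀ S P Q R : Submodule (ZMod 2) VV, S ⊔ P ⊔ Q ⊔ R = S ⊔ Q ⊔ R ⊔ P := by
          intro S P Q R
          rw [sup_right_comm S P Q, sup_right_comm (S ⊔ Q) P R]
        rw [h3 S (EE a' b') (EE a b) (EE c d), h3 S (EE a' b') (EE b c) (EE d a)]
    | P a b =>
      cases M with
      | X a' b' c' d' =>
        simp only [br_X, br_P]
        have h3 : ∀ S P Q R : Submodule (ZMod 2) VV, S ⊔ P ⊔ Q ⊔ R = S ⊔ R ⊔ P ⊔ Q := by
          intro S P Q R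
          rw [sup_right_comm (S ⊔ P) Q R, sup_right_comm S P R]
        rw [h3 S (EE a' b') (EE c' d') (EE a b), h3 S (EE b' c') (EE d' a') (EE a b)]
      | P a' b' =>
        simp only [br_P]
        rw [sup_right_comm S (EE a' b') (EE a b)]

/-- Contraction of the pair `a, b`. Induction over `D`: `(S ⊔ EE x y ⊔ EE a b).map = S.map ⊔ EE _ _`,
the base case is `finrank_point`. -/
theorem br_point {n : ℕ} {a b : ℕ} (hab : a ≠ b) (D : Code) {S : Submodule (ZMod 2) VV}
    (hS : S.FG) :
    br (n + 1) D (S ⊔ EE a b) = br n (D.map (Node.map (rn a b))) (S.map (ren (rn a b))) := by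
  induction D generalizing S with
  | nil =>
    rw [List.map_nil, br_nil, br_nil, finrank_point hS hab]
    congr 1
    omega
  | cons N D ih =>
    cases N with
    | X x y z w =>
      rw [List.map_cons]
      show _ = br n (Node.X (rn a b x) (rn a b y) (rn a b z) (rn a b w) :: _) _
      rw [br_X, br_X]
      have h3 : ∀ S P Q R : Submodule (ZMod 2) VV, S ⊔ P ⊔ Q ⊔ R = S ⊔ Q ⊔ R ⊔ P := by
        intro S P Q R
        rw [sup_right_comm S P Q, sup_right_comm (S ⊔ Q) P R]
      rw [h3 S (EE a b) (EE x y) (EE z w), h3 S (EE a b) (EE y z) (EE w x),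
        ih ((hS.sup (EE_fg x y)).sup (EE_fg z w)), ih ((hS.sup (EE_fg y z)).sup (EE_fg w x)),
        Submodule.map_sup, Submodule.map_sup, Submodule.map_sup, Submodule.map_sup,
        map_EE, map_EE, map_EE, map_EE]
    | P x y =>
      rw [List.map_cons]
      show _ = br n (Node.P (rn a b x) (rn a b y) :: _) _
      rw [br_P, br_P, sup_right_comm, ih (hS.sup (EE_fg x y)), Submodule.map_sup, map_EE]

/-- Renaming. Induction over `D`, base case `finrank_label`. -/
theorem br_label {n : ℕ} {f : ℕ → ℕ} {s : Finset ℕ} (hf : Set.InjOn f s) (D : Code)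
    (hD : ∀ a ∈ ends D, a ∈ s) {S : Submodule (ZMod 2) VV} (hS : S ≤ supp s) :
    br n (D.map (Node.map f)) (S.map (ren f)) = br n D S := by
  induction D generalizing S with
  | nil =>
    rw [List.map_nil, br_nil, br_nil, finrank_label hS hf]
  | cons N D ih =>
    have hD' : ∀ a ∈ ends D, a ∈ s := by
      intro a ha
      apply hD
      unfold ends at ha ⊢
      rw [List.flatMap_cons]
      exact List.mem_append_right _ ha
    have hN : ∀ a ∈ N.ends, a ∈ s := by
      intro a ha
      apply hD
      unfold ends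
      rw [List.flatMap_cons]
      exact List.mem_append_left _ ha
    cases N with
    | X x y z w =>
      have hx := hN x (by simp [Node.ends])
      have hy := hN y (by simp [Node.ends])
      have hz := hN z (by simp [Node.ends])
      have hw := hN w (by simp [Node.ends])
      rw [List.map_cons]
      show br n (Node.X (f x) (f y) (f z) (f w) :: _) _ = _
      rw [br_X, br_X, ← ih hD' (sup_le (sup_le hS (EE_le_supp hx hy)) (EE_le_supp hz hw)),
        ← ih hD' (sup_le (sup_le hS (EE_le_supp hy hz)) (EE_le_supp hw hx)),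
        Submodule.map_sup, Submodule.map_sup, Submodule.map_sup, Submodule.map_sup,
        map_EE, map_EE, map_EE, map_EE]
    | P x y =>
      have hx := hN x (by simp [Node.ends])
      have hy := hN y (by simp [Node.ends])
      rw [List.map_cons]
      show br n (Node.P (f x) (f y) :: _) _ = _
      rw [br_P, br_P, ← ih hD' (sup_le hS (EE_le_supp hx hy)), Submodule.map_sup, map_EE]

theorem vanish_sup {S : Submodule (ZMod 2) VV} {a x y : ℕ} (ha : ∀ v ∈ S, v a = 0)
    (hx : a ≠ x) (hy : a ≠ y) : ∀ v ∈ S ⊔ EE x y, v a = 0 := by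
  have h1 : S ⊔ EE x y ≤ LinearMap.ker (Finsupp.lapply a : VV →ₗ[ZMod 2] ZMod 2) := by
    apply sup_le
    · intro v hv
      exact ha v hv
    · rw [EE_le]
      show (ev x y) a = 0
      unfold ev
      rw [Finsupp.add_apply, Finsupp.single_eq_of_ne hx, Finsupp.single_eq_of_ne hy, add_zero]
  intro v hv
  exact h1 hv

/-- A new label `a`. Induction over `D`, base case `finrank_fresh`. -/
theorem br_fresh {n : ℕ} {a b : ℕ} (hab : a ≠ b) (D : Code) (hD : a ∉ ends D)
    {S : Submodule (ZMod 2) VV} (hS : S.FG) (ha : ∀ v ∈ S, v a = 0) :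
    br (n + 1) D (S ⊔ EE a b) = br n D S := by
  induction D generalizing S with
  | nil =>
    rw [br_nil, br_nil, finrank_fresh hS hab ha]
    congr 1
    omega
  | cons N D ih =>
    have hD' : a ∉ ends D := by
      intro h
      apply hD
      unfold ends at h ⊢
      rw [List.flatMap_cons]
      exact List.mem_append_right _ h
    have hN : ∀ x ∈ N.ends, a ≠ x := by
      rintro x hx rfl
      apply hD
      unfold ends
      rw [List.flatMap_cons]
      exact List.mem_append_left _ hx
    cases N with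
    | X x y z w =>
      have hx := hN x (by simp [Node.ends])
      have hy := hN y (by simp [Node.ends])
      have hz := hN z (by simp [Node.ends])
      have hw := hN w (by simp [Node.ends])
      have h3 : ∀ S P Q R : Submodule (ZMod 2) VV, S ⊔ P ⊔ Q ⊔ R = S ⊔ Q ⊔ R ⊔ P := by
        intro S P Q R
        rw [sup_right_comm S P Q, sup_right_comm (S ⊔ Q) P R]
      rw [br_X, br_X, h3 S (EE a b) (EE x y) (EE z w), h3 S (EE a b) (EE y z) (EE w x),
        ih hD' ((hS.sup (EE_fg x y)).sup (EE_fg z w)) (vanish_sup (vanish_sup ha hx hy) hz hw),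
        ih hD' ((hS.sup (EE_fg y z)).sup (EE_fg w x)) (vanish_sup (vanish_sup ha hy hz) hw hx)]
    | P x y =>
      have hx := hN x (by simp [Node.ends])
      have hy := hN y (by simp [Node.ends])
      rw [br_P, br_P, sup_right_comm, ih hD' (hS.sup (EE_fg x y)) (vanish_sup ha hx hy)]

/-- One more circle. Induction over `D`; base case: the dimension of `S` is at most `n`. -/
theorem br_succ {n : ℕ} {s : Finset ℕ} (hs : s.card ≤ n) (D : Code) (hD : ∀ a ∈ ends D, a ∈ s)
    {S : Submodule (ZMod 2) VV} (hS : S ≤ supp s) :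
    br (n + 1) D S = δ * br n D S := by
  induction D generalizing S with
  | nil =>
    have := finrank_le_card hS
    rw [br_nil, br_nil, ← pow_succ']
    congr 1
    omega
  | cons N D ih =>
    have hD' : ∀ a ∈ ends D, a ∈ s := by
      intro a ha
      apply hD
      unfold ends at ha ⊢
      rw [List.flatMap_cons]
      exact List.mem_append_right _ ha
    have hN : ∀ a ∈ N.ends, a ∈ s := by
      intro a ha
      apply hD
      unfold ends
      rw [List.flatMap_cons]
      exact List.mem_append_left _ ha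
    cases N with
    | X x y z w =>
      have hx := hN x (by simp [Node.ends])
      have hy := hN y (by simp [Node.ends])
      have hz := hN z (by simp [Node.ends])
      have hw := hN w (by simp [Node.ends])
      rw [br_X, br_X, ih hD' (sup_le (sup_le hS (EE_le_supp hx hy)) (EE_le_supp hz hw)),
        ih hD' (sup_le (sup_le hS (EE_le_supp hy hz)) (EE_le_supp hw hx))]
      ring
    | P x y =>
      have hx := hN x (by simp [Node.ends])
      have hy := hN y (by simp [Node.ends])
      rw [br_P, br_P, ih hD' (sup_le hS (EE_le_supp hx hy))]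

theorem Same.refl (p : ℤ[T;T⁻¹]) : Same p p := by
  refine ⟨0, Or.inl ?_⟩
  rw [mul_zero, T_zero, one_mul]

theorem Same.symm {p q : ℤ[T;T⁻¹]} (h : Same p q) : Same q p := by
  obtain ⟨k, h | h⟩ := h
  · refine ⟨-k, Or.inl ?_⟩
    rw [h, ← mul_assoc, ← T_add, mul_neg, neg_add_cancel, T_zero, one_mul]
  · refine ⟨-k, Or.inr ?_⟩
    rw [h, mul_neg, neg_neg, ← mul_assoc, ← T_add, mul_neg, neg_add_cancel, T_zero, one_mul]

theorem Same.trans {p q r : ℤ[T;T⁻¹]} (h : Same p q) (h' : Same q r) : Same p r := by
  obtain ⟨k, h⟩ := h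
  obtain ⟨l, h'⟩ := h'
  have e : ∀ x : ℤ[T;T⁻¹], T (3 * k) * (T (3 * l) * x) = T (3 * (k + l)) * x := by
    intro x
    rw [← mul_assoc, ← T_add, mul_add]
  rcases h with h | h <;> rcases h' with h' | h' <;> rw [h, h']
  · exact ⟨k + l, Or.inl (e r)⟩
  · exact ⟨k + l, Or.inr (by rw [mul_neg, e])⟩
  · exact ⟨k + l, Or.inr (by rw [e])⟩
  · exact ⟨k + l, Or.inl (by rw [mul_neg, neg_neg, e])⟩

end Pool.Agent.MP_204846_gt
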