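import Pool.Agent.Lib_MP_204846_gt.BrBasic

/-!
# MP_204846_gt, piece BrInv: invariance of the bracket under the simple moves and under R1, R2

In a closed code every label has exactly two ends.
-/

namespace Pool.Agent.MP_204846_gt

open Module LaurentPolynomial

theorem brinv_ends_X (a b c d : ℕ) (D : Code) :
    ends (.X a b c d :: D) = a :: b :: c :: d :: ends D := by
  simp [ends, Node.ends]

theorem brinv_ends_P (a b : ℕ) (D : Code) : ends (.P a b :: D) = a :: b :: ends D := by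
  simp [ends, Node.ends]

theorem brinv_ends_map (f : ℕ → ℕ) (D : Code) :
    ends (D.map (Node.map f)) = (ends D).map f := by
  induction D with
  | nil => rfl
  | cons N D ih =>
    cases N with
    | X a b c d =>
      rw [List.map_cons, Node.map, brinv_ends_X, brinv_ends_X, ih]
      simp
    | P a b =>
      rw [List.map_cons, Node.map, brinv_ends_P, brinv_ends_P, ih]
      simp

theorem brinv_nl_perm {D D' : Code} (h : (ends D).Perm (ends D')) : nl D = nl D' := by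
  unfold nl
  rw [List.toFinset_eq_of_perm _ _ h]

theorem bracket_perm {D D' : Code} (h : D.Perm D') : bracket D = bracket D' := by
  unfold bracket
  rw [brinv_nl_perm (h.flatMap_right Node.ends), br_perm h]

theorem bracket_label {D : Code} {f : ℕ → ℕ} (hf : Set.InjOn f {a | a ∈ ends D}) :
    bracket (D.map (Node.map f)) = bracket D := by
  have hf' : Set.InjOn f ((ends D).toFinset : Set ℕ) := by
    intro x hx y hy hxy
    rw [Finset.mem_coe, List.mem_toFinset] at hx hy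
    exact hf hx hy hxy
  have h1 : nl (D.map (Node.map f)) = nl D := by
    unfold nl
    rw [brinv_ends_map]
    have : (List.map f (ends D)).toFinset = (ends D).toFinset.image f := by
      ext x
      simp
    rw [this, Finset.card_image_of_injOn hf']
  unfold bracket
  rw [h1]
  have h2 := br_label (n := nl D) (s := (ends D).toFinset) hf' D
    (fun a ha => List.mem_toFinset.2 ha) (S := ⊥) bot_le
  rwa [Submodule.map_bot] at h2

theorem bracket_turn (a b c d : ℕ) (D : Code) :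
    bracket (.X a b c d :: D) = bracket (.X c d a b :: D) := by
  have h1 : nl (.X a b c d :: D) = nl (.X c d a b :: D) := by
    apply brinv_nl_perm
    rw [brinv_ends_X, brinv_ends_X]
    exact (List.perm_append_comm (l₁ := [a, b]) (l₂ := [c, d])).append_right (ends D)
  unfold bracket
  rw [h1, br, br, sup_right_comm ⊥ (EE a b), sup_right_comm ⊥ (EE b c)]

theorem bracket_swap (a b : ℕ) (D : Code) :
    bracket (.P a b :: D) = bracket (.P b a :: D) := by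
  have h1 : nl (.P a b :: D) = nl (.P b a :: D) := by
    apply brinv_nl_perm
    rw [brinv_ends_P, brinv_ends_P]
    exact List.Perm.swap _ _ _
  unfold bracket
  rw [h1, br, br, EE_comm]

/-- `nl (P a b :: D) = nl (D.map (Node.map (rn a b))) + 1` since both labels have an end in `D`; then
`br_point`. -/
theorem bracket_point {a b : ℕ} {D : Code} (hab : a ≠ b) (h : Closed (.P a b :: D)) :
    bracket (.P a b :: D) = bracket (D.map (Node.map (rn a b))) := by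
  have ha := h a (by rw [brinv_ends_P]; simp)
  have hb := h b (by rw [brinv_ends_P]; simp)
  rw [brinv_ends_P] at ha hb
  have ha' : a ∈ ends D := by
    rw [← List.count_pos_iff]
    simp only [List.count_cons, beq_self_eq_true, if_true, beq_iff_eq, if_neg hab.symm] at ha
    omega
  have hb' : b ∈ ends D := by
    rw [← List.count_pos_iff]
    simp only [List.count_cons, beq_self_eq_true, if_true, beq_iff_eq, if_neg hab] at hb
    omega
  have h1 : nl (.P a b :: D) = (ends D).toFinset.card := by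
    unfold nl
    rw [brinv_ends_P]
    congr 1
    ext x
    simp only [List.mem_toFinset, List.mem_cons]
    constructor
    · rintro (rfl | rfl | hx)
      · exact ha'
      · exact hb'
      · exact hx
    · exact fun hx => Or.inr (Or.inr hx)
  have h2 : nl (D.map (Node.map (rn a b))) = ((ends D).toFinset.erase b).card := by
    unfold nl
    rw [brinv_ends_map]
    congr 1
    ext x
    simp only [List.mem_toFinset, List.mem_map, Finset.mem_erase, rn]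
    constructor
    · rintro ⟨y, hy, hxy⟩
      by_cases hyb : y = b
      · rw [if_pos hyb] at hxy
        subst hxy
        exact ⟨hab, ha'⟩
      · rw [if_neg hyb] at hxy
        subst hxy
        exact ⟨hyb, hy⟩
    · rintro ⟨hx1, hx2⟩
      exact ⟨x, hx2, if_neg hx1⟩
  have h3 : nl (.P a b :: D) = nl (D.map (Node.map (rn a b))) + 1 := by
    rw [h1, h2]
    exact (Finset.card_erase_add_one (List.mem_toFinset.2 hb')).symm
  unfold bracket
  rw [h3, br]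
  have h4 := br_point (n := nl (D.map (Node.map (rn a b)))) hab D (S := ⊥) Submodule.fg_bot
  rwa [Submodule.map_bot] at h4

theorem brinv_supp_zero {s : Finset ℕ} {S : Submodule (ZMod 2) VV} (hS : S ≤ supp s) {a : ℕ}
    (ha : a ∉ s) : ∀ v ∈ S, v a = 0 := by
  intro v hv
  by_contra h
  have h1 : v ∈ supp s := hS hv
  unfold supp at h1
  rw [Finsupp.mem_supported] at h1
  exact ha (h1 (Finsupp.mem_support_iff.2 h))

/-- The label `a` does not occur in `D`, and `a ≠ b`, `a ≠ c`. With `n = nl (P b c :: D)`: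
`br (n+1) D (EE a a ⊔ EE b c) = δ * br n D (EE b c)` by `br_succ`, and
`br (n+1) D (EE a b ⊔ EE c a) = br (n+1) D (EE b c ⊔ EE a b) = br n D (EE b c)` by `br_fresh`; finally
`T δ + T⁻¹ = -T³`. -/
theorem bracket_r1 {a b c : ℕ} {D : Code} (h : Closed (.X a a b c :: D)) :
    bracket (.X a a b c :: D) = -(T 3 * bracket (.P b c :: D)) := by
  have ha := h a (by rw [brinv_ends_X]; simp)
  rw [brinv_ends_X] at ha
  simp only [List.count_cons, beq_self_eq_true, if_true, beq_iff_eq] at ha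
  have hab : a ≠ b := by
    rintro rfl
    simp at ha <;> omega
  have hac : a ≠ c := by
    rintro rfl
    simp at ha <;> omega
  have haD : a ∉ ends D := by
    intro hh
    have := List.count_pos_iff.2 hh
    omega
  have h1 : nl (.X a a b c :: D) = nl (.P b c :: D) + 1 := by
    unfold nl
    rw [brinv_ends_X, brinv_ends_P]
    have : (a :: a :: b :: c :: ends D).toFinset = insert a (b :: c :: ends D).toFinset := by
      ext x
      simp
    rw [this, Finset.card_insert_of_notMem]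
    simp [hab, hac, haD]
  have hs : ∀ x ∈ ends D, x ∈ (ends (.P b c :: D)).toFinset := by
    intro x hx
    rw [brinv_ends_P]
    simp [hx]
  have hbs : b ∈ (ends (.P b c :: D)).toFinset := by
    rw [brinv_ends_P]; simp
  have hcs : c ∈ (ends (.P b c :: D)).toFinset := by
    rw [brinv_ends_P]; simp
  have has : a ∉ (ends (.P b c :: D)).toFinset := by
    rw [brinv_ends_P]; simp [hab, hac, haD]
  unfold bracket
  rw [h1, br, br, EE_self]
  simp only [bot_sup_eq, sup_bot_eq]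
  have e1 : br (nl (.P b c :: D) + 1) D (EE b c) = δ * br (nl (.P b c :: D)) D (EE b c) :=
    br_succ (s := (ends (.P b c :: D)).toFinset) le_rfl D hs (EE_le_supp hbs hcs)
  have e2 : EE a b ⊔ EE c a = EE b c ⊔ EE a b := by
    rw [EE_comm a b, EE_comm c a, EE_tri b a c, sup_comm]
  have e3 : br (nl (.P b c :: D) + 1) D (EE b c ⊔ EE a b) = br (nl (.P b c :: D)) D (EE b c) :=
    br_fresh hab D haD (EE_fg b c) (brinv_supp_zero (EE_le_supp hbs hcs) has)
  rw [e1, e2, e3]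
  have e4 : (T 1 : ℤ[T;T⁻¹]) * δ + T (-1) = - T 3 := by
    unfold δ
    rw [mul_sub, mul_neg, ← T_add, ← T_add]
    norm_num
  calc (T 1 : ℤ[T;T⁻¹]) * (δ * br (nl (.P b c :: D)) D (EE b c)) +
        T (-1) * br (nl (.P b c :: D)) D (EE b c)
      = (T 1 * δ + T (-1)) * br (nl (.P b c :: D)) D (EE b c) := by ring
    _ = -(T 3 * br (nl (.P b c :: D)) D (EE b c)) := by rw [e4]; ring

theorem bracket_r1' {a b c : ℕ} {D : Code} (h : Closed (.X a b b c :: D)) :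
    bracket (.X a b b c :: D) = -(T (-3) * bracket (.P a c :: D)) := by
  have hb := h b (by rw [brinv_ends_X]; simp)
  rw [brinv_ends_X] at hb
  simp only [List.count_cons, beq_self_eq_true, if_true, beq_iff_eq] at hb
  have hba : b ≠ a := by
    rintro rfl
    simp at hb <;> omega
  have hbc : b ≠ c := by
    rintro rfl
    simp at hb <;> omega
  have hbD : b ∉ ends D := by
    intro hh
    have := List.count_pos_iff.2 hh
    omega
  have h1 : nl (.X a b b c :: D) = nl (.P a c :: D) + 1 := by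
    unfold nl
    rw [brinv_ends_X, brinv_ends_P]
    have : (a :: b :: b :: c :: ends D).toFinset = insert b (a :: c :: ends D).toFinset := by
      ext x
      simp only [List.mem_toFinset, List.mem_cons, Finset.mem_insert]
      tauto
    rw [this, Finset.card_insert_of_notMem]
    simp [hba, hbc, hbD]
  have hs : ∀ x ∈ ends D, x ∈ (ends (.P a c :: D)).toFinset := by
    intro x hx
    rw [brinv_ends_P]
    simp [hx]
  have has : a ∈ (ends (.P a c :: D)).toFinset := by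
    rw [brinv_ends_P]; simp
  have hcs : c ∈ (ends (.P a c :: D)).toFinset := by
    rw [brinv_ends_P]; simp
  have hbs : b ∉ (ends (.P a c :: D)).toFinset := by
    rw [brinv_ends_P]; simp [hba, hbc, hbD]
  unfold bracket
  rw [h1, br, br, EE_self]
  simp only [bot_sup_eq, sup_bot_eq]
  have e1 : br (nl (.P a c :: D) + 1) D (EE c a) = δ * br (nl (.P a c :: D)) D (EE a c) := by
    rw [EE_comm c a]
    exact br_succ (s := (ends (.P a c :: D)).toFinset) le_rfl D hs (EE_le_supp has hcs)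
  have e2 : EE a b ⊔ EE b c = EE a c ⊔ EE b a := by
    rw [EE_tri a b c, sup_comm, EE_comm a b]
  have e3 : br (nl (.P a c :: D) + 1) D (EE a c ⊔ EE b a) = br (nl (.P a c :: D)) D (EE a c) :=
    br_fresh hba D hbD (EE_fg a c) (brinv_supp_zero (EE_le_supp has hcs) hbs)
  rw [e1, e2, e3]
  have e4 : (T 1 : ℤ[T;T⁻¹]) + T (-1) * δ = - T (-3) := by
    unfold δ
    rw [mul_sub, mul_neg, ← T_add, ← T_add]
    norm_num
    ring
  calc (T 1 : ℤ[T;T⁻¹]) * br (nl (.P a c :: D)) D (EE a c) +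
        T (-1) * (δ * br (nl (.P a c :: D)) D (EE a c))
      = (T 1 + T (-1) * δ) * br (nl (.P a c :: D)) D (EE a c) := by ring
    _ = -(T (-3) * br (nl (.P a c :: D)) D (EE a c)) := by rw [e4]; ring

theorem brinv_symm {S : Submodule (ZMod 2) VV} {a b : ℕ} (h : ev a b ∈ S) : ev b a ∈ S := by
  rwa [ev_comm]

theorem brinv_trans {S : Submodule (ZMod 2) VV} {a b c : ℕ} (h : ev a b ∈ S) (h' : ev b c ∈ S) :
    ev a c ∈ S := by
  rw [← ev_add a b c]
  exact S.add_mem h h'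

/-- Two new labels. -/
theorem brinv_fresh2 {n : ℕ} {s : Finset ℕ} {D : Code} {S : Submodule (ZMod 2) VV}
    (hS : S ≤ supp s) (hD : ∀ a ∈ ends D, a ∈ s) {u o x y : ℕ} (hu : u ∉ s) (ho : o ∉ s)
    (huo : u ≠ o) (hx : x ∈ s) (hy : y ∈ s) :
    br (n + 2) D (S ⊔ EE u x ⊔ EE o y) = br n D S := by
  have h1 : S ⊔ EE u x ≤ supp (insert u s) := by
    apply sup_le
    · intro v hv
      have := hS hv
      unfold supp at this ⊢
      rw [Finsupp.mem_supported] at this ⊢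
      exact this.trans (by intro z hz; simp only [Finset.coe_insert]; exact Or.inr hz)
    · exact EE_le_supp (Finset.mem_insert_self _ _) (Finset.mem_insert_of_mem hx)
  have h2 : o ∉ insert u s := by
    simp only [Finset.mem_insert, not_or]
    exact ⟨huo.symm, ho⟩
  have e1 : br (n + 1 + 1) D (S ⊔ EE u x ⊔ EE o y) = br (n + 1) D (S ⊔ EE u x) :=
    br_fresh (show o ≠ y from fun hh => ho (hh ▸ hy)) D (fun hh => ho (hD _ hh)) (fg_of_le_supp h1)
      (brinv_supp_zero h1 h2)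
  have e2 : br (n + 1) D (S ⊔ EE u x) = br n D S :=
    br_fresh (show u ≠ x from fun hh => hu (hh ▸ hx)) D (fun hh => hu (hD _ hh)) (fg_of_le_supp hS)
      (brinv_supp_zero hS hu)
  exact e1.trans e2

/-- The general form of R2, with a space `S` of pairs which are already joined. The labels `u₁`, `o₁`
are new. Of the four states one gives the right hand side, the other three join `u₀, o₀` and
`u₂, o₂`, with the coefficients `T²`, `δ` (one circle), `T⁻²`, sum zero. -/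
theorem br_r2 {n : ℕ} {s : Finset ℕ} (hs : s.card ≤ n) {u₀ u₁ u₂ o₀ o₁ o₂ : ℕ} {D : Code}
    {S : Submodule (ZMod 2) VV} (hS : S ≤ supp s) (hD : ∀ a ∈ ends D, a ∈ s)
    (h₁ : u₁ ∉ s) (h₂ : o₁ ∉ s) (h₃ : u₁ ≠ o₁) (h₄ : u₀ ∈ s) (h₅ : u₂ ∈ s) (h₆ : o₀ ∈ s)
    (h₇ : o₂ ∈ s) :
    br (n + 2) (.X u₀ o₁ u₁ o₀ :: .X u₁ o₁ u₂ o₂ :: D) S = br n (.P u₀ u₂ :: .P o₀ o₂ :: D) S := by
  simp only [br]
  -- the space of the three other states
  set S' : Submodule (ZMod 2) VV := S ⊔ EE o₀ u₀ ⊔ EE u₂ o₂ with hS'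
  have hS's : S' ≤ supp s := sup_le (sup_le hS (EE_le_supp h₆ h₄)) (EE_le_supp h₅ h₇)
  have hS'' : S ⊔ EE u₀ u₂ ⊔ EE o₀ o₂ ≤ supp s :=
    sup_le (sup_le hS (EE_le_supp h₄ h₅)) (EE_le_supp h₆ h₇)
  -- state AA
  have s1 : S ⊔ EE u₀ o₁ ⊔ EE u₁ o₀ ⊔ EE u₁ o₁ ⊔ EE u₂ o₂ = S' ⊔ EE u₁ o₀ ⊔ EE o₁ u₀ := by
    apply le_antisymm
    · have m1 : ev o₁ u₀ ∈ S' ⊔ EE u₁ o₀ ⊔ EE o₁ u₀ := EE_le.1 le_sup_right
      have m2 : ev u₁ o₀ ∈ S' ⊔ EE u₁ o₀ ⊔ EE o₁ u₀ :=
        EE_le.1 (le_sup_right.trans le_sup_left)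
      have m3 : ev o₀ u₀ ∈ S' ⊔ EE u₁ o₀ ⊔ EE o₁ u₀ :=
        EE_le.1 (((le_sup_right.trans le_sup_left : EE o₀ u₀ ≤ S').trans le_sup_left).trans
          le_sup_left)
      have m4 : ev u₂ o₂ ∈ S' ⊔ EE u₁ o₀ ⊔ EE o₁ u₀ :=
        EE_le.1 (((le_sup_right : EE u₂ o₂ ≤ S').trans le_sup_left).trans le_sup_left)
      have m5 : S ≤ S' ⊔ EE u₁ o₀ ⊔ EE o₁ u₀ :=
        (((le_sup_left.trans le_sup_left : S ≤ S').trans le_sup_left).trans le_sup_left)
      refine sup_le (sup_le (sup_le (sup_le m5 ?_) ?_) ?_) ?_ <;> rw [EE_le]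
      · exact brinv_symm m1
      · exact m2
      · exact brinv_trans m2 (brinv_trans m3 (brinv_symm m1))
      · exact m4
    · have m1 : ev u₀ o₁ ∈ S ⊔ EE u₀ o₁ ⊔ EE u₁ o₀ ⊔ EE u₁ o₁ ⊔ EE u₂ o₂ :=
        EE_le.1 (((le_sup_right.trans le_sup_left).trans le_sup_left).trans le_sup_left)
      have m2 : ev u₁ o₀ ∈ S ⊔ EE u₀ o₁ ⊔ EE u₁ o₀ ⊔ EE u₁ o₁ ⊔ EE u₂ o₂ :=
        EE_le.1 ((le_sup_right.trans le_sup_left).trans le_sup_left)
      have m3 : ev u₁ o₁ ∈ S ⊔ EE u₀ o₁ ⊔ EE u₁ o₀ ⊔ EE u₁ o₁ ⊔ EE u₂ o₂ :=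
        EE_le.1 (le_sup_right.trans le_sup_left)
      have m4 : ev u₂ o₂ ∈ S ⊔ EE u₀ o₁ ⊔ EE u₁ o₀ ⊔ EE u₁ o₁ ⊔ EE u₂ o₂ :=
        EE_le.1 le_sup_right
      have m5 : S ≤ S ⊔ EE u₀ o₁ ⊔ EE u₁ o₀ ⊔ EE u₁ o₁ ⊔ EE u₂ o₂ :=
        (((le_sup_left.trans le_sup_left).trans le_sup_left).trans le_sup_left)
      refine sup_le (sup_le (sup_le (sup_le m5 ?_) ?_) ?_) ?_ <;> rw [EE_le]
      · exact brinv_trans (brinv_symm m2) (brinv_trans m3 (brinv_symm m1))
      · exact m4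
      · exact m2
      · exact brinv_symm m1
  -- state AB
  have s2 : S ⊔ EE u₀ o₁ ⊔ EE u₁ o₀ ⊔ EE o₁ u₂ ⊔ EE o₂ u₁ =
      S ⊔ EE u₀ u₂ ⊔ EE o₀ o₂ ⊔ EE u₁ o₀ ⊔ EE o₁ u₀ := by
    apply le_antisymm
    · have m1 : ev o₁ u₀ ∈ S ⊔ EE u₀ u₂ ⊔ EE o₀ o₂ ⊔ EE u₁ o₀ ⊔ EE o₁ u₀ :=
        EE_le.1 le_sup_right
      have m2 : ev u₁ o₀ ∈ S ⊔ EE u₀ u₂ ⊔ EE o₀ o₂ ⊔ EE u₁ o₀ ⊔ EE o₁ u₀ :=
        EE_le.1 (le_sup_right.trans le_sup_left)
      have m3 : ev o₀ o₂ ∈ S ⊔ EE u₀ u₂ ⊔ EE o₀ o₂ ⊔ EE u₁ o₀ ⊔ EE o₁ u₀ :=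
        EE_le.1 ((le_sup_right.trans le_sup_left).trans le_sup_left)
      have m4 : ev u₀ u₂ ∈ S ⊔ EE u₀ u₂ ⊔ EE o₀ o₂ ⊔ EE u₁ o₀ ⊔ EE o₁ u₀ :=
        EE_le.1 (((le_sup_right.trans le_sup_left).trans le_sup_left).trans le_sup_left)
      have m5 : S ≤ S ⊔ EE u₀ u₂ ⊔ EE o₀ o₂ ⊔ EE u₁ o₀ ⊔ EE o₁ u₀ :=
        (((le_sup_left.trans le_sup_left).trans le_sup_left).trans le_sup_left)
      refine sup_le (sup_le (sup_le (sup_le m5 ?_) ?_) ?_) ?_ <;> rw [EE_le]
      · exact brinv_symm m1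
      · exact m2
      · exact brinv_trans m1 m4
      · exact brinv_trans (brinv_symm m3) (brinv_symm m2)
    · have m1 : ev u₀ o₁ ∈ S ⊔ EE u₀ o₁ ⊔ EE u₁ o₀ ⊔ EE o₁ u₂ ⊔ EE o₂ u₁ :=
        EE_le.1 (((le_sup_right.trans le_sup_left).trans le_sup_left).trans le_sup_left)
      have m2 : ev u₁ o₀ ∈ S ⊔ EE u₀ o₁ ⊔ EE u₁ o₀ ⊔ EE o₁ u₂ ⊔ EE o₂ u₁ :=
        EE_le.1 ((le_sup_right.trans le_sup_left).trans le_sup_left)
      have m3 : ev o₁ u₂ ∈ S ⊔ EE u₀ o₁ ⊔ EE u₁ o₀ ⊔ EE o₁ u₂ ⊔ EE o₂ u₁ :=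
        EE_le.1 (le_sup_right.trans le_sup_left)
      have m4 : ev o₂ u₁ ∈ S ⊔ EE u₀ o₁ ⊔ EE u₁ o₀ ⊔ EE o₁ u₂ ⊔ EE o₂ u₁ :=
        EE_le.1 le_sup_right
      have m5 : S ≤ S ⊔ EE u₀ o₁ ⊔ EE u₁ o₀ ⊔ EE o₁ u₂ ⊔ EE o₂ u₁ :=
        (((le_sup_left.trans le_sup_left).trans le_sup_left).trans le_sup_left)
      refine sup_le (sup_le (sup_le (sup_le m5 ?_) ?_) ?_) ?_ <;> rw [EE_le]
      · exact brinv_trans m1 m3
      · exact brinv_trans (brinv_symm m2) (brinv_symm m4)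
      · exact m2
      · exact brinv_symm m1
  -- state BA
  have s3 : S ⊔ EE o₁ u₁ ⊔ EE o₀ u₀ ⊔ EE u₁ o₁ ⊔ EE u₂ o₂ = S' ⊔ EE u₁ o₁ := by
    apply le_antisymm
    · refine sup_le (sup_le (sup_le (sup_le ?_ ?_) ?_) ?_) ?_
      · exact (le_sup_left.trans le_sup_left : S ≤ S').trans le_sup_left
      · rw [EE_comm]; exact le_sup_right
      · exact (le_sup_right.trans le_sup_left : EE o₀ u₀ ≤ S').trans le_sup_left
      · exact le_sup_right
      · exact (le_sup_right : EE u₂ o₂ ≤ S').trans le_sup_left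
    · refine sup_le (sup_le (sup_le ?_ ?_) ?_) ?_
      · exact (((le_sup_left.trans le_sup_left).trans le_sup_left).trans le_sup_left)
      · exact ((le_sup_right.trans le_sup_left).trans le_sup_left)
      · exact le_sup_right
      · exact le_sup_right.trans le_sup_left
  -- state BB
  have s4 : S ⊔ EE o₁ u₁ ⊔ EE o₀ u₀ ⊔ EE o₁ u₂ ⊔ EE o₂ u₁ = S' ⊔ EE u₁ o₂ ⊔ EE o₁ u₂ := by
    apply le_antisymm
    · have m1 : ev o₁ u₂ ∈ S' ⊔ EE u₁ o₂ ⊔ EE o₁ u₂ := EE_le.1 le_sup_right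
      have m2 : ev u₁ o₂ ∈ S' ⊔ EE u₁ o₂ ⊔ EE o₁ u₂ :=
        EE_le.1 (le_sup_right.trans le_sup_left)
      have m3 : ev o₀ u₀ ∈ S' ⊔ EE u₁ o₂ ⊔ EE o₁ u₂ :=
        EE_le.1 (((le_sup_right.trans le_sup_left : EE o₀ u₀ ≤ S').trans le_sup_left).trans
          le_sup_left)
      have m4 : ev u₂ o₂ ∈ S' ⊔ EE u₁ o₂ ⊔ EE o₁ u₂ :=
        EE_le.1 (((le_sup_right : EE u₂ o₂ ≤ S').trans le_sup_left).trans le_sup_left)
      have m5 : S ≤ S' ⊔ EE u₁ o₂ ⊔ EE o₁ u₂ :=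
        (((le_sup_left.trans le_sup_left : S ≤ S').trans le_sup_left).trans le_sup_left)
      refine sup_le (sup_le (sup_le (sup_le m5 ?_) ?_) ?_) ?_ <;> rw [EE_le]
      · exact brinv_trans m1 (brinv_trans m4 (brinv_symm m2))
      · exact m3
      · exact m1
      · exact brinv_symm m2
    · have m1 : ev o₁ u₁ ∈ S ⊔ EE o₁ u₁ ⊔ EE o₀ u₀ ⊔ EE o₁ u₂ ⊔ EE o₂ u₁ :=
        EE_le.1 (((le_sup_right.trans le_sup_left).trans le_sup_left).trans le_sup_left)
      have m2 : ev o₀ u₀ ∈ S ⊔ EE o₁ u₁ ⊔ EE o₀ u₀ ⊔ EE o₁ u₂ ⊔ EE o₂ u₁ :=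
        EE_le.1 ((le_sup_right.trans le_sup_left).trans le_sup_left)
      have m3 : ev o₁ u₂ ∈ S ⊔ EE o₁ u₁ ⊔ EE o₀ u₀ ⊔ EE o₁ u₂ ⊔ EE o₂ u₁ :=
        EE_le.1 (le_sup_right.trans le_sup_left)
      have m4 : ev o₂ u₁ ∈ S ⊔ EE o₁ u₁ ⊔ EE o₀ u₀ ⊔ EE o₁ u₂ ⊔ EE o₂ u₁ :=
        EE_le.1 le_sup_right
      have m5 : S ≤ S ⊔ EE o₁ u₁ ⊔ EE o₀ u₀ ⊔ EE o₁ u₂ ⊔ EE o₂ u₁ :=
        (((le_sup_left.trans le_sup_left).trans le_sup_left).trans le_sup_left)
      refine sup_le (sup_le (sup_le (sup_le m5 ?_) ?_) ?_) ?_ <;> rw [EE_le]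
      · exact m2
      · exact brinv_trans (brinv_symm m3) (brinv_trans m1 (brinv_symm m4))
      · exact brinv_symm m4
      · exact m3
  have e1 := brinv_fresh2 (n := n) hS's hD h₁ h₂ h₃ h₆ h₄
  have e2 := brinv_fresh2 (n := n) hS'' hD h₁ h₂ h₃ h₆ h₄
  have e4 := brinv_fresh2 (n := n) hS's hD h₁ h₂ h₃ h₇ h₅
  have e3 : br (n + 2) D (S' ⊔ EE u₁ o₁) = δ * br n D S' := by
    have e5 : br (n + 1 + 1) D (S' ⊔ EE u₁ o₁) = br (n + 1) D S' :=
      br_fresh h₃ D (fun hh => h₁ (hD _ hh)) (fg_of_le_supp hS's) (brinv_supp_zero hS's h₁)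
    exact e5.trans (br_succ hs D hD hS's)
  rw [s1, s2, s3, s4, e1, e2, e3, e4]
  have t1 : (T 1 : ℤ[T;T⁻¹]) * T 1 = T 2 := by rw [← T_add]; norm_num
  have t2 : (T 1 : ℤ[T;T⁻¹]) * T (-1) = 1 := by rw [← T_add]; norm_num
  have t3 : (T (-1) : ℤ[T;T⁻¹]) * T (-1) = T (-2) := by rw [← T_add]; norm_num
  have t4 : (δ : ℤ[T;T⁻¹]) = -T 2 - T (-2) := rfl
  linear_combination (br n D S') * t1 + (br n D (S ⊔ EE u₀ u₂ ⊔ EE o₀ o₂)) * t2 +
    δ * (br n D S') * t2 + (br n D S') * t3 + (br n D S') * t4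

theorem bracket_r2 {u₀ u₁ u₂ o₀ o₁ o₂ : ℕ} {D : Code}
    (h : Closed (.X u₀ o₁ u₁ o₀ :: .X u₁ o₁ u₂ o₂ :: D)) :
    bracket (.X u₀ o₁ u₁ o₀ :: .X u₁ o₁ u₂ o₂ :: D) = bracket (.P u₀ u₂ :: .P o₀ o₂ :: D) := by
  have hu := h u₁ (by rw [brinv_ends_X, brinv_ends_X]; simp)
  have ho := h o₁ (by rw [brinv_ends_X, brinv_ends_X]; simp)
  rw [brinv_ends_X, brinv_ends_X] at hu ho
  simp only [List.count_cons, beq_self_eq_true, if_true, beq_iff_eq] at hu ho
  have h1 : u₁ ≠ o₁ := by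
    rintro rfl
    simp at hu <;> omega
  have hu1 : u₀ ≠ u₁ := by
    rintro rfl
    simp at hu <;> omega
  have hu2 : o₀ ≠ u₁ := by
    rintro rfl
    simp at hu <;> omega
  have hu3 : u₂ ≠ u₁ := by
    rintro rfl
    simp at hu <;> omega
  have hu4 : o₂ ≠ u₁ := by
    rintro rfl
    simp at hu <;> omega
  have hu5 : u₁ ∉ ends D := by
    intro hh
    have := List.count_pos_iff.2 hh
    omega
  have ho1 : u₀ ≠ o₁ := by
    rintro rfl
    simp at ho <;> omega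
  have ho2 : o₀ ≠ o₁ := by
    rintro rfl
    simp at ho <;> omega
  have ho3 : u₂ ≠ o₁ := by
    rintro rfl
    simp at ho <;> omega
  have ho4 : o₂ ≠ o₁ := by
    rintro rfl
    simp at ho <;> omega
  have ho5 : o₁ ∉ ends D := by
    intro hh
    have := List.count_pos_iff.2 hh
    omega
  have hE : ends (.P u₀ u₂ :: .P o₀ o₂ :: D) = u₀ :: u₂ :: o₀ :: o₂ :: ends D := by
    rw [brinv_ends_P, brinv_ends_P]
  have h2 : o₁ ∉ (ends (.P u₀ u₂ :: .P o₀ o₂ :: D)).toFinset := by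
    rw [hE]
    simp [ho1.symm, ho2.symm, ho3.symm, ho4.symm, ho5]
  have h3 : u₁ ∉ (ends (.P u₀ u₂ :: .P o₀ o₂ :: D)).toFinset := by
    rw [hE]
    simp [hu1.symm, hu2.symm, hu3.symm, hu4.symm, hu5]
  have h4 : nl (.X u₀ o₁ u₁ o₀ :: .X u₁ o₁ u₂ o₂ :: D) =
      nl (.P u₀ u₂ :: .P o₀ o₂ :: D) + 2 := by
    unfold nl
    have : (ends (.X u₀ o₁ u₁ o₀ :: .X u₁ o₁ u₂ o₂ :: D)).toFinset =
        insert u₁ (insert o₁ (ends (.P u₀ u₂ :: .P o₀ o₂ :: D)).toFinset) := by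
      rw [hE, brinv_ends_X, brinv_ends_X]
      ext x
      simp only [List.mem_toFinset, List.mem_cons, Finset.mem_insert]
      tauto
    rw [this, Finset.card_insert_of_notMem, Finset.card_insert_of_notMem h2]
    simp only [Finset.mem_insert, not_or]
    exact ⟨h1, h3⟩
  unfold bracket
  rw [h4]
  refine br_r2 (s := (ends (.P u₀ u₂ :: .P o₀ o₂ :: D)).toFinset) le_rfl bot_le ?_ h3 h2 h1
    ?_ ?_ ?_ ?_
  · intro a ha
    rw [hE]
    simp [ha]
  all_goals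
    rw [hE]
    simp

end Pool.Agent.MP_204846_gt
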