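import Pool.Agent.Lib_MP_204846_gt.BrInv

/-!
# MP_204846_gt, piece BrR3: invariance of the bracket under R3

Proof (Kauffman). Expand the crossing of `m` and `b` on both sides. In one of the smoothings the
labels `m₁` and `b₁` are joined (left: `EE m₂ b₂ ⊔ EE m₁ b₁`, right: `EE b₀ m₀ ⊔ EE m₁ b₁`); contract
them by `br_point` and apply `br_r2` (after `bracket_turn` type symmetries: `br` of `X a b c d` and of
`X c d a b` agree): both sides become the bracket of `P m₀ b₀ :: P m₂ b₂ :: P t₀ t₂ :: D`. In the other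
smoothing left: `EE b₁ m₂ ⊔ EE b₂ m₁`, right: `EE b₀ m₁ ⊔ EE b₁ m₀`; contracting the labels `b₁`, `m₁`
both sides become the bracket of `X m₀ t₁ b₂ t₀ :: X b₀ t₂ m₂ t₁ :: D`. (In a closed code the labels
`t₁, m₁, b₁` do not occur in `D` and are different from the other labels and from each other.)
`bracket_r3'` is the mirror image; the same proof works, or use a symmetry.
-/

namespace Pool.Agent.MP_204846_gt

open Module LaurentPolynomial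

private theorem r3_turn (a b c d : ℕ) (n : ℕ) (D : Code) (S : Submodule (ZMod 2) VV) :
    br n (.X a b c d :: D) S = br n (.X c d a b :: D) S := by
  simp only [br]
  rw [sup_right_comm S (EE c d), sup_right_comm S (EE d a)]

private theorem r3_exp (a b c d : ℕ) (n : ℕ) (D : Code) (S : Submodule (ZMod 2) VV) :
    br n (.X a b c d :: D) S = T 1 * br n D (S ⊔ EE a b ⊔ EE c d)
      + T (-1) * br n D (S ⊔ EE b c ⊔ EE d a) := by
  rw [br]

private theorem r3_swap (N M : Node) (n : ℕ) (D : Code) (S : Submodule (ZMod 2) VV) :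
    br n (N :: M :: D) S = br n (M :: N :: D) S :=
  br_perm (List.Perm.swap M N D) n S

private theorem r3_turn₂ (N : Node) (a b c d : ℕ) (n : ℕ) (D : Code)
    (S : Submodule (ZMod 2) VV) :
    br n (N :: .X a b c d :: D) S = br n (N :: .X c d a b :: D) S := by
  rw [r3_swap, r3_turn, r3_swap]

private theorem r3_map_id {D : Code} {a b : ℕ} (h : b ∉ ends D) :
    D.map (Node.map (rn a b)) = D := by
  induction D with
  | nil => rfl
  | cons N D ih =>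
    have h' : b ∉ N.ends ∧ b ∉ ends D := by
      simpa [ends, not_or] using h
    rw [List.map_cons, ih h'.2]
    congr 1
    rcases N with ⟨p, q, r, t⟩ | ⟨p, q⟩
    · have h1 := h'.1
      simp only [Node.ends, List.mem_cons, List.not_mem_nil, or_false, not_or] at h1
      obtain ⟨h2, h3, h4, h5⟩ := h1
      simp only [Node.map, rn, if_neg (Ne.symm h2), if_neg (Ne.symm h3), if_neg (Ne.symm h4),
        if_neg (Ne.symm h5)]
    · have h1 := h'.1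
      simp only [Node.ends, List.mem_cons, List.not_mem_nil, or_false, not_or] at h1
      obtain ⟨h2, h3⟩ := h1
      simp only [Node.map, rn, if_neg (Ne.symm h2), if_neg (Ne.symm h3)]

private theorem r3_rn_self (a b : ℕ) : rn a b b = a := by simp [rn]

private theorem r3_rn_ne {a b x : ℕ} (h : x ≠ b) : rn a b x = x := by simp [rn, h]

/-- The smoothing which joins `u` and `v`. -/
private theorem r3_join {s : Finset ℕ} {D : Code} (hD : ∀ a ∈ ends D, a ∈ s)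
    {x₀ x₂ y₀ y₂ p q t u v : ℕ} (hx₀ : x₀ ∈ s) (hx₂ : x₂ ∈ s) (hy₀ : y₀ ∈ s) (hy₂ : y₂ ∈ s)
    (hp : p ∈ s) (hq : q ∈ s) (ht : t ∉ s) (hu : u ∉ s) (hv : v ∉ s)
    (htu : t ≠ u) (htv : t ≠ v) (huv : u ≠ v) :
    br (s.card + 3) (.X x₀ t u y₀ :: .X x₂ y₂ v t :: D) (EE p q ⊔ EE u v)
      = br s.card D (EE p q ⊔ EE x₀ x₂ ⊔ EE y₀ y₂) := by
  have hne : ∀ {x w : ℕ}, x ∈ s → w ∉ s → x ≠ w := fun hx hw h => hw (h ▸ hx)
  rw [show s.card + 3 = (s.card + 2) + 1 from rfl, br_point huv _ (EE_fg p q), map_EE,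
    r3_rn_ne (hne hp hv), r3_rn_ne (hne hq hv), List.map_cons, List.map_cons,
    r3_map_id (fun h => hv (hD _ h))]
  simp only [Node.map, r3_rn_self, r3_rn_ne (hne hx₀ hv), r3_rn_ne (hne hx₂ hv),
    r3_rn_ne (hne hy₀ hv), r3_rn_ne (hne hy₂ hv), r3_rn_ne htv, r3_rn_ne huv]
  rw [r3_turn₂, br_r2 (s := s) le_rfl (EE_le_supp hp hq) hD hu ht (Ne.symm htu) hx₀ hx₂ hy₀ hy₂]
  simp only [br]

/-- The other smoothing. -/
private theorem r3_other {k : ℕ} (E : Code) {p q u v : ℕ}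
    (hpu : p ≠ u) (hpv : p ≠ v) (hqu : q ≠ u) (huv : u ≠ v) :
    br (k + 2) E (EE p v ⊔ EE q u)
      = br k ((E.map (Node.map (rn q u))).map (Node.map (rn p v))) ⊥ := by
  rw [show k + 2 = (k + 1) + 1 from rfl, br_point hqu _ (EE_fg p v), map_EE, r3_rn_ne hpu,
    r3_rn_ne (Ne.symm huv), ← bot_sup_eq (EE p v), br_point hpv _ Submodule.fg_bot,
    Submodule.map_bot]

private theorem r3_notMem {x : ℕ} {l l' : List ℕ} (h : l.Perm (x :: x :: l'))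
    (h2 : l.count x = 2) : x ∉ l' := by
  rw [h.count_eq, List.count_cons_self, List.count_cons_self] at h2
  rw [← List.count_eq_zero]
  omega

theorem bracket_r3 {t₀ t₁ t₂ m₀ m₁ m₂ b₀ b₁ b₂ : ℕ} {D : Code}
    (h : Closed (.X b₁ m₂ b₂ m₁ :: .X m₀ t₁ m₁ t₀ :: .X b₀ t₂ b₁ t₁ :: D)) :
    bracket (.X b₁ m₂ b₂ m₁ :: .X m₀ t₁ m₁ t₀ :: .X b₀ t₂ b₁ t₁ :: D) =
      bracket (.X b₀ m₁ b₁ m₀ :: .X b₁ t₁ b₂ t₀ :: .X m₁ t₂ m₂ t₁ :: D) := by
  have hb : b₁ ∉ [m₂, b₂, m₁, m₀, t₁, m₁, t₀, b₀, t₂, t₁] ++ ends D := by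
    refine r3_notMem (l := ends (.X b₁ m₂ b₂ m₁ :: .X m₀ t₁ m₁ t₀ :: .X b₀ t₂ b₁ t₁ :: D)) ?_
      (h b₁ (by simp [ends, Node.ends]))
    rw [List.perm_iff_count]
    intro a
    simp only [ends, List.flatMap_cons, Node.ends, List.count_append, List.count_cons,
      List.count_nil]
    ring
  have hm : m₁ ∉ [b₁, m₂, b₂, m₀, t₁, t₀, b₀, t₂, b₁, t₁] ++ ends D := by
    refine r3_notMem (l := ends (.X b₁ m₂ b₂ m₁ :: .X m₀ t₁ m₁ t₀ :: .X b₀ t₂ b₁ t₁ :: D)) ?_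
      (h m₁ (by simp [ends, Node.ends]))
    rw [List.perm_iff_count]
    intro a
    simp only [ends, List.flatMap_cons, Node.ends, List.count_append, List.count_cons,
      List.count_nil]
    ring
  have ht : t₁ ∉ [b₁, m₂, b₂, m₁, m₀, m₁, t₀, b₀, t₂, b₁] ++ ends D := by
    refine r3_notMem (l := ends (.X b₁ m₂ b₂ m₁ :: .X m₀ t₁ m₁ t₀ :: .X b₀ t₂ b₁ t₁ :: D)) ?_
      (h t₁ (by simp [ends, Node.ends]))
    rw [List.perm_iff_count]
    intro a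
    simp only [ends, List.flatMap_cons, Node.ends, List.count_append, List.count_cons,
      List.count_nil]
    ring
  simp only [List.mem_append, List.mem_cons, List.not_mem_nil, or_false, not_or] at hb hm ht
  obtain ⟨⟨hb1, hb2, hb3, hb4, hb5, -, hb6, hb7, hb8, -⟩, hbD⟩ := hb
  obtain ⟨⟨-, hm1, hm2, hm3, hm4, hm5, hm6, hm7, -, -⟩, hmD⟩ := hm
  obtain ⟨⟨-, ht1, ht2, -, ht3, -, ht4, ht5, ht6, -⟩, htD⟩ := ht
  obtain ⟨s, hs⟩ : ∃ s : Finset ℕ, s = (ends D).toFinset ∪ {b₀, b₂, m₀, m₂, t₀, t₂} := ⟨_, rfl⟩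
  have hD : ∀ a ∈ ends D, a ∈ s := by
    intro a ha
    rw [hs]
    simp [ha]
  have hb0s : b₀ ∈ s := by rw [hs]; simp
  have hb2s : b₂ ∈ s := by rw [hs]; simp
  have hm0s : m₀ ∈ s := by rw [hs]; simp
  have hm2s : m₂ ∈ s := by rw [hs]; simp
  have ht0s : t₀ ∈ s := by rw [hs]; simp
  have ht2s : t₂ ∈ s := by rw [hs]; simp
  have hbs : b₁ ∉ s := by
    rw [hs]; simp [hb1, hb2, hb4, hb6, hb7, hb8, hbD]
  have hms : m₁ ∉ s := by
    rw [hs]; simp [hm1, hm2, hm3, hm5, hm6, hm7, hmD]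
  have hts : t₁ ∉ s := by
    rw [hs]; simp [ht1, ht2, ht3, ht4, ht5, ht6, htD]
  have hcard : (insert b₁ (insert m₁ (insert t₁ s))).card = s.card + 3 := by
    rw [Finset.card_insert_of_notMem, Finset.card_insert_of_notMem,
      Finset.card_insert_of_notMem hts]
    · simp [hm4, hms]
    · simp [hb3, hb5, hbs]
  have hn₁ : nl (.X b₁ m₂ b₂ m₁ :: .X m₀ t₁ m₁ t₀ :: .X b₀ t₂ b₁ t₁ :: D) = s.card + 3 := by
    rw [← hcard, nl]
    refine congrArg Finset.card (Finset.ext fun a => ?_)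
    simp only [ends, List.flatMap_cons, Node.ends, hs, List.mem_toFinset, List.mem_append,
      List.mem_cons, List.not_mem_nil, or_false, Finset.mem_insert, Finset.mem_union,
      Finset.mem_singleton]
    constructor
    · rintro ((h | h | h | h) | (h | h | h | h) | (h | h | h | h) | h) <;> simp [h]
    · rintro (h | h | h | h | h | h | h | h | h | h) <;> simp [h]
  have hn₂ : nl (.X b₀ m₁ b₁ m₀ :: .X b₁ t₁ b₂ t₀ :: .X m₁ t₂ m₂ t₁ :: D) = s.card + 3 := by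
    rw [← hcard, nl]
    refine congrArg Finset.card (Finset.ext fun a => ?_)
    simp only [ends, List.flatMap_cons, Node.ends, hs, List.mem_toFinset, List.mem_append,
      List.mem_cons, List.not_mem_nil, or_false, Finset.mem_insert, Finset.mem_union,
      Finset.mem_singleton]
    constructor
    · rintro ((h | h | h | h) | (h | h | h | h) | (h | h | h | h) | h) <;> simp [h]
    · rintro (h | h | h | h | h | h | h | h | h | h) <;> simp [h]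
  have hne : ∀ {x w : ℕ}, x ∈ s → w ∉ s → x ≠ w := fun hx hw h => hw (h ▸ hx)
  rw [bracket, bracket, hn₁, hn₂]
  -- the smoothing which joins `m₁` and `b₁`
  have e₁ : br (s.card + 3) (.X m₀ t₁ m₁ t₀ :: .X b₀ t₂ b₁ t₁ :: D) (⊥ ⊔ EE m₂ b₂ ⊔ EE m₁ b₁)
      = br s.card D (EE m₂ b₂ ⊔ EE m₀ b₀ ⊔ EE t₀ t₂) := by
    rw [bot_sup_eq, r3_join hD hm0s hb0s ht0s ht2s hm2s hb2s hts hms hbs (Ne.symm hm4)
      (Ne.symm hb5) (Ne.symm hb3)]
  have e₂ : br (s.card + 3) (.X b₁ t₁ b₂ t₀ :: .X m₁ t₂ m₂ t₁ :: D) (⊥ ⊔ EE m₁ b₁ ⊔ EE m₀ b₀)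
      = br s.card D (EE m₂ b₂ ⊔ EE m₀ b₀ ⊔ EE t₀ t₂) := by
    rw [bot_sup_eq, sup_comm (EE m₁ b₁), r3_turn, r3_turn₂, r3_swap,
      r3_join hD hm2s hb2s ht2s ht0s hm0s hb0s hts hms hbs (Ne.symm hm4)
      (Ne.symm hb5) (Ne.symm hb3), sup_comm (EE m₀ b₀) (EE m₂ b₂), EE_comm t₂ t₀]
  -- the other smoothing
  have e₃ : br (s.card + 3) (.X m₀ t₁ m₁ t₀ :: .X b₀ t₂ b₁ t₁ :: D) (⊥ ⊔ EE b₁ m₂ ⊔ EE b₂ m₁)
      = br (s.card + 1) (.X m₀ t₁ b₂ t₀ :: .X b₀ t₂ m₂ t₁ :: D) ⊥ := by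
    rw [bot_sup_eq, EE_comm b₁ m₂, show s.card + 3 = (s.card + 1) + 2 from rfl,
      r3_other _ (hne hm2s hms) (hne hm2s hbs) (hne hb2s hms) (Ne.symm hb3), List.map_cons,
      List.map_cons, List.map_cons, List.map_cons, r3_map_id hmD, r3_map_id hbD]
    simp only [Node.map, r3_rn_self, r3_rn_ne (hne hm0s hms), r3_rn_ne (hne hm0s hbs),
      r3_rn_ne (Ne.symm hm4), r3_rn_ne (Ne.symm hb5), r3_rn_ne (hne ht0s hms),
      r3_rn_ne (hne ht0s hbs), r3_rn_ne (hne hb0s hms), r3_rn_ne (hne hb0s hbs),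
      r3_rn_ne (hne ht2s hms), r3_rn_ne (hne ht2s hbs), r3_rn_ne hb3, r3_rn_ne (hne hb2s hbs)]
  have e₄ : br (s.card + 3) (.X b₁ t₁ b₂ t₀ :: .X m₁ t₂ m₂ t₁ :: D) (⊥ ⊔ EE b₀ m₁ ⊔ EE b₁ m₀)
      = br (s.card + 1) (.X m₀ t₁ b₂ t₀ :: .X b₀ t₂ m₂ t₁ :: D) ⊥ := by
    rw [bot_sup_eq, sup_comm, EE_comm b₁ m₀, show s.card + 3 = (s.card + 1) + 2 from rfl,
      r3_other _ (hne hm0s hms) (hne hm0s hbs) (hne hb0s hms) (Ne.symm hb3), List.map_cons,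
      List.map_cons, List.map_cons, List.map_cons, r3_map_id hmD, r3_map_id hbD]
    simp only [Node.map, r3_rn_self, r3_rn_ne (hne hm2s hms), r3_rn_ne (hne hm2s hbs),
      r3_rn_ne (Ne.symm hm4), r3_rn_ne (Ne.symm hb5), r3_rn_ne (hne ht0s hms),
      r3_rn_ne (hne ht0s hbs), r3_rn_ne (hne hb2s hms), r3_rn_ne (hne hb2s hbs),
      r3_rn_ne (hne ht2s hms), r3_rn_ne (hne ht2s hbs), r3_rn_ne hb3, r3_rn_ne (hne hb0s hbs)]
  refine (r3_exp _ _ _ _ _ _ _).trans (Eq.trans ?_ (r3_exp _ _ _ _ _ _ _).symm)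
  rw [e₁, e₂, e₃, e₄]

theorem bracket_r3' {t₀ t₁ t₂ m₀ m₁ m₂ b₀ b₁ b₂ : ℕ} {D : Code}
    (h : Closed (.X b₁ m₁ b₂ m₂ :: .X m₀ t₀ m₁ t₁ :: .X b₀ t₁ b₁ t₂ :: D)) :
    bracket (.X b₁ m₁ b₂ m₂ :: .X m₀ t₀ m₁ t₁ :: .X b₀ t₁ b₁ t₂ :: D) =
      bracket (.X b₀ m₀ b₁ m₁ :: .X b₁ t₀ b₂ t₁ :: .X m₁ t₁ m₂ t₂ :: D) := by
  have hb : b₁ ∉ [m₂, b₂, m₁, m₀, t₁, m₁, t₀, b₀, t₂, t₁] ++ ends D := by
    refine r3_notMem (l := ends (.X b₁ m₁ b₂ m₂ :: .X m₀ t₀ m₁ t₁ :: .X b₀ t₁ b₁ t₂ :: D)) ?_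
      (h b₁ (by simp [ends, Node.ends]))
    rw [List.perm_iff_count]
    intro a
    simp only [ends, List.flatMap_cons, Node.ends, List.count_append, List.count_cons,
      List.count_nil]
    ring
  have hm : m₁ ∉ [b₁, m₂, b₂, m₀, t₁, t₀, b₀, t₂, b₁, t₁] ++ ends D := by
    refine r3_notMem (l := ends (.X b₁ m₁ b₂ m₂ :: .X m₀ t₀ m₁ t₁ :: .X b₀ t₁ b₁ t₂ :: D)) ?_
      (h m₁ (by simp [ends, Node.ends]))
    rw [List.perm_iff_count]
    intro a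
    simp only [ends, List.flatMap_cons, Node.ends, List.count_append, List.count_cons,
      List.count_nil]
    ring
  have ht : t₁ ∉ [b₁, m₂, b₂, m₁, m₀, m₁, t₀, b₀, t₂, b₁] ++ ends D := by
    refine r3_notMem (l := ends (.X b₁ m₁ b₂ m₂ :: .X m₀ t₀ m₁ t₁ :: .X b₀ t₁ b₁ t₂ :: D)) ?_
      (h t₁ (by simp [ends, Node.ends]))
    rw [List.perm_iff_count]
    intro a
    simp only [ends, List.flatMap_cons, Node.ends, List.count_append, List.count_cons,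
      List.count_nil]
    ring
  simp only [List.mem_append, List.mem_cons, List.not_mem_nil, or_false, not_or] at hb hm ht
  obtain ⟨⟨hb1, hb2, hb3, hb4, hb5, -, hb6, hb7, hb8, -⟩, hbD⟩ := hb
  obtain ⟨⟨-, hm1, hm2, hm3, hm4, hm5, hm6, hm7, -, -⟩, hmD⟩ := hm
  obtain ⟨⟨-, ht1, ht2, -, ht3, -, ht4, ht5, ht6, -⟩, htD⟩ := ht
  obtain ⟨s, hs⟩ : ∃ s : Finset ℕ, s = (ends D).toFinset ∪ {b₀, b₂, m₀, m₂, t₀, t₂} := ⟨_, rfl⟩
  have hD : ∀ a ∈ ends D, a ∈ s := by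
    intro a ha
    rw [hs]
    simp [ha]
  have hb0s : b₀ ∈ s := by rw [hs]; simp
  have hb2s : b₂ ∈ s := by rw [hs]; simp
  have hm0s : m₀ ∈ s := by rw [hs]; simp
  have hm2s : m₂ ∈ s := by rw [hs]; simp
  have ht0s : t₀ ∈ s := by rw [hs]; simp
  have ht2s : t₂ ∈ s := by rw [hs]; simp
  have hbs : b₁ ∉ s := by
    rw [hs]; simp [hb1, hb2, hb4, hb6, hb7, hb8, hbD]
  have hms : m₁ ∉ s := by
    rw [hs]; simp [hm1, hm2, hm3, hm5, hm6, hm7, hmD]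
  have hts : t₁ ∉ s := by
    rw [hs]; simp [ht1, ht2, ht3, ht4, ht5, ht6, htD]
  have hcard : (insert b₁ (insert m₁ (insert t₁ s))).card = s.card + 3 := by
    rw [Finset.card_insert_of_notMem, Finset.card_insert_of_notMem,
      Finset.card_insert_of_notMem hts]
    · simp [hm4, hms]
    · simp [hb3, hb5, hbs]
  have hn₁ : nl (.X b₁ m₁ b₂ m₂ :: .X m₀ t₀ m₁ t₁ :: .X b₀ t₁ b₁ t₂ :: D) = s.card + 3 := by
    rw [← hcard, nl]
    refine congrArg Finset.card (Finset.ext fun a => ?_)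
    simp only [ends, List.flatMap_cons, Node.ends, hs, List.mem_toFinset, List.mem_append,
      List.mem_cons, List.not_mem_nil, or_false, Finset.mem_insert, Finset.mem_union,
      Finset.mem_singleton]
    constructor
    · rintro ((h | h | h | h) | (h | h | h | h) | (h | h | h | h) | h) <;> simp [h]
    · rintro (h | h | h | h | h | h | h | h | h | h) <;> simp [h]
  have hn₂ : nl (.X b₀ m₀ b₁ m₁ :: .X b₁ t₀ b₂ t₁ :: .X m₁ t₁ m₂ t₂ :: D) = s.card + 3 := by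
    rw [← hcard, nl]
    refine congrArg Finset.card (Finset.ext fun a => ?_)
    simp only [ends, List.flatMap_cons, Node.ends, hs, List.mem_toFinset, List.mem_append,
      List.mem_cons, List.not_mem_nil, or_false, Finset.mem_insert, Finset.mem_union,
      Finset.mem_singleton]
    constructor
    · rintro ((h | h | h | h) | (h | h | h | h) | (h | h | h | h) | h) <;> simp [h]
    · rintro (h | h | h | h | h | h | h | h | h | h) <;> simp [h]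
  have hne : ∀ {x w : ℕ}, x ∈ s → w ∉ s → x ≠ w := fun hx hw h => hw (h ▸ hx)
  rw [bracket, bracket, hn₁, hn₂]
  -- the smoothing which joins `m₁` and `b₁`
  have e₁ : br (s.card + 3) (.X m₀ t₀ m₁ t₁ :: .X b₀ t₁ b₁ t₂ :: D) (⊥ ⊔ EE b₁ m₁ ⊔ EE b₂ m₂)
      = br s.card D (EE b₂ m₂ ⊔ EE b₀ m₀ ⊔ EE t₀ t₂) := by
    rw [bot_sup_eq, sup_comm (EE b₁ m₁), r3_swap,
      r3_join hD hb0s hm0s ht2s ht0s hb2s hm2s hts hbs hms (Ne.symm hb5)
      (Ne.symm hm4) hb3, EE_comm t₂ t₀]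
  have e₂ : br (s.card + 3) (.X b₁ t₀ b₂ t₁ :: .X m₁ t₁ m₂ t₂ :: D) (⊥ ⊔ EE b₀ m₀ ⊔ EE b₁ m₁)
      = br s.card D (EE b₂ m₂ ⊔ EE b₀ m₀ ⊔ EE t₀ t₂) := by
    rw [bot_sup_eq, r3_turn, r3_turn₂,
      r3_join hD hb2s hm2s ht0s ht2s hb0s hm0s hts hbs hms (Ne.symm hb5)
      (Ne.symm hm4) hb3, sup_comm (EE b₀ m₀) (EE b₂ m₂)]
  -- the other smoothing
  have e₃ : br (s.card + 3) (.X m₀ t₀ m₁ t₁ :: .X b₀ t₁ b₁ t₂ :: D) (⊥ ⊔ EE m₁ b₂ ⊔ EE m₂ b₁)
      = br (s.card + 1) (.X m₀ t₀ b₂ t₁ :: .X b₀ t₁ m₂ t₂ :: D) ⊥ := by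
    rw [bot_sup_eq, sup_comm, EE_comm m₁ b₂, show s.card + 3 = (s.card + 1) + 2 from rfl,
      r3_other _ (hne hm2s hms) (hne hm2s hbs) (hne hb2s hms) (Ne.symm hb3), List.map_cons,
      List.map_cons, List.map_cons, List.map_cons, r3_map_id hmD, r3_map_id hbD]
    simp only [Node.map, r3_rn_self, r3_rn_ne (hne hm0s hms), r3_rn_ne (hne hm0s hbs),
      r3_rn_ne (Ne.symm hm4), r3_rn_ne (Ne.symm hb5), r3_rn_ne (hne ht0s hms),
      r3_rn_ne (hne ht0s hbs), r3_rn_ne (hne hb0s hms), r3_rn_ne (hne hb0s hbs),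
      r3_rn_ne (hne ht2s hms), r3_rn_ne (hne ht2s hbs), r3_rn_ne hb3, r3_rn_ne (hne hb2s hbs)]
  have e₄ : br (s.card + 3) (.X b₁ t₀ b₂ t₁ :: .X m₁ t₁ m₂ t₂ :: D) (⊥ ⊔ EE m₀ b₁ ⊔ EE m₁ b₀)
      = br (s.card + 1) (.X m₀ t₀ b₂ t₁ :: .X b₀ t₁ m₂ t₂ :: D) ⊥ := by
    rw [bot_sup_eq, EE_comm m₁ b₀, show s.card + 3 = (s.card + 1) + 2 from rfl,
      r3_other _ (hne hm0s hms) (hne hm0s hbs) (hne hb0s hms) (Ne.symm hb3), List.map_cons,
      List.map_cons, List.map_cons, List.map_cons, r3_map_id hmD, r3_map_id hbD]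
    simp only [Node.map, r3_rn_self, r3_rn_ne (hne hm2s hms), r3_rn_ne (hne hm2s hbs),
      r3_rn_ne (Ne.symm hm4), r3_rn_ne (Ne.symm hb5), r3_rn_ne (hne ht0s hms),
      r3_rn_ne (hne ht0s hbs), r3_rn_ne (hne hb2s hms), r3_rn_ne (hne hb2s hbs),
      r3_rn_ne (hne ht2s hms), r3_rn_ne (hne ht2s hbs), r3_rn_ne hb3, r3_rn_ne (hne hb0s hbs)]
  refine (r3_exp _ _ _ _ _ _ _).trans (Eq.trans ?_ (r3_exp _ _ _ _ _ _ _).symm)
  rw [e₁, e₂, e₃, e₄]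

end Pool.Agent.MP_204846_gt
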