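import Pool.Agent.Lib_MP_204846_gt.BrR3

/-!
# MP_204846_gt, piece BrType: the bracket is an invariant of the knot type up to units
-/

namespace Pool.Agent.MP_204846_gt

open Module LaurentPolynomial

theorem same_of_move {D D' : Code} (h : Closed D) (hm : Move D D') :
    Same (bracket D) (bracket D') := by
  cases hm with
  | perm h' => rw [bracket_perm h']; exact Same.refl _
  | label f hf => rw [bracket_label hf]; exact Same.refl _
  | turn a b c d D => rw [bracket_turn]; exact Same.refl _
  | swap a b D => rw [bracket_swap]; exact Same.refl _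
  | point a b D hab => rw [bracket_point hab h]; exact Same.refl _
  | r1 a b c D => exact ⟨1, Or.inr (by rw [bracket_r1 h]; norm_num)⟩
  | r1' a b c D => exact ⟨-1, Or.inr (by rw [bracket_r1' h]; norm_num)⟩
  | r2 u₀ u₁ u₂ o₀ o₁ o₂ D => rw [bracket_r2 h]; exact Same.refl _
  | r3 t₀ t₁ t₂ m₀ m₁ m₂ b₀ b₁ b₂ D => rw [bracket_r3 h]; exact Same.refl _
  | r3' t₀ t₁ t₂ m₀ m₁ m₂ b₀ b₁ b₂ D => rw [bracket_r3' h]; exact Same.refl _

theorem same_of_type {D D' : Diagram} (h : D.type = D'.type) :
    Same (bracket D.code) (bracket D'.code) := by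
  have h' := Quot.eqvGen_exact h
  clear h
  induction h' with
  | rel D D' hm => exact same_of_move D.closed hm
  | refl D => exact Same.refl _
  | symm _ _ _ ih => exact ih.symm
  | trans _ _ _ _ _ ih ih' => exact ih.trans ih'

end Pool.Agent.MP_204846_gt
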