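import Pool.Agent.Lib_MP_204846_gt.PotL

/-!
# MP_204846_gt, piece BudL: the budget
-/

namespace Pool.Agent.MP_204846_gt

private theorem opn_z : opn .z = 0 := rfl

private theorem opn_f : opn .f = 0 := rfl

private theorem opn_o (s c : ℕ) : opn (.o s c) = 1 := rfl

private theorem opn_renM (s c t d : ℕ) (e : Ent) : opn (renM s c t d e) = opn e := by
  cases e with
  | z => rfl
  | f => rfl
  | o u x =>
    simp only [renM]
    split_ifs <;> rfl

private theorem opn_srcM (s c : ℕ) (e : Ent) : opn (srcM s c e) = opn e := by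
  cases e with
  | z => rfl
  | f => rfl
  | o u x =>
    simp only [srcM]
    split_ifs <;> rfl

private theorem opn_updM (s c X : ℕ) (e : Ent) : opn (updM s c X e) = opn e := by
  unfold updM
  split_ifs
  · exact opn_srcM s X e
  · rfl

/-- the assertion about the prices -/
private def PO (k : Kd) (l r0 r1 : Ent) : Out → Prop
  | .bad => True
  | .fin κ => 2 * κ + (xr (opn l) (opn r0) + opn r1) = 2
  | .ok κ TR TL BR ρ =>
    (k.isC = false → xr (opn l) (opn r0) + opn r1 = opn TL + xr (opn TR) (opn BR)) ∧
    (k.isC = true → 2 * κ + (xr (opn l) (opn r0) + opn r1) = 2 + (opn TL + xr (opn TR) (opn BR))) ∧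
    (∀ e, opn (ρ e) = opn e)

private theorem PO_jn {k : Kd} {l r0 r1 : Ent} {s c t d : ℕ} {v w : Out} (hv : PO k l r0 r1 v)
    (hw : PO k l r0 r1 w) : PO k l r0 r1 (jn s c t d v w) := by
  unfold jn
  split_ifs
  · trivial
  · exact hv
  · exact hw

private theorem PO_ite {k : Kd} {l r0 r1 : Ent} {p : Prop} [Decidable p] {w : Out}
    (hw : PO k l r0 r1 w) : PO k l r0 r1 (if p then .bad else w) := by
  split_ifs
  · trivial
  · exact hw

private theorem PO_place (i : ℕ) (k : Kd) (l r0 r1 : Ent) : PO k l r0 r1 (place i k l r0 r1) := by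
  cases r0 with
  | z =>
    cases l <;> cases r1 <;> cases k <;> simp only [place, placeN] <;>
      first
        | trivial
        | (refine PO_jn ?_ ?_ <;> simp [PO, opn_z, opn_f, opn_o, xr, Kd.isC, opn_renM, opn_updM])
        | simp [PO, opn_z, opn_f, opn_o, xr, Kd.isC, opn_renM, opn_updM]
  | f =>
    cases l <;> cases r1 <;> cases k <;> simp only [place, placeN] <;>
      first
        | trivial
        | (refine PO_jn ?_ ?_ <;> simp [PO, opn_z, opn_f, opn_o, xr, Kd.isC, opn_renM, opn_updM])
        | simp [PO, opn_z, opn_f, opn_o, xr, Kd.isC, opn_renM, opn_updM]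
  | o s c =>
    cases l <;> cases r1 <;> cases k <;> simp only [place, placeO] <;>
      first
        | trivial
        | (refine PO_jn ?_ ?_ <;> simp [PO, opn_z, opn_f, opn_o, xr, Kd.isC, opn_renM, opn_updM])
        | (refine PO_ite ?_; simp [PO, opn_z, opn_f, opn_o, xr, Kd.isC, opn_renM, opn_updM])
        | simp [PO, opn_z, opn_f, opn_o, xr, Kd.isC, opn_renM, opn_updM]

/-- The price of a tile and the potential. Case distinction. -/
theorem place_pot {i κ : ℕ} {k : Kd} {l r0 r1 TR TL BR : Ent} {ρ : Ent → Ent}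
    (h : place i k l r0 r1 = .ok κ TR TL BR ρ) :
    (k.isC = false → xr (opn l) (opn r0) + opn r1 = opn TL + xr (opn TR) (opn BR)) ∧
    (k.isC = true → 2 * κ + (xr (opn l) (opn r0) + opn r1) = 2 + (opn TL + xr (opn TR) (opn BR))) ∧
    (∀ e, opn (ρ e) = opn e) := by
  have := PO_place i k l r0 r1
  rw [h] at this
  exact this

theorem place_fin {i κ : ℕ} {k : Kd} {l r0 r1 : Ent} (h : place i k l r0 r1 = .fin κ) :
    2 * κ + (xr (opn l) (opn r0) + opn r1) = 2 := by
  have := PO_place i k l r0 r1
  rw [h] at this
  exact this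

private theorem cnt_cons (e : Ent) (l : LL) : cnt (e :: l) = opn e + cnt l := by
  simp [cnt]

private theorem cnt_map (l : LL) (ρ : Ent → Ent) (h : ∀ e, opn (ρ e) = opn e) :
    cnt (l.map ρ) = cnt l := by
  unfold cnt
  rw [List.map_map]
  congr 1
  apply List.map_congr_left
  intro e _
  exact h e

private theorem newP_C {k : Kd} (hk : k.isC = true) (κ P : ℕ) : newP k κ P = P - (256 + κ) := by
  cases k <;> first | rfl | simp [Kd.isC] at hk

private theorem pays_C {k : Kd} (hk : k.isC = true) {κ P : ℕ} (h1 : 256 ≤ P) (h2 : κ ≤ P % 16) :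
    Pays k κ P := by
  cases k <;> first | exact ⟨h1, h2⟩ | simp [Kd.isC] at hk

/-- One tile is paid: uses `pot_le` for the new state. -/
theorem bud_step {A : Arr} {w h top x y : ℕ} (hx : x < w) (hy : y < h) {l r0 r1 TR TL BR : Ent}
    {L R : LL} {ρ : Ent → Ent} {i κ P : ℕ}
    (hB : Bud A w h top x y (l :: L) (r0 :: r1 :: R) P)
    (hpl : place i (A x y) l r0 r1 = .ok κ TR TL BR ρ)
    (hp : pot (TR :: TL :: L.map ρ) (BR :: R.map ρ) ≤ 2 * rem A w h (x + 1) y Kd.isC) :
    Pays (A x y) κ P ∧
      Bud A w h top (x + 1) y (TR :: TL :: L.map ρ) (BR :: R.map ρ) (newP (A x y) κ P) := by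
  obtain ⟨b, m, hP, hb, hX8, hpot, hC, htop⟩ := hB
  obtain ⟨q1, q2, q3⟩ := place_pot hpl
  have e1 : pot (l :: L) (r0 :: r1 :: R) = cnt L + (opn r1 + cnt R) + xr (opn l) (opn r0) := by
    simp only [pot, cnt_cons]
  have e2 : pot (TR :: TL :: L.map ρ) (BR :: R.map ρ) =
      opn TL + cnt L + cnt R + xr (opn TR) (opn BR) := by
    simp only [pot, cnt_cons, cnt_map _ _ q3]
  have hX := rem_succ (A := A) hx hy Kd.isX
  have hC' := rem_succ (A := A) hx hy Kd.isC
  have hT : y < top → rem A w top x y Kd.isC =
      rem A w top (x + 1) y Kd.isC + if Kd.isC (A x y) = true then 1 else 0 :=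
    fun hyt => rem_succ (A := A) hx hyt Kd.isC
  have htau : ¬ y < top → tau top y = 0 := fun hyt => if_neg hyt
  rw [e1] at hpot
  rw [e2] at hp
  by_cases hk : (A x y).isC = true
  · -- a connector
    have hkX : Kd.isX (A x y) = false := by
      cases hh : A x y <;> simp_all [Kd.isC, Kd.isX]
    rw [hkX] at hX
    rw [hk] at hC' hT
    simp only [Bool.false_eq_true, if_false, if_true] at hX hC' hT
    have q := q2 hk
    have hm : 1 ≤ m := by
      by_cases hyt : y < top
      · have := hT hyt
        have := htop hyt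
        omega
      · have := htau hyt
        omega
    have hκ : κ ≤ b := by omega
    have hPm : P % 16 = b := by omega
    refine ⟨pays_C hk (by omega) (by omega), ?_⟩
    rw [newP_C hk]
    refine ⟨b - κ, m - 1, ?_, ?_, ?_, ?_, ?_, ?_⟩
    · omega
    · omega
    · omega
    · rw [e2]; omega
    · omega
    · intro hyt
      have := hT hyt
      have := htop hyt
      omega
  · have hk' : (A x y).isC = false := by simpa using hk
    have q := q1 hk'
    rw [hk'] at hC' hT
    simp only [Bool.false_eq_true, if_false] at hC' hT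
    cases hh : A x y with
    | bl =>
      have hkX : Kd.isX (A x y) = false := by rw [hh]; rfl
      rw [hkX] at hX
      simp only [Bool.false_eq_true, if_false] at hX
      refine ⟨trivial, b, m, ?_, hb, ?_, ?_, ?_, ?_⟩
      · show P = _
        omega
      · omega
      · rw [e2]; omega
      · omega
      · intro hyt
        have := hT hyt
        have := htop hyt
        omega
    | x =>
      have hkX : Kd.isX (A x y) = true := by rw [hh]; rfl
      rw [hkX] at hX
      simp only [if_true] at hX
      refine ⟨?_, b, m, ?_, hb, ?_, ?_, ?_, ?_⟩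
      · show 16 ≤ P % 256
        omega
      · show P - 16 = _
        omega
      · omega
      · rw [e2]; omega
      · omega
      · intro hyt
        have := hT hyt
        have := htop hyt
        omega
    | aB => rw [hh] at hk'; simp [Kd.isC] at hk'
    | aR => rw [hh] at hk'; simp [Kd.isC] at hk'
    | aT => rw [hh] at hk'; simp [Kd.isC] at hk'
    | aL => rw [hh] at hk'; simp [Kd.isC] at hk'
    | dU => rw [hh] at hk'; simp [Kd.isC] at hk'
    | dD => rw [hh] at hk'; simp [Kd.isC] at hk'
    | hh => rw [hh] at hk'; simp [Kd.isC] at hk'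
    | vv => rw [hh] at hk'; simp [Kd.isC] at hk'

/-- The last tile is paid. -/
theorem bud_fin {A : Arr} {w h top x y : ℕ} (hx : x < w) (hy : y < h) {l r0 r1 : Ent}
    {L R : LL} {i κ P : ℕ} (hB : Bud A w h top x y (l :: L) (r0 :: r1 :: R) P)
    (hpl : place i (A x y) l r0 r1 = .fin κ) (hC : (A x y).isC = true)
    (hL : cnt L = 0) (hR : cnt R = 0) (hX : rem A w h x y Kd.isX = 0) :
    P % 256 < 16 ∧ 256 ≤ P ∧ κ ≤ P % 16 := by
  obtain ⟨b, m, hP, hb, hX8, hpot, hC', htop⟩ := hB
  have q := place_fin hpl
  have e1 : pot (l :: L) (r0 :: r1 :: R) = cnt L + (opn r1 + cnt R) + xr (opn l) (opn r0) := by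
    simp only [pot, cnt_cons]
  rw [e1, hL, hR] at hpot
  have hCs := rem_succ (A := A) hx hy Kd.isC
  have hT : y < top → rem A w top x y Kd.isC =
      rem A w top (x + 1) y Kd.isC + if Kd.isC (A x y) = true then 1 else 0 :=
    fun hyt => rem_succ (A := A) hx hyt Kd.isC
  have htau : ¬ y < top → tau top y = 0 := fun hyt => if_neg hyt
  rw [hC] at hCs hT
  simp only [if_true] at hCs hT
  have hm : 1 ≤ m := by
    by_cases hyt : y < top
    · have := hT hyt
      have := htop hyt
      omega
    · have := htau hyt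
      omega
  rw [hX] at hP
  refine ⟨?_, ?_, ?_⟩ <;> omega

private theorem opn_le (e : Ent) : opn e ≤ 1 := by
  cases e <;> simp [opn]

/-- The next row. -/
theorem bud_next {A : Arr} {w h top y : ℕ} {L : LL} {l r0 r1 : Ent} {R' : LL} {P : ℕ}
    (hB : Bud A w h top w y (l :: L) [r0] P) (hr0 : opn r0 = 0) (hr1 : opn r1 = 0)
    (hR : R'.map opn = (l :: L).reverse.map opn) :
    Bud A w h top 0 (y + 1) [r1] R' (if y + 1 = top then P + 1024 else P) := by
  obtain ⟨b, m, hP, hb, hX8, hpot, hC', htop⟩ := hB
  have e1 : pot (l :: L) [r0] = opn l + cnt L := by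
    have h1 := opn_le l
    have h2 : xr (opn l) 0 = opn l := by
      unfold xr
      split_ifs with h3
      · exact h3.symm
      · omega
    simp only [pot, hr0, h2]
    simp only [cnt, List.map_nil, List.sum_nil]
    omega
  have hc : cnt R' = opn l + cnt L := by
    have : cnt R' = ((l :: L).reverse.map opn).sum := by unfold cnt; rw [hR]
    rw [this, List.map_reverse, List.sum_reverse]
    simp [cnt]
  have e2 : pot [r1] R' = cnt R' := by
    cases R' with
    | nil =>
      exfalso
      simp at hR
    | cons r R'' =>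
      have h1 := opn_le r
      have h2 : xr 0 (opn r) = opn r := by
        unfold xr
        split_ifs with h3
        · exact h3
        · omega
      simp only [pot, hr1, h2, cnt_cons]
      simp only [cnt, List.map_nil, List.sum_nil]
      omega
  have e3 : pot [r1] R' = pot (l :: L) [r0] := by rw [e2, hc, e1]
  have nX := rem_next A w h y Kd.isX
  have nC := rem_next A w h y Kd.isC
  have nT := rem_next A w top y Kd.isC
  by_cases h1 : y + 1 = top
  · rw [if_pos h1]
    have t1 : tau top y = 4 := if_pos (by omega)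
    have t2 : tau top (y + 1) = 0 := if_neg (by omega)
    refine ⟨b, m + 4, ?_, hb, ?_, ?_, ?_, ?_⟩
    · omega
    · omega
    · rw [e3]; omega
    · omega
    · intro h2; omega
  · rw [if_neg h1]
    have t1 : tau top (y + 1) = tau top y := by
      unfold tau
      by_cases h2 : y < top
      · rw [if_pos h2, if_pos (by omega)]
      · rw [if_neg h2, if_neg (by omega)]
    refine ⟨b, m, ?_, hb, ?_, ?_, ?_, ?_⟩
    · omega
    · omega
    · rw [e3]; omega
    · omega
    · intro h2
      have := htop (by omega)
      omega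

end Pool.Agent.MP_204846_gt
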