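import Pool.Agent.Lib_MP_204846_gt.SPlace

/-!
# MP_204846_gt, piece SSpec: the functions of the search in plain form
-/

namespace Pool.Agent.MP_204846_gt

theorem cl_cons (e : Ent) (l : LL) : cl (e :: l) = (decide (opn e = 0) && cl l) := by
  cases e <;> simp [cl, opn]

theorem cl_iff (l : LL) : cl l = true ↔ ∀ e ∈ l, opn e = 0 := by
  induction l with
  | nil => simp [cl]
  | cons e l ih => rw [cl_cons]; simp [ih]

theorem cond_beq {α : Type*} (a b : ℕ) (x y : α) : cond (Nat.beq a b) x y = if a = b then x else y := by
  by_cases h : a = b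
  · subst h; simp [Nat.beq_refl]
  · have : Nat.beq a b = false := by
      rw [← Bool.not_eq_true]
      intro hh
      exact h (Nat.eq_of_beq_eq_true hh)
    simp [this, h]

theorem cond_ble {α : Type*} (a b : ℕ) (x y : α) : cond (Nat.ble a b) x y = if a ≤ b then x else y := by
  by_cases h : a ≤ b
  · simp [Nat.ble_eq.mpr h, h]
  · have : Nat.ble a b = false := by
      rw [← Bool.not_eq_true, Nat.ble_eq]; exact h
    simp [this, h]

theorem renE_eq (s c t d : ℕ) (e : Ent) (k : Ent → Bool) : renE s c t d e k = k (renM s c t d e) := by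
  cases e with
  | z => rfl
  | f => rfl
  | o u x =>
    simp only [renE, renM, cond_beq]
    split_ifs <;> rfl

theorem renK_eq (s c t d : ℕ) (l : LL) (k : LL → Bool) :
    renK s c t d l k = k (l.map (renM s c t d)) := by
  induction l generalizing k with
  | nil => rfl
  | cons e l ih =>
    have : renK s c t d (e :: l) k = renE s c t d e fun e' => renK s c t d l fun l => k (e' :: l) := rfl
    rw [this, renE_eq, ih]; rfl

theorem srcE_eq (s c : ℕ) (e : Ent) (k : Ent → Bool) : srcE s c e k = k (srcM s c e) := by
  cases e with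
  | z => rfl
  | f => rfl
  | o u x =>
    simp only [srcE, srcM, cond_beq]
    split_ifs <;> rfl

theorem srcK_eq (s c : ℕ) (l : LL) (k : LL → Bool) : srcK s c l k = k (l.map (srcM s c)) := by
  induction l generalizing k with
  | nil => rfl
  | cons e l ih =>
    have : srcK s c (e :: l) k = srcE s c e fun e' => srcK s c l fun l => k (e' :: l) := rfl
    rw [this, srcE_eq, ih]; rfl

theorem updK_eq (s c X : ℕ) (L R : LL) (k : LL → LL → Bool) :
    updK s c X L R k = k (L.map (updM s c X)) (R.map (updM s c X)) := by
  simp only [updK, cond_beq, updM]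
  split_ifs
  · rw [srcK_eq, srcK_eq]
  · simp

theorem revK_eq (l acc : LL) (k : LL → Bool) : revK l acc k = k (l.reverse ++ acc) := by
  induction l generalizing acc with
  | nil => rfl
  | cons e l ih =>
    have : revK (e :: l) acc k = revK l (e :: acc) k := rfl
    rw [this, ih]; simp

theorem force_eq (n : ℕ) (k : ℕ → Bool) : force n k = k n := by
  cases n <;> rfl

theorem cond_and (a b : Bool) : cond a b false = (a && b) := by cases a <;> rfl
theorem cond_or (a b : Bool) : cond a true b = (a || b) := by cases a <;> rfl

theorem payX_eq (P : ℕ) (k : ℕ → Bool) : payX P k = if 16 ≤ P % 256 then k (P - 16) else true := by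
  simp only [payX, cond_ble]; rfl

theorem pay_eq (κ P : ℕ) (k : ℕ → Bool) :
    pay κ P k = if 256 ≤ P ∧ κ ≤ P % 16 then k (P - (256 + κ)) else true := by
  simp only [pay, cond_ble]
  have h1 : Nat.mod P 16 = P % 16 := rfl
  have h2 : Nat.sub P (Nat.add 256 κ) = P - (256 + κ) := rfl
  rw [h1, h2]
  by_cases h : 256 ≤ P <;> by_cases h' : κ ≤ P % 16 <;> simp [h, h']

theorem joinK_eq (s c t d : ℕ) (L R : LL) (fin : Bool) (k : LL → LL → Bool) :
    joinK s c t d L R fin k = if mono c d = true then true else
      if s = t then fin else k (L.map (renM s c t d)) (R.map (renM s c t d)) := by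
  simp only [joinK, cond_beq, renK_eq]
  cases mono c d <;> simp

theorem finK_eq (κ : ℕ) (L R : LL) (P : ℕ) (v : Bool) (h : finK κ L R P v = true) (hL : cl L = true)
    (hR : cl R = true) (h16 : P % 256 < 16) (hP : 256 ≤ P) (hκ : κ ≤ P % 16) : v = true := by
  simp only [finK, hL, hR, cond_true, cond_ble] at h
  have h1 : Nat.mod P 256 = P % 256 := rfl
  rw [h1, if_neg (by omega), pay_eq, if_pos ⟨hP, hκ⟩] at h
  exact h

theorem beq_eq_decide (a b : ℕ) : Nat.beq a b = decide (a = b) := by
  by_cases h : a = b
  · subst h; simp [Nat.beq_refl]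
  · have : Nat.beq a b = false := by
      rw [← Bool.not_eq_true]
      intro hh
      exact h (Nat.eq_of_beq_eq_true hh)
    simp [this, h]

theorem cond_x1 {α : Type*} (a b s t : ℕ) (x y : α) :
    (bif (if a = b then Nat.beq s t else false) then x else y) = if a = b ∧ s = t then x else y := by
  by_cases h : a = b <;> by_cases h' : s = t <;> simp [h, h', beq_eq_decide]

theorem cond_x2 {α : Type*} (c d e s t u : ℕ) (x y : α) :
    (bif (if c = 0 then (if d = 0 ∧ s = t then true else
      (if e = 0 then Nat.beq s u else false)) else false) then x else y) =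
      if c = 0 ∧ ((d = 0 ∧ s = t) ∨ (e = 0 ∧ s = u)) then x else y := by
  by_cases h1 : c = 0 <;> by_cases h2 : d = 0 <;> by_cases h3 : e = 0 <;> by_cases h4 : s = t <;>
    by_cases h5 : s = u <;> simp [h1, h2, h3, h4, h5, beq_eq_decide]

theorem cellJn_ok {fin : Kd → Bool} {ih : KK} {L R : LL} {P : ℕ} {k : Kd} {s c t d : ℕ} {v w : Out}
    (h : mono c d = true ∨ (s = t ∧ CellOK fin ih L R P k v) ∨ (s ≠ t ∧ CellOK fin ih L R P k w)) :
    CellOK fin ih L R P k (jn s c t d v w) := by
  unfold jn
  rcases h with h | h | h
  · rw [if_pos h]; trivial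
  · rw [if_pos h.1]
    split_ifs
    · trivial
    · exact h.2
  · rw [if_neg h.1]
    split_ifs
    · trivial
    · exact h.2

theorem cellFin_ok {fin : Kd → Bool} {ih : KK} {L R : LL} {P κ : ℕ} {k : Kd}
    (h : finK κ L R P (fin k) = true) : CellOK fin ih L R P k (.fin κ) := fun hL hR h16 hP hκ =>
  finK_eq κ L R P _ h hL hR h16 hP hκ

set_option maxHeartbeats 4000000 in
theorem cell_spec (fin : Kd → Bool) (ih : KK) (i : ℕ) (l r0 r1 : Ent) (L R : LL) (P : ℕ)
    (h : cell fin ih i l r0 r1 L R P = true) (k : Kd) :
    CellOK fin ih L R P k (place i k l r0 r1) := by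
  rcases r0 with _ | _ | ⟨s, c⟩
  all_goals rcases l with _ | _ | ⟨u, e⟩
  all_goals rcases r1 with _ | _ | ⟨t, d⟩
  all_goals simp only [cell, cellO, cellN, ozz, ozf, ozo, ooz, oof, ooo, nzz, nzf, nzo, noz, nof, noo, cond_and, Bool.and_eq_true, updK_eq, joinK_eq, pay_eq, payX_eq, renE_eq, renK_eq, cond_beq] at h
  all_goals cases k
  all_goals simp only [place, placeO, placeN]
  all_goals first
    | trivial
    | (simp only [CellOK, Pays, newP]; intro hp; simp_all; done)
    | (apply cellJn_ok; by_cases hm : mono c d = true
       · exact Or.inl hm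
       · refine Or.inr ?_
         by_cases hst : s = t
         · refine Or.inl ⟨hst, ?_⟩
           first
             | trivial
             | (apply cellFin_ok; simp_all; done)
         · refine Or.inr ⟨hst, ?_⟩
           simp only [CellOK, Pays, newP]; intro hp; simp_all)
    | (apply cellJn_ok; by_cases hm : mono c e = true
       · exact Or.inl hm
       · refine Or.inr ?_
         by_cases hst : s = u
         · refine Or.inl ⟨hst, ?_⟩
           first
             | trivial
             | (apply cellFin_ok; simp_all; done)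
         · refine Or.inr ⟨hst, ?_⟩
           simp only [CellOK, Pays, newP]; intro hp; simp_all)
    | (apply cellJn_ok; by_cases hm : mono e d = true
       · exact Or.inl hm
       · refine Or.inr ?_
         by_cases hst : u = t
         · refine Or.inl ⟨hst, ?_⟩
           first
             | trivial
             | (apply cellFin_ok; simp_all; done)
         · refine Or.inr ⟨hst, ?_⟩
           simp only [CellOK, Pays, newP]; intro hp; simp_all)
    | (simp only [cond_x2, cond_x1, Nat.add_eq] at h
       split_ifs with hx
       · trivial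
       · simp only [CellOK, Pays, newP]
         intro hp
         have h1 := h.1
         try rw [if_neg hx] at h1
         try rw [if_neg (fun hh => hx (Or.inl hh)), if_neg (fun hh => hx (Or.inr hh))] at h1
         rw [if_pos hp] at h1
         simpa only [List.map_map] using h1)
theorem rowM_cell (fin : List Kd → Bool) (nx : List Kd → LL → ℕ → Bool) (i : ℕ) (T : List Kd)
    (l : Ent) (L : LL) (r0 r1 : Ent) (R : LL) (P : ℕ) :
    rowM fin nx (i + 1) T (l :: L) (r0 :: r1 :: R) P =
      cell (fun k => fin (k :: T)) (fun k => rowM fin nx i (k :: T)) (i + 1) l r0 r1 L R P := rfl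

theorem rowM_end (fin : List Kd → Bool) (nx : List Kd → LL → ℕ → Bool) (i : ℕ) (T : List Kd)
    (l : Ent) (L : LL) (r0 : Ent) (P : ℕ) (h : opn r0 = 0) :
    rowM fin nx (i + 1) T (l :: L) [r0] P = nx T (l :: L) P := by
  cases r0 with
  | z => rfl
  | f => rfl
  | o s c => simp [opn] at h

theorem rowD_eq (fo : Bool) (nx : LL → ℕ → Bool) (fuel : ℕ) (T : List Kd) (L R : LL) (P : ℕ) :
    rowD fo nx fuel L R P = rowM (fun _ => fo) (fun _ => nx) fuel T L R P := by
  induction fuel generalizing T L R P with
  | zero => rfl
  | succ i ih =>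
    cases L with
    | nil => rfl
    | cons l L =>
      cases R with
      | nil => rfl
      | cons r0 R =>
        cases R with
        | nil => rfl
        | cons r1 R =>
          have h1 : rowD fo nx (i + 1) (l :: L) (r0 :: r1 :: R) P =
            cell (fun _ => fo) (fun _ => rowD fo nx i) (i + 1) l r0 r1 L R P := rfl
          have h2 : (fun _ : Kd => rowD fo nx i) =
              fun k => rowM (fun _ => fo) (fun _ => nx) i (k :: T) := by
            funext k L R P
            exact ih _ _ _ _
          rw [h1, rowM_cell, h2]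

theorem nextK_eq (top j : ℕ) (L : LL) (P : ℕ) (k : LL → ℕ → Bool) (h : cl L = false) :
    nextK top j L P k = canK L.reverse 1 .nil .nil fun R =>
      k R (if j + top = 15 then P + 1024 else P) := by
  simp only [nextK, h, cond_false, revK_eq, List.append_nil, force_eq, cond_beq]
  rfl

theorem dead_succ (hmin top w j : ℕ) (R : LL) (P : ℕ) :
    dead hmin top w (j + 1) R P = rowD (Nat.ble 16 (j + hmin))
      (fun L P => nextK top j L P fun R P => cond (dead hmin top w j R P) true false)
      (w + 20) [.z] R P := rfl

theorem mainS_succ (leaf : List Kd → Bool) (hmin top w j : ℕ) (T : List Kd) (R : LL) (P : ℕ) :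
    mainS leaf hmin top w (j + 1) T R P = cond (dead hmin top w (j + 1) R P) true
      (rowM (fun T => cond (Nat.ble 16 (j + hmin)) true (leaf T))
        (fun T L P => nextK top j L P fun R P => mainS leaf hmin top w j T R P)
        (w + 20) T [.z] R P) := rfl

end Pool.Agent.MP_204846_gt
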