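import Pool.Agent.Lib_MP_204846_gt.Rename
import Pool.Agent.Lib_MP_204846_gt.SSpec

/-!
# MP_204846_gt, piece Canon: canonical names
-/

namespace Pool.Agent.MP_204846_gt

/-- the first value with the given key -/
def AL.get : AL → ℕ → Option ℕ
  | .nil, _ => none
  | .cons k v t, x => if k = x then some v else t.get x

theorem AL.get_cons (k v : ℕ) (t : AL) (x : ℕ) :
    (AL.cons k v t).get x = if k = x then some v else t.get x := rfl

theorem look_eq (S : AL) (key : ℕ) (nf : Bool) (fd : ℕ → Bool) :
    look S key nf fd = match S.get key with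
      | none => nf
      | some v => fd v := by
  induction S with
  | nil => rfl
  | cons k v t ih =>
    have : look (.cons k v t) key nf fd = cond (Nat.beq k key) (fd v) (look t key nf fd) := rfl
    rw [this, cond_beq, AL.get_cons]
    split_ifs with h
    · rfl
    · exact ih

/-- the values are between `1` and `p - 1` and pairwise different -/
structure AL.Good (p : ℕ) (S : AL) : Prop where
  pos : ∀ x v, S.get x = some v → 1 ≤ v ∧ v < p
  inj : ∀ x y v, S.get x = some v → S.get y = some v → x = y

theorem AL.Good.succ {p : ℕ} {S : AL} (h : S.Good p) : S.Good (p + 1) :=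
  ⟨fun x v hx => ⟨(h.pos x v hx).1, by have := (h.pos x v hx).2; omega⟩, h.inj⟩

theorem AL.Good.cons {p : ℕ} {S : AL} (hp : 1 ≤ p) (h : S.Good p) (x : ℕ) :
    (AL.cons x p S).Good (p + 1) := by
  refine ⟨fun y v hy => ?_, fun y z v hy hz => ?_⟩
  · rw [AL.get_cons] at hy
    split_ifs at hy with h1
    · simp only [Option.some.injEq] at hy
      omega
    · have := h.pos y v hy
      omega
  · rw [AL.get_cons] at hy hz
    split_ifs at hy hz with h1 h2 h2
    · omega
    · simp only [Option.some.injEq] at hy
      have := h.pos z v hz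
      omega
    · simp only [Option.some.injEq] at hz
      have := h.pos y v hy
      omega
    · exact h.inj y z v hy hz

/-- the new association list after the key `x` at the position `p` -/
def AL.ins (S : AL) (x p : ℕ) : AL :=
  match S.get x with
  | none => .cons x p S
  | some _ => S

/-- the value of a key -/
def AL.val (S : AL) (x : ℕ) : ℕ := (S.get x).getD 0

theorem AL.get_ins_self (S : AL) (x p : ℕ) : (S.ins x p).get x = some ((S.ins x p).val x) := by
  unfold AL.val AL.ins
  cases h : S.get x with
  | none => simp [AL.get_cons]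
  | some v => simp [h]

theorem AL.get_ins_of (S : AL) (x p : ℕ) {y v : ℕ} (h : S.get y = some v) :
    (S.ins x p).get y = some v := by
  unfold AL.ins
  cases h' : S.get x with
  | none =>
    have : x ≠ y := by
      rintro rfl
      rw [h] at h'
      exact Option.noConfusion rfl (heq_of_eq h')
    simp [AL.get_cons, this, h]
  | some w => simpa using h

theorem AL.Good.ins {p : ℕ} {S : AL} (hp : 1 ≤ p) (h : S.Good p) (x : ℕ) :
    (S.ins x p).Good (p + 1) := by
  unfold AL.ins
  cases h' : S.get x with
  | none => exact h.cons hp x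
  | some w => exact h.succ

/-- the new list of the crossings -/
def AL.insG (G : AL) (c p : ℕ) : AL := if c = 0 then G else G.ins (c / 4) p

theorem AL.get_insG_of (G : AL) (c p : ℕ) {y v : ℕ} (h : G.get y = some v) :
    (G.insG c p).get y = some v := by
  unfold AL.insG
  split_ifs
  · exact h
  · exact G.get_ins_of _ _ h

theorem AL.Good.insG {p : ℕ} {G : AL} (hp : 1 ≤ p) (h : G.Good p) (c : ℕ) :
    (G.insG c p).Good (p + 1) := by
  unfold AL.insG
  split_ifs
  · exact h.succ
  · exact h.ins hp _

theorem canG_eq (c p : ℕ) (G : AL) (k : ℕ → AL → Bool) :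
    canG c p G k = k (if c = 0 then 0 else 4 * (G.insG c p).val (c / 4) + c % 4) (G.insG c p) := by
  simp only [canG, cond_beq, look_eq, force_eq]
  by_cases hc : c = 0
  · simp [hc, AL.insG]
  · simp only [hc, if_false]
    change (match G.get (c / 4) with
      | none => k (4 * p + c % 4) (.cons (c / 4) p G)
      | some v => k (4 * v + c % 4) G) = _
    simp only [AL.insG, hc, if_false, AL.ins]
    cases h : G.get (c / 4) with
    | none => simp [AL.val, AL.get_cons]
    | some v => simp [AL.val, h]

theorem canK_cons_o (s c : ℕ) (l : LL) (p : ℕ) (S G : AL) (k : LL → Bool) :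
    canK (.o s c :: l) p S G k = canK l (p + 1) (S.ins s p) (G.insG c p) (fun l =>
      k (.o ((S.ins s p).val s)
        (if c = 0 then 0 else 4 * (G.insG c p).val (c / 4) + c % 4) :: l)) := by
  have h : canK (.o s c :: l) p S G k = look S s
      (canG c p G fun c' G => canK l (Nat.succ p) (.cons s p S) G fun l => k (.o p c' :: l))
      (fun v => canG c p G fun c' G => canK l (Nat.succ p) S G fun l => k (.o v c' :: l)) := rfl
  rw [h, look_eq]
  simp only [canG_eq, AL.ins]
  cases h : S.get s with
  | none => simp [AL.val, AL.get_cons]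
  | some v => simp [AL.val, h]

/-- The specification with arbitrary association lists. -/
theorem canK_gen (l : LL) : ∀ (p : ℕ) (S G : AL), 1 ≤ p → S.Good p → G.Good p →
    ∃ σ γ : ℕ → ℕ, (∀ x v, S.get x = some v → σ x = v) ∧ (∀ x v, G.get x = some v → γ x = v) ∧
      (∀ s c, Ent.o s c ∈ l → 1 ≤ σ s ∧ σ s < p + l.length) ∧
      (∀ s c, Ent.o s c ∈ l → c ≠ 0 → 1 ≤ γ (c / 4) ∧ γ (c / 4) < p + l.length) ∧
      (∀ x y, ((∃ v, S.get x = some v) ∨ ∃ c, Ent.o x c ∈ l) →
        ((∃ v, S.get y = some v) ∨ ∃ c, Ent.o y c ∈ l) → σ x = σ y → x = y) ∧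
      (∀ x y, ((∃ v, G.get x = some v) ∨ ∃ s c, Ent.o s c ∈ l ∧ c ≠ 0 ∧ c / 4 = x) →
        ((∃ v, G.get y = some v) ∨ ∃ s c, Ent.o s c ∈ l ∧ c ≠ 0 ∧ c / 4 = y) → γ x = γ y → x = y) ∧
      ∀ k : LL → Bool, canK l p S G k = k (l.map (rnm σ γ)) := by
  induction l with
  | nil =>
    intro p S G hp hS hG
    refine ⟨S.val, G.val, ?_, ?_, ?_, ?_, ?_, ?_, ?_⟩
    · intro x v h
      simp [AL.val, h]
    · intro x v h
      simp [AL.val, h]
    · simp
    · simp
    · rintro x y (⟨v, hv⟩ | ⟨c, hc⟩) (⟨w, hw⟩ | ⟨d, hd⟩) h
      · simp only [AL.val, hv, hw, Option.getD_some] at h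
        subst h
        exact hS.inj x y v hv hw
      all_goals simp_all
    · rintro x y (⟨v, hv⟩ | ⟨s, c, hc, _⟩) (⟨w, hw⟩ | ⟨t, d, hd, _⟩) h
      · simp only [AL.val, hv, hw, Option.getD_some] at h
        subst h
        exact hG.inj x y v hv hw
      all_goals simp_all
    · intro k
      rfl
  | cons e l ih =>
    intro p S G hp hS hG
    cases e with
    | z =>
      obtain ⟨σ, γ, h1, h2, h3, h4, h5, h6, h7⟩ := ih (p + 1) S G (by omega) hS.succ hG.succ
      refine ⟨σ, γ, h1, h2, ?_, ?_, ?_, ?_, ?_⟩
      · intro s c h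
        have := h3 s c (by simpa using h)
        simp only [List.length_cons]
        omega
      · intro s c h hc
        have := h4 s c (by simpa using h) hc
        simp only [List.length_cons]
        omega
      · intro x y hx hy
        exact h5 x y (by simpa using hx) (by simpa using hy)
      · intro x y hx hy
        exact h6 x y (by simpa using hx) (by simpa using hy)
      · intro k
        exact h7 _
    | f =>
      obtain ⟨σ, γ, h1, h2, h3, h4, h5, h6, h7⟩ := ih (p + 1) S G (by omega) hS.succ hG.succ
      refine ⟨σ, γ, h1, h2, ?_, ?_, ?_, ?_, ?_⟩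
      · intro s c h
        have := h3 s c (by simpa using h)
        simp only [List.length_cons]
        omega
      · intro s c h hc
        have := h4 s c (by simpa using h) hc
        simp only [List.length_cons]
        omega
      · intro x y hx hy
        exact h5 x y (by simpa using hx) (by simpa using hy)
      · intro x y hx hy
        exact h6 x y (by simpa using hx) (by simpa using hy)
      · intro k
        exact h7 _
    | o s₀ c₀ =>
      have gS := hS.ins hp s₀
      have gG := hG.insG hp c₀
      obtain ⟨σ, γ, h1, h2, h3, h4, h5, h6, h7⟩ :=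
        ih (p + 1) (S.ins s₀ p) (G.insG c₀ p) (by omega) gS gG
      have hs0 : σ s₀ = (S.ins s₀ p).val s₀ := h1 _ _ (S.get_ins_self s₀ p)
      have hsb := gS.pos _ _ (S.get_ins_self s₀ p)
      have hg : c₀ ≠ 0 → (G.insG c₀ p).get (c₀ / 4) = some ((G.insG c₀ p).val (c₀ / 4)) := by
        intro hc
        simp only [AL.insG, hc, if_false]
        exact G.get_ins_self _ _
      refine ⟨σ, γ, ?_, ?_, ?_, ?_, ?_, ?_, ?_⟩
      · intro x v h
        exact h1 x v (S.get_ins_of _ _ h)
      · intro x v h
        exact h2 x v (G.get_insG_of _ _ h)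
      · intro s c h
        simp only [List.length_cons]
        rcases List.mem_cons.1 h with h | h
        · simp only [Ent.o.injEq] at h
          rw [h.1, hs0]
          omega
        · have := h3 s c h
          omega
      · intro s c h hc
        simp only [List.length_cons]
        rcases List.mem_cons.1 h with h | h
        · simp only [Ent.o.injEq] at h
          rw [h.2] at hc ⊢
          have := gG.pos _ _ (hg hc)
          rw [h2 _ _ (hg hc)]
          omega
        · have := h4 s c h hc
          omega
      · have key : ∀ x, ((∃ v, S.get x = some v) ∨ ∃ c, Ent.o x c ∈ Ent.o s₀ c₀ :: l) →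
            ((∃ v, (S.ins s₀ p).get x = some v) ∨ ∃ c, Ent.o x c ∈ l) := by
          rintro x (⟨v, hv⟩ | ⟨c, hc⟩)
          · exact Or.inl ⟨v, S.get_ins_of _ _ hv⟩
          · rcases List.mem_cons.1 hc with hc | hc
            · simp only [Ent.o.injEq] at hc
              rw [hc.1]
              exact Or.inl ⟨_, S.get_ins_self _ _⟩
            · exact Or.inr ⟨c, hc⟩
        intro x y hx hy
        exact h5 x y (key x hx) (key y hy)
      · have key : ∀ x, ((∃ v, G.get x = some v) ∨
              ∃ s c, Ent.o s c ∈ Ent.o s₀ c₀ :: l ∧ c ≠ 0 ∧ c / 4 = x) →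
            ((∃ v, (G.insG c₀ p).get x = some v) ∨ ∃ s c, Ent.o s c ∈ l ∧ c ≠ 0 ∧ c / 4 = x) := by
          rintro x (⟨v, hv⟩ | ⟨s, c, hc, hc0, hcx⟩)
          · exact Or.inl ⟨v, G.get_insG_of _ _ hv⟩
          · rcases List.mem_cons.1 hc with hc | hc
            · simp only [Ent.o.injEq] at hc
              rw [hc.2] at hc0 hcx
              subst hcx
              exact Or.inl ⟨_, hg hc0⟩
            · exact Or.inr ⟨s, c, hc, hc0, hcx⟩
        intro x y hx hy
        exact h6 x y (key x hx) (key y hy)
      · intro k
        rw [canK_cons_o, h7, List.map_cons]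
        congr 1
        simp only [rnm, hs0]
        by_cases hc : c₀ = 0
        · simp [hc]
        · simp only [hc, if_false, h2 _ _ (hg hc)]

/-- Generalize: start with the position `p` and association lists `S`, `G` whose values are
pairwise different for different keys and less than `p`; the resulting `σ` extends the partial map given
by `S` (`look S s nf fd = fd v` if `(s, v)` is the first pair with key `s` in `S`, and `= nf` if
there is none). -/
theorem canK_spec (l : LL) :
    ∃ σ γ : ℕ → ℕ, RnOK l σ γ l.length ∧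
      ∀ k : LL → Bool, canK l 1 .nil .nil k = k (l.map (rnm σ γ)) := by
  have hnil : (AL.nil).Good 1 :=
    ⟨fun x v h => Option.noConfusion rfl (heq_of_eq h), fun x y v h => Option.noConfusion rfl (heq_of_eq h)⟩
  obtain ⟨σ, γ, -, -, h3, h4, h5, h6, h7⟩ := canK_gen l 1 .nil .nil le_rfl hnil hnil
  refine ⟨σ, γ, ⟨?_, ?_, ?_, ?_⟩, h7⟩
  · intro s c h
    have := h3 s c h
    omega
  · intro s c h hc
    have := h4 s c h hc
    omega
  · intro s c s' c' h h'
    exact h5 s s' (Or.inr ⟨c, h⟩) (Or.inr ⟨c', h'⟩)
  · intro s c s' c' h h' hc hc'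
    exact h6 (c / 4) (c' / 4) (Or.inr ⟨s, c, h, hc, rfl⟩) (Or.inr ⟨s', c', h', hc', rfl⟩)

end Pool.Agent.MP_204846_gt
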