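import Pool.Agent.Lib_MP_204846_gt.Check

/-!
# MP_204846_gt, piece Chain: the mosaic with 15 tiles and 9 crossings, and the Reidemeister moves to a
diagram with 8 crossings (generated by a program)
-/

namespace Pool.Agent.MP_204846_gt

/-- The mosaic with 15 nonblank tiles (rows 4 and 5 are blank). -/
def M₀ : Mosaic 6 := fun x y =>
  match x.val, y.val with
  | 0, 0 => .down
  | 1, 0 => .crossOver
  | 2, 0 => .crossOver
  | 3, 0 => .bottom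
  | 4, 0 => .crossUnder
  | 5, 0 => .up
  | 0, 1 => .crossUnder
  | 3, 1 => .crossOver
  | 5, 1 => .crossOver
  | 0, 2 => .up
  | 1, 2 => .crossOver
  | 2, 2 => .crossOver
  | 4, 2 => .crossUnder
  | 5, 2 => .down
  | 3, 3 => .bottom
  | _, _ => .blank

def c0 : Code :=
  [.P 2 1, .X 1 3 5 4, .P 4 10, .X 6 7 3 2, .X 8 11 10 5, .X 12 13 7 6, .X 14 15 11 8, .P 12 20, .X 21 22 14 13, .P 15 23, .X 20 30 31 21, .X 22 32 33 23, .P 30 43, .X 43 44 32 31, .P 44 33]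

set_option maxRecDepth 100000 in
theorem c0_ok : checkB c0 [2, 1, 5, 11, 14, 21, 30, 43, 32, 23, 15, 8, 10, 4, 3, 6, 13, 22, 33, 44, 31, 20, 12, 7]
    [[0, 1], [0, 2, 3, 1], [3, 1], [4, 2, 0, 1], [5, 1, 3, 2], [6, 2, 4, 1], [7, 1, 5, 2], [1, 6], [8, 7, 2, 6], [7, 1], [1, 9, 8, 6], [8, 10, 1, 7], [1, 9], [1, 10, 8, 9], [1, 10]] = true := by
  decide +kernel

def d0 : Diagram := mkD c0 _ _ c0_ok

def c1 : Code :=
  [.X 2 3 5 4, .P 4 10, .X 6 7 3 2, .X 8 11 10 5, .X 12 13 7 6, .X 14 15 11 8, .P 12 20, .X 21 22 14 13, .P 15 23, .X 20 30 31 21, .X 22 32 33 23, .P 30 43, .X 43 44 32 31, .P 44 33]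

set_option maxRecDepth 100000 in
theorem c1_ok : checkB c1 [2, 5, 11, 14, 21, 30, 43, 32, 23, 15, 8, 10, 4, 3, 6, 13, 22, 33, 44, 31, 20, 12, 7]
    [[0, 1, 2, 3], [2, 3], [4, 1, 0, 3], [5, 3, 2, 1], [6, 1, 4, 3], [7, 3, 5, 1], [3, 6], [8, 7, 1, 6], [7, 3], [3, 9, 8, 6], [8, 10, 3, 7], [3, 9], [3, 10, 8, 9], [3, 10]] = true := by
  decide +kernel

def d1 : Diagram := mkD c1 _ _ c1_ok

def c2 : Code :=
  [.P 4 10, .X 2 3 5 4, .X 6 7 3 2, .X 8 11 10 5, .X 12 13 7 6, .X 14 15 11 8, .P 12 20, .X 21 22 14 13, .P 15 23, .X 20 30 31 21, .X 22 32 33 23, .P 30 43, .X 43 44 32 31, .P 44 33]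

set_option maxRecDepth 100000 in
theorem c2_ok : checkB c2 [4, 10, 8, 15, 23, 32, 43, 30, 21, 14, 11, 5, 2, 7, 12, 20, 31, 44, 33, 22, 13, 6, 3]
    [[0, 1], [2, 3, 0, 1], [4, 3, 2, 1], [5, 1, 0, 3], [6, 3, 4, 1], [7, 1, 5, 3], [1, 6], [8, 7, 3, 6], [7, 1], [1, 9, 8, 6], [8, 10, 1, 7], [1, 9], [1, 10, 8, 9], [1, 10]] = true := by
  decide +kernel

def d2 : Diagram := mkD c2 _ _ c2_ok

def c3 : Code :=
  [.X 2 3 5 4, .X 6 7 3 2, .X 8 11 4 5, .X 12 13 7 6, .X 14 15 11 8, .P 12 20, .X 21 22 14 13, .P 15 23, .X 20 30 31 21, .X 22 32 33 23, .P 30 43, .X 43 44 32 31, .P 44 33]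

set_option maxRecDepth 100000 in
theorem c3_ok : checkB c3 [2, 5, 11, 14, 21, 30, 43, 32, 23, 15, 8, 4, 3, 6, 13, 22, 33, 44, 31, 20, 12, 7]
    [[0, 1, 2, 3], [4, 1, 0, 3], [5, 3, 2, 1], [6, 1, 4, 3], [7, 3, 5, 1], [3, 6], [8, 7, 1, 6], [7, 3], [3, 9, 8, 6], [8, 10, 3, 7], [3, 9], [3, 10, 8, 9], [3, 10]] = true := by
  decide +kernel

def d3 : Diagram := mkD c3 _ _ c3_ok

def c4 : Code :=
  [.P 12 20, .X 2 3 5 4, .X 6 7 3 2, .X 8 11 4 5, .X 12 13 7 6, .X 14 15 11 8, .X 21 22 14 13, .P 15 23, .X 20 30 31 21, .X 22 32 33 23, .P 30 43, .X 43 44 32 31, .P 44 33]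

set_option maxRecDepth 100000 in
theorem c4_ok : checkB c4 [12, 20, 31, 44, 33, 22, 13, 6, 3, 4, 8, 15, 23, 32, 43, 30, 21, 14, 11, 5, 2, 7]
    [[0, 1], [2, 3, 4, 0], [5, 3, 2, 0], [6, 0, 4, 3], [1, 3, 5, 0], [7, 0, 6, 3], [8, 7, 3, 1], [7, 0], [0, 9, 8, 1], [8, 10, 0, 7], [0, 9], [0, 10, 8, 9], [0, 10]] = true := by
  decide +kernel

def d4 : Diagram := mkD c4 _ _ c4_ok

def c5 : Code :=
  [.X 2 3 5 4, .X 6 7 3 2, .X 8 11 4 5, .X 12 13 7 6, .X 14 15 11 8, .X 21 22 14 13, .P 15 23, .X 12 30 31 21, .X 22 32 33 23, .P 30 43, .X 43 44 32 31, .P 44 33]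

set_option maxRecDepth 100000 in
theorem c5_ok : checkB c5 [2, 5, 11, 14, 21, 30, 43, 32, 23, 15, 8, 4, 3, 6, 13, 22, 33, 44, 31, 12, 7]
    [[0, 1, 2, 3], [4, 1, 0, 3], [5, 3, 2, 1], [6, 1, 4, 3], [7, 3, 5, 1], [8, 7, 1, 6], [7, 3], [3, 9, 8, 6], [8, 10, 3, 7], [3, 9], [3, 10, 8, 9], [3, 10]] = true := by
  decide +kernel

def d5 : Diagram := mkD c5 _ _ c5_ok

def c6 : Code :=
  [.P 15 23, .X 2 3 5 4, .X 6 7 3 2, .X 8 11 4 5, .X 12 13 7 6, .X 14 15 11 8, .X 21 22 14 13, .X 12 30 31 21, .X 22 32 33 23, .P 30 43, .X 43 44 32 31, .P 44 33]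

set_option maxRecDepth 100000 in
theorem c6_ok : checkB c6 [15, 23, 32, 43, 30, 21, 14, 11, 5, 2, 7, 12, 31, 44, 33, 22, 13, 6, 3, 4, 8]
    [[0, 1], [2, 3, 4, 1], [5, 3, 2, 1], [6, 1, 4, 3], [7, 3, 5, 1], [0, 1, 6, 3], [8, 0, 3, 7], [1, 9, 8, 7], [8, 10, 1, 0], [1, 9], [1, 10, 8, 9], [1, 10]] = true := by
  decide +kernel

def d6 : Diagram := mkD c6 _ _ c6_ok

def c7 : Code :=
  [.X 2 3 5 4, .X 6 7 3 2, .X 8 11 4 5, .X 12 13 7 6, .X 14 15 11 8, .X 21 22 14 13, .X 12 30 31 21, .X 22 32 33 15, .P 30 43, .X 43 44 32 31, .P 44 33]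

set_option maxRecDepth 100000 in
theorem c7_ok : checkB c7 [2, 5, 11, 14, 21, 30, 43, 32, 15, 8, 4, 3, 6, 13, 22, 33, 44, 31, 12, 7]
    [[0, 1, 2, 3], [4, 1, 0, 3], [5, 3, 2, 1], [6, 1, 4, 3], [7, 3, 5, 1], [8, 7, 1, 6], [3, 9, 8, 6], [8, 10, 3, 7], [3, 9], [3, 10, 8, 9], [3, 10]] = true := by
  decide +kernel

def d7 : Diagram := mkD c7 _ _ c7_ok

def c8 : Code :=
  [.P 30 43, .X 2 3 5 4, .X 6 7 3 2, .X 8 11 4 5, .X 12 13 7 6, .X 14 15 11 8, .X 21 22 14 13, .X 12 30 31 21, .X 22 32 33 15, .X 43 44 32 31, .P 44 33]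

set_option maxRecDepth 100000 in
theorem c8_ok : checkB c8 [30, 43, 32, 15, 8, 4, 3, 6, 13, 22, 33, 44, 31, 12, 7, 2, 5, 11, 14, 21]
    [[0, 1], [2, 3, 4, 0], [5, 3, 2, 0], [6, 0, 4, 3], [7, 3, 5, 0], [8, 0, 6, 3], [9, 8, 3, 7], [0, 1, 9, 7], [9, 10, 0, 8], [0, 10, 9, 1], [0, 10]] = true := by
  decide +kernel

def d8 : Diagram := mkD c8 _ _ c8_ok

def c9 : Code :=
  [.X 2 3 5 4, .X 6 7 3 2, .X 8 11 4 5, .X 12 13 7 6, .X 14 15 11 8, .X 21 22 14 13, .X 12 30 31 21, .X 22 32 33 15, .X 30 44 32 31, .P 44 33]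

set_option maxRecDepth 100000 in
theorem c9_ok : checkB c9 [2, 5, 11, 14, 21, 30, 32, 15, 8, 4, 3, 6, 13, 22, 33, 44, 31, 12, 7]
    [[0, 1, 2, 3], [4, 1, 0, 3], [5, 3, 2, 1], [6, 1, 4, 3], [7, 3, 5, 1], [8, 7, 1, 6], [3, 9, 8, 6], [8, 10, 3, 7], [3, 10, 8, 9], [3, 10]] = true := by
  decide +kernel

def d9 : Diagram := mkD c9 _ _ c9_ok

def c10 : Code :=
  [.P 44 33, .X 2 3 5 4, .X 6 7 3 2, .X 8 11 4 5, .X 12 13 7 6, .X 14 15 11 8, .X 21 22 14 13, .X 12 30 31 21, .X 22 32 33 15, .X 30 44 32 31]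

set_option maxRecDepth 100000 in
theorem c10_ok : checkB c10 [44, 33, 22, 13, 6, 3, 4, 8, 15, 32, 30, 21, 14, 11, 5, 2, 7, 12, 31]
    [[0, 1], [2, 3, 4, 0], [5, 3, 2, 0], [6, 0, 4, 3], [7, 3, 5, 0], [8, 0, 6, 3], [9, 8, 3, 7], [0, 10, 9, 7], [9, 1, 0, 8], [0, 1, 9, 10]] = true := by
  decide +kernel

def d10 : Diagram := mkD c10 _ _ c10_ok

def c11 : Code :=
  [.X 2 3 5 4, .X 6 7 3 2, .X 8 11 4 5, .X 12 13 7 6, .X 14 15 11 8, .X 21 22 14 13, .X 12 30 31 21, .X 22 32 44 15, .X 30 44 32 31]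

set_option maxRecDepth 100000 in
theorem c11_ok : checkB c11 [2, 5, 11, 14, 21, 30, 32, 15, 8, 4, 3, 6, 13, 22, 44, 31, 12, 7]
    [[0, 1, 2, 3], [4, 1, 0, 3], [5, 3, 2, 1], [6, 1, 4, 3], [7, 3, 5, 1], [8, 7, 1, 6], [3, 9, 8, 6], [8, 10, 3, 7], [3, 10, 8, 9]] = true := by
  decide +kernel

def d11 : Diagram := mkD c11 _ _ c11_ok

def c12 : Code :=
  [.X 14 15 11 8, .X 22 32 44 15, .X 21 22 14 13, .X 2 3 5 4, .X 6 7 3 2, .X 8 11 4 5, .X 12 13 7 6, .X 12 30 31 21, .X 30 44 32 31]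

set_option maxRecDepth 100000 in
theorem c12_ok : checkB c12 [14, 11, 5, 2, 7, 12, 31, 44, 22, 13, 6, 3, 4, 8, 15, 32, 30, 21]
    [[0, 1, 2, 3], [4, 5, 1, 0], [4, 0, 3, 6], [7, 3, 8, 1], [9, 3, 7, 1], [2, 1, 8, 3], [6, 3, 9, 1], [1, 10, 4, 6], [1, 5, 4, 10]] = true := by
  decide +kernel

def d12 : Diagram := mkD c12 _ _ c12_ok

def c13 : Code :=
  [.X 11 8 14 15, .X 22 32 44 15, .X 21 22 14 13, .X 2 3 5 4, .X 6 7 3 2, .X 8 11 4 5, .X 12 13 7 6, .X 12 30 31 21, .X 30 44 32 31]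

set_option maxRecDepth 100000 in
theorem c13_ok : checkB c13 [11, 14, 21, 30, 32, 15, 8, 4, 3, 6, 13, 22, 44, 31, 12, 7, 2, 5]
    [[0, 1, 2, 3], [4, 5, 3, 2], [4, 2, 1, 6], [7, 1, 8, 3], [9, 1, 7, 3], [0, 3, 8, 1], [6, 1, 9, 3], [3, 10, 4, 6], [3, 5, 4, 10]] = true := by
  decide +kernel

def d13 : Diagram := mkD c13 _ _ c13_ok

def c14 : Code :=
  [.X 22 32 44 15, .X 11 8 14 15, .X 21 22 14 13, .X 2 3 5 4, .X 6 7 3 2, .X 8 11 4 5, .X 12 13 7 6, .X 12 30 31 21, .X 30 44 32 31]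

set_option maxRecDepth 100000 in
theorem c14_ok : checkB c14 [22, 44, 31, 12, 7, 2, 5, 11, 14, 21, 30, 32, 15, 8, 4, 3, 6, 13]
    [[0, 1, 2, 3], [4, 5, 3, 2], [0, 3, 5, 6], [7, 5, 8, 2], [9, 5, 7, 2], [4, 2, 8, 5], [6, 5, 9, 2], [2, 10, 0, 6], [2, 1, 0, 10]] = true := by
  decide +kernel

def d14 : Diagram := mkD c14 _ _ c14_ok

def c15 : Code :=
  [.X 44 15 22 32, .X 11 8 14 15, .X 21 22 14 13, .X 2 3 5 4, .X 6 7 3 2, .X 8 11 4 5, .X 12 13 7 6, .X 12 30 31 21, .X 30 44 32 31]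

set_option maxRecDepth 100000 in
theorem c15_ok : checkB c15 [44, 22, 13, 6, 3, 4, 8, 15, 32, 30, 21, 14, 11, 5, 2, 7, 12, 31]
    [[0, 1, 2, 3], [4, 5, 1, 0], [2, 1, 5, 6], [7, 5, 8, 0], [9, 5, 7, 0], [4, 0, 8, 5], [6, 5, 9, 0], [0, 10, 2, 6], [0, 3, 2, 10]] = true := by
  decide +kernel

def d15 : Diagram := mkD c15 _ _ c15_ok

def c16 : Code :=
  [.X 21 22 14 13, .X 44 15 22 32, .X 11 8 14 15, .X 2 3 5 4, .X 6 7 3 2, .X 8 11 4 5, .X 12 13 7 6, .X 12 30 31 21, .X 30 44 32 31]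

set_option maxRecDepth 100000 in
theorem c16_ok : checkB c16 [21, 14, 11, 5, 2, 7, 12, 31, 44, 22, 13, 6, 3, 4, 8, 15, 32, 30]
    [[0, 1, 2, 3], [4, 1, 0, 5], [6, 2, 1, 4], [7, 2, 8, 4], [9, 2, 7, 4], [6, 4, 8, 2], [3, 2, 9, 4], [4, 10, 0, 3], [4, 5, 0, 10]] = true := by
  decide +kernel

def d16 : Diagram := mkD c16 _ _ c16_ok

def c17 : Code :=
  [.X 14 13 21 22, .X 44 15 22 32, .X 11 8 14 15, .X 2 3 5 4, .X 6 7 3 2, .X 8 11 4 5, .X 12 13 7 6, .X 12 30 31 21, .X 30 44 32 31]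

set_option maxRecDepth 100000 in
theorem c17_ok : checkB c17 [14, 21, 30, 32, 15, 8, 4, 3, 6, 13, 22, 44, 31, 12, 7, 2, 5, 11]
    [[0, 1, 2, 3], [4, 3, 2, 5], [6, 0, 3, 4], [7, 0, 8, 4], [9, 0, 7, 4], [6, 4, 8, 0], [1, 0, 9, 4], [4, 10, 2, 1], [4, 5, 2, 10]] = true := by
  decide +kernel

def d17 : Diagram := mkD c17 _ _ c17_ok

def c18 : Code :=
  [.X 11 22 14 44, .X 14 15 21 32, .X 22 8 13 15, .X 2 3 5 4, .X 6 7 3 2, .X 8 11 4 5, .X 12 13 7 6, .X 12 30 31 21, .X 30 44 32 31]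

set_option maxRecDepth 100000 in
theorem c18_ok : checkB c18 [11, 14, 21, 30, 32, 15, 8, 4, 3, 6, 13, 22, 44, 31, 12, 7, 2, 5]
    [[0, 1, 2, 3], [1, 4, 5, 2], [0, 6, 4, 1], [7, 6, 8, 3], [9, 6, 7, 3], [0, 3, 8, 6], [4, 6, 9, 3], [3, 10, 5, 4], [3, 2, 5, 10]] = true := by
  decide +kernel

def d18 : Diagram := mkD c18 _ _ c18_ok

def c19 : Code :=
  [.X 11 22 14 44, .X 30 44 32 31, .X 14 15 21 32, .X 22 8 13 15, .X 2 3 5 4, .X 6 7 3 2, .X 8 11 4 5, .X 12 13 7 6, .X 12 30 31 21]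

set_option maxRecDepth 100000 in
theorem c19_ok : checkB c19 [11, 14, 21, 30, 32, 15, 8, 4, 3, 6, 13, 22, 44, 31, 12, 7, 2, 5]
    [[0, 1, 2, 3], [3, 2, 4, 5], [1, 6, 4, 2], [0, 7, 6, 1], [8, 7, 9, 3], [10, 7, 8, 3], [0, 3, 9, 7], [6, 7, 10, 3], [3, 5, 4, 6]] = true := by
  decide +kernel

def d19 : Diagram := mkD c19 _ _ c19_ok

def c20 : Code :=
  [.X 30 44 32 31, .X 11 22 14 44, .X 14 15 21 32, .X 22 8 13 15, .X 2 3 5 4, .X 6 7 3 2, .X 8 11 4 5, .X 12 13 7 6, .X 12 30 31 21]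

set_option maxRecDepth 100000 in
theorem c20_ok : checkB c20 [30, 32, 15, 8, 4, 3, 6, 13, 22, 44, 31, 12, 7, 2, 5, 11, 14, 21]
    [[0, 1, 2, 3], [4, 5, 1, 0], [5, 6, 2, 1], [4, 7, 6, 5], [8, 7, 9, 0], [10, 7, 8, 0], [4, 0, 9, 7], [6, 7, 10, 0], [0, 3, 2, 6]] = true := by
  decide +kernel

def d20 : Diagram := mkD c20 _ _ c20_ok

def c21 : Code :=
  [.X 14 15 21 32, .X 30 44 32 31, .X 11 22 14 44, .X 22 8 13 15, .X 2 3 5 4, .X 6 7 3 2, .X 8 11 4 5, .X 12 13 7 6, .X 12 30 31 21]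

set_option maxRecDepth 100000 in
theorem c21_ok : checkB c21 [14, 21, 30, 32, 15, 8, 4, 3, 6, 13, 22, 44, 31, 12, 7, 2, 5, 11]
    [[0, 1, 2, 3], [4, 3, 2, 5], [6, 0, 3, 4], [6, 7, 1, 0], [8, 7, 9, 4], [10, 7, 8, 4], [6, 4, 9, 7], [1, 7, 10, 4], [4, 5, 2, 1]] = true := by
  decide +kernel

def d21 : Diagram := mkD c21 _ _ c21_ok

def c22 : Code :=
  [.X 11 32 14 30, .X 14 44 21 31, .X 32 22 15 44, .X 22 8 13 15, .X 2 3 5 4, .X 6 7 3 2, .X 8 11 4 5, .X 12 13 7 6, .X 12 30 31 21]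

set_option maxRecDepth 100000 in
theorem c22_ok : checkB c22 [11, 14, 21, 30, 32, 15, 8, 4, 3, 6, 13, 22, 44, 31, 12, 7, 2, 5]
    [[0, 1, 2, 3], [1, 4, 5, 2], [0, 6, 4, 1], [0, 7, 4, 6], [8, 7, 9, 3], [10, 7, 8, 3], [0, 3, 9, 7], [4, 7, 10, 3], [3, 2, 5, 4]] = true := by
  decide +kernel

def d22 : Diagram := mkD c22 _ _ c22_ok

def c23 : Code :=
  [.X 11 32 14 30, .X 12 30 31 21, .X 14 44 21 31, .X 32 22 15 44, .X 22 8 13 15, .X 2 3 5 4, .X 6 7 3 2, .X 8 11 4 5, .X 12 13 7 6]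

set_option maxRecDepth 100000 in
theorem c23_ok : checkB c23 [11, 14, 21, 30, 32, 15, 8, 4, 3, 6, 13, 22, 44, 31, 12, 7, 2, 5]
    [[0, 1, 2, 3], [3, 2, 4, 5], [1, 5, 4, 2], [0, 6, 5, 1], [0, 7, 5, 6], [8, 7, 9, 3], [10, 7, 8, 3], [0, 3, 9, 7], [5, 7, 10, 3]] = true := by
  decide +kernel

def d23 : Diagram := mkD c23 _ _ c23_ok

def c24 : Code :=
  [.X 12 30 31 21, .X 11 32 14 30, .X 14 44 21 31, .X 32 22 15 44, .X 22 8 13 15, .X 2 3 5 4, .X 6 7 3 2, .X 8 11 4 5, .X 12 13 7 6]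

set_option maxRecDepth 100000 in
theorem c24_ok : checkB c24 [12, 31, 44, 22, 13, 6, 3, 4, 8, 15, 32, 30, 21, 14, 11, 5, 2, 7]
    [[0, 1, 2, 3], [4, 5, 1, 0], [5, 3, 2, 1], [4, 6, 3, 5], [4, 7, 3, 6], [8, 7, 9, 0], [10, 7, 8, 0], [4, 0, 9, 7], [3, 7, 10, 0]] = true := by
  decide +kernel

def d24 : Diagram := mkD c24 _ _ c24_ok

def c25 : Code :=
  [.X 14 44 21 31, .X 12 30 31 21, .X 11 32 14 30, .X 32 22 15 44, .X 22 8 13 15, .X 2 3 5 4, .X 6 7 3 2, .X 8 11 4 5, .X 12 13 7 6]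

set_option maxRecDepth 100000 in
theorem c25_ok : checkB c25 [14, 21, 30, 32, 15, 8, 4, 3, 6, 13, 22, 44, 31, 12, 7, 2, 5, 11]
    [[0, 1, 2, 3], [4, 3, 2, 1], [5, 0, 3, 4], [5, 6, 1, 0], [5, 7, 1, 6], [8, 7, 9, 4], [10, 7, 8, 4], [5, 4, 9, 7], [1, 7, 10, 4]] = true := by
  decide +kernel

def d25 : Diagram := mkD c25 _ _ c25_ok

def c26 : Code :=
  [.X 11 31 14 12, .X 14 30 21 21, .X 31 32 44 30, .X 32 22 15 44, .X 22 8 13 15, .X 2 3 5 4, .X 6 7 3 2, .X 8 11 4 5, .X 12 13 7 6]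

set_option maxRecDepth 100000 in
theorem c26_ok : checkB c26 [11, 14, 21, 30, 32, 15, 8, 4, 3, 6, 13, 22, 44, 31, 12, 7, 2, 5]
    [[0, 1, 2, 3], [1, 2, 4, 2], [0, 5, 2, 1], [0, 6, 2, 5], [0, 7, 2, 6], [8, 7, 9, 3], [10, 7, 8, 3], [0, 3, 9, 7], [2, 7, 10, 3]] = true := by
  decide +kernel

def d26 : Diagram := mkD c26 _ _ c26_ok

def c27 : Code :=
  [.X 14 30 21 21, .X 11 31 14 12, .X 31 32 44 30, .X 32 22 15 44, .X 22 8 13 15, .X 2 3 5 4, .X 6 7 3 2, .X 8 11 4 5, .X 12 13 7 6]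

set_option maxRecDepth 100000 in
theorem c27_ok : checkB c27 [14, 21, 30, 32, 15, 8, 4, 3, 6, 13, 22, 44, 31, 12, 7, 2, 5, 11]
    [[0, 1, 2, 1], [3, 0, 1, 4], [3, 5, 1, 0], [3, 6, 1, 5], [3, 7, 1, 6], [8, 7, 9, 4], [10, 7, 8, 4], [3, 4, 9, 7], [1, 7, 10, 4]] = true := by
  decide +kernel

def d27 : Diagram := mkD c27 _ _ c27_ok

def c28 : Code :=
  [.X 21 21 14 30, .X 11 31 14 12, .X 31 32 44 30, .X 32 22 15 44, .X 22 8 13 15, .X 2 3 5 4, .X 6 7 3 2, .X 8 11 4 5, .X 12 13 7 6]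

set_option maxRecDepth 100000 in
theorem c28_ok : checkB c28 [21, 14, 11, 5, 2, 7, 12, 31, 44, 22, 13, 6, 3, 4, 8, 15, 32, 30]
    [[0, 1, 2, 1], [3, 2, 1, 4], [3, 5, 1, 2], [3, 6, 1, 5], [3, 7, 1, 6], [8, 7, 9, 4], [10, 7, 8, 4], [3, 4, 9, 7], [1, 7, 10, 4]] = true := by
  decide +kernel

def d28 : Diagram := mkD c28 _ _ c28_ok

def c29 : Code :=
  [.P 14 30, .X 11 31 14 12, .X 31 32 44 30, .X 32 22 15 44, .X 22 8 13 15, .X 2 3 5 4, .X 6 7 3 2, .X 8 11 4 5, .X 12 13 7 6]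

set_option maxRecDepth 100000 in
theorem c29_ok : checkB c29 [14, 30, 32, 15, 8, 4, 3, 6, 13, 22, 44, 31, 12, 7, 2, 5, 11]
    [[0, 1], [2, 0, 1, 3], [2, 4, 1, 0], [2, 5, 1, 4], [2, 6, 1, 5], [7, 6, 8, 3], [9, 6, 7, 3], [2, 3, 8, 6], [1, 6, 9, 3]] = true := by
  decide +kernel

def d29 : Diagram := mkD c29 _ _ c29_ok

def c30 : Code :=
  [.X 11 31 14 12, .X 31 32 44 14, .X 32 22 15 44, .X 22 8 13 15, .X 2 3 5 4, .X 6 7 3 2, .X 8 11 4 5, .X 12 13 7 6]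

set_option maxRecDepth 100000 in
theorem c30_ok : checkB c30 [11, 14, 32, 15, 8, 4, 3, 6, 13, 22, 44, 31, 12, 7, 2, 5]
    [[0, 1, 2, 3], [0, 4, 2, 1], [0, 5, 2, 4], [0, 6, 2, 5], [7, 6, 8, 3], [9, 6, 7, 3], [0, 3, 8, 6], [2, 6, 9, 3]] = true := by
  decide +kernel

def d30 : Diagram := mkD c30 _ _ c30_ok

theorem s0 : d0.type = d1.type := Quot.sound (Move.point 2 1 _ (by decide))

theorem s1 : d1.type = d2.type := Quot.sound (Move.perm (by decide))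

theorem s2 : d2.type = d3.type := Quot.sound (Move.point 4 10 _ (by decide))

theorem s3 : d3.type = d4.type := Quot.sound (Move.perm (by decide))

theorem s4 : d4.type = d5.type := Quot.sound (Move.point 12 20 _ (by decide))

theorem s5 : d5.type = d6.type := Quot.sound (Move.perm (by decide))

theorem s6 : d6.type = d7.type := Quot.sound (Move.point 15 23 _ (by decide))

theorem s7 : d7.type = d8.type := Quot.sound (Move.perm (by decide))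

theorem s8 : d8.type = d9.type := Quot.sound (Move.point 30 43 _ (by decide))

theorem s9 : d9.type = d10.type := Quot.sound (Move.perm (by decide))

theorem s10 : d10.type = d11.type := Quot.sound (Move.point 44 33 _ (by decide))

theorem s11 : d11.type = d12.type := Quot.sound (Move.perm (by decide))

theorem s12 : d12.type = d13.type := Quot.sound (Move.turn 14 15 11 8 _)

theorem s13 : d13.type = d14.type := Quot.sound (Move.perm (by decide))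

theorem s14 : d14.type = d15.type := Quot.sound (Move.turn 22 32 44 15 _)

theorem s15 : d15.type = d16.type := Quot.sound (Move.perm (by decide))

theorem s16 : d16.type = d17.type := Quot.sound (Move.turn 21 22 14 13 _)

theorem s17 : d17.type = d18.type := Quot.sound (Move.r3 32 15 8 44 22 13 11 14 21 _)

theorem s18 : d18.type = d19.type := Quot.sound (Move.perm (by decide))

theorem s19 : d19.type = d20.type := Quot.sound (Move.perm (by decide))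

theorem s20 : d20.type = d21.type := Quot.sound (Move.perm (by decide))

theorem s21 : d21.type = d22.type := Quot.sound (Move.r3 31 44 22 30 32 15 11 14 21 _)

theorem s22 : d22.type = d23.type := Quot.sound (Move.perm (by decide))

theorem s23 : d23.type = d24.type := Quot.sound (Move.perm (by decide))

theorem s24 : d24.type = d25.type := Quot.sound (Move.perm (by decide))

theorem s25 : d25.type = d26.type := Quot.sound (Move.r3 21 30 32 12 31 44 11 14 21 _)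

theorem s26 : d26.type = d27.type := Quot.sound (Move.perm (by decide))

theorem s27 : d27.type = d28.type := Quot.sound (Move.turn 14 30 21 21 _)

theorem s28 : d28.type = d29.type := Quot.sound (Move.r1 21 14 30 _)

theorem s29 : d29.type = d30.type := Quot.sound (Move.point 14 30 _ (by decide))

theorem type_eq : d0.type = d30.type :=
  s0.trans <| s1.trans <| s2.trans <| s3.trans <| s4.trans <| s5.trans <| s6.trans <| s7.trans <| s8.trans <| s9.trans <| s10.trans <| s11.trans <| s12.trans <| s13.trans <| s14.trans <| s15.trans <| s16.trans <| s17.trans <| s18.trans <| s19.trans <| s20.trans <| s21.trans <| s22.trans <| s23.trans <| s24.trans <| s25.trans <| s26.trans <| s27.trans <| s28.trans <| s29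

set_option maxRecDepth 100000 in
theorem code_M₀ : M₀.code = c0 := by decide +kernel

theorem tiles_M₀ : M₀.tiles = 15 := by decide +kernel

/-- the diagram with 8 crossings -/
def D₈ : Diagram := d30

theorem crossings_D₈ : crossings D₈.code = 8 := by decide +kernel

theorem represents_M₀ : M₀.Represents D₈.type := ⟨d0, code_M₀.symm, type_eq⟩

end Pool.Agent.MP_204846_gt
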