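import Pool.Agent.Lib_MP_204846_gt.Defs

/-!
# MP_204846_gt, piece Check: a test for knot diagrams
-/

namespace Pool.Agent.MP_204846_gt

def closedB (D : Code) : Bool := (ends D).all fun a => (ends D).count a == 2

def thruB : Node → ℕ → ℕ → Bool
  | .X a b c d, u, v => (u == a && v == c) || (u == b && v == d)
  | .P a b, u, v => u == a && v == b

/-- `w` is a walk along the strands -/
def walkB (D : Code) : List ℕ → Bool
  | [] => true
  | [_] => true
  | a :: b :: l => (D.any fun N => thruB N a b || thruB N b a) && walkB D (b :: l)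

def oneCompB (D : Code) (w : List ℕ) : Bool :=
  !D.isEmpty && walkB D w && (ends D).all fun a => w.contains a

/-- the face `F i q` -/
def faceB (F : List (List ℕ)) (i q : ℕ) : ℕ := (F.getD i []).getD q 0

/-- `F` is the list of the lists of the faces at the corners of the nodes -/
def planarB (D : Code) (F : List (List ℕ)) : Bool :=
  ((List.range D.length).all fun i => (List.range (deg D i)).all fun q =>
    (List.range D.length).all fun j => (List.range (deg D j)).all fun r =>
      (i == j && q == r) || slot D i q != slot D j r ||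
        faceB F i q == faceB F j ((r + deg D j - 1) % deg D j)) &&
  (((List.range D.length).flatMap fun i => (List.range (deg D i)).map fun q =>
    faceB F i q).dedup.length == crossings D + 2)

def checkB (D : Code) (w : List ℕ) (F : List (List ℕ)) : Bool :=
  closedB D && oneCompB D w && planarB D F

theorem closed_of_check {D : Code} {w : List ℕ} {F : List (List ℕ)} (h : checkB D w F = true) :
    Closed D := by
  rw [checkB, Bool.and_eq_true, Bool.and_eq_true] at h
  intro a ha
  have h1 := List.all_eq_true.1 h.1.1 a ha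
  exact eq_of_beq h1

private theorem chk_thru {N : Node} {a b : ℕ} (h : thruB N a b = true) : N.Thru a b := by
  cases N with
  | X p q r s =>
    simp only [thruB, Bool.or_eq_true, Bool.and_eq_true, beq_iff_eq] at h
    exact h
  | P p q =>
    simp only [thruB, Bool.and_eq_true, beq_iff_eq] at h
    exact h

private theorem chk_walk {D : Code} (l : List ℕ) (a : ℕ) (h : walkB D (a :: l) = true) (u : ℕ)
    (hu : u ∈ a :: l) : Relation.EqvGen (fun a b => ∃ N ∈ D, N.Thru a b) a u := by
  induction l generalizing a with
  | nil =>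
    rw [List.mem_singleton] at hu
    rw [hu]
    exact Relation.EqvGen.refl _
  | cons b l ih =>
    have h' : (D.any fun N => thruB N a b || thruB N b a) = true ∧ walkB D (b :: l) = true := by
      rw [walkB, Bool.and_eq_true] at h
      exact h
    rcases List.mem_cons.1 hu with rfl | hu
    · exact Relation.EqvGen.refl _
    · have h1 := ih b h'.2 hu
      refine Relation.EqvGen.trans _ _ _ ?_ h1
      obtain ⟨N, hN, h2⟩ := List.any_eq_true.1 h'.1
      simp only [Bool.or_eq_true] at h2
      rcases h2 with h3 | h3
      · exact Relation.EqvGen.rel _ _ ⟨N, hN, chk_thru h3⟩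
      · exact Relation.EqvGen.symm _ _ (Relation.EqvGen.rel _ _ ⟨N, hN, chk_thru h3⟩)

theorem oneComp_of_check {D : Code} {w : List ℕ} {F : List (List ℕ)} (h : checkB D w F = true) :
    OneComp D := by
  rw [checkB, Bool.and_eq_true, Bool.and_eq_true, oneCompB, Bool.and_eq_true,
    Bool.and_eq_true] at h
  obtain ⟨⟨-, ⟨h1, h2⟩, h3⟩, -⟩ := h
  have hmem : ∀ u ∈ ends D, u ∈ w := by
    intro u hu
    have := List.all_eq_true.1 h3 u hu
    simpa using this
  refine ⟨?_, ?_⟩
  · rintro rfl
    simp at h1
  · intro u hu v hv
    rcases w with _ | ⟨a, l⟩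
    · exact absurd (hmem u hu) (by simp)
    · exact Relation.EqvGen.trans _ _ _
        (Relation.EqvGen.symm _ _ (chk_walk l a h2 u (hmem u hu)))
        (chk_walk l a h2 v (hmem v hv))

private theorem chk_slot {D : Code} {i q a : ℕ} (h : slot D i q = some a) :
    i < D.length ∧ q < deg D i := by
  rw [slot, Option.bind_eq_some_iff] at h
  obtain ⟨N, h1, h2⟩ := h
  refine ⟨(List.getElem?_eq_some_iff.1 h1).1, ?_⟩
  rw [deg, h1]
  exact (List.getElem?_eq_some_iff.1 h2).1

private theorem chk_isSome {D : Code} {i q : ℕ} (h1 : i < D.length) (h2 : q < deg D i) :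
    (slot D i q).isSome = true := by
  have e : D[i]? = some D[i] := List.getElem?_eq_getElem h1
  rw [deg, e] at h2
  rw [slot, e]
  have h3 : q < (D[i]).ends.length := h2
  simp [h3]

/-- `slot D i q = some a` implies `i < D.length` and `q < deg D i`. -/
theorem planar_of_check {D : Code} {w : List ℕ} {F : List (List ℕ)} (h : checkB D w F = true) :
    Planar D := by
  rw [checkB, Bool.and_eq_true, Bool.and_eq_true, planarB, Bool.and_eq_true] at h
  obtain ⟨-, h1, h2⟩ := h
  refine ⟨faceB F, ?_, ?_⟩
  · intro i q j r a hi hj hne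
    obtain ⟨i1, i2⟩ := chk_slot hi
    obtain ⟨j1, j2⟩ := chk_slot hj
    have h3 := List.all_eq_true.1 h1 i (List.mem_range.2 i1)
    have h4 := List.all_eq_true.1 h3 q (List.mem_range.2 i2)
    have h5 := List.all_eq_true.1 h4 j (List.mem_range.2 j1)
    have h6 := List.all_eq_true.1 h5 r (List.mem_range.2 j2)
    rw [Bool.or_eq_true, Bool.or_eq_true, Bool.and_eq_true, beq_iff_eq, beq_iff_eq,
      beq_iff_eq] at h6
    rcases h6 with (⟨rfl, rfl⟩ | h6) | h6
    · exact absurd rfl hne
    · rw [hi, hj] at h6
      simp at h6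
    · exact h6
  · have h3 := eq_of_beq h2
    rw [← h3, ← List.card_toFinset, ← Set.ncard_coe_finset]
    congr 1
    ext f
    simp only [Set.mem_ofPred_eq, List.coe_toFinset, List.mem_flatMap, List.mem_range, List.mem_map]
    constructor
    · rintro ⟨i, q, h4, h5⟩
      obtain ⟨a, ha⟩ := Option.isSome_iff_exists.1 h4
      obtain ⟨i1, i2⟩ := chk_slot ha
      exact ⟨i, i1, q, i2, h5⟩
    · rintro ⟨i, i1, q, i2, h5⟩
      exact ⟨i, q, chk_isSome i1 i2, h5⟩

/-- the diagram of a code which passes the test -/
def mkD (D : Code) (w : List ℕ) (F : List (List ℕ)) (h : checkB D w F = true) : Diagram :=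
  ⟨D, closed_of_check h, oneComp_of_check h, planar_of_check h⟩

end Pool.Agent.MP_204846_gt
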