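import Pool.Agent.Lib_MP_204846_gt.Rank

/-!
# MP_204846_gt, piece Circ: the number of circles of opposite states
-/

namespace Pool.Agent.MP_204846_gt

open Module

/-- a connected diagram -/
def Conn (D : Code) : Prop :=
  D ≠ [] ∧ ∀ f : ℕ → Bool, (∀ N ∈ D, ∀ u ∈ N.ends, ∀ v ∈ N.ends, f u = f v) →
    ∀ u ∈ ends D, ∀ v ∈ ends D, f u = f v

theorem circ_thru {N : Node} {u v : ℕ} (h : N.Thru u v) : u ∈ N.ends ∧ v ∈ N.ends := by
  cases N with
  | X a b c d =>
    rcases h with ⟨rfl, rfl⟩ | ⟨rfl, rfl⟩ <;> simp [Node.ends]
  | P a b =>
    rcases h with ⟨rfl, rfl⟩; simp [Node.ends]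

theorem OneComp.conn {D : Code} (h : OneComp D) : Conn D := by
  refine ⟨h.1, fun f hf u hu v hv => ?_⟩
  have := h.2 u hu v hv
  clear hu hv
  induction this with
  | rel x y hxy =>
    obtain ⟨N, hN, hT⟩ := hxy
    exact hf N hN x (circ_thru hT).1 y (circ_thru hT).2
  | refl x => rfl
  | symm x y _ ih => exact ih.symm
  | trans x y z _ _ ih1 ih2 => exact ih1.trans ih2

theorem circ_length_ends (D : Code) : (ends D).length = 2 * D.length + 2 * crossings D := by
  induction D with
  | nil => simp [ends, crossings]
  | cons N D ih =>
    have h1 : ends (N :: D) = N.ends ++ ends D := by simp [ends]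
    rw [h1, List.length_append, ih]
    cases N with
    | X a b c d => simp [Node.ends, crossings, Node.isX]; ring
    | P a b => simp [Node.ends, crossings, Node.isX]; ring

/-- `2 nl = 4 crossings + 2 (number of P)` -/
theorem two_nl {D : Code} (h : Closed D) :
    2 * nl D = 2 * D.length + 2 * crossings D := by
  rw [← circ_length_ends]
  have h1 : ∑ a ∈ (ends D).toFinset, (ends D).count a = (ends D).length :=
    List.sum_toFinset_count_eq_length _
  rw [← h1, Finset.sum_congr rfl (fun a ha => h a (List.mem_toFinset.mp ha)), Finset.sum_const, nl,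
    smul_eq_mul]
  ring

theorem spA_le {D : Code} {s : Finset ℕ} (hD : ∀ a ∈ ends D, a ∈ s) : spA D ≤ supp s := by
  induction D with
  | nil => exact bot_le
  | cons N D ih =>
    have h1 : ends (N :: D) = N.ends ++ ends D := by simp [ends]
    rw [h1] at hD
    have ih' := ih (fun a ha => hD a (by simp [ha]))
    cases N with
    | X a b c d =>
      have hm : ∀ x ∈ [a, b, c, d], x ∈ s := fun x hx => hD x (by simp only [List.mem_append]; exact Or.inl hx)
      exact sup_le (sup_le (EE_le_supp (hm _ (by simp)) (hm _ (by simp)))
        (EE_le_supp (hm _ (by simp)) (hm _ (by simp)))) ih'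
    | P a b =>
      have hm : ∀ x ∈ [a, b], x ∈ s := fun x hx => hD x (by simp only [List.mem_append]; exact Or.inl hx)
      exact sup_le (EE_le_supp (hm _ (by simp)) (hm _ (by simp))) ih'

theorem spB_le {D : Code} {s : Finset ℕ} (hD : ∀ a ∈ ends D, a ∈ s) : spB D ≤ supp s := by
  induction D with
  | nil => exact bot_le
  | cons N D ih =>
    have h1 : ends (N :: D) = N.ends ++ ends D := by simp [ends]
    rw [h1] at hD
    have ih' := ih (fun a ha => hD a (by simp [ha]))
    cases N with
    | X a b c d =>
      have hm : ∀ x ∈ [a, b, c, d], x ∈ s := fun x hx => hD x (by simp only [List.mem_append]; exact Or.inl hx)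
      exact sup_le (sup_le (EE_le_supp (hm _ (by simp)) (hm _ (by simp)))
        (EE_le_supp (hm _ (by simp)) (hm _ (by simp)))) ih'
    | P a b =>
      have hm : ∀ x ∈ [a, b], x ∈ s := fun x hx => hD x (by simp only [List.mem_append]; exact Or.inl hx)
      exact sup_le (EE_le_supp (hm _ (by simp)) (hm _ (by simp))) ih'

/-- the dimension of `supp s` -/
theorem circ_finrank_supp (s : Finset ℕ) : finrank (ZMod 2) (supp s) = s.card := by
  have e := Finsupp.supportedEquivFinsupp (M := ZMod 2) (R := ZMod 2) (s : Set ℕ)
  have h1 : finrank (ZMod 2) (supp s) = finrank (ZMod 2) ((s : Set ℕ) →₀ ZMod 2) := e.finrank_eq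
  rw [h1, Module.finrank_finsupp_self]
  simp

theorem circ_pos_aux {S : Submodule (ZMod 2) VV} {s : Finset ℕ} (hs : s.Nonempty) (hS : S ≤ supp s)
    (hE : ∀ v ∈ S, fnl (fun _ => true) v = 0) : finrank (ZMod 2) S + 1 ≤ s.card := by
  obtain ⟨a, ha⟩ := hs
  have hlt : S < supp s := by
    refine lt_of_le_of_ne hS fun h => ?_
    have h1 : (Finsupp.single a (1 : ZMod 2) : VV) ∈ S := by
      rw [h]
      exact Finsupp.single_mem_supported (ZMod 2) _ (by exact_mod_cast ha)
    have h2 := hE _ h1
    simp [fnl] at h2
  have : FiniteDimensional (ZMod 2) (supp s) := by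
    have := fg_of_le_supp (S := supp s) (s := s) le_rfl
    exact Module.Finite.iff_fg.mpr this
  have := Submodule.finrank_lt_finrank_of_lt hlt
  rw [circ_finrank_supp] at this
  exact this

theorem circ_EE_even {a b : ℕ} : EE a b ≤ LinearMap.ker (fnl (fun _ => true)) := by
  rw [EE_le, LinearMap.mem_ker, fnl_ev]

theorem circ_spA_even (D : Code) : spA D ≤ LinearMap.ker (fnl (fun _ => true)) := by
  induction D with
  | nil => exact bot_le
  | cons N D ih =>
    cases N with
    | X a b c d => exact sup_le (sup_le circ_EE_even circ_EE_even) ih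
    | P a b => exact sup_le circ_EE_even ih

theorem circ_spB_even (D : Code) : spB D ≤ LinearMap.ker (fnl (fun _ => true)) := by
  induction D with
  | nil => exact bot_le
  | cons N D ih =>
    cases N with
    | X a b c d => exact sup_le (sup_le circ_EE_even circ_EE_even) ih
    | P a b => exact sup_le circ_EE_even ih

theorem circ_ends_ne {D : Code} (h : D ≠ []) : (ends D).toFinset.Nonempty := by
  obtain ⟨N, D', rfl⟩ := List.exists_cons_of_ne_nil h
  have h1 : ends (N :: D') = N.ends ++ ends D' := by simp [ends]
  rw [h1]
  cases N with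
  | X a b c d => exact ⟨a, by simp [Node.ends]⟩
  | P a b => exact ⟨a, by simp [Node.ends]⟩

/-- all vectors have even weight, so that there is at least one circle -/
theorem cA_pos {D : Code} (h : D ≠ []) : 1 ≤ cA D := by
  have := circ_pos_aux (circ_ends_ne h) (spA_le (D := D) (fun a ha => List.mem_toFinset.mpr ha))
    (fun v hv => circ_spA_even D hv)
  unfold cA nl
  omega

theorem cB_pos {D : Code} (h : D ≠ []) : 1 ≤ cB D := by
  have := circ_pos_aux (circ_ends_ne h) (spB_le (D := D) (fun a ha => List.mem_toFinset.mpr ha))
    (fun v hv => circ_spB_even D hv)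
  unfold cB nl
  omega

/-- the sum of the ends of a node -/
noncomputable def circXi (N : Node) : VV := (N.ends.map fun a => (Finsupp.single a 1 : VV)).sum

theorem circXi_apply (N : Node) (a : ℕ) : circXi N a = (N.ends.count a : ZMod 2) := by
  unfold circXi
  generalize N.ends = l
  induction l with
  | nil => simp
  | cons x l ih =>
    rw [List.map_cons, List.sum_cons, Finsupp.add_apply, ih, List.count_cons]
    by_cases h : x = a
    · subst h; simp [add_comm]
    · simp [h]

theorem circXi_memA {D : Code} {N : Node} (hN : N ∈ D) : circXi N ∈ spA D := by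
  induction D with
  | nil => simp at hN
  | cons M D ih =>
    have hle : spA D ≤ spA (M :: D) := by
      cases M with
      | X a b c d => exact le_sup_right
      | P a b => exact le_sup_right
    rcases List.mem_cons.mp hN with rfl | hN
    · cases N with
      | X a b c d =>
        have h1 : circXi (.X a b c d) = ev a b + ev c d := by
          simp only [circXi, Node.ends, ev, List.map_cons, List.map_nil, List.sum_cons, List.sum_nil]
          abel
        rw [h1]
        exact Submodule.add_mem _ (Submodule.mem_sup_left (Submodule.mem_sup_left (ev_mem_EE a b)))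
          (Submodule.mem_sup_left (Submodule.mem_sup_right (ev_mem_EE c d)))
      | P a b =>
        have h1 : circXi (.P a b) = ev a b := by
          simp only [circXi, Node.ends, ev, List.map_cons, List.map_nil, List.sum_cons, List.sum_nil]
          abel
        rw [h1]
        exact Submodule.mem_sup_left (ev_mem_EE a b)
    · exact hle (ih hN)

theorem circXi_memB {D : Code} {N : Node} (hN : N ∈ D) : circXi N ∈ spB D := by
  induction D with
  | nil => simp at hN
  | cons M D ih =>
    have hle : spB D ≤ spB (M :: D) := by
      cases M with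
      | X a b c d => exact le_sup_right
      | P a b => exact le_sup_right
    rcases List.mem_cons.mp hN with rfl | hN
    · cases N with
      | X a b c d =>
        have h1 : circXi (.X a b c d) = ev b c + ev d a := by
          simp only [circXi, Node.ends, ev, List.map_cons, List.map_nil, List.sum_cons, List.sum_nil]
          abel
        rw [h1]
        exact Submodule.add_mem _ (Submodule.mem_sup_left (Submodule.mem_sup_left (ev_mem_EE b c)))
          (Submodule.mem_sup_left (Submodule.mem_sup_right (ev_mem_EE d a)))
      | P a b =>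
        have h1 : circXi (.P a b) = ev a b := by
          simp only [circXi, Node.ends, ev, List.map_cons, List.map_nil, List.sum_cons, List.sum_nil]
          abel
        rw [h1]
        exact Submodule.mem_sup_left (ev_mem_EE a b)
    · exact hle (ih hN)

theorem circ_pair_mem {D : Code} {N : Node} (hN : N ∈ D) {u v : ℕ} (hu : u ∈ N.ends) (hv : v ∈ N.ends) :
    ev u v ∈ spA D ⊔ spB D := by
  induction D with
  | nil => simp at hN
  | cons M D ih =>
    have hle : spA D ⊔ spB D ≤ spA (M :: D) ⊔ spB (M :: D) := by
      cases M with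
      | X a b c d => exact sup_le_sup le_sup_right le_sup_right
      | P a b => exact sup_le_sup le_sup_right le_sup_right
    rcases List.mem_cons.mp hN with rfl | hN
    · cases N with
      | X a b c d =>
        set T := spA (.X a b c d :: D) ⊔ spB (.X a b c d :: D) with hT
        have hab : ev a b ∈ T :=
          Submodule.mem_sup_left (Submodule.mem_sup_left (Submodule.mem_sup_left (ev_mem_EE a b)))
        have hcd : ev c d ∈ T :=
          Submodule.mem_sup_left (Submodule.mem_sup_left (Submodule.mem_sup_right (ev_mem_EE c d)))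
        have hbc : ev b c ∈ T :=
          Submodule.mem_sup_right (Submodule.mem_sup_left (Submodule.mem_sup_left (ev_mem_EE b c)))
        have key : ∀ x ∈ [a, b, c, d], ev a x ∈ T := by
          intro x hx
          simp only [List.mem_cons, List.not_mem_nil, or_false] at hx
          have h2 : ev a c ∈ T := by rw [← ev_add a b c]; exact T.add_mem hab hbc
          have h3 : ev a d ∈ T := by rw [← ev_add a c d]; exact T.add_mem h2 hcd
          rcases hx with rfl | rfl | rfl | rfl
          · rw [ev_self]; exact T.zero_mem
          · exact hab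
          · exact h2
          · exact h3
        rw [← ev_add u a v, ev_comm u a]
        exact T.add_mem (key u hu) (key v hv)
      | P a b =>
        set T := spA (.P a b :: D) ⊔ spB (.P a b :: D) with hT
        have hab : ev a b ∈ T := Submodule.mem_sup_left (Submodule.mem_sup_left (ev_mem_EE a b))
        have key : ∀ x ∈ [a, b], ev a x ∈ T := by
          intro x hx
          simp only [List.mem_cons, List.not_mem_nil, or_false] at hx
          rcases hx with rfl | rfl
          · rw [ev_self]; exact T.zero_mem
          · exact hab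
        rw [← ev_add u a v, ev_comm u a]
        exact T.add_mem (key u hu) (key v hv)
    · exact hle (ih hN)

theorem circ_mem_ends {D : Code} {N : Node} (hN : N ∈ D) {u : ℕ} (hu : u ∈ N.ends) : u ∈ ends D :=
  List.mem_flatMap.mpr ⟨N, hN, hu⟩

theorem circ_sup_rank {D : Code} (hc : Conn D) :
    nl D ≤ finrank (ZMod 2) ↥(spA D ⊔ spB D) + 1 := by
  classical
  obtain ⟨u₀, hu₀⟩ := circ_ends_ne hc.1
  rw [List.mem_toFinset] at hu₀
  set T := spA D ⊔ spB D with hT
  have hall : ∀ v ∈ ends D, ev u₀ v ∈ T := by
    intro v hv
    have h1 := hc.2 (fun v => decide (ev u₀ v ∈ T)) (by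
      intro N hN u hu v hv
      have h2 : ev u v ∈ T := circ_pair_mem hN hu hv
      have h3 : ev u₀ v = ev u₀ u + ev u v := (ev_add _ _ _).symm
      have h4 : ev u₀ u = ev u₀ v + ev u v := by rw [ev_comm u v]; exact (ev_add _ _ _).symm
      refine decide_eq_decide.mpr ⟨fun h => ?_, fun h => ?_⟩
      · rw [h3]; exact T.add_mem h h2
      · rw [h4]; exact T.add_mem h h2) u₀ hu₀ v hv
    have h5 : ev u₀ u₀ ∈ T := by rw [ev_self]; exact T.zero_mem
    simp only [h5, decide_true] at h1
    exact of_decide_eq_true h1.symm
  have hTle : T ≤ supp (ends D).toFinset :=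
    sup_le (spA_le fun a ha => List.mem_toFinset.mpr ha) (spB_le fun a ha => List.mem_toFinset.mpr ha)
  have hTfg : T.FG := fg_of_le_supp hTle
  have : Module.Finite (ZMod 2) T := Module.Finite.iff_fg.mpr hTfg
  let L : Submodule (ZMod 2) VV := Submodule.span (ZMod 2) {Finsupp.single u₀ 1}
  have hsup : supp (ends D).toFinset ≤ T ⊔ L := by
    rw [supp, Finsupp.supported_eq_span_single, Submodule.span_le]
    rintro _ ⟨v, hv, rfl⟩
    have hv' : v ∈ ends D := by
      have : v ∈ (ends D).toFinset := by exact_mod_cast hv
      exact List.mem_toFinset.mp this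
    have h6 : (Finsupp.single v 1 : VV) = ev u₀ v + Finsupp.single u₀ 1 := by
      have h2 : (Finsupp.single u₀ 1 : VV) + Finsupp.single u₀ 1 = 0 := ev_self u₀
      rw [ev, add_comm (Finsupp.single u₀ (1 : ZMod 2)) (Finsupp.single v 1), add_assoc, h2, add_zero]
    show (Finsupp.single v 1 : VV) ∈ T ⊔ L
    rw [h6]
    exact Submodule.add_mem _ (Submodule.mem_sup_left (hall v hv'))
      (Submodule.mem_sup_right (Submodule.mem_span_singleton_self _))
  have h7 : finrank (ZMod 2) (supp (ends D).toFinset) ≤ finrank (ZMod 2) ↥(T ⊔ L) :=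
    Submodule.finrank_mono hsup
  have h8 : finrank (ZMod 2) ↥(T ⊔ L) ≤ finrank (ZMod 2) T + finrank (ZMod 2) L :=
    Submodule.finrank_add_le_finrank_add_finrank T L
  have h9 : finrank (ZMod 2) L ≤ 1 := by
    have := finrank_span_le_card (R := ZMod 2) ({Finsupp.single u₀ 1} : Set VV)
    simpa [L] using this
  rw [circ_finrank_supp] at h7
  unfold nl
  omega

theorem circ_inf_rank {D : Code} (h : Closed D) (hc : Conn D) :
    D.length ≤ finrank (ZMod 2) ↥(spA D ⊓ spB D) + 1 := by
  classical
  let φ : (Fin D.length → ZMod 2) →ₗ[ZMod 2] VV :=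
    Fintype.linearCombination (ZMod 2) (fun i : Fin D.length => circXi (D.get i))
  have hφ : ∀ t, φ t = ∑ i, t i • circXi (D.get i) := fun t => rfl
  have hrange : LinearMap.range φ ≤ spA D ⊓ spB D := by
    rintro _ ⟨t, rfl⟩
    rw [hφ]
    exact Submodule.sum_mem _ fun i _ => Submodule.smul_mem _ _
      ⟨circXi_memA (List.get_mem D i), circXi_memB (List.get_mem D i)⟩
  have hker : ∀ t, φ t = 0 → ∀ i j, t i = t j := by
    intro t ht
    have hcount : ∀ a, ∑ i : Fin D.length, (D.get i).ends.count a = (ends D).count a := by
      intro a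
      have h1 : (ends D).count a = (D.map fun N => N.ends.count a).sum := by
        rw [ends, List.count_flatMap]; rfl
      rw [h1, ← List.sum_ofFn]
      congr 1
      have h2 : List.map (fun N : Node => N.ends.count a) (List.ofFn D.get) = List.ofFn ((fun N : Node => N.ends.count a) ∘ D.get) := List.map_ofFn
      rw [List.ofFn_get] at h2
      exact h2.symm
    have hval : ∀ a, ∑ i : Fin D.length, t i * ((D.get i).ends.count a : ZMod 2) = 0 := by
      intro a
      have h1 := DFunLike.congr_fun ht a
      rw [hφ, Finsupp.finsetSum_apply] at h1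
      simpa [circXi_apply] using h1
    have hsh : ∀ i j a, a ∈ (D.get i).ends → a ∈ (D.get j).ends → t i = t j := by
      intro i j a hi hj
      by_cases hij : i = j
      · rw [hij]
      have hci : 1 ≤ (D.get i).ends.count a := List.one_le_count_iff.mpr hi
      have hcj : 1 ≤ (D.get j).ends.count a := List.one_le_count_iff.mpr hj
      have htot : ∑ l : Fin D.length, (D.get l).ends.count a = 2 := by
        rw [hcount]; exact h a (circ_mem_ends (List.get_mem D i) hi)
      have hsplit : ∑ l : Fin D.length, (D.get l).ends.count a =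
          (D.get i).ends.count a + ((D.get j).ends.count a +
            ∑ l ∈ (Finset.univ.erase i).erase j, (D.get l).ends.count a) := by
        rw [← Finset.add_sum_erase _ _ (Finset.mem_univ i),
          ← Finset.add_sum_erase (Finset.univ.erase i) _
            (Finset.mem_erase.mpr ⟨fun h => hij h.symm, Finset.mem_univ j⟩)]
      have hci1 : (D.get i).ends.count a = 1 := by omega
      have hcj1 : (D.get j).ends.count a = 1 := by omega
      have hrest : ∑ l ∈ (Finset.univ.erase i).erase j, (D.get l).ends.count a = 0 := by omega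
      have hrest' : ∀ l ∈ (Finset.univ.erase i).erase j, (D.get l).ends.count a = 0 :=
        (Finset.sum_eq_zero_iff).mp hrest
      have h2 := hval a
      rw [← Finset.add_sum_erase _ _ (Finset.mem_univ i),
          ← Finset.add_sum_erase (Finset.univ.erase i) _
            (Finset.mem_erase.mpr ⟨fun h => hij h.symm, Finset.mem_univ j⟩), hci1, hcj1,
          Finset.sum_eq_zero (fun l hl => by rw [hrest' l hl]; simp)] at h2
      simp only [Nat.cast_one, mul_one, add_zero] at h2
      exact (CharTwo.add_eq_zero).mp h2
    -- the colouring of the labels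
    let f : ℕ → Bool := fun a => if ha : ∃ i : Fin D.length, a ∈ (D.get i).ends then decide (t ha.choose = 1) else false
    have hf : ∀ i a, a ∈ (D.get i).ends → f a = decide (t i = 1) := by
      intro i a ha
      have hex : ∃ i : Fin D.length, a ∈ (D.get i).ends := ⟨i, ha⟩
      have h3 : t hex.choose = t i := hsh _ _ a hex.choose_spec ha
      simp only [f, dif_pos hex, h3]
    have hconst := hc.2 f (by
      intro N hN u hu v hv
      obtain ⟨i, rfl⟩ := List.get_of_mem hN
      rw [hf i u hu, hf i v hv])
    intro i j
    have hne : ∀ N : Node, ∃ a, a ∈ N.ends := by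
      intro N
      cases N with
      | X a b c d => exact ⟨a, by simp [Node.ends]⟩
      | P a b => exact ⟨a, by simp [Node.ends]⟩
    obtain ⟨a, ha⟩ := hne (D.get i)
    obtain ⟨b, hb⟩ := hne (D.get j)
    have h4 := hconst a (circ_mem_ends (List.get_mem D i) ha) b (circ_mem_ends (List.get_mem D j) hb)
    rw [hf i a ha, hf j b hb, decide_eq_decide] at h4
    revert h4
    generalize t i = x
    generalize t j = y
    revert x y
    decide
  have hpos : 0 < D.length := List.length_pos_of_ne_nil hc.1
  have hkerle : finrank (ZMod 2) (LinearMap.ker φ) ≤ 1 := by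
    have h5 : LinearMap.ker φ ≤ Submodule.span (ZMod 2) {(fun _ => 1 : Fin D.length → ZMod 2)} := by
      intro t ht
      rw [Submodule.mem_span_singleton]
      refine ⟨t ⟨0, hpos⟩, ?_⟩
      funext i
      simp only [Pi.smul_apply, smul_eq_mul, mul_one]
      exact hker t (LinearMap.mem_ker.mp ht) _ _
    refine (Submodule.finrank_mono h5).trans ?_
    have := finrank_span_le_card (R := ZMod 2) ({(fun _ => 1 : Fin D.length → ZMod 2)} : Set (Fin D.length → ZMod 2))
    simpa using this
  have hA : (spA D).FG := fg_of_le_supp (spA_le fun a ha => List.mem_toFinset.mpr ha)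
  have hAf : Module.Finite (ZMod 2) (spA D) := Module.Finite.iff_fg.mpr hA
  have h6 : finrank (ZMod 2) (LinearMap.range φ) ≤ finrank (ZMod 2) ↥(spA D ⊓ spB D) :=
    Submodule.finrank_mono hrange
  have h7 := LinearMap.finrank_range_add_finrank_ker φ
  rw [Module.finrank_fin_fun] at h7
  omega

/-- Proof. Let `n = nl D`, `x = crossings D`, `m = D.length`, so `n = m + x`. We have to show
`rank A + rank B ≥ 2 n - x - 2` for `A = spA D`, `B = spB D`.
(1) `rank (A ⊔ B) ≥ n - 1`: `A ⊔ B` contains `ev u v` for all labels `u, v`: otherwise there is a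
functional which is zero on `A ⊔ B` and not on `ev u v`, its coloring is constant at all nodes
(`a, b`; `b, c`; `c, d` are pairs of `A` or `B`), contradiction to `Conn`. (Or: the set of all `v` with
`ev u v ∈ A ⊔ B` is a union of nodes.)
(2) For a node let `ξ` be the sum of its ends in `VV`. `ξ ∈ A ⊓ B` (`ev a b + ev c d = ev b c + ev d a`).
The rank of the span of all `ξ` is at least `m - 1`: a relation `∑ t_i ξ_i = 0` means, as every label has
two ends, that `t_i = t_j` if the nodes `i`, `j` have a common label, so by `Conn` it is constant.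
(3) `rank A + rank B = rank (A ⊔ B) + rank (A ⊓ B) ≥ (n - 1) + (m - 1) = 2 n - x - 2`
(`Submodule.finrank_sup_add_finrank_inf_eq`). -/
theorem circles {D : Code} (h : Closed D) (hc : Conn D) : cA D + cB D ≤ crossings D + 2 := by
  have hA : (spA D).FG := fg_of_le_supp (spA_le fun a ha => List.mem_toFinset.mpr ha)
  have hB : (spB D).FG := fg_of_le_supp (spB_le fun a ha => List.mem_toFinset.mpr ha)
  have : Module.Finite (ZMod 2) (spA D) := Module.Finite.iff_fg.mpr hA
  have : Module.Finite (ZMod 2) (spB D) := Module.Finite.iff_fg.mpr hB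
  have h1 := Submodule.finrank_sup_add_finrank_inf_eq (spA D) (spB D)
  have h2 := circ_sup_rank hc
  have h3 := circ_inf_rank h hc
  have h4 := two_nl h
  unfold cA cB
  omega

end Pool.Agent.MP_204846_gt
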