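import Pool.Agent.Lib_MP_204846_gt.Rep
import Pool.Agent.Lib_MP_204846_gt.Chain

/-!
# MP_204846_gt, piece Coef: the extreme coefficients of the bracket of the diagram `D₈`

`dc m e` is the coefficient of `δ ^ m` at `e`, `cfn D f m e` the coefficient at `e` of the bracket of
`D` with the joined pairs given by the renaming `f`, where `m` is the number of circles without `D`.
-/

namespace Pool.Agent.MP_204846_gt

open Module LaurentPolynomial

/-- the coefficient of `δ ^ m` at `e` -/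
def dc : ℕ → ℤ → ℤ
  | 0, e => if e = 0 then 1 else 0
  | m + 1, e => if 2 * (m : ℤ) + 2 < e then 0 else if e < -(2 * (m : ℤ) + 2) then 0 else
      -dc m (e - 2) - dc m (e + 2)

/-- join the pair `a, b` -/
def cjn (a b : ℕ) (p : (ℕ → ℕ) × ℕ) : (ℕ → ℕ) × ℕ :=
  if p.1 a = p.1 b then p else (rn (p.1 a) (p.1 b) ∘ p.1, p.2 - 1)

/-- the coefficient of the bracket -/
def cfn : Code → (ℕ → ℕ) × ℕ → ℤ → ℤ
  | [], p, e => dc p.2 e
  | .X a b c d :: D, p, e =>
      cfn D (cjn c d (cjn a b p)) (e - 1) + cfn D (cjn d a (cjn b c p)) (e + 1)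
  | .P a b :: D, p, e => cfn D (cjn a b p) e

theorem coef_T_mulC (n e : ℤ) (p : ℤ[T;T⁻¹]) : (T n * p).coeff e = p.coeff (e - n) := by
  have h : (T n : ℤ[T;T⁻¹]) = AddMonoidAlgebra.single n 1 := rfl
  rw [h, AddMonoidAlgebra.coeff_single_mul_apply, one_mul, neg_add_eq_sub]

theorem coeff_add' (e : ℤ) (p q : ℤ[T;T⁻¹]) : (p + q).coeff e = p.coeff e + q.coeff e := by
  rw [AddMonoidAlgebra.coeff_add]
  rfl

theorem coeff_sub' (e : ℤ) (p q : ℤ[T;T⁻¹]) : (p - q).coeff e = p.coeff e - q.coeff e := by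
  rw [AddMonoidAlgebra.coeff_sub]
  rfl

theorem coeff_neg' (e : ℤ) (p : ℤ[T;T⁻¹]) : (-p).coeff e = -p.coeff e := by
  rw [AddMonoidAlgebra.coeff_neg]
  rfl

theorem coeff_δ_succ (m : ℕ) (e : ℤ) :
    (δ ^ (m + 1)).coeff e = -(δ ^ m).coeff (e - 2) - (δ ^ m).coeff (e + 2) := by
  have h : δ ^ (m + 1) = -(T 2 * δ ^ m) - T (-2) * δ ^ m := by
    rw [pow_succ', δ]
    ring
  rw [h, coeff_sub', coeff_neg', coef_T_mulC, coef_T_mulC, sub_neg_eq_add]

theorem coeff_δ_zero (e : ℤ) : (δ ^ 0).coeff e = if e = 0 then 1 else 0 := by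
  rw [pow_zero, ← T_zero, T_apply]
  simp only [eq_comm]

theorem coeff_δ_far (m : ℕ) : ∀ e : ℤ, (2 * (m : ℤ) < e ∨ e < -(2 * (m : ℤ))) →
    (δ ^ m).coeff e = 0 := by
  induction m with
  | zero =>
    intro e he
    rw [coeff_δ_zero, if_neg]
    rintro rfl
    simp at he
  | succ m ih =>
    intro e he
    push_cast at he
    rw [coeff_δ_succ, ih _ (by omega), ih _ (by omega)]
    norm_num

theorem dc_eq (m : ℕ) : ∀ e : ℤ, (δ ^ m).coeff e = dc m e := by
  induction m with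
  | zero => exact coeff_δ_zero
  | succ m ih =>
    intro e
    unfold dc
    split_ifs with h1 h2
    · exact coeff_δ_far _ _ (Or.inl (by push_cast; omega))
    · exact coeff_δ_far _ _ (Or.inr (by push_cast; omega))
    · rw [coeff_δ_succ, ih, ih]

theorem jn_spec {n : ℕ} {S : Submodule (ZMod 2) VV} {p : (ℕ → ℕ) × ℕ} (hR : Rep S p.1)
    (hS : S.FG) (hn : p.2 = n - finrank (ZMod 2) S) (a b : ℕ) :
    Rep (S ⊔ EE a b) (cjn a b p).1 ∧ (S ⊔ EE a b).FG ∧
      (cjn a b p).2 = n - finrank (ZMod 2) ↥(S ⊔ EE a b) := by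
  unfold cjn
  by_cases h : p.1 a = p.1 b
  · rw [if_pos h, rep_same hR h]
    exact ⟨hR, hS, hn⟩
  · rw [if_neg h]
    refine ⟨rep_join hR h, hS.sup (EE_fg a b), ?_⟩
    show p.2 - 1 = _
    rw [rep_finrank hR hS h, hn, Nat.sub_sub]

theorem cfn_eq (n : ℕ) (D : Code) : ∀ (S : Submodule (ZMod 2) VV) (p : (ℕ → ℕ) × ℕ) (e : ℤ),
    Rep S p.1 → S.FG → p.2 = n - finrank (ZMod 2) S → (br n D S).coeff e = cfn D p e := by
  induction D with
  | nil =>
    intro S p e _ _ hn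
    unfold br cfn
    rw [dc_eq, hn]
  | cons N D ih =>
    intro S p e hR hS hn
    cases N with
    | X a b c d =>
      unfold br cfn
      rw [coeff_add', coef_T_mulC, coef_T_mulC, sub_neg_eq_add]
      obtain ⟨h1, h2, h3⟩ := jn_spec hR hS hn a b
      obtain ⟨h4, h5, h6⟩ := jn_spec h1 h2 h3 c d
      obtain ⟨k1, k2, k3⟩ := jn_spec hR hS hn b c
      obtain ⟨k4, k5, k6⟩ := jn_spec k1 k2 k3 d a
      rw [ih _ _ _ h4 h5 h6, ih _ _ _ k4 k5 k6]
    | P a b =>
      unfold br cfn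
      obtain ⟨h1, h2, h3⟩ := jn_spec hR hS hn a b
      exact ih _ _ _ h1 h2 h3

theorem coeff_bracket (D : Code) (e : ℤ) : (bracket D).coeff e = cfn D (id, nl D) e := by
  unfold bracket
  refine cfn_eq _ _ _ _ _ rep_bot Submodule.fg_bot ?_
  rw [finrank_bot, Nat.sub_zero]

theorem coeff_top : (bracket D₈.code).coeff 18 ≠ 0 := by
  rw [coeff_bracket]
  show cfn c30 (id, nl c30) 18 ≠ 0
  decide +kernel

theorem coeff_bot : (bracket D₈.code).coeff (-18) ≠ 0 := by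
  rw [coeff_bracket]
  show cfn c30 (id, nl c30) (-18) ≠ 0
  decide +kernel

end Pool.Agent.MP_204846_gt
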