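import Mathlib

/-!
# Corner connection mosaics and the crossing number

Knot diagrams are given by planar diagram codes, knot types are the classes of these diagrams for
the Reidemeister moves.
-/

namespace Pool.Agent.MP_204846_gt

/-- A node of a link diagram whose edges are labelled by natural numbers: a crossing `X a b c d`, where
the edges `a, b, c, d` meet in this counterclockwise order and `a`, `c` belong to the under-strand,
or a point `P a b` of a strand where the edges `a` and `b` meet. -/
inductive Node where
  | X (a b c d : ℕ) : Node
  | P (a b : ℕ) : Node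
deriving DecidableEq

/-- the ends of edges at a node, in counterclockwise order -/
def Node.ends : Node → List ℕ
  | .X a b c d => [a, b, c, d]
  | .P a b => [a, b]

/-- renaming of the edges -/
def Node.map (f : ℕ → ℕ) : Node → Node
  | .X a b c d => .X (f a) (f b) (f c) (f d)
  | .P a b => .P (f a) (f b)

def Node.isX : Node → Bool
  | .X _ _ _ _ => true
  | .P _ _ => false

/-- `u` and `v` are the two ends at the node of one strand. -/
def Node.Thru : Node → ℕ → ℕ → Prop
  | .X a b c d, u, v => (u = a ∧ v = c) ∨ (u = b ∧ v = d)
  | .P a b, u, v => u = a ∧ v = b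

/-- A code of a diagram: the list of its nodes. -/
abbrev Code := List Node

/-- the list of all ends of edges -/
def ends (D : Code) : List ℕ := D.flatMap Node.ends

/-- the number of crossings -/
def crossings (D : Code) : ℕ := D.countP Node.isX

/-- Every edge has two ends. -/
def Closed (D : Code) : Prop := ∀ a ∈ ends D, (ends D).count a = 2

/-- The diagram has exactly one component (closed strand). -/
def OneComp (D : Code) : Prop :=
  D ≠ [] ∧ ∀ u ∈ ends D, ∀ v ∈ ends D, Relation.EqvGen (fun a b => ∃ N ∈ D, N.Thru a b) u v

/-- the edge at place `q` (`q = 0, 1, ...`, counterclockwise) of the node number `i` -/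
def slot (D : Code) (i q : ℕ) : Option ℕ := (D[i]?).bind fun N => N.ends[q]?

/-- the number of edges at the node number `i` -/
def deg (D : Code) (i : ℕ) : ℕ := ((D[i]?).map fun N => N.ends.length).getD 0

/-- A connected diagram is planar (that is, a diagram on the sphere): one can attach to the corner
between the edges number `q` and `q + 1` of the node number `i` a face `F i q`, in such a way that
the faces on both sides of each edge agree at its two ends, and that there are
`crossings + 2` faces. (By Euler's formula a connected diagram on a surface has at most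
`crossings + 2` faces, with equality only on the sphere.) -/
def Planar (D : Code) : Prop :=
  ∃ F : ℕ → ℕ → ℕ,
    (∀ i q j r a, slot D i q = some a → slot D j r = some a → (i, q) ≠ (j, r) →
      F i q = F j ((r + deg D j - 1) % deg D j)) ∧
    Set.ncard {f | ∃ i q, (slot D i q).isSome ∧ F i q = f} = crossings D + 2

/-- A knot diagram. -/
structure Diagram where
  code : Code
  closed : Closed code
  oneComp : OneComp code
  planar : Planar code

/-- Elementary changes of codes: the first six only change the labels, the order of the nodes, the
first edge of a node, or the points `P a b` on the strands, the others are the Reidemeister moves.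
(In `r2` the strand `o₀ o₁ o₂` passes over the strand `u₀ u₁ u₂` twice; in `r3` and `r3'` the strand
`t₀ t₁ t₂` passes over the two others and the strand `m₀ m₁ m₂` over `b₀ b₁ b₂`.) -/
inductive Move : Code → Code → Prop
  | perm {D D' : Code} : D.Perm D' → Move D D'
  | label {D : Code} (f : ℕ → ℕ) : Set.InjOn f {a | a ∈ ends D} → Move D (D.map (Node.map f))
  | turn (a b c d : ℕ) (D : Code) : Move (.X a b c d :: D) (.X c d a b :: D)
  | swap (a b : ℕ) (D : Code) : Move (.P a b :: D) (.P b a :: D)
  | point (a b : ℕ) (D : Code) : a ≠ b →
      Move (.P a b :: D) (D.map (Node.map fun v => if v = b then a else v))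
  | r1 (a b c : ℕ) (D : Code) : Move (.X a a b c :: D) (.P b c :: D)
  | r1' (a b c : ℕ) (D : Code) : Move (.X a b b c :: D) (.P a c :: D)
  | r2 (u₀ u₁ u₂ o₀ o₁ o₂ : ℕ) (D : Code) :
      Move (.X u₀ o₁ u₁ o₀ :: .X u₁ o₁ u₂ o₂ :: D) (.P u₀ u₂ :: .P o₀ o₂ :: D)
  | r3 (t₀ t₁ t₂ m₀ m₁ m₂ b₀ b₁ b₂ : ℕ) (D : Code) :
      Move (.X b₁ m₂ b₂ m₁ :: .X m₀ t₁ m₁ t₀ :: .X b₀ t₂ b₁ t₁ :: D)
        (.X b₀ m₁ b₁ m₀ :: .X b₁ t₁ b₂ t₀ :: .X m₁ t₂ m₂ t₁ :: D)
  | r3' (t₀ t₁ t₂ m₀ m₁ m₂ b₀ b₁ b₂ : ℕ) (D : Code) :
      Move (.X b₁ m₁ b₂ m₂ :: .X m₀ t₀ m₁ t₁ :: .X b₀ t₁ b₁ t₂ :: D)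
        (.X b₀ m₀ b₁ m₁ :: .X b₁ t₀ b₂ t₁ :: .X m₁ t₁ m₂ t₂ :: D)

/-- A knot type: a class of knot diagrams for the equivalence relation generated by the moves. -/
def KnotType := Quot fun D D' : Diagram => Move D.code D'.code

/-- the knot type of a diagram -/
def Diagram.type (D : Diagram) : KnotType := Quot.mk _ D

/-- The crossing number of a knot type. -/
noncomputable def KnotType.crossingNumber (K : KnotType) : ℕ :=
  sInf {c | ∃ D : Diagram, D.type = K ∧ crossings D.code = c}

/-- The eleven corner connection tiles: the blank tile, the four tiles with one arc joining the ends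
of the bottom, right, top or left side, the two tiles with one diagonal, the two tiles with two
arcs, and the two crossing tiles, in which the diagonal from the lower left to the upper right
corner passes under, respectively over, the other one. -/
inductive Tile where
  | blank | bottom | right | top | left | up | down | bottomTop | leftRight | crossUnder | crossOver
deriving DecidableEq

/-- the nodes in a tile whose lower left, lower right, upper right and upper left corners are the
vertices `bl`, `br`, `tr`, `tl` -/
def Tile.code (t : Tile) (bl br tr tl : ℕ) : Code :=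
  match t with
  | .blank => []
  | .bottom => [.P bl br]
  | .right => [.P br tr]
  | .top => [.P tr tl]
  | .left => [.P tl bl]
  | .up => [.P bl tr]
  | .down => [.P br tl]
  | .bottomTop => [.P bl br, .P tr tl]
  | .leftRight => [.P br tr, .P tl bl]
  | .crossUnder => [.X bl br tr tl]
  | .crossOver => [.X br tr tl bl]

/-- the tiles with a crossing -/
def Tile.isCrossing : Tile → Bool
  | .crossUnder => true
  | .crossOver => true
  | _ => false

/-- An `n × n` array of tiles; `M x y` is the tile in column `x` (from the left) and row `y` (from
below). -/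
abbrev Mosaic (n : ℕ) := Fin n → Fin n → Tile

/-- the label of the vertex `(x, y)` of the grid -/
def vert (x y : ℕ) : ℕ := Nat.pair x y

/-- the code of the diagram formed by the tiles; it is `Closed` if and only if the mosaic is suitably
connected -/
def Mosaic.code {n : ℕ} (M : Mosaic n) : Code :=
  (List.finRange n).flatMap fun x => (List.finRange n).flatMap fun y =>
    (M x y).code (vert x y) (vert (x + 1) y) (vert (x + 1) (y + 1)) (vert x (y + 1))

/-- the number of tiles which are not blank -/
def Mosaic.tiles {n : ℕ} (M : Mosaic n) : ℕ :=
  (Finset.univ.filter fun p : Fin n × Fin n => M p.1 p.2 ≠ .blank).card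

/-- the number of crossing tiles -/
def Mosaic.crossingTiles {n : ℕ} (M : Mosaic n) : ℕ :=
  (Finset.univ.filter fun p : Fin n × Fin n => (M p.1 p.2).isCrossing = true).card

/-- The mosaic `M` represents the knot type `K`. -/
def Mosaic.Represents {n : ℕ} (M : Mosaic n) (K : KnotType) : Prop :=
  ∃ D : Diagram, D.code = M.code ∧ D.type = K

/-- The corner connection tile number of a knot type. -/
noncomputable def KnotType.tileNumber (K : KnotType) : ℕ :=
  sInf {t | ∃ (n : ℕ) (M : Mosaic n), M.Represents K ∧ M.tiles = t}

end Pool.Agent.MP_204846_gt
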