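import Pool.Agent.Lib_MP_204846_gt.SmL
import Pool.Agent.Lib_MP_204846_gt.SSpec
import Pool.Agent.Lib_MP_204846_gt.ArrL

/-!
# MP_204846_gt, piece LeafB: collecting the nodes of a list of tiles (`colK`), blank columns (`colBl`)
-/

namespace Pool.Agent.MP_204846_gt

/-- the nodes of the tiles of the list `l`; the first tile has the position `(x, y)` -/
def lcode (w : ℕ) : List Kd → ℕ → ℕ → Code
  | [], _, _ => []
  | k :: l, x, y => k.code (vert x y) (vert (x + 1) y) (vert (x + 1) (y + 1)) (vert x (y + 1)) ++
      if x + 1 = w then lcode w l 0 (y + 1) else lcode w l (x + 1) y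

theorem revT_eq (l acc : List Kd) (k : List Kd → Bool) : revT l acc k = k (l.reverse ++ acc) := by
  induction l generalizing acc with
  | nil => rfl
  | cons e l ih =>
    have : revT (e :: l) acc k = revT l (e :: acc) k := rfl
    rw [this, ih]
    simp

private theorem LeafB_add (k : Kd) (bl br tr tl : ℕ) (ps : List Q2) (xs : List Q4) (n : ℕ) :
    ∃ (ps' : List Q2) (xs' : List Q4) (n' : ℕ),
      (∀ c : List Q2 → List Q4 → ℕ → Bool, addK k bl br tr tl ps xs n c = c ps' xs' n') ∧
      (ps'.map Q2.node ++ xs'.map Q4.node).Perm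
        (k.code bl br tr tl ++ (ps.map Q2.node ++ xs.map Q4.node)) ∧
      2 * n' = 2 * n + (ends (k.code bl br tr tl)).length := by
  cases k with
  | bl => exact ⟨ps, xs, n, fun c => rfl, by simp [Kd.code], by simp [Kd.code, ends]⟩
  | x =>
    refine ⟨ps, .mk bl br tr tl :: xs, n + 2, fun c => rfl, ?_, ?_⟩
    · simp only [Kd.code, List.map_cons, Q4.node, List.cons_append, List.nil_append]
      exact List.perm_middle
    · simp [Kd.code, ends, Node.ends]
      ring
  | aB => exact ⟨.mk bl br :: ps, xs, n + 1, fun c => rfl,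
      by simp [Kd.code, Q2.node], by simp [Kd.code, ends, Node.ends]; ring⟩
  | aR => exact ⟨.mk br tr :: ps, xs, n + 1, fun c => rfl,
      by simp [Kd.code, Q2.node], by simp [Kd.code, ends, Node.ends]; ring⟩
  | aT => exact ⟨.mk tr tl :: ps, xs, n + 1, fun c => rfl,
      by simp [Kd.code, Q2.node], by simp [Kd.code, ends, Node.ends]; ring⟩
  | aL => exact ⟨.mk tl bl :: ps, xs, n + 1, fun c => rfl,
      by simp [Kd.code, Q2.node], by simp [Kd.code, ends, Node.ends]; ring⟩
  | dU => exact ⟨.mk bl tr :: ps, xs, n + 1, fun c => rfl,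
      by simp [Kd.code, Q2.node], by simp [Kd.code, ends, Node.ends]; ring⟩
  | dD => exact ⟨.mk br tl :: ps, xs, n + 1, fun c => rfl,
      by simp [Kd.code, Q2.node], by simp [Kd.code, ends, Node.ends]; ring⟩
  | hh => exact ⟨.mk bl br :: .mk tr tl :: ps, xs, n + 2, fun c => rfl,
      by simp [Kd.code, Q2.node], by simp [Kd.code, ends, Node.ends]; ring⟩
  | vv => exact ⟨.mk br tr :: .mk tl bl :: ps, xs, n + 2, fun c => rfl,
      by simp [Kd.code, Q2.node], by simp [Kd.code, ends, Node.ends]; ring⟩

/-- Induction over `l`; `addK` adds the nodes of a tile to `ps`, `xs` and half of the number of their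
ends to `n`. -/
theorem colK_spec (w : ℕ) (l : List Kd) (x y : ℕ) (ps : List Q2) (xs : List Q4) (n : ℕ) :
    ∃ (ps' : List Q2) (xs' : List Q4) (n' : ℕ),
      (∀ c : List Q2 → List Q4 → ℕ → Bool, colK w l x y ps xs n c = c ps' xs' n') ∧
      (ps'.map Q2.node ++ xs'.map Q4.node).Perm
        (lcode w l x y ++ (ps.map Q2.node ++ xs.map Q4.node)) ∧
      2 * n' = 2 * n + (ends (lcode w l x y)).length := by
  induction l generalizing x y ps xs n with
  | nil => exact ⟨ps, xs, n, fun c => rfl, by simp [lcode], by simp [lcode, ends]⟩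
  | cons k l ih =>
    obtain ⟨ps1, xs1, n1, h1, h2, h3⟩ :=
      LeafB_add k (vert x y) (vert (x + 1) y) (vert (x + 1) (y + 1)) (vert x (y + 1)) ps xs n
    have hstep : ∀ c : List Q2 → List Q4 → ℕ → Bool, colK w (k :: l) x y ps xs n c =
        if x + 1 = w then colK w l 0 (y + 1) ps1 xs1 n1 c else colK w l (x + 1) y ps1 xs1 n1 c := by
      intro c
      have e : colK w (k :: l) x y ps xs n c =
          force (Nat.pair x y) fun bl => force (Nat.pair (Nat.succ x) y) fun br =>
          force (Nat.pair (Nat.succ x) (Nat.succ y)) fun tr =>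
          force (Nat.pair x (Nat.succ y)) fun tl =>
          addK k bl br tr tl ps xs n fun ps xs n =>
            cond (Nat.beq (Nat.succ x) w) (colK w l 0 (Nat.succ y) ps xs n c)
              (colK w l (Nat.succ x) y ps xs n c) := rfl
      rw [e, force_eq, force_eq, force_eq, force_eq]
      have e2 := h1 (fun ps xs n => cond (Nat.beq (Nat.succ x) w)
        (colK w l 0 (Nat.succ y) ps xs n c) (colK w l (Nat.succ x) y ps xs n c))
      refine e2.trans ?_
      show cond (Nat.beq (Nat.succ x) w) (colK w l 0 (Nat.succ y) ps1 xs1 n1 c)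
        (colK w l (Nat.succ x) y ps1 xs1 n1 c) = _
      rw [cond_beq]
    by_cases hx : x + 1 = w
    · obtain ⟨ps', xs', n', g1, g2, g3⟩ := ih 0 (y + 1) ps1 xs1 n1
      refine ⟨ps', xs', n', ?_, ?_, ?_⟩
      · intro c
        rw [hstep c, if_pos hx, g1 c]
      · refine g2.trans ((h2.append_left _).trans ?_)
        rw [lcode, if_pos hx]
        rw [← List.append_assoc, List.append_assoc]
        exact (List.perm_append_comm_assoc _ _ _).trans (by rw [List.append_assoc])
      · rw [lcode, if_pos hx, ends_append, List.length_append]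
        omega
    · obtain ⟨ps', xs', n', g1, g2, g3⟩ := ih (x + 1) y ps1 xs1 n1
      refine ⟨ps', xs', n', ?_, ?_, ?_⟩
      · intro c
        rw [hstep c, if_neg hx, g1 c]
      · refine g2.trans ((h2.append_left _).trans ?_)
        rw [lcode, if_neg hx]
        rw [← List.append_assoc, List.append_assoc]
        exact (List.perm_append_comm_assoc _ _ _).trans (by rw [List.append_assoc])
      · rw [lcode, if_neg hx, ends_append, List.length_append]
        omega

private theorem LeafB_row (A : Arr) (w y : ℕ) (rest : List Kd) (m : ℕ) : ∀ x0 : ℕ, x0 + m ≤ w →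
    lcode w ((List.range' x0 m).map (fun x' => A x' y) ++ rest) x0 y =
      ((List.range' x0 m).flatMap fun x' => cellCode A x' y) ++
        (if x0 + m = w ∧ 0 < m then lcode w rest 0 (y + 1) else lcode w rest (x0 + m) y) := by
  induction m with
  | zero =>
    intro x0 _
    simp
  | succ m ih =>
    intro x0 hx0
    rw [List.range'_succ, List.map_cons, List.cons_append, lcode, List.flatMap_cons,
      List.append_assoc]
    have e : (A x0 y).code (vert x0 y) (vert (x0 + 1) y) (vert (x0 + 1) (y + 1)) (vert x0 (y + 1)) =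
        cellCode A x0 y := rfl
    rw [e]
    congr 1
    by_cases hx : x0 + 1 = w
    · have hm : m = 0 := by omega
      subst hm
      rw [if_pos hx]
      have h1 : x0 + (0 + 1) = w ∧ 0 < 0 + 1 := ⟨by omega, by omega⟩
      rw [if_pos h1]
      simp
    · rw [if_neg hx, ih (x0 + 1) (by omega)]
      congr 1
      have e1 : x0 + 1 + m = x0 + (m + 1) := by omega
      rw [e1]
      by_cases hm : 0 < m
      · by_cases hw : x0 + (m + 1) = w
        · rw [if_pos ⟨hw, hm⟩, if_pos ⟨hw, by omega⟩]
        · rw [if_neg (fun h => hw h.1), if_neg (fun h => hw h.1)]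
      · have hm0 : m = 0 := by omega
        subst hm0
        rw [if_neg (fun h => absurd h.2 (by omega)), if_neg]
        intro h
        omega

private theorem LeafB_rows (A : Arr) {w : ℕ} (hw : 1 ≤ w) (y : ℕ) : ∀ rest : List Kd,
    lcode w (((List.range y).flatMap fun y' => (List.range w).map fun x' => A x' y') ++ rest) 0 0 =
      arrCode A w y ++ lcode w rest 0 y := by
  induction y with
  | zero => intro rest; simp [arrCode]
  | succ y ih =>
    intro rest
    have e1 : ((List.range (y + 1)).flatMap fun y' => (List.range w).map fun x' => A x' y') ++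
        rest = ((List.range y).flatMap fun y' => (List.range w).map fun x' => A x' y') ++
          ((List.range w).map (fun x' => A x' y) ++ rest) := by
      rw [List.range_succ, List.flatMap_append]
      simp
    rw [e1, ih]
    have e2 := LeafB_row A w y rest w 0 (by omega)
    rw [← List.range_eq_range'] at e2
    rw [e2, if_pos ⟨by omega, hw⟩]
    have e3 : arrCode A w (y + 1) = arrCode A w y ++ rowCode A w y := by
      unfold arrCode
      rw [List.range_succ, List.flatMap_append]
      simp
    rw [e3, List.append_assoc]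
    rfl

/-- Induction over the number of cells. -/
theorem lcode_hist {A : Arr} {w : ℕ} (hw : 1 ≤ w) {x y : ℕ} (hx : x ≤ w) :
    lcode w (histF A w x y) 0 0 = preCode A w x y := by
  unfold histF preCode
  rw [LeafB_rows A hw y]
  congr 1
  have e2 := LeafB_row A w y [] x 0 (by omega)
  rw [← List.range_eq_range', List.append_nil] at e2
  rw [e2]
  simp only [lcode, ite_self, List.append_nil]
  rfl

private theorem LeafB_isBl {k : Kd} (h : isBl k = true) : k = .bl := by
  cases k <;> simp [isBl] at h ⊢

private theorem LeafB_col (A : Arr) (x₀ w y : ℕ) (rest : List Kd) (m : ℕ) : ∀ x0 : ℕ, x0 + m ≤ w →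
    colBl x₀ w ((List.range' x0 m).map (fun x' => A x' y) ++ rest) x0 = true →
      ((x0 ≤ x₀ → x₀ < x0 + m → A x₀ y = .bl) ∧
        colBl x₀ w rest (if x0 + m = w ∧ 0 < m then 0 else x0 + m) = true) := by
  induction m with
  | zero =>
    intro x0 _ h
    refine ⟨fun h1 h2 => by omega, ?_⟩
    simpa using h
  | succ m ih =>
    intro x0 hx0 h
    rw [List.range'_succ, List.map_cons, List.cons_append] at h
    have e : colBl x₀ w (A x0 y :: ((List.range' (x0 + 1) m).map (fun x' => A x' y) ++ rest)) x0 =
        cond (cond (Nat.beq x0 x₀) (isBl (A x0 y)) true)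
          (cond (Nat.beq (Nat.succ x0) w)
            (colBl x₀ w ((List.range' (x0 + 1) m).map (fun x' => A x' y) ++ rest) 0)
            (colBl x₀ w ((List.range' (x0 + 1) m).map (fun x' => A x' y) ++ rest) (Nat.succ x0)))
          false := rfl
    rw [e, cond_and, Bool.and_eq_true, cond_beq, cond_beq] at h
    obtain ⟨h1, h2⟩ := h
    have hb : x0 = x₀ → A x₀ y = .bl := by
      intro hx
      rw [if_pos hx] at h1
      rw [← hx]
      exact LeafB_isBl h1
    by_cases hx : x0 + 1 = w
    · have hm : m = 0 := by omega
      subst hm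
      have h3 : colBl x₀ w rest 0 = true := by
        rw [if_pos hx] at h2
        simpa using h2
      have h4 : x0 + (0 + 1) = w ∧ 0 < 0 + 1 := ⟨by omega, by omega⟩
      rw [if_pos h4]
      exact ⟨fun g1 g2 => hb (by omega), h3⟩
    · rw [if_neg hx] at h2
      obtain ⟨g1, g2⟩ := ih (x0 + 1) (by omega) h2
      have e1 : x0 + 1 + m = x0 + (m + 1) := by omega
      rw [e1] at g1 g2
      refine ⟨?_, ?_⟩
      · intro a1 a2
        by_cases hxx : x0 = x₀
        · exact hb hxx
        · exact g1 (by omega) a2
      · by_cases hm : 0 < m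
        · by_cases hww : x0 + (m + 1) = w
          · rw [if_pos ⟨hww, hm⟩] at g2
            rw [if_pos ⟨hww, by omega⟩]
            exact g2
          · rw [if_neg (fun h => hww h.1)] at g2
            rw [if_neg (fun h => hww h.1)]
            exact g2
        · have hm0 : m = 0 := by omega
          subst hm0
          rw [if_neg (fun h => absurd h.2 (by omega))] at g2
          rw [if_neg]
          · exact g2
          · intro h
            omega

private theorem LeafB_cols (A : Arr) {w x₀ : ℕ} (hw : 1 ≤ w) (hx₀ : x₀ < w) (y : ℕ) :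
    ∀ rest : List Kd,
    colBl x₀ w (((List.range y).flatMap fun y' => (List.range w).map fun x' => A x' y') ++ rest)
      0 = true → (∀ y' < y, A x₀ y' = .bl) ∧ colBl x₀ w rest 0 = true := by
  induction y with
  | zero =>
    intro rest h
    exact ⟨fun y' hy' => by omega, by simpa using h⟩
  | succ y ih =>
    intro rest h
    have e1 : ((List.range (y + 1)).flatMap fun y' => (List.range w).map fun x' => A x' y') ++
        rest = ((List.range y).flatMap fun y' => (List.range w).map fun x' => A x' y') ++
          ((List.range w).map (fun x' => A x' y) ++ rest) := by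
      rw [List.range_succ, List.flatMap_append]
      simp
    rw [e1] at h
    obtain ⟨h1, h2⟩ := ih _ h
    rw [List.range_eq_range'] at h2
    obtain ⟨h3, h4⟩ := LeafB_col A x₀ w y rest w 0 (by omega) h2
    rw [if_pos ⟨by omega, hw⟩] at h4
    refine ⟨?_, h4⟩
    intro y' hy'
    rcases Nat.lt_or_ge y' y with h5 | h5
    · exact h1 y' h5
    · have : y' = y := by omega
      rw [this]
      exact h3 (Nat.zero_le _) (by omega)

/-- If all tiles of the column `x₀` in the list are blank. -/
theorem colBl_hist {A : Arr} {w : ℕ} (hw : 1 ≤ w) {x y x₀ : ℕ} (hx : x ≤ w) (hx₀ : x₀ < w)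
    (h : colBl x₀ w (histF A w x y) 0 = true) :
    ∀ y', (y' < y ∨ (y' = y ∧ x₀ < x)) → A x₀ y' = .bl := by
  unfold histF at h
  obtain ⟨h1, h2⟩ := LeafB_cols A hw hx₀ y _ h
  intro y' hy'
  rcases hy' with hy' | ⟨hy', hxx⟩
  · exact h1 y' hy'
  · rw [hy']
    rw [List.range_eq_range'] at h2
    have h3 := LeafB_col A x₀ w y [] x 0 (by omega) (by rw [List.append_nil]; exact h2)
    exact h3.1 (Nat.zero_le _) (by omega)

end Pool.Agent.MP_204846_gt
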