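import Pool.Agent.Lib_MP_204846_gt.Row

/-!
# MP_204846_gt, Main: soundness of the search
-/

namespace Pool.Agent.MP_204846_gt

theorem up_map (Γ : ℕ → Ent) (ρ : Ent → Ent) (x y : ℕ) :
    up (fun v => ρ (Γ v)) x y = (up Γ x y).map ρ := by
  simp [up, List.map_reverse, Function.comp_def]

theorem up_length (Γ : ℕ → Ent) (x y : ℕ) : (up Γ x y).length = x + 1 := by
  simp [up]

theorem next_sound {A : Arr} {w h top y : ℕ} (hS : Std A w h) (hy : y < h) {T : List Kd}
    {L R : LL} {P : ℕ} (hSt : St A w h top w y T L R P) {j : ℕ} (hj : j + (y + 1) = 15)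
    {k : LL → ℕ → Bool} (hk : nextK top j L P k = true) :
    y + 1 < h ∧ ∃ R' P', St A w h top 0 (y + 1) T [.z] R' P' ∧ k R' P' = true := by
  have hcl := hS.good.good.closed
  obtain ⟨Γ, hI, hL, hR, hNm⟩ := hSt.ex
  have hne : preCode A w w y ≠ [] := by
    obtain ⟨x, hx, hA⟩ := hS.row 0 (by omega)
    exact pre_ne_nil hx (by omega) hA
  obtain ⟨v, s, c, hv⟩ := hI.ope hne
  have hv1 := hI.one _ _ _ hv
  have hyh : y + 1 < h := by
    rcases Nat.lt_or_ge (y + 1) h with h' | h'
    · exact h'
    · exact absurd hv1 (top_end hcl (by omega) v)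
  refine ⟨hyh, ?_⟩
  have hmem : ∀ v s c, Γ v = .o s c → Ent.o s c ∈ L := by
    intro v s c hv
    have hv1 := hI.one _ _ _ hv
    rw [hL, mem_up]
    rcases frontier hcl le_rfl hy hv1 with ⟨j, hj, rfl⟩ | ⟨j, hj, hj', rfl⟩
    · exact ⟨j, hj, hv.symm⟩
    · obtain rfl : j = w := by omega
      exact absurd hv1 (low_end hcl hy)
  have hclL : cl L = false := by
    rw [← Bool.not_eq_true, cl_iff]
    intro hh
    have := hh _ (hmem v s c hv)
    simp [opn] at this
  rw [nextK_eq _ _ _ _ _ hclL] at hk
  obtain ⟨σ, γ, hr, hcan⟩ := canK_spec L.reverse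
  rw [hcan] at hk
  have hlen : L.reverse.length = w + 1 := by
    rw [List.length_reverse, hL, up_length]
  rw [hlen] at hr
  have hI' := inv_rename hI hr (fun v s c hv => by
    rw [List.mem_reverse]; exact hmem v s c hv)
  refine ⟨_, _, ?_, hk⟩
  refine ⟨⟨fun v => rnm σ γ (Γ v), ?_, ?_, ?_, ?_⟩, ?_, ?_⟩
  · rw [preCode_zero, ← preCode_row]; exact hI'
  · rw [up_cons]
    have : Γ (vert 0 (y + 1 + 1)) = .z := by
      cases hv : Γ (vert 0 (y + 1 + 1)) with
      | z => rfl
      | f =>
        have h1 := hI.two _ hv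
        rw [preCode_row, ← preCode_zero, next_zero] at h1
        omega
      | o s c =>
        have h1 := hI.one _ _ _ hv
        rw [preCode_row, ← preCode_zero, next_zero] at h1
        omega
    simp [this, rnm]
  · rw [low_next, up_map, ← hL, List.map_reverse]
  · intro v s c hv
    simp only at hv
    cases hΓ : Γ v with
    | z => rw [hΓ] at hv; simp [rnm] at hv
    | f => rw [hΓ] at hv; simp [rnm] at hv
    | o s' c' =>
      have hm := hmem v s' c' hΓ
      rw [hΓ] at hv
      simp only [rnm] at hv
      injection hv with h1 h2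
      have h3 := hr.bs s' c' (List.mem_reverse.mpr hm)
      refine ⟨Or.inl (by omega), Or.inl ?_⟩
      split_ifs at h2 with hc
      · omega
      · have h4 := hr.bg s' c' (List.mem_reverse.mpr hm) hc
        omega
  · rw [hist_next]; exact hSt.hist
  · have hB := hSt.bud
    have hRe : R = [Γ (vert w y)] := by
      rw [hR, low_cons Γ y le_rfl, low_end_nil]
    have hop : opn (Γ (vert w y)) = 0 := by
      rw [opn_iff hI, if_neg (low_end hcl hy)]
    have hL' := hL
    rw [up_cons] at hL'
    rw [hRe, hL'] at hB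
    have := bud_next hB hop (r1 := .z) rfl (R' := L.reverse.map (rnm σ γ)) (by
      rw [← hL', List.map_map]
      apply List.map_congr_left
      intro e _
      exact opn_rnm σ γ e)
    have hif : (j + top = 15) ↔ (y + 1 = top) := by omega
    simp only [hif]
    exact this

theorem rest_top {A : Arr} {w h x y : ℕ} (hS : Std A w h) (hy : y < h)
    (hr : restCode A w h x y = []) : y + 1 = h := by
  rcases Nat.lt_or_ge (y + 1) h with h' | h'
  · obtain ⟨x', hx', hA⟩ := hS.row (y + 1) h'
    exact absurd (rest_nil hr x' (y + 1) hx' h' (Or.inl (by omega))) hA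
  · omega

theorem dead_sound {A : Arr} {w h top : ℕ} (hS : Std A w h) (n : ℕ) :
    ∀ (y : ℕ) (T : List Kd) (R : LL) (P : ℕ), n + y = 15 → y < h →
      St A w h top 0 y T [.z] R P → dead w top w n R P = true → False := by
  induction n with
  | zero =>
    intro y T R P hy hyh _ _
    have := hS.h15
    omega
  | succ n ih =>
    intro y T R P hy hyh hSt hd
    rw [dead_succ, rowD_eq _ _ _ T] at hd
    rcases row_sound hS hyh _ _ w 0 T [.z] R P (by omega) hSt hd with
      ⟨x', hx', hr, hf⟩ | ⟨T', L', R', P', hSt', hn⟩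
    · have h1 := rest_top hS hyh hr
      have h2 := Nat.le_of_ble_eq_true hf
      have := hS.wh
      omega
    · obtain ⟨h1, R'', P'', hSt'', hk⟩ := next_sound hS hyh hSt' (j := n) (by omega) hn
      refine ih (y + 1) T' R'' P'' (by omega) h1 hSt'' ?_
      cases hdd : dead w top w n R'' P'' with
      | true => rfl
      | false => rw [hdd] at hk; exact absurd hk (by simp)

theorem main_sound {A : Arr} {w h top : ℕ} (hS : Std A w h) (leaf : List Kd → Bool) (n : ℕ) :
    ∀ (y : ℕ) (T : List Kd) (R : LL) (P : ℕ), n + y = 15 → y < h →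
      St A w h top 0 y T [.z] R P → mainS leaf w top w n T R P = true →
      ∃ x', x' < w ∧ restCode A w h x' (h - 1) = [] ∧
        leaf (hist A w (x' + 1) (h - 1)) = true := by
  induction n with
  | zero =>
    intro y T R P hy hyh _ _
    have := hS.h15
    omega
  | succ n ih =>
    intro y T R P hy hyh hSt hd
    rw [mainS_succ] at hd
    have hdead : dead w top w (n + 1) R P = false := by
      rw [← Bool.not_eq_true]
      exact fun hh => dead_sound hS (n + 1) y T R P hy hyh hSt hh
    rw [hdead, cond_false] at hd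
    rcases row_sound hS hyh _ _ w 0 T [.z] R P (by omega) hSt hd with
      ⟨x', hx', hr, hf⟩ | ⟨T', L', R', P', hSt', hn⟩
    · have h1 := rest_top hS hyh hr
      have h2 : Nat.ble 16 (n + w) = false := by
        rw [← Bool.not_eq_true]
        intro hh
        have := Nat.le_of_ble_eq_true hh
        have := hS.wh
        omega
      rw [h2, cond_false] at hf
      obtain rfl : y = h - 1 := by omega
      exact ⟨x', hx', hr, hf⟩
    · obtain ⟨h1, R'', P'', hSt'', hk⟩ := next_sound hS hyh hSt' (j := n) (by omega) hn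
      exact ih (y + 1) T' R'' P'' (by omega) h1 hSt'' hk

theorem cnt_replicate (n : ℕ) : cnt (List.replicate n .z) = 0 := by
  simp [cnt, opn]

theorem start_St {A : Arr} {w h : ℕ} (hS : Std A w h) :
    St A w h (w / 2) 0 0 [] [.z] (emp w) (startP (w / 2)) := by
  obtain ⟨hX, hC⟩ := rem_zero A w h
  refine ⟨⟨fun _ => .z, ?_, ?_, ?_, ?_⟩, ?_, ?_⟩
  · rw [preCode_zero]; exact inv_nil
  · simp [up]
  · simp [low, emp]
  · intro v s c hv; simp at hv
  · simp [hist, histF]
  · unfold Bud
    rw [hX, hC, hS.good.nX]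
    refine ⟨7, if w / 2 = 0 then 7 else 3, ?_, le_rfl, le_rfl, ?_, ?_, ?_⟩
    · unfold startP; omega
    · have : pot [.z] (emp w) = 0 := by
        simp only [emp, List.replicate_succ, pot]
        rw [cnt_replicate]
        rfl
      rw [this]
      unfold tau
      split_ifs <;> omega
    · have := hS.good.nC
      unfold tau
      split_ifs <;> omega
    · intro h0
      rw [(rem_zero A w (w / 2)).2, if_neg (by omega)]
      exact hS.top

theorem search_sound {A : Arr} {w h : ℕ} (hS : Std A w h) (hR : RunOK w) :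
    ∃ x', x' < w ∧ restCode A w h x' (h - 1) = [] ∧
      leafK w (hist A w (x' + 1) (h - 1)) = true :=
  main_sound hS (leafK w) 15 0 [] (emp w) _ rfl (by have := hS.w1; have := hS.wh; omega)
    (start_St hS) hR

end Pool.Agent.MP_204846_gt
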