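import Pool.Agent.Lib_MP_204846_gt.LeafA
import Pool.Agent.Lib_MP_204846_gt.LeafB
import Pool.Agent.Lib_MP_204846_gt.CntL
import Pool.Agent.Lib_MP_204846_gt.Main

/-!
# MP_204846_gt, Leaf: soundness of the check of a complete mosaic
-/

namespace Pool.Agent.MP_204846_gt

open Module

theorem Q2.map_id (ps : List Q2) : ps.map (Q2.map id) = ps := by
  induction ps with
  | nil => rfl
  | cons p ps ih => cases p; simp [Q2.map, ih]

theorem Q4.map_id (xs : List Q4) : xs.map (Q4.map id) = xs := by
  induction xs with
  | nil => rfl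
  | cons p ps ih => cases p; simp [Q4.map, ih]

theorem crossings_nodes (ps : List Q2) (xs : List Q4) :
    crossings (ps.map Q2.node ++ xs.map Q4.node) = xs.length := by
  unfold crossings
  rw [List.countP_append, List.countP_map, List.countP_map]
  have h1 : List.countP (Node.isX ∘ Q2.node) ps = 0 := by
    rw [List.countP_eq_zero]
    intro p _
    cases p; simp [Q2.node, Node.isX]
  have h2 : List.countP (Node.isX ∘ Q4.node) xs = xs.length := by
    rw [List.countP_eq_length]
    intro p _
    cases p; simp [Q4.node, Node.isX]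
  rw [h1, h2, zero_add]

theorem leaf_sound {A : Arr} {w h x : ℕ} (hS : Std A w h) (hx : x < w)
    (hr : restCode A w h x (h - 1) = [])
    (hl : leafK w (hist A w (x + 1) (h - 1)) = true) : False := by
  have h1 : 1 ≤ h := hS.w1.trans hS.wh
  have hw := hS.w1
  unfold leafK at hl
  rw [revT_eq, List.append_nil] at hl
  have hrev : (hist A w (x + 1) (h - 1)).reverse = histF A w (x + 1) (h - 1) := by
    simp [hist]
  rw [hrev] at hl
  have hcol : ∀ x₀, x₀ < w → colBl x₀ w (histF A w (x + 1) (h - 1)) 0 = false := by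
    intro x₀ hx₀
    rw [← Bool.not_eq_true]
    intro hb
    obtain ⟨y, hy, hA⟩ := hS.col x₀ hx₀
    by_cases hc : y < h - 1 ∨ (y = h - 1 ∧ x₀ < x + 1)
    · exact hA (colBl_hist hw (by omega) hx₀ hb y hc)
    · exact hA (rest_nil hr x₀ y hx₀ hy (by omega))
  rw [hcol 0 (by omega), cond_false] at hl
  have h3 : colBl (Nat.pred w) w (histF A w (x + 1) (h - 1)) 0 = false :=
    hcol (w - 1) (by omega)
  rw [h3, cond_false] at hl
  obtain ⟨ps, xs, n, hc, hperm, hn⟩ := colK_spec w (histF A w (x + 1) (h - 1)) 0 0 [] [] 0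
  rw [hc] at hl
  have hD : lcode w (histF A w (x + 1) (h - 1)) 0 0 = arrCode A w h := by
    rw [lcode_hist hw (by omega), arrCode_split hx (show h - 1 < h by omega), hr,
      List.append_nil, preCode_succ]
  rw [hD] at hperm hn
  simp only [List.map_nil, List.append_nil] at hperm
  have hcl := hS.good.good.closed
  have hn' : n = nl (arrCode A w h) := by
    have := two_nl_closed hcl
    omega
  have hxs : xs.length = 8 := by
    rw [← crossings_nodes ps xs, crossings_perm hperm, crossings_arr, hS.good.nX]
  have hps : ps.length < 20 := by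
    have h4 := hperm.length_eq
    rw [List.length_append, List.length_map, List.length_map] at h4
    have h5 := length_arr A w h
    rw [crossings_arr, hS.good.nX] at h5
    have := hS.good.nC
    omega
  have h6 : n = nl (arrCode A w h) - finrank (ZMod 2) (⊥ : Submodule (ZMod 2) VV) := by
    rw [finrank_bot]; omega
  obtain ⟨f', hf', hcon⟩ := conK_spec hps (Submodule.fg_bot) rep_bot (nl (arrCode A w h)) xs
    (fun xs n => chkS 8 xs xs n n)
  rw [Q2.map_id, Q4.map_id, ← h6] at hcon
  rw [hcon] at hl
  obtain ⟨A', B', hs, hfin⟩ := hS.good.good.fin5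
  obtain ⟨A'', B'', hs', rfl, rfl⟩ := Sm_points (Sm_perm hperm.symm hs)
  have hfg : ((⊥ : Submodule (ZMod 2) VV) ⊔ spP ps).FG := by
    rw [bot_sup_eq]; exact spP_fg ps
  rw [← hxs] at hl
  have := chkS_spec xs hfg hfg hf' hf' _ hl hs'
  rw [notBad_iff, bot_sup_eq] at this
  apply this
  omega

/-- The search excludes all arrays in standard position. -/
theorem no_std (hR : ∀ w, 1 ≤ w → w ≤ 15 → RunOK w) {A : Arr} {w h : ℕ} (hS : Std A w h) :
    False := by
  obtain ⟨x, hx, hr, hl⟩ := search_sound hS (hR w hS.w1 (hS.wh.trans hS.h15))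
  exact leaf_sound hS hx hr hl

end Pool.Agent.MP_204846_gt
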