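import Pool.Agent.Lib_MP_204846_gt.Box
import Pool.Agent.Lib_MP_204846_gt.ArrDef

/-!
# MP_204846_gt, piece Norm: standard position
-/

namespace Pool.Agent.MP_204846_gt

private theorem norm_tp_bl {k : Kd} : k.tp ≠ .bl ↔ k ≠ .bl := by
  cases k <;> simp [Kd.tp]

private theorem norm_fl_bl {k : Kd} : k.fl ≠ .bl ↔ k ≠ .bl := by
  cases k <;> simp [Kd.fl]

private theorem norm_fl_isC {k : Kd} : k.fl.isC = k.isC := by
  cases k <;> rfl

theorem row_tp {A : Arr} {w y : ℕ} : RowN (tpA A) w y ↔ ColN A w y := by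
  unfold RowN ColN tpA
  simp only [norm_tp_bl]

theorem col_tp {A : Arr} {h x : ℕ} : ColN (tpA A) h x ↔ RowN A h x := by
  unfold RowN ColN tpA
  simp only [norm_tp_bl]

theorem row_fl {A : Arr} {w h y : ℕ} (hy : y < h) : RowN (flA A h) w y ↔ RowN A w (h - 1 - y) := by
  have _ := hy
  unfold RowN flA
  simp only [norm_fl_bl]

theorem col_fl {A : Arr} {h x : ℕ} : ColN (flA A h) h x ↔ ColN A h x := by
  unfold ColN flA
  simp only [norm_fl_bl]
  constructor
  · rintro ⟨y, hy, h1⟩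
    exact ⟨h - 1 - y, by omega, h1⟩
  · rintro ⟨y, hy, h1⟩
    refine ⟨h - 1 - y, by omega, ?_⟩
    rw [show h - 1 - (h - 1 - y) = y by omega]
    exact h1

/-- The lower `m` rows and the upper `m` rows are disjoint; the lower `m` rows of `flA A h` are the upper
`m` rows of `A`. -/
theorem nC_fl {A : Arr} {w h m : ℕ} (hm : 2 * m ≤ h) :
    nC A w m + nC (flA A h) w m ≤ nC A w h := by
  classical
  unfold nC
  have h1 : ((Finset.range w ×ˢ Finset.range m).filter
      fun p => ((flA A h) p.1 p.2).isC = true).card =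
      (((Finset.range w ×ˢ Finset.range m).filter
        fun p => ((flA A h) p.1 p.2).isC = true).image (fun p => (p.1, h - 1 - p.2))).card := by
    rw [Finset.card_image_of_injOn]
    rintro ⟨a, b⟩ hab ⟨c, d⟩ hcd he
    simp only [Finset.coe_filter, Finset.mem_product, Finset.mem_range, Set.mem_setOf_eq] at hab hcd
    simp only [Prod.mk.injEq] at he
    obtain ⟨⟨-, h2⟩, -⟩ := hab
    obtain ⟨⟨-, h3⟩, -⟩ := hcd
    ext
    · exact he.1
    · simp only
      have := he.2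
      omega
  rw [h1, ← Finset.card_union_of_disjoint]
  · apply Finset.card_le_card
    intro p hp
    rw [Finset.mem_union, Finset.mem_filter, Finset.mem_image] at hp
    rw [Finset.mem_filter, Finset.mem_product, Finset.mem_range, Finset.mem_range]
    rcases hp with ⟨h2, h3⟩ | ⟨q, h2, rfl⟩
    · rw [Finset.mem_product, Finset.mem_range, Finset.mem_range] at h2
      exact ⟨⟨h2.1, by omega⟩, h3⟩
    · rw [Finset.mem_filter, Finset.mem_product, Finset.mem_range, Finset.mem_range] at h2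
      obtain ⟨⟨h3, h4⟩, h5⟩ := h2
      refine ⟨⟨h3, by simp only; omega⟩, ?_⟩
      unfold flA at h5
      rw [norm_fl_isC] at h5
      exact h5
  · rw [Finset.disjoint_left]
    intro p hp hq
    rw [Finset.mem_filter, Finset.mem_product, Finset.mem_range, Finset.mem_range] at hp
    rw [Finset.mem_image] at hq
    obtain ⟨q, h2, rfl⟩ := hq
    rw [Finset.mem_filter, Finset.mem_product, Finset.mem_range, Finset.mem_range] at h2
    have h3 := hp.1.2
    have h4 := h2.1.2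
    simp only at h3
    omega

/-- Crop (`exists_crop`), transpose if `h < w`, flip if the lower `w / 2` rows contain more than three
connectors. -/
theorem exists_std {A : Arr} {w h : ℕ} (hG : GoodArr A w h) :
    ∃ A' w' h', Std A' w' h' := by
  obtain ⟨A₁, w₁, h₁, g₁, hw₁, hh₁, hr₁, hc₁⟩ := exists_crop hG
  -- transpose
  obtain ⟨A₂, w₂, h₂, g₂, hw₂, hwh₂, hr₂, hc₂⟩ : ∃ A₂ w₂ h₂, GoodArr A₂ w₂ h₂ ∧ 1 ≤ w₂ ∧ w₂ ≤ h₂ ∧
      (∀ y < h₂, RowN A₂ w₂ y) ∧ ∀ x < w₂, ColN A₂ h₂ x := by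
    rcases le_total w₁ h₁ with hle | hle
    · exact ⟨A₁, w₁, h₁, g₁, hw₁, hle, hr₁, hc₁⟩
    · exact ⟨tpA A₁, h₁, w₁, good_tp g₁, hh₁, hle, fun y hy => row_tp.2 (hc₁ y hy),
        fun x hx => col_tp.2 (hr₁ x hx)⟩
  have h15 := height_le g₂ hr₂
  by_cases htop : nC A₂ w₂ (w₂ / 2) ≤ 3
  · exact ⟨A₂, w₂, h₂, ⟨g₂, hw₂, hwh₂, h15, hr₂, hc₂, htop⟩⟩
  · refine ⟨flA A₂ h₂, w₂, h₂, ⟨good_fl g₂, hw₂, hwh₂, h15, fun y hy => ?_, fun x hx => ?_, ?_⟩⟩
    · exact (row_fl hy).2 (hr₂ _ (by omega))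
    · exact col_fl.2 (hc₂ x hx)
    · have h3 := nC_fl (A := A₂) (w := w₂) (h := h₂) (m := w₂ / 2) (by omega)
      have h4 := g₂.nC
      omega

end Pool.Agent.MP_204846_gt
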