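import Pool.Agent.Lib_MP_204846_gt.ArrSum

/-!
# MP_204846_gt, piece ToArr: from mosaics to arrays
-/

namespace Pool.Agent.MP_204846_gt

/-- the array of the kinds of the tiles -/
def toArr {n : ℕ} (M : Mosaic n) : Arr := fun x y =>
  if h : x < n ∧ y < n then (M ⟨x, h.1⟩ ⟨y, h.2⟩).kind else .bl

private theorem ToArr_apply {n : ℕ} (M : Mosaic n) (x y : Fin n) :
    toArr M (x : ℕ) (y : ℕ) = (M x y).kind := by
  unfold toArr
  rw [dif_pos ⟨x.2, y.2⟩]

private theorem ToArr_fm {n : ℕ} (g : Fin n → Code) :
    (((List.finRange n).flatMap g : Code) : Multiset Node) = ∑ i : Fin n, (g i : Multiset Node) := by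
  have h : ∀ (l : List (Fin n)), ((l.flatMap g : Code) : Multiset Node) =
      (l.map fun i => (g i : Multiset Node)).sum := by
    intro l
    induction l with
    | nil => rfl
    | cons a l ih =>
      rw [List.flatMap_cons, List.map_cons, List.sum_cons, ← ih, ← Multiset.coe_add]
  rw [h, ← List.sum_ofFn, List.ofFn_eq_map]

private theorem ToArr_rel (t : Tile) (bl br tr tl : ℕ) :
    Multiset.Rel DEq (t.code bl br tr tl : Multiset Node) (t.kind.code bl br tr tl : Multiset Node) := by
  have hr : ∀ s : Multiset Node, Multiset.Rel DEq s s := fun s =>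
    Multiset.rel_refl_of_refl_on fun x _ => DEq.rfl x
  have hx : ∀ N N' : Node, DEq N N' →
      Multiset.Rel DEq (([N] : Code) : Multiset Node) (([N'] : Code) : Multiset Node) := by
    intro N N' h
    rw [Multiset.coe_singleton, Multiset.coe_singleton]
    exact Multiset.Rel.cons h Multiset.Rel.zero
  cases t
  case crossOver =>
    refine hx _ _ ?_
    exact DEq.rot (DEq.rot (DEq.rot (DEq.rfl _)))
  all_goals exact hr _

/-- `crossOver` is a rotation of `crossUnder`, all other tiles have the same nodes as their kinds. -/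
theorem rel_toArr {n : ℕ} (M : Mosaic n) :
    Multiset.Rel DEq (M.code : Multiset Node) (arrCode (toArr M) n n : Multiset Node) := by
  have e1 : (M.code : Multiset Node) = ∑ x : Fin n, ∑ y : Fin n,
      (((M x y).code (vert x y) (vert (x + 1) y) (vert (x + 1) (y + 1)) (vert x (y + 1)) : Code) :
        Multiset Node) := by
    unfold Mosaic.code
    rw [ToArr_fm]
    refine Finset.sum_congr rfl fun x _ => ?_
    rw [ToArr_fm]
  have e2 : (arrCode (toArr M) n n : Multiset Node) = ∑ x : Fin n, ∑ y : Fin n,
      (((M x y).kind.code (vert x y) (vert (x + 1) y) (vert (x + 1) (y + 1)) (vert x (y + 1)) :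
        Code) : Multiset Node) := by
    rw [arrCode_coe, Finset.sum_product, Finset.sum_range]
    refine Finset.sum_congr rfl fun x _ => ?_
    rw [Finset.sum_range]
    refine Finset.sum_congr rfl fun y _ => ?_
    unfold cellCode
    rw [ToArr_apply]
  rw [e1, e2]
  exact rel_sum _ fun x _ => rel_sum _ fun y _ => ToArr_rel _ _ _ _ _

private theorem ToArr_card {n : ℕ} (M : Mosaic n) (p : Kd → Bool) :
    ((Finset.range n ×ˢ Finset.range n).filter fun c => p (toArr M c.1 c.2) = true).card =
      (Finset.univ.filter fun c : Fin n × Fin n => p (M c.1 c.2).kind = true).card := by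
  symm
  apply Finset.card_bij (fun c _ => ((c.1 : ℕ), (c.2 : ℕ)))
  · rintro ⟨x, y⟩ hc
    rw [Finset.mem_filter] at hc ⊢
    refine ⟨?_, ?_⟩
    · rw [Finset.mem_product]
      exact ⟨Finset.mem_range.mpr x.2, Finset.mem_range.mpr y.2⟩
    · rw [ToArr_apply]
      exact hc.2
  · rintro ⟨x, y⟩ _ ⟨x', y'⟩ _ h
    simp only [Prod.mk.injEq] at h
    rw [Prod.mk.injEq]
    exact ⟨Fin.ext h.1, Fin.ext h.2⟩
  · rintro ⟨x, y⟩ hc
    rw [Finset.mem_filter, Finset.mem_product, Finset.mem_range, Finset.mem_range] at hc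
    obtain ⟨⟨hx, hy⟩, hc⟩ := hc
    refine ⟨(⟨x, hx⟩, ⟨y, hy⟩), ?_, rfl⟩
    rw [Finset.mem_filter]
    refine ⟨Finset.mem_univ _, ?_⟩
    rw [← ToArr_apply]
    exact hc

theorem nX_toArr {n : ℕ} (M : Mosaic n) : nX (toArr M) n n = M.crossingTiles := by
  unfold nX Mosaic.crossingTiles
  have h := ToArr_card M (fun k => decide (k = .x))
  simp only [decide_eq_true_eq] at h
  rw [h]
  congr 1
  apply Finset.filter_congr
  rintro ⟨x, y⟩ _
  cases h : M x y <;> simp [Tile.kind, Tile.isCrossing]

theorem nC_toArr {n : ℕ} (M : Mosaic n) :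
    nX (toArr M) n n + nC (toArr M) n n = M.tiles := by
  unfold nX nC Mosaic.tiles
  have h := ToArr_card M (fun k => decide (k = .x))
  simp only [decide_eq_true_eq] at h
  rw [h, ToArr_card M Kd.isC, ← Finset.card_union_of_disjoint]
  · congr 1
    ext ⟨x, y⟩
    simp only [Finset.mem_union, Finset.mem_filter, Finset.mem_univ, true_and]
    cases h : M x y <;> simp [Tile.kind, Kd.isC]
  · rw [Finset.disjoint_left]
    rintro ⟨x, y⟩ h1 h2
    simp only [Finset.mem_filter, Finset.mem_univ, true_and] at h1 h2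
    rw [h1] at h2
    simp [Kd.isC] at h2

private theorem ToArr_countP {n : ℕ} (g : Fin n → Code) :
    ((List.finRange n).flatMap g).countP Node.isX = ∑ i : Fin n, (g i).countP Node.isX := by
  have h : ∀ (l : List (Fin n)), (l.flatMap g).countP Node.isX =
      (l.map fun i => (g i).countP Node.isX).sum := by
    intro l
    induction l with
    | nil => rfl
    | cons a l ih =>
      rw [List.flatMap_cons, List.map_cons, List.sum_cons, ← ih, List.countP_append]
  rw [h, ← List.sum_ofFn, List.ofFn_eq_map]

theorem crossings_code {n : ℕ} (M : Mosaic n) : crossings M.code = M.crossingTiles := by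
  unfold crossings Mosaic.code Mosaic.crossingTiles
  rw [ToArr_countP, Finset.card_filter, ← Finset.univ_product_univ, Finset.sum_product]
  refine Finset.sum_congr rfl fun x _ => ?_
  rw [ToArr_countP]
  refine Finset.sum_congr rfl fun y _ => ?_
  cases h : M x y <;> simp [Tile.code, Tile.isCrossing, Node.isX]

theorem good_toArr {n : ℕ} (M : Mosaic n) (hG : GoodCode M.code) (h8 : M.crossingTiles = 8)
    (h15 : M.tiles ≤ 15) : GoodArr (toArr M) n n := by
  refine ⟨good_rel (rel_toArr M) hG, ?_, ?_⟩
  · rw [nX_toArr, h8]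
  · have h1 := nC_toArr M
    have h2 := nX_toArr M
    omega

end Pool.Agent.MP_204846_gt
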