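import Pool.Agent.Lib_MP_204846_gt.Key
import Pool.Agent.Lib_MP_204846_gt.Leaf
import Pool.Agent.Lib_MP_204846_gt.Norm
import Pool.Agent.Lib_MP_204846_gt.ToArr

/-!
# MP_204846_gt: the final theorem, up to the search
-/

namespace Pool.Agent.MP_204846_gt

theorem tileNumber_le : D₈.type.tileNumber ≤ 15 :=
  Nat.sInf_le ⟨6, M₀, represents_M₀, tiles_M₀⟩

theorem exists_tileNumber :
    ∃ (n : ℕ) (M : Mosaic n), M.Represents D₈.type ∧ M.tiles = D₈.type.tileNumber := by
  have h : {t | ∃ (n : ℕ) (M : Mosaic n), M.Represents D₈.type ∧ M.tiles = t}.Nonempty :=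
    ⟨15, 6, M₀, represents_M₀, tiles_M₀⟩
  exact Nat.sInf_mem h

theorem final (hR : ∀ w, 1 ≤ w → w ≤ 15 → RunOK w) {n : ℕ} (M : Mosaic n)
    (hM : M.Represents D₈.type) (h15 : M.tiles ≤ 15) : M.crossingTiles ≠ 8 := by
  intro h8
  obtain ⟨D, hD, hT⟩ := hM
  have hc : crossings D.code = 8 := by rw [hD, crossings_code, h8]
  have hG : GoodCode M.code := by rw [← hD]; exact good_of_eight hT hc
  obtain ⟨A, w, h, hS⟩ := exists_std (good_toArr M hG h8 h15)
  exact no_std hR hS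

end Pool.Agent.MP_204846_gt
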