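import Pool.Agent.Lib_MP_204846_gt.SmL
import Pool.Agent.Lib_MP_204846_gt.Rank

/-!
# MP_204846_gt, piece GoodRel: `GoodCode` does not depend on the order of the nodes and on rotations and
reflections of the nodes

`Multiset.Rel DEq ↑D ↑D'` means: `D'` is obtained from a permutation of `D` by replacing each node by a
rotated or reflected one.
-/

namespace Pool.Agent.MP_204846_gt

private theorem gr_closed {D D' : Code} (h : (ends D).Perm (ends D')) (hC : Closed D) : Closed D' := by
  intro a ha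
  rw [← h.count_eq]
  exact hC a (h.mem_iff.2 ha)

private theorem gr_nl {D D' : Code} (h : (ends D).Perm (ends D')) : nl D = nl D' := by
  unfold nl
  rw [List.toFinset_eq_of_perm _ _ h]

private theorem gr_eqv {r s : ℕ → ℕ → Prop} (h : ∀ a b, r a b → s a b ∨ s b a) {u v : ℕ}
    (huv : Relation.EqvGen r u v) : Relation.EqvGen s u v := by
  induction huv with
  | rel x y hxy =>
    rcases h x y hxy with h1 | h1
    · exact Relation.EqvGen.rel _ _ h1
    · exact Relation.EqvGen.symm _ _ (Relation.EqvGen.rel _ _ h1)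
  | refl x => exact Relation.EqvGen.refl _
  | symm x y _ ih => exact Relation.EqvGen.symm _ _ ih
  | trans x y z _ _ ih1 ih2 => exact Relation.EqvGen.trans _ _ _ ih1 ih2

/-- A nugatory crossing of a permuted code. -/
private theorem gr_nug_perm {D D' : Code} (h : D.Perm D') (hN : Nug D) : Nug D' := by
  obtain ⟨l₁, l₂, a, b, c, d, f, rfl, hf, hc⟩ := hN
  have hm : Node.X a b c d ∈ D' := h.mem_iff.1 (by simp)
  obtain ⟨k₁, k₂, rfl⟩ := List.append_of_mem hm
  refine ⟨k₁, k₂, a, b, c, d, f, rfl, ?_, hc⟩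
  have h1 : (Node.X a b c d :: (l₁ ++ l₂)).Perm (Node.X a b c d :: (k₁ ++ k₂)) :=
    (List.perm_middle.symm.trans h).trans List.perm_middle
  have h2 : (l₁ ++ l₂).Perm (k₁ ++ k₂) := h1.cons_inv
  intro N hN
  exact hf N (h2.mem_iff.2 hN)

theorem good_perm {D D' : Code} (h : D.Perm D') (hG : GoodCode D) : GoodCode D' := by
  have he : (ends D).Perm (ends D') := h.flatMap_right Node.ends
  refine ⟨gr_closed he hG.closed, ⟨?_, ?_⟩, ?_, ?_⟩
  · rintro rfl
    exact hG.oneComp.1 h.eq_nil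
  · intro u hu v hv
    refine gr_eqv ?_ (hG.oneComp.2 u (he.mem_iff.2 hu) v (he.mem_iff.2 hv))
    rintro a b ⟨N, hN, hT⟩
    exact Or.inl ⟨N, h.mem_iff.1 hN, hT⟩
  · intro hn
    exact hG.nug (gr_nug_perm h.symm hn)
  · obtain ⟨A, B, hS, h5⟩ := hG.fin5
    refine ⟨A, B, Sm_perm h hS, ?_⟩
    rw [← gr_nl he]
    exact h5

/-- the data of a node which matter -/
private theorem gr_ends {N N' : Node} (h : DEq N N') : N.ends.Perm N'.ends := by
  induction h with
  | rfl => exact List.Perm.refl _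
  | @rot a b c d _ ih =>
    refine ih.trans ?_
    show [a, b, c, d].Perm [b, c, d, a]
    exact (List.perm_append_comm (l₁ := [a]) (l₂ := [b, c, d]))
  | @refl a b c d _ ih =>
    refine ih.trans ?_
    show [a, b, c, d].Perm [d, c, b, a]
    exact (List.reverse_perm [a, b, c, d]).symm
  | @swap a b _ ih =>
    refine ih.trans ?_
    show [a, b].Perm [b, a]
    exact List.Perm.swap _ _ _

private theorem gr_thru {N N' : Node} (h : DEq N N') {u v : ℕ} (hT : N.Thru u v) :
    N'.Thru u v ∨ N'.Thru v u := by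
  induction h with
  | rfl => exact Or.inl hT
  | @rot a b c d _ ih =>
    rcases ih with (⟨rfl, rfl⟩ | ⟨rfl, rfl⟩) | (⟨rfl, rfl⟩ | ⟨rfl, rfl⟩)
    · exact Or.inr (Or.inr ⟨rfl, rfl⟩)
    · exact Or.inl (Or.inl ⟨rfl, rfl⟩)
    · exact Or.inl (Or.inr ⟨rfl, rfl⟩)
    · exact Or.inr (Or.inl ⟨rfl, rfl⟩)
  | @refl a b c d _ ih =>
    rcases ih with (⟨rfl, rfl⟩ | ⟨rfl, rfl⟩) | (⟨rfl, rfl⟩ | ⟨rfl, rfl⟩)
    · exact Or.inr (Or.inr ⟨rfl, rfl⟩)
    · exact Or.inr (Or.inl ⟨rfl, rfl⟩)
    · exact Or.inl (Or.inr ⟨rfl, rfl⟩)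
    · exact Or.inl (Or.inl ⟨rfl, rfl⟩)
  | @swap a b _ ih =>
    rcases ih with ⟨rfl, rfl⟩ | ⟨rfl, rfl⟩
    · exact Or.inr ⟨rfl, rfl⟩
    · exact Or.inl ⟨rfl, rfl⟩

private theorem gr_thru' {N N' : Node} (h : DEq N N') {u v : ℕ} (hT : N'.Thru u v) :
    N.Thru u v ∨ N.Thru v u := by
  induction h generalizing u v with
  | rfl => exact Or.inl hT
  | @rot a b c d _ ih =>
    rcases hT with ⟨rfl, rfl⟩ | ⟨rfl, rfl⟩
    · exact ih (Or.inr ⟨rfl, rfl⟩)
    · exact (ih (Or.inl ⟨rfl, rfl⟩)).symm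
  | @refl a b c d _ ih =>
    rcases hT with ⟨rfl, rfl⟩ | ⟨rfl, rfl⟩
    · exact (ih (Or.inr ⟨rfl, rfl⟩)).symm
    · exact (ih (Or.inl ⟨rfl, rfl⟩)).symm
  | @swap a b _ ih =>
    obtain ⟨rfl, rfl⟩ := hT
    exact (ih ⟨rfl, rfl⟩).symm

/-- the condition of a nugatory crossing -/
private def gr_nugX (f : ℕ → Bool) (a b c d : ℕ) : Prop :=
  (f a = f b ∧ f c = f d ∧ f a ≠ f c) ∨ (f b = f c ∧ f d = f a ∧ f a ≠ f b)

private theorem gr_nugN {N N' : Node} (h : DEq N N') (f : ℕ → Bool) {a b c d : ℕ}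
    (hN' : N' = .X a b c d) (hx : gr_nugX f a b c d) :
    ∃ a' b' c' d', N = .X a' b' c' d' ∧ gr_nugX f a' b' c' d' := by
  induction h generalizing a b c d with
  | rfl => exact ⟨a, b, c, d, hN', hx⟩
  | @rot a₀ b₀ c₀ d₀ _ ih =>
    injection hN' with h1 h2 h3 h4
    subst h1 h2 h3 h4
    refine ih rfl ?_
    rcases hx with ⟨h1, h2, h3⟩ | ⟨h1, h2, h3⟩
    · exact Or.inr ⟨h1, h2, fun h => h3 (by rw [← h, ← h2])⟩
    · exact Or.inl ⟨h2, h1, fun h => h3 (by rw [← h, h2])⟩
  | @refl a₀ b₀ c₀ d₀ _ ih =>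
    injection hN' with h1 h2 h3 h4
    subst h1 h2 h3 h4
    refine ih rfl ?_
    rcases hx with ⟨h1, h2, h3⟩ | ⟨h1, h2, h3⟩
    · exact Or.inl ⟨h2.symm, h1.symm, fun h => h3 (by rw [h1, ← h, h2])⟩
    · exact Or.inr ⟨h1.symm, h2.symm, fun h => h3 (by rw [← h2, h, h1])⟩
  | @swap a₀ b₀ _ ih => exact absurd hN' (by simp)

private theorem gr_sm {D D' : Code} (h : List.Forall₂ DEq D D') {A B : Submodule (ZMod 2) VV}
    (hS : Sm D A B) : Sm D' A B := by
  induction h generalizing A B with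
  | nil => exact hS
  | @cons N N' D D' hN _ ih =>
    -- the smoothings of one node
    have key : ∀ {N N' : Node}, DEq N N' → ∀ {A B : Submodule (ZMod 2) VV}, Sm (N :: D') A B →
        Sm (N' :: D') A B := by
      intro N N' h
      induction h with
      | rfl => intro A B hS; exact hS
      | @rot a b c d _ ih2 =>
        intro A B hS
        have h1 := ih2 hS
        cases h1 with
        | X1 _ _ _ _ h2 =>
          have h3 := Sm.X2 b c d a h2
          rw [sup_comm (EE c d) (EE a b)] at h3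
          exact h3
        | X2 _ _ _ _ h2 =>
          have h3 := Sm.X1 b c d a h2
          rw [sup_comm (EE c d) (EE a b)] at h3
          exact h3
      | @refl a b c d _ ih2 =>
        intro A B hS
        have h1 := ih2 hS
        cases h1 with
        | X1 _ _ _ _ h2 =>
          have h3 := Sm.X1 d c b a h2
          rw [EE_comm d c, EE_comm b a, sup_comm (EE c d) (EE a b), EE_comm c b, EE_comm a d] at h3
          exact h3
        | X2 _ _ _ _ h2 =>
          have h3 := Sm.X2 d c b a h2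
          rw [EE_comm d c, EE_comm b a, sup_comm (EE c d) (EE a b), EE_comm c b, EE_comm a d] at h3
          exact h3
      | @swap a b _ ih2 =>
        intro A B hS
        have h1 := ih2 hS
        cases h1 with
        | P _ _ h2 =>
          have h3 := Sm.P b a h2
          rw [EE_comm b a] at h3
          exact h3
    apply key hN
    cases hS with
    | P a b h => exact Sm.P a b (ih h)
    | X1 a b c d h => exact Sm.X1 a b c d (ih h)
    | X2 a b c d h => exact Sm.X2 a b c d (ih h)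

private theorem gr_ends_list {D D' : Code} (h : List.Forall₂ DEq D D') : (ends D).Perm (ends D') := by
  induction h with
  | nil => exact List.Perm.refl _
  | @cons N N' D D' hN _ ih =>
    show (N.ends ++ ends D).Perm (N'.ends ++ ends D')
    exact (gr_ends hN).append ih

private theorem gr_mem_left {D D' : Code} (h : List.Forall₂ DEq D D') {N : Node} (hN : N ∈ D) :
    ∃ N' ∈ D', DEq N N' := by
  induction h with
  | nil => exact absurd hN (by simp)
  | @cons M M' D D' hM _ ih =>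
    rcases List.mem_cons.1 hN with rfl | h1
    · exact ⟨M', by simp, hM⟩
    · obtain ⟨N', h2, h3⟩ := ih h1
      exact ⟨N', List.mem_cons_of_mem _ h2, h3⟩

private theorem gr_split {D l₁ l₂ : Code} (h : List.Forall₂ DEq D (l₁ ++ l₂)) :
    ∃ k₁ k₂, List.Forall₂ DEq k₁ l₁ ∧ List.Forall₂ DEq k₂ l₂ ∧ D = k₁ ++ k₂ :=
  ⟨D.take l₁.length, D.drop l₁.length, List.forall₂_take_append _ _ _ h,
    List.forall₂_drop_append _ _ _ h, (List.take_append_drop _ _).symm⟩

private theorem gr_nug {D D' : Code} (h : List.Forall₂ DEq D D') (hn : Nug D') : Nug D := by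
  obtain ⟨l₁, l₂, a, b, c, d, f, rfl, hf, hc⟩ := hn
  obtain ⟨k₁, k₂', h1, h2, rfl⟩ := gr_split h
  obtain ⟨N, k₂, hN, h3, rfl⟩ := List.forall₂_cons_right_iff.1 h2
  obtain ⟨a', b', c', d', rfl, hx⟩ := gr_nugN hN f rfl hc
  refine ⟨k₁, k₂, a', b', c', d', f, rfl, ?_, hx⟩
  intro M hM u hu v hv
  have : ∃ M' ∈ l₁ ++ l₂, DEq M M' := by
    rcases List.mem_append.1 hM with h4 | h4
    · obtain ⟨M', h5, h6⟩ := gr_mem_left h1 h4
      exact ⟨M', List.mem_append_left _ h5, h6⟩
    · obtain ⟨M', h5, h6⟩ := gr_mem_left h3 h4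
      exact ⟨M', List.mem_append_right _ h5, h6⟩
  obtain ⟨M', h5, h6⟩ := this
  exact hf M' h5 u ((gr_ends h6).mem_iff.1 hu) v ((gr_ends h6).mem_iff.1 hv)

/-- Closed: the list of the ends is permuted. OneComp: `Thru` is the same up to the direction.
Nug: the two cases are exchanged or stay the same. Fin5: `Sm D A B → Sm D' A B` (a rotation exchanges
the two smoothings; `EE_comm`, `sup_comm`). -/
theorem good_forall {D D' : Code} (h : List.Forall₂ DEq D D') (hG : GoodCode D) :
    GoodCode D' := by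
  have he := gr_ends_list h
  refine ⟨gr_closed he hG.closed, ⟨?_, ?_⟩, ?_, ?_⟩
  · rintro rfl
    exact hG.oneComp.1 (List.forall₂_nil_right_iff.1 h)
  · intro u hu v hv
    refine gr_eqv ?_ (hG.oneComp.2 u (he.mem_iff.2 hu) v (he.mem_iff.2 hv))
    rintro a b ⟨N, hN, hT⟩
    obtain ⟨N', h1, h2⟩ := gr_mem_left h hN
    rcases gr_thru h2 hT with h3 | h3
    · exact Or.inl ⟨N', h1, h3⟩
    · exact Or.inr ⟨N', h1, h3⟩
  · intro hn
    exact hG.nug (gr_nug h hn)
  · obtain ⟨A, B, hS, h5⟩ := hG.fin5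
    refine ⟨A, B, gr_sm h hS, ?_⟩
    rw [← gr_nl he]
    exact h5

theorem good_rel {D D' : Code} (h : Multiset.Rel DEq (D : Multiset Node) (D' : Multiset Node))
    (hG : GoodCode D) : GoodCode D' := by
  -- a permutation of `D` is node by node related to `D'`
  have key : ∀ (s t : Multiset Node), Multiset.Rel DEq s t → ∀ l' : List Node, (l' : Multiset Node) = t →
      ∃ l : List Node, (l : Multiset Node) = s ∧ List.Forall₂ DEq l l' := by
    intro s t hr
    induction hr with
    | zero =>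
      intro l' hl'
      rw [Multiset.coe_eq_zero] at hl'
      subst hl'
      exact ⟨[], rfl, List.Forall₂.nil⟩
    | @cons a b as bs hab _ ih =>
      intro l' hl'
      have hb : b ∈ l' := by
        have : b ∈ (l' : Multiset Node) := by rw [hl']; exact Multiset.mem_cons_self _ _
        simpa using this
      obtain ⟨k₁, k₂, rfl⟩ := List.append_of_mem hb
      have h1 : ((k₁ ++ k₂ : List Node) : Multiset Node) = bs := by
        have h2 : ((k₁ ++ b :: k₂ : List Node) : Multiset Node) = b ::ₘ ((k₁ ++ k₂ : List Node) : Multiset Node) := by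
          rw [Multiset.cons_coe, Multiset.coe_eq_coe]
          exact List.perm_middle
        rw [h2] at hl'
        exact (Multiset.cons_inj_right b).1 hl'
      obtain ⟨l, hl, hF⟩ := ih (k₁ ++ k₂) h1
      obtain ⟨m₁, m₂, hF1, hF2, rfl⟩ := gr_split hF
      refine ⟨m₁ ++ a :: m₂, ?_, ?_⟩
      · rw [← hl, Multiset.cons_coe, Multiset.coe_eq_coe]
        exact List.perm_middle
      · exact List.rel_append hF1 (List.Forall₂.cons hab hF2)
  obtain ⟨l, hl, hF⟩ := key _ _ h D' rfl
  exact good_forall hF (good_perm (Multiset.coe_eq_coe.1 hl).symm hG)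

end Pool.Agent.MP_204846_gt
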