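import Pool.Agent.Lib_MP_204846_gt.InvDef

/-!
# MP_204846_gt, piece InvBad: forbidden configurations

In all proofs the coloring `f` given by `Inv.str` or `Inv.src` for `N` is changed to `false` at the labels
which do not occur in `N`. A label of a node of `rest` either does not occur in `N`, or it occurs
once in `N` (as the code is closed) and it is an open end of `Γ` which is different from the two ends
which are joined.
-/

namespace Pool.Agent.MP_204846_gt

private theorem ends_mid (N : Code) (nd : Node) (rest : Code) :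
    ends (N ++ nd :: rest) = ends N ++ (nd.ends ++ ends rest) := by
  unfold ends
  rw [List.flatMap_append, List.flatMap_cons]

private theorem mem_ends_of {N : Code} {M : Node} (hM : M ∈ N) {x : ℕ} (hx : x ∈ M.ends) :
    x ∈ ends N := by
  unfold ends
  exact List.mem_flatMap.2 ⟨M, hM, hx⟩

private theorem count_mid {N : Code} {nd : Node} {rest : Code} (hc : Closed (N ++ nd :: rest)) {x : ℕ}
    (hx : x ∈ nd.ends ∨ x ∈ ends rest) :
    (ends N).count x + (nd.ends.count x + (ends rest).count x) = 2 := by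
  have h1 : x ∈ ends (N ++ nd :: rest) := by
    rw [ends_mid, List.mem_append, List.mem_append]
    exact Or.inr hx
  have h2 := hc x h1
  rw [ends_mid, List.count_append, List.count_append] at h2
  exact h2

/-- a label of `N` and of a later node is an open end -/
private theorem open_rest {N : Code} {Γ : ℕ → Ent} (h : Inv N Γ) {nd : Node} {rest : Code}
    (hc : Closed (N ++ nd :: rest)) {x : ℕ} (hx : x ∈ ends rest) (hN : x ∈ ends N) :
    (∃ s c, Γ x = .o s c) ∧ x ∉ nd.ends := by
  have h1 := count_mid hc (Or.inr hx)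
  have h2 := List.count_pos_iff.2 hx
  have h3 := List.count_pos_iff.2 hN
  have h4 : (ends N).count x = 1 := by omega
  have h5 : nd.ends.count x = 0 := by omega
  refine ⟨?_, List.count_eq_zero.1 h5⟩
  cases hΓ : Γ x with
  | z => have := h.zero x hΓ; omega
  | f => have := h.two x hΓ; omega
  | o s c => exact ⟨s, c, rfl⟩

/-- a label of `N` and of the next node is an open end -/
private theorem open_mid {N : Code} {Γ : ℕ → Ent} (h : Inv N Γ) {nd : Node} {rest : Code}
    (hc : Closed (N ++ nd :: rest)) {x : ℕ} (hx : x ∈ nd.ends) (hN : x ∈ ends N) :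
    ∃ s c, Γ x = .o s c := by
  have h1 := count_mid hc (Or.inl hx)
  have h2 := List.count_pos_iff.2 hx
  have h3 := List.count_pos_iff.2 hN
  have h4 : (ends N).count x = 1 := by omega
  cases hΓ : Γ x with
  | z => have := h.zero x hΓ; omega
  | f => have := h.two x hΓ; omega
  | o s c => exact ⟨s, c, rfl⟩

private theorem mem_of_open {N : Code} {Γ : ℕ → Ent} (h : Inv N Γ) {x s c : ℕ}
    (hx : Γ x = .o s c) : x ∈ ends N := by
  have h1 := h.one x s c hx
  exact List.count_pos_iff.1 (by omega)

private theorem not_mem_of_z {N : Code} {Γ : ℕ → Ent} (h : Inv N Γ) {x : ℕ}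
    (hx : Γ x = .z) : x ∉ ends N := List.count_eq_zero.1 (h.zero x hx)

/-- `f` on the labels of `N`, `false` elsewhere -/
private def cut (N : Code) (f : ℕ → Bool) : ℕ → Bool := fun x => decide (x ∈ ends N) && f x

private theorem cut_mem {N : Code} {f : ℕ → Bool} {x : ℕ} (h : x ∈ ends N) : cut N f x = f x := by
  simp [cut, h]

private theorem cut_not_mem {N : Code} {f : ℕ → Bool} {x : ℕ} (h : x ∉ ends N) :
    cut N f x = false := by
  simp [cut, h]

private theorem split_at {N : Code} {i : ℕ} {x : Node} (h : N[i]? = some x) :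
    ∃ l₁ l₂, N = l₁ ++ x :: l₂ ∧ ∀ M ∈ l₁ ++ l₂, ∃ j, j ≠ i ∧ N[j]? = some M := by
  obtain ⟨hi, hx⟩ := List.getElem?_eq_some_iff.1 h
  refine ⟨N.take i, N.drop (i + 1), ?_, ?_⟩
  · rw [← hx, ← List.drop_eq_getElem_cons hi, List.take_append_drop]
  · intro M hM
    rcases List.mem_append.1 hM with hM | hM
    · obtain ⟨j, hj⟩ := List.mem_iff_getElem?.1 hM
      have hj' := hj
      rw [List.getElem?_take] at hj'
      split_ifs at hj' with hlt
      exact ⟨j, by omega, hj'⟩
    · obtain ⟨j, hj⟩ := List.mem_iff_getElem?.1 hM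
      rw [List.getElem?_drop] at hj
      exact ⟨_, by omega, hj⟩

/-- A loop without crossings between neighbouring corners of a crossing. Take
`G n = decide (n = leg s c ∨ n = leg t d)` in `Inv.src`. At the crossing number `ν (c / 4)` the coloring is
true at the corners `c % 4` and `d % 4`, at all other nodes it is constant. -/
theorem mono_nug {N : Code} {Γ : ℕ → Ent} (h : Inv N Γ) {u v s c t d : ℕ} (huv : u ≠ v)
    (hu : Γ u = .o s c) (hv : Γ v = .o t d) (hm : mono c d = true) {rest : Code}
    (hc : Closed (N ++ .P u v :: rest)) : Nug (N ++ .P u v :: rest) := by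
  have hm' : c ≠ 0 ∧ c / 4 = d / 4 ∧ (c + d) % 2 = 1 := by
    unfold mono at hm
    have e1 : Nat.beq c 0 = false := by
      by_contra hh
      rw [Bool.not_eq_false] at hh
      rw [hh] at hm
      simp at hm
    rw [e1] at hm
    have e2 : Nat.beq (Nat.div c 4) (Nat.div d 4) = true := by
      by_contra hh
      rw [Bool.not_eq_true] at hh
      rw [hh] at hm
      simp at hm
    rw [e2] at hm
    refine ⟨?_, Nat.eq_of_beq_eq_true e2, Nat.eq_of_beq_eq_true hm⟩
    intro hc0
    rw [hc0] at e1
    simp at e1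
  obtain ⟨hc0, hcd, hpar⟩ := hm'
  have hc4 := h.src4 u s c hu hc0
  have hd0 : d ≠ 0 := by omega
  obtain ⟨ν, hX, hsrc⟩ := h.src
  obtain ⟨f, hf1, hf2, hf3⟩ := hsrc fun n => decide (n = leg s c ∨ n = leg t d)
  have hG : ∀ s' e, e ≠ 0 →
      (decide (leg s' e = leg s c ∨ leg s' e = leg t d) = true ↔ e = c ∨ e = d) := by
    intro s' e he
    rw [decide_eq_true_iff]
    unfold leg
    rw [if_neg he, if_neg hc0, if_neg hd0]
    omega
  have hG0 : ∀ s', decide (leg s' 0 = leg s c ∨ leg s' 0 = leg t d) = false := by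
    intro s'
    rw [decide_eq_false_iff_not]
    unfold leg
    rw [if_pos rfl, if_neg hc0, if_neg hd0]
    omega
  -- the value at open ends
  have hop : ∀ x s' e, Γ x = .o s' e → x ≠ u → x ≠ v → f x = false := by
    intro x s' e hx hxu hxv
    rw [hf1 x s' e hx]
    by_cases he : e = 0
    · rw [he]; exact hG0 s'
    · by_contra hh
      rw [Bool.not_eq_false] at hh
      rcases (hG s' e he).1 hh with h1 | h1
      · subst h1
        exact hxu (h.uniq x u s' s e hx hu he)
      · subst h1
        exact hxv (h.uniq x v s' t e hx hv he)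
  have hfu : f u = true := by rw [hf1 u s c hu]; exact (hG s c hc0).2 (Or.inl rfl)
  have hfv : f v = true := by rw [hf1 v t d hv]; exact (hG t d hd0).2 (Or.inr rfl)
  obtain ⟨a₁, a₂, a₃, a₄, hat⟩ := hX u s c hu hc0
  obtain ⟨l₁, l₂, hN, hl⟩ := split_at hat
  have hXmem : Node.X a₁ a₂ a₃ a₄ ∈ N := by rw [hN]; simp
  refine ⟨l₁, l₂ ++ .P u v :: rest, a₁, a₂, a₃, a₄, cut N f, ?_, ?_, ?_⟩
  · rw [hN]; simp
  · -- constant at the other nodes
    have hconst : ∀ M ∈ l₁ ++ l₂, ∀ x ∈ M.ends, ∀ y ∈ M.ends, cut N f x = cut N f y := by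
      intro M hM x hx y hy
      obtain ⟨j, hji, hj⟩ := hl M hM
      have hMN : M ∈ N := List.mem_of_getElem? hj
      rw [cut_mem (mem_ends_of hMN hx), cut_mem (mem_ends_of hMN hy)]
      cases M with
      | P a b =>
        have hab := hf2 a b hMN
        simp only [Node.ends, List.mem_cons, List.not_mem_nil, or_false] at hx hy
        rcases hx with rfl | rfl <;> rcases hy with rfl | rfl <;> simp [hab]
      | X b₁ b₂ b₃ b₄ =>
        have hfalse : ∀ (q w : ℕ), [b₁, b₂, b₃, b₄][q]? = some w → f w = false := by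
          intro q w hq
          by_contra hh
          rw [Bool.not_eq_false] at hh
          obtain ⟨v', s', e, _, he, hν, _, hGe⟩ := (hf3 j b₁ b₂ b₃ b₄ hj q w hq).1 hh
          rcases (hG s' e he).1 hGe with h1 | h1
          · rw [h1] at hν; exact hji hν.symm
          · rw [h1, ← hcd] at hν; exact hji hν.symm
        obtain ⟨qx, hqx⟩ := List.mem_iff_getElem?.1 hx
        obtain ⟨qy, hqy⟩ := List.mem_iff_getElem?.1 hy
        rw [hfalse qx x hqx, hfalse qy y hqy]
    intro M hM x hx y hy
    have hM' : M ∈ l₁ ++ l₂ ∨ M = .P u v ∨ M ∈ rest := by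
      simp only [List.mem_append, List.mem_cons] at hM ⊢
      tauto
    rcases hM' with hM' | hM' | hM'
    · exact hconst M hM' x hx y hy
    · subst hM'
      have key : ∀ w ∈ (Node.P u v).ends, cut N f w = true := by
        intro w hw
        simp only [Node.ends, List.mem_cons, List.not_mem_nil, or_false] at hw
        rcases hw with rfl | rfl
        · rw [cut_mem (mem_of_open h hu), hfu]
        · rw [cut_mem (mem_of_open h hv), hfv]
      rw [key x hx, key y hy]
    · have key : ∀ w ∈ M.ends, cut N f w = false := by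
        intro w hw
        by_cases hwN : w ∈ ends N
        · obtain ⟨⟨s', e, hwo⟩, hne⟩ := open_rest h hc (mem_ends_of hM' hw) hwN
          rw [cut_mem hwN]
          simp only [Node.ends, List.mem_cons, List.not_mem_nil, or_false, not_or] at hne
          exact hop w s' e hwo hne.1 hne.2
        · exact cut_not_mem hwN
      rw [key x hx, key y hy]
  · -- the crossing
    have hcorner : ∀ (q w : ℕ), [a₁, a₂, a₃, a₄][q]? = some w →
        (cut N f w = true ↔ q = c % 4 ∨ q = d % 4) := by
      intro q w hq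
      have hw : w ∈ (Node.X a₁ a₂ a₃ a₄).ends := List.mem_of_getElem? hq
      rw [cut_mem (mem_ends_of hXmem hw), hf3 _ a₁ a₂ a₃ a₄ hat q w hq]
      constructor
      · rintro ⟨v', s', e, _, he, hν, heq, hGe⟩
        rcases (hG s' e he).1 hGe with h1 | h1
        · left; rw [← heq, h1]
        · right; rw [← heq, h1]
      · rintro (h1 | h1)
        · exact ⟨u, s, c, hu, hc0, rfl, h1.symm, (hG s c hc0).2 (Or.inl rfl)⟩
        · exact ⟨v, t, d, hv, hd0, by rw [hcd], h1.symm, (hG t d hd0).2 (Or.inr rfl)⟩
    have k0 := hcorner 0 a₁ rfl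
    have k1 := hcorner 1 a₂ rfl
    have k2 := hcorner 2 a₃ rfl
    have k3 := hcorner 3 a₄ rfl
    have hc3 : c % 4 < 4 := Nat.mod_lt _ (by norm_num)
    have hd3 : d % 4 < 4 := Nat.mod_lt _ (by norm_num)
    have hpar' : (c % 4 + d % 4) % 2 = 1 := by omega
    generalize c % 4 = C at *
    generalize d % 4 = E at *
    generalize cut N f a₁ = x₁ at *
    generalize cut N f a₂ = x₂ at *
    generalize cut N f a₃ = x₃ at *
    generalize cut N f a₄ = x₄ at *
    clear hcorner hsrc hf1 hf2 hf3 hG hG0 hop hX hl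
    interval_cases C <;> interval_cases E <;> simp at k0 k1 k2 k3 hpar' <;>
      simp [k0, k1, k2, k3]

/-- The same if the crossing is the new one; the strand `s` is pure and its two ends are at
neighbouring corners. Take `G n = decide (n = 2 * s)` in `Inv.src`. -/
theorem pureX_nug {N : Code} {Γ : ℕ → Ent} (h : Inv N Γ) {bl br tr tl s : ℕ}
    (hd : [bl, br, tr, tl].Nodup) (hbl : Γ bl = .o s 0)
    (h' : Γ br = .o s 0 ∨ Γ tl = .o s 0) {rest : Code}
    (hc : Closed (N ++ .X bl br tr tl :: rest)) : Nug (N ++ .X bl br tr tl :: rest) := by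
  obtain ⟨ν, hX, hsrc⟩ := h.src
  obtain ⟨f, hf1, hf2, hf3⟩ := hsrc fun n => decide (n = 2 * s)
  have hop : ∀ x s' e, Γ x = .o s' e → ¬ (s' = s ∧ e = 0) → f x = false := by
    intro x s' e hx hne
    rw [hf1 x s' e hx, decide_eq_false_iff_not]
    unfold leg
    split_ifs with he
    · intro hh
      exact hne ⟨by omega, he⟩
    · omega
  have hop1 : ∀ x, Γ x = .o s 0 → f x = true := by
    intro x hx
    rw [hf1 x s 0 hx, decide_eq_true_iff]
    simp [leg]
  have hdist : bl ≠ br ∧ bl ≠ tr ∧ bl ≠ tl ∧ br ≠ tr ∧ br ≠ tl ∧ tr ≠ tl := by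
    simp only [List.nodup_cons, List.mem_cons, List.not_mem_nil, or_false, not_or] at hd
    tauto
  obtain ⟨d1, d2, d3, d4, d5, d6⟩ := hdist
  have hblm : cut N f bl = true := by rw [cut_mem (mem_of_open h hbl), hop1 bl hbl]
  -- the second end of the strand
  have hcore : ∀ p, Γ p = .o s 0 → p ≠ bl → p ∈ (Node.X bl br tr tl).ends →
      (∀ w, w ∈ (Node.X bl br tr tl).ends ∨ w ∈ ends rest → w ≠ bl → w ≠ p →
        cut N f w = false) := by
    intro p hp hpb hpe w hw hwb hwp
    by_cases hwN : w ∈ ends N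
    · rw [cut_mem hwN]
      have hwo : ∃ s' e, Γ w = .o s' e := by
        rcases hw with hw | hw
        · exact open_mid h hc hw hwN
        · exact (open_rest h hc hw hwN).1
      obtain ⟨s', e, hwo⟩ := hwo
      apply hop w s' e hwo
      rintro ⟨h1, h2⟩
      subst h1
      rcases h.pair bl p w s' 0 0 e hbl hp hwo with h3 | h3 | h3
      · exact hpb h3.symm
      · exact hwp h3.symm
      · exact hwb h3.symm
    · exact cut_not_mem hwN
  have hrest : ∀ p, Γ p = .o s 0 → p ≠ bl → p ∈ (Node.X bl br tr tl).ends →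
      ∀ M ∈ N ++ rest, ∀ x ∈ M.ends, ∀ y ∈ M.ends, cut N f x = cut N f y := by
    intro p hp hpb hpe M hM x hx y hy
    rcases List.mem_append.1 hM with hM | hM
    · rw [cut_mem (mem_ends_of hM hx), cut_mem (mem_ends_of hM hy)]
      cases M with
      | P a b =>
        have hab := hf2 a b hM
        simp only [Node.ends, List.mem_cons, List.not_mem_nil, or_false] at hx hy
        rcases hx with rfl | rfl <;> rcases hy with rfl | rfl <;> simp [hab]
      | X b₁ b₂ b₃ b₄ =>
        obtain ⟨j, hj⟩ := List.mem_iff_getElem?.1 hM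
        have hfalse : ∀ (q w : ℕ), [b₁, b₂, b₃, b₄][q]? = some w → f w = false := by
          intro q w hq
          by_contra hh
          rw [Bool.not_eq_false] at hh
          obtain ⟨v', s', e, _, he, _, _, hGe⟩ := (hf3 j b₁ b₂ b₃ b₄ hj q w hq).1 hh
          rw [decide_eq_true_iff] at hGe
          unfold leg at hGe
          rw [if_neg he] at hGe
          omega
        obtain ⟨qx, hqx⟩ := List.mem_iff_getElem?.1 hx
        obtain ⟨qy, hqy⟩ := List.mem_iff_getElem?.1 hy
        rw [hfalse qx x hqx, hfalse qy y hqy]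
    · have key : ∀ w ∈ M.ends, cut N f w = false := by
        intro w hw
        have hwr := mem_ends_of hM hw
        by_cases hwN : w ∈ ends N
        · have hne := (open_rest h hc hwr hwN).2
          have hb : w ≠ bl := fun hh => hne (by rw [hh]; simp [Node.ends])
          have hp' : w ≠ p := fun hh => hne (by rw [hh]; exact hpe)
          exact hcore p hp hpb hpe w (Or.inr hwr) hb hp'
        · exact cut_not_mem hwN
      rw [key x hx, key y hy]
  rcases h' with hbr | htl
  · have hpe : br ∈ (Node.X bl br tr tl).ends := by simp [Node.ends]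
    have e1 : cut N f br = true := by rw [cut_mem (mem_of_open h hbr), hop1 br hbr]
    have e2 := hcore br hbr (Ne.symm d1) hpe tr (Or.inl (by simp [Node.ends])) (Ne.symm d2)
      (Ne.symm d4)
    have e3 := hcore br hbr (Ne.symm d1) hpe tl (Or.inl (by simp [Node.ends])) (Ne.symm d3)
      (Ne.symm d5)
    refine ⟨N, rest, bl, br, tr, tl, cut N f, rfl, hrest br hbr (Ne.symm d1) hpe, Or.inl ?_⟩
    rw [hblm, e1, e2, e3]
    simp
  · have hpe : tl ∈ (Node.X bl br tr tl).ends := by simp [Node.ends]
    have e1 : cut N f tl = true := by rw [cut_mem (mem_of_open h htl), hop1 tl htl]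
    have e2 := hcore tl htl (Ne.symm d3) hpe tr (Or.inl (by simp [Node.ends])) (Ne.symm d2) d6
    have e3 := hcore tl htl (Ne.symm d3) hpe br (Or.inl (by simp [Node.ends])) (Ne.symm d1) d5
    refine ⟨N, rest, bl, br, tr, tl, cut N f, rfl, hrest tl htl (Ne.symm d3) hpe, Or.inr ?_⟩
    rw [hblm, e1, e2, e3]
    simp

private theorem eqv_const {D : Code} {F : ℕ → Bool} (hF : ∀ M ∈ D, ∀ a b, M.Thru a b → F a = F b)
    {u v : ℕ} (huv : Relation.EqvGen (fun a b => ∃ M ∈ D, Node.Thru M a b) u v) : F u = F v := by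
  induction huv with
  | rel a b hab => obtain ⟨M, hM, hT⟩ := hab; exact hF M hM a b hT
  | refl a => rfl
  | symm a b _ ih => exact ih.symm
  | trans a b c _ _ ih1 ih2 => exact ih1.trans ih2

private theorem thru_mem {M : Node} {a b : ℕ} (hT : M.Thru a b) : a ∈ M.ends ∧ b ∈ M.ends := by
  cases M with
  | P x y =>
    obtain ⟨rfl, rfl⟩ := hT
    simp [Node.ends]
  | X x y z w =>
    rcases hT with ⟨rfl, rfl⟩ | ⟨rfl, rfl⟩ <;> simp [Node.ends]

private theorem ends_ne_nil (M : Node) : ∃ x, x ∈ M.ends := by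
  cases M with
  | P x y => exact ⟨x, by simp [Node.ends]⟩
  | X x y z w => exact ⟨x, by simp [Node.ends]⟩

/-- the labels of the later nodes have the color `false` if the two ends of `s` are in `nd` -/
private theorem rest_false {N : Code} {Γ : ℕ → Ent} (h : Inv N Γ) {nd : Node} {rest : Code}
    (hc : Closed (N ++ nd :: rest)) {u v s c d : ℕ} (huv : u ≠ v) (hu : Γ u = .o s c)
    (hv : Γ v = .o s d) (hun : u ∈ nd.ends) (hvn : v ∈ nd.ends) {f : ℕ → Bool}
    (hf : ∀ x s' c', Γ x = .o s' c' → f x = decide (s' = s)) :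
    ∀ w, w ∈ nd.ends ∨ w ∈ ends rest → w ≠ u → w ≠ v → cut N f w = false := by
  intro w hw hwu hwv
  by_cases hwN : w ∈ ends N
  · rw [cut_mem hwN]
    have hwo : ∃ s' e, Γ w = .o s' e := by
      rcases hw with hw | hw
      · exact open_mid h hc hw hwN
      · exact (open_rest h hc hw hwN).1
    obtain ⟨s', e, hwo⟩ := hwo
    rw [hf w s' e hwo, decide_eq_false_iff_not]
    intro h1
    subst h1
    rcases h.pair u v w s' c d e hu hv hwo with h3 | h3 | h3
    · exact huv h3
    · exact hwv h3.symm
    · exact hwu h3.symm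
  · exact cut_not_mem hwN

private theorem rest_false' {N : Code} {Γ : ℕ → Ent} (h : Inv N Γ) {nd : Node} {rest : Code}
    (hc : Closed (N ++ nd :: rest)) {u v s c d : ℕ} (huv : u ≠ v) (hu : Γ u = .o s c)
    (hv : Γ v = .o s d) (hun : u ∈ nd.ends) (hvn : v ∈ nd.ends) {f : ℕ → Bool}
    (hf : ∀ x s' c', Γ x = .o s' c' → f x = decide (s' = s)) :
    ∀ w, w ∈ ends rest → cut N f w = false := by
  intro w hw
  by_cases hwN : w ∈ ends N
  · have hne := (open_rest h hc hw hwN).2
    exact rest_false h hc huv hu hv hun hvn hf w (Or.inr hw) (fun hh => hne (by rw [hh]; exact hun))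
      (fun hh => hne (by rw [hh]; exact hvn))
  · exact cut_not_mem hwN

/-- A strand is closed by a node `P u v`: then there is nothing else. Take `g n = decide (n = s)` in
`Inv.str`. -/
theorem circ_done {N : Code} {Γ : ℕ → Ent} (h : Inv N Γ) {u v s c d : ℕ} (huv : u ≠ v)
    (hu : Γ u = .o s c) (hv : Γ v = .o s d) {rest : Code}
    (hc : Closed (N ++ .P u v :: rest)) (ho : OneComp (N ++ .P u v :: rest)) :
    rest = [] ∧ ∀ w s' c', Γ w = .o s' c' → w = u ∨ w = v := by
  obtain ⟨f, hf1, hf2⟩ := h.str fun n => decide (n = s)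
  have hun : u ∈ (Node.P u v).ends := by simp [Node.ends]
  have hvn : v ∈ (Node.P u v).ends := by simp [Node.ends]
  have hfu : cut N f u = true := by rw [cut_mem (mem_of_open h hu), hf2 u s c hu]; simp
  have hfv : cut N f v = true := by rw [cut_mem (mem_of_open h hv), hf2 v s d hv]; simp
  have hr := rest_false' h hc huv hu hv hun hvn hf2
  have hconst : ∀ M ∈ N ++ .P u v :: rest, ∀ a b, M.Thru a b → cut N f a = cut N f b := by
    intro M hM a b hT
    obtain ⟨ha, hb⟩ := thru_mem hT
    simp only [List.mem_append, List.mem_cons] at hM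
    rcases hM with hM | hM | hM
    · rw [cut_mem (mem_ends_of hM ha), cut_mem (mem_ends_of hM hb)]
      exact hf1 M hM a b hT
    · subst hM
      obtain ⟨rfl, rfl⟩ := hT
      rw [hfu, hfv]
    · rw [hr a (mem_ends_of hM ha), hr b (mem_ends_of hM hb)]
  have hall : ∀ w ∈ ends (N ++ .P u v :: rest), cut N f w = true := by
    intro w hw
    have hu' : u ∈ ends (N ++ .P u v :: rest) :=
      mem_ends_of (M := .P u v) (by simp) hun
    rw [← hfu]
    exact eqv_const hconst (ho.2 w hw u hu')
  constructor
  · by_contra hne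
    obtain ⟨M, rest', hM⟩ := List.exists_cons_of_ne_nil hne
    obtain ⟨x, hx⟩ := ends_ne_nil M
    have hMr : M ∈ rest := by rw [hM]; simp
    have h1 := hr x (mem_ends_of hMr hx)
    have h2 := hall x (mem_ends_of (M := M) (by simp [hMr]) hx)
    rw [h1] at h2
    exact absurd h2 (by decide)
  · intro w s' c' hw
    have hwN := mem_of_open h hw
    have h2 := hall w (by
      rw [ends_mid, List.mem_append]
      exact Or.inl hwN)
    rw [cut_mem hwN, hf2 w s' c' hw, decide_eq_true_iff] at h2
    subst h2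
    rcases h.pair u v w s' c d c' hu hv hw with h3 | h3 | h3
    · exact absurd h3 huv
    · exact Or.inr h3.symm
    · exact Or.inl h3.symm

/-- A strand cannot be closed by the strand `br`, `tl` of a crossing: the label `bl` is not on it. -/
theorem circX_bad {N : Code} {Γ : ℕ → Ent} (h : Inv N Γ) {bl br tr tl s c d : ℕ}
    (hd : [bl, br, tr, tl].Nodup) (hbr : Γ br = .o s c) (htl : Γ tl = .o s d)
    (htr : Γ tr = .z) {rest : Code}
    (hc : Closed (N ++ .X bl br tr tl :: rest)) (ho : OneComp (N ++ .X bl br tr tl :: rest)) :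
    False := by
  have hdist : bl ≠ br ∧ bl ≠ tr ∧ bl ≠ tl ∧ br ≠ tr ∧ br ≠ tl ∧ tr ≠ tl := by
    simp only [List.nodup_cons, List.mem_cons, List.not_mem_nil, or_false, not_or] at hd
    tauto
  obtain ⟨d1, d2, d3, d4, d5, d6⟩ := hdist
  obtain ⟨f, hf1, hf2⟩ := h.str fun n => decide (n = s)
  have hun : br ∈ (Node.X bl br tr tl).ends := by simp [Node.ends]
  have hvn : tl ∈ (Node.X bl br tr tl).ends := by simp [Node.ends]
  have hfu : cut N f br = true := by rw [cut_mem (mem_of_open h hbr), hf2 br s c hbr]; simp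
  have hfv : cut N f tl = true := by rw [cut_mem (mem_of_open h htl), hf2 tl s d htl]; simp
  have hr := rest_false' h hc d5 hbr htl hun hvn hf2
  have e1 : cut N f bl = false :=
    rest_false h hc d5 hbr htl hun hvn hf2 bl (Or.inl (by simp [Node.ends])) d1 d3
  have e2 : cut N f tr = false := cut_not_mem (not_mem_of_z h htr)
  have hconst : ∀ M ∈ N ++ .X bl br tr tl :: rest, ∀ a b, M.Thru a b →
      cut N f a = cut N f b := by
    intro M hM a b hT
    obtain ⟨ha, hb⟩ := thru_mem hT
    simp only [List.mem_append, List.mem_cons] at hM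
    rcases hM with hM | hM | hM
    · rw [cut_mem (mem_ends_of hM ha), cut_mem (mem_ends_of hM hb)]
      exact hf1 M hM a b hT
    · subst hM
      rcases hT with ⟨rfl, rfl⟩ | ⟨rfl, rfl⟩
      · rw [e1, e2]
      · rw [hfu, hfv]
    · rw [hr a (mem_ends_of hM ha), hr b (mem_ends_of hM hb)]
  have h1 : cut N f br = cut N f bl :=
    eqv_const hconst (ho.2 br (mem_ends_of (M := .X bl br tr tl) (by simp) hun) bl
      (mem_ends_of (M := .X bl br tr tl) (by simp) (by simp [Node.ends])))
  rw [hfu, e1] at h1
  exact absurd h1 (by decide)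

end Pool.Agent.MP_204846_gt
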