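import Pool.Agent.Lib_MP_204846_gt.SPlace

/-!
# MP_204846_gt: the invariant of the search (definitions)

`N` is the list of the nodes of the tiles which are already placed, `Γ v` is the entry of the label
`v`.
-/

namespace Pool.Agent.MP_204846_gt

/-- The name of the leg (path without crossing) which ends at an open end with entry `.o s c`. -/
def leg (s c : ℕ) : ℕ := if c = 0 then 2 * s else 2 * c + 1

/-- `Γ` describes the code `N`.

`str`: the strands with different names are different strands: their open ends can be colored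
independently by a coloring which is constant along all strands.

`src`: an end `.o s c` with `c = 4 g + q`, `c ≠ 0`, is joined by a path without crossings to the
corner `q` of the crossing number `ν g` of the list `N`; an end `.o s 0` is joined by such a path to
the other end `.o s 0`: there is a coloring `f` which is constant at the nodes `P a b` and has any given
values on the open legs, and it is false at all corners of crossings which are not on open legs. -/
structure Inv (N : Code) (Γ : ℕ → Ent) : Prop where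
  zero : ∀ v, Γ v = .z → (ends N).count v = 0
  one : ∀ v s c, Γ v = .o s c → (ends N).count v = 1
  two : ∀ v, Γ v = .f → (ends N).count v = 2
  src4 : ∀ v s c, Γ v = .o s c → c ≠ 0 → 4 ≤ c
  uniq : ∀ v v' s s' c, Γ v = .o s c → Γ v' = .o s' c → c ≠ 0 → v = v'
  pair : ∀ v v' v'' s c c' c'', Γ v = .o s c → Γ v' = .o s c' → Γ v'' = .o s c'' →
    v = v' ∨ v' = v'' ∨ v = v''
  mate : ∀ v s c, Γ v = .o s c → ∃ v' c', v' ≠ v ∧ Γ v' = .o s c' ∧ (c' = 0 ↔ c = 0)
  ope : N ≠ [] → ∃ v s c, Γ v = .o s c
  str : ∀ g : ℕ → Bool, ∃ f : ℕ → Bool, (∀ nd ∈ N, ∀ a b, nd.Thru a b → f a = f b) ∧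
    ∀ v s c, Γ v = .o s c → f v = g s
  src : ∃ ν : ℕ → ℕ,
    (∀ v s e, Γ v = .o s e → e ≠ 0 → ∃ a b c d, N[ν (e / 4)]? = some (.X a b c d)) ∧
    ∀ G : ℕ → Bool, ∃ f : ℕ → Bool,
      (∀ v s c, Γ v = .o s c → f v = G (leg s c)) ∧
      (∀ a b, Node.P a b ∈ N → f a = f b) ∧
      (∀ i a b c d, N[i]? = some (.X a b c d) → ∀ q u, [a, b, c, d][q]? = some u →
        (f u = true ↔ ∃ v s e, Γ v = .o s e ∧ e ≠ 0 ∧ ν (e / 4) = i ∧ e % 4 = q ∧
          G (leg s e) = true))

/-- the new entry of a lower left vertex -/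
def bot : Ent → Ent
  | .o _ _ => .f
  | e => e

/-- the new entries after placing a tile -/
def stp (Γ : ℕ → Ent) (bl br tr tl : ℕ) (BR TR TL : Ent) (ρ : Ent → Ent) : ℕ → Ent := fun v =>
  if v = bl then bot (Γ bl) else if v = br then BR else if v = tr then TR else if v = tl then TL
    else ρ (Γ v)

/-- the meaning of the result of `place` for the tile `k` with the corners `bl`, `br`, `tr`, `tl`; `rest`
is the list of the nodes of the later tiles -/
def TileOK (N : Code) (Γ : ℕ → Ent) (bl br tr tl : ℕ) (rest : Code) (k : Kd) : Out → Prop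
  | .bad => False
  | .fin _ => rest = [] ∧ k.isC = true ∧ ∀ v s c, Γ v = .o s c → v = bl ∨ v = br ∨ v = tl
  | .ok _ TR TL BR ρ => Inv (N ++ k.code bl br tr tl) (stp Γ bl br tr tl BR TR TL ρ)

/-- `i` is a new name -/
def Fr (Γ : ℕ → Ent) (i : ℕ) : Prop := 1 ≤ i ∧ ∀ v s c, Γ v = .o s c → s ≠ i ∧ c / 4 ≠ i

end Pool.Agent.MP_204846_gt
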