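import Pool.Agent.Lib_MP_204846_gt.InvDef

/-!
# MP_204846_gt, piece InvJ: joining two strands by a node `P u v`
-/

namespace Pool.Agent.MP_204846_gt

/-- The open ends `u` and `v` of two different strands `s`, `t` are joined; the new strand gets the
name `s`. The other end of `s` (`Inv.mate`), if it is pure (that is its source is `0`, equivalently
`c = 0`), gets the source `d`; the other end of `t`, if it is pure (`d = 0`), gets the source `c`.

`str`: for `g` use the coloring of `N` for `g' n = if n = t then g s else g n`.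

`src`: the same `ν`. For `G` use the coloring of `N` for `G'` which is equal to `G` except:
if `c = 0`: `G' (2 * s) = G (leg s d)`; if `d = 0`: `G' (2 * t) = G (leg s c)`; if `c ≠ 0` and `d ≠ 0`:
`G' (leg s c) = G' (leg t d) = false` (the leg joins two crossings now). Then `f u = f v`, and the
corners: for each `e ≠ 0` there is `v` with source `e` in `Γ` with `G' (2 * e + 1)` if and only if there is
such a `v` in the new `Γ` with `G (2 * e + 1)`. -/
theorem inv_join {N : Code} {Γ : ℕ → Ent} (h : Inv N Γ) {u v s c t d : ℕ} (huv : u ≠ v)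
    (hst : s ≠ t) (hu : Γ u = .o s c) (hv : Γ v = .o t d) :
    Inv (N ++ [.P u v]) (fun w => if w = u ∨ w = v then .f else renM s c t d (Γ w)) := by
  have hN : ∀ w, (ends (N ++ [.P u v])).count w =
      (ends N).count w + ((if u = w then 1 else 0) + (if v = w then 1 else 0)) := by
    intro w
    simp only [ends, List.flatMap_append, List.count_append, List.flatMap_cons, List.flatMap_nil,
      Node.ends, List.append_nil]
    by_cases h1 : u = w <;> by_cases h2 : v = w <;> simp [h1, h2]
  -- the mates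
  obtain ⟨u', c', hu'u, hu', hcc⟩ := h.mate u s c hu
  obtain ⟨v', d', hv'v, hv', hdd⟩ := h.mate v t d hv
  have F2 : ∀ w x, w ≠ u → Γ w = .o s x → w = u' := by
    intro w x hw hx
    rcases h.pair u w u' s c x c' hu hx hu' with h1 | h1 | h1
    · exact absurd h1.symm hw
    · exact h1
    · exact absurd h1.symm hu'u
  have F2t : ∀ w x, w ≠ v → Γ w = .o t x → w = v' := by
    intro w x hw hx
    rcases h.pair v w v' t d x d' hv hx hv' with h1 | h1 | h1
    · exact absurd h1.symm hw
    · exact h1
    · exact absurd h1.symm hv'v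
  have F1 : ∀ w x, w ≠ u → Γ w = .o s x → x = c' := by
    intro w x hw hx
    have := F2 w x hw hx
    rw [this, hu'] at hx
    injection hx with _ h2
    exact h2.symm
  have F1t : ∀ w x, w ≠ v → Γ w = .o t x → x = d' := by
    intro w x hw hx
    have := F2t w x hw hx
    rw [this, hv'] at hx
    injection hx with _ h2
    exact h2.symm
  have hu'v : u' ≠ v := by
    rintro rfl
    rw [hu'] at hv
    injection hv with h1 _
    exact hst h1
  have hv'u : v' ≠ u := by
    rintro rfl
    rw [hv'] at hu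
    injection hu with h1 _
    exact hst h1.symm
  have hu'v' : u' ≠ v' := by
    rintro rfl
    rw [hu'] at hv'
    injection hv' with h1 _
    exact hst h1
  set Γ' : ℕ → Ent := fun w => if w = u ∨ w = v then .f else renM s c t d (Γ w) with hΓ'
  have hval : ∀ w, w ≠ u → w ≠ v → Γ' w = renM s c t d (Γ w) := by
    intro w h1 h2
    simp only [hΓ', h1, h2, or_self, if_false]
  -- new entries
  have Ns : ∀ w x, w ≠ u → w ≠ v → Γ w = .o s x → Γ' w = .o s (if x = 0 then d else x) := by
    intro w x h1 h2 h3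
    rw [hval w h1 h2, h3, renM, if_pos rfl]
    split_ifs <;> rfl
  have Nt : ∀ w x, w ≠ u → w ≠ v → Γ w = .o t x → Γ' w = .o s (if x = 0 then c else x) := by
    intro w x h1 h2 h3
    rw [hval w h1 h2, h3, renM, if_neg (Ne.symm hst), if_pos rfl]
    split_ifs <;> rfl
  have No : ∀ w s1 x, w ≠ u → w ≠ v → s1 ≠ s → s1 ≠ t → Γ w = .o s1 x → Γ' w = .o s1 x := by
    intro w s1 x h1 h2 h3 h4 h5
    rw [hval w h1 h2, h5, renM, if_neg h3, if_neg h4]
  have hu'1 : Γ' u' = .o s (if c' = 0 then d else c') := Ns u' c' hu'u hu'v hu'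
  have hv'1 : Γ' v' = .o s (if d' = 0 then c else d') := Nt v' d' hv'u hv'v hv'
  -- characterisation of the open entries
  have char : ∀ w s1 e, Γ' w = .o s1 e → w ≠ u ∧ w ≠ v ∧
      ((w = u' ∧ s1 = s ∧ e = if c' = 0 then d else c') ∨
        (w = v' ∧ s1 = s ∧ e = if d' = 0 then c else d') ∨
        (Γ w = .o s1 e ∧ s1 ≠ s ∧ s1 ≠ t)) := by
    intro w s1 e hw
    by_cases h1 : w = u
    · simp only [hΓ', h1, true_or, if_true] at hw
      exact absurd hw (by simp)
    by_cases h2 : w = v
    · simp only [hΓ', h2, or_true, if_true] at hw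
      exact absurd hw (by simp)
    refine ⟨h1, h2, ?_⟩
    rcases hG : Γ w with _ | _ | ⟨s0, x⟩
    · rw [hval w h1 h2, hG] at hw
      exact absurd hw (by simp [renM])
    · rw [hval w h1 h2, hG] at hw
      exact absurd hw (by simp [renM])
    · by_cases h3 : s0 = s
      · subst h3
        left
        have e1 := F2 w x h1 hG
        subst e1
        rw [hu'1] at hw
        injection hw with e2 e3
        exact ⟨rfl, e2.symm, e3.symm⟩
      · by_cases h4 : s0 = t
        · subst h4
          right; left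
          have e1 := F2t w x h2 hG
          subst e1
          rw [hv'1] at hw
          injection hw with e2 e3
          exact ⟨rfl, e2.symm, e3.symm⟩
        · right; right
          rw [No w s0 x h1 h2 h3 h4 hG] at hw
          injection hw with e2 e3
          subst e2 e3
          exact ⟨rfl, h3, h4⟩
  -- every new source is an old source
  have old : ∀ w s1 e, Γ' w = .o s1 e → e ≠ 0 → ∃ w0 s0, Γ w0 = .o s0 e := by
    intro w s1 e hw he
    obtain ⟨_, _, h1 | h1 | h1⟩ := char w s1 e hw
    · obtain ⟨_, _, h2⟩ := h1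
      split_ifs at h2
      · exact ⟨v, t, by rw [h2]; exact hv⟩
      · exact ⟨u', s, by rw [h2]; exact hu'⟩
    · obtain ⟨_, _, h2⟩ := h1
      split_ifs at h2
      · exact ⟨u, s, by rw [h2]; exact hu⟩
      · exact ⟨v', t, by rw [h2]; exact hv'⟩
    · exact ⟨w, s1, h1.1⟩
  -- sources are different
  have hcd : c ≠ 0 → c ≠ d := by
    intro h1 h2
    exact huv (h.uniq u v s t c hu (h2 ▸ hv) h1)
  have hc'c : c' ≠ 0 → c' ≠ c := by
    intro h1 h2
    exact hu'u (h.uniq u' u s s c' hu' (h2 ▸ hu) h1)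
  have hc'd : c' ≠ 0 → c' ≠ d := by
    intro h1 h2
    exact hu'v (h.uniq u' v s t c' hu' (h2 ▸ hv) h1)
  have hd'd : d' ≠ 0 → d' ≠ d := by
    intro h1 h2
    exact hv'v (h.uniq v' v t t d' hv' (h2 ▸ hv) h1)
  have hd'c : d' ≠ 0 → d' ≠ c := by
    intro h1 h2
    exact hv'u (h.uniq v' u t s d' hv' (h2 ▸ hu) h1)
  have hc'd' : c' ≠ 0 → c' ≠ d' := by
    intro h1 h2
    exact hu'v' (h.uniq u' v' s t c' hu' (h2 ▸ hv') h1)
  have hoc : ∀ w s1 e, w ≠ u → Γ w = .o s1 e → e ≠ 0 → e ≠ c := by
    intro w s1 e h1 h2 h3 h4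
    exact h1 (h.uniq w u s1 s e h2 (h4 ▸ hu) h3)
  have hod : ∀ w s1 e, w ≠ v → Γ w = .o s1 e → e ≠ 0 → e ≠ d := by
    intro w s1 e h1 h2 h3 h4
    exact h1 (h.uniq w v s1 t e h2 (h4 ▸ hv) h3)
  have hoc' : ∀ w s1 e, w ≠ u' → Γ w = .o s1 e → e ≠ 0 → e ≠ c' := by
    intro w s1 e h1 h2 h3 h4
    exact h1 (h.uniq w u' s1 s e h2 (h4 ▸ hu') h3)
  have hod' : ∀ w s1 e, w ≠ v' → Γ w = .o s1 e → e ≠ 0 → e ≠ d' := by
    intro w s1 e h1 h2 h3 h4
    exact h1 (h.uniq w v' s1 t e h2 (h4 ▸ hv') h3)
  refine ⟨?_, ?_, ?_, ?_, ?_, ?_, ?_, ?_, ?_, ?_⟩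
  · -- zero
    intro w hw
    have h1 : w ≠ u := by
      rintro rfl
      simp [hΓ'] at hw
    have h2 : w ≠ v := by
      rintro rfl
      simp [hΓ'] at hw
    rw [hN, if_neg (Ne.symm h1), if_neg (Ne.symm h2)]
    have h3 : Γ w = .z := by
      rw [hval w h1 h2] at hw
      rcases hG : Γ w with _ | _ | ⟨s0, x⟩
      · rfl
      · rw [hG] at hw; simp [renM] at hw
      · rw [hG] at hw
        simp only [renM] at hw
        split_ifs at hw
    rw [h.zero w h3]
  · -- one
    intro w s1 e hw
    obtain ⟨h1, h2, h3⟩ := char w s1 e hw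
    rw [hN, if_neg (Ne.symm h1), if_neg (Ne.symm h2)]
    have h4 : ∃ s0 x, Γ w = .o s0 x := by
      rcases h3 with h3 | h3 | h3
      · exact ⟨s, c', by rw [h3.1]; exact hu'⟩
      · exact ⟨t, d', by rw [h3.1]; exact hv'⟩
      · exact ⟨s1, e, h3.1⟩
    obtain ⟨s0, x, h4⟩ := h4
    rw [h.one w s0 x h4]
  · -- two
    intro w hw
    rw [hN]
    by_cases h1 : w = u
    · subst h1
      rw [h.one w s c hu, if_pos rfl, if_neg (Ne.symm huv)]
    by_cases h2 : w = v
    · subst h2
      rw [h.one w t d hv, if_pos rfl, if_neg huv]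
    rw [if_neg (Ne.symm h1), if_neg (Ne.symm h2)]
    have h3 : Γ w = .f := by
      rw [hval w h1 h2] at hw
      rcases hG : Γ w with _ | _ | ⟨s0, x⟩
      · rw [hG] at hw; simp [renM] at hw
      · rfl
      · rw [hG] at hw
        simp only [renM] at hw
        split_ifs at hw
    rw [h.two w h3]
  · -- src4
    intro w s1 e hw he
    obtain ⟨w0, s0, h1⟩ := old w s1 e hw he
    exact h.src4 w0 s0 e h1 he
  · -- uniq
    intro w w' s1 s2 e hw hw' he
    obtain ⟨h1, h2, h3⟩ := char w s1 e hw
    obtain ⟨h1', h2', h3'⟩ := char w' s2 e hw'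
    by_cases hww : w = w'
    · exact hww
    exfalso
    rcases h3 with ⟨a1, a2, a3⟩ | ⟨a1, a2, a3⟩ | ⟨a1, a2, a3⟩ <;>
      rcases h3' with ⟨b1, b2, b3⟩ | ⟨b1, b2, b3⟩ | ⟨b1, b2, b3⟩
    · exact hww (a1.trans b1.symm)
    · split_ifs at a3 b3 with k1 k2 k2
      · exact he (a3.trans (hdd.mp k2))
      · exact hd'd k2 (b3.symm.trans a3)
      · exact hc'c k1 (a3.symm.trans b3)
      · exact hc'd' k1 (a3.symm.trans b3)
    · split_ifs at a3 with k1
      · exact hod w' s2 e h2' b1 he a3
      · exact hoc' w' s2 e (fun hh => hww (a1.trans hh.symm)) b1 he a3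
    · split_ifs at a3 b3 with k1 k2 k2
      · exact he (b3.trans (hdd.mp k1))
      · exact hc'c k2 (b3.symm.trans a3)
      · exact hd'd k1 (a3.symm.trans b3)
      · exact hc'd' k2 (b3.symm.trans a3)
    · exact hww (a1.trans b1.symm)
    · split_ifs at a3 with k1
      · exact hoc w' s2 e h1' b1 he a3
      · exact hod' w' s2 e (fun hh => hww (a1.trans hh.symm)) b1 he a3
    · split_ifs at b3 with k1
      · exact hod w s1 e h2 a1 he b3
      · exact hoc' w s1 e (fun hh => hww (hh.trans b1.symm)) a1 he b3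
    · split_ifs at b3 with k1
      · exact hoc w s1 e h1 a1 he b3
      · exact hod' w s1 e (fun hh => hww (hh.trans b1.symm)) a1 he b3
    · exact hww (h.uniq w w' s1 s2 e a1 b1 he)
  · -- pair
    intro w w' w'' s1 e e' e'' hw hw' hw''
    obtain ⟨_, _, h3⟩ := char w s1 e hw
    obtain ⟨_, _, h3'⟩ := char w' s1 e' hw'
    obtain ⟨_, _, h3''⟩ := char w'' s1 e'' hw''
    by_cases hs : s1 = s
    · have k : ∀ z e, (z = u' ∧ s1 = s ∧ e = if c' = 0 then d else c') ∨
          (z = v' ∧ s1 = s ∧ e = if d' = 0 then c else d') ∨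
          (Γ z = .o s1 e ∧ s1 ≠ s ∧ s1 ≠ t) → z = u' ∨ z = v' := by
        intro z e hz
        rcases hz with hz | hz | hz
        · exact Or.inl hz.1
        · exact Or.inr hz.1
        · exact absurd hs hz.2.1
      rcases k w e h3 with a | a <;> rcases k w' e' h3' with b | b <;>
        rcases k w'' e'' h3'' with b' | b' <;> rw [a, b, b'] <;> simp
    · have k : ∀ z e, (z = u' ∧ s1 = s ∧ e = if c' = 0 then d else c') ∨
          (z = v' ∧ s1 = s ∧ e = if d' = 0 then c else d') ∨
          (Γ z = .o s1 e ∧ s1 ≠ s ∧ s1 ≠ t) → Γ z = .o s1 e := by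
        intro z e hz
        rcases hz with hz | hz | hz
        · exact absurd hz.2.1 hs
        · exact absurd hz.2.1 hs
        · exact hz.1
      exact h.pair w w' w'' s1 e e' e'' (k w e h3) (k w' e' h3') (k w'' e'' h3'')
  · -- mate
    intro w s1 e hw
    obtain ⟨h1, h2, h3⟩ := char w s1 e hw
    have key : (if c' = 0 then d else c') = 0 ↔ (if d' = 0 then c else d') = 0 := by
      split_ifs with k1 k2 k2
      · exact ⟨fun _ => hcc.mp k1, fun _ => hdd.mp k2⟩
      · exact ⟨fun hh => absurd (hdd.mpr hh) k2, fun hh => absurd hh k2⟩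
      · exact ⟨fun hh => absurd hh k1, fun hh => absurd (hcc.mpr hh) k1⟩
      · exact ⟨fun hh => absurd hh k1, fun hh => absurd hh k2⟩
    rcases h3 with ⟨a1, a2, a3⟩ | ⟨a1, a2, a3⟩ | ⟨a1, a2, a3⟩
    · exact ⟨v', _, fun hh => hu'v' (a1.symm.trans hh.symm), a2 ▸ hv'1, by rw [a3]; exact key.symm⟩
    · exact ⟨u', _, fun hh => hu'v' (hh.trans a1), a2 ▸ hu'1, by rw [a3]; exact key⟩
    · obtain ⟨z, x, hz1, hz2, hz3⟩ := h.mate w s1 e a1
      refine ⟨z, x, hz1, ?_, hz3⟩
      apply No z s1 x _ _ a2 a3 hz2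
      · rintro rfl
        rw [hu] at hz2
        injection hz2 with q1 _
        exact a2 q1.symm
      · rintro rfl
        rw [hv] at hz2
        injection hz2 with q1 _
        exact a3 q1.symm
  · -- ope
    intro _
    exact ⟨u', _, _, hu'1⟩
  · -- str
    intro g
    obtain ⟨f, hf1, hf2⟩ := h.str (fun n => if n = t then g s else g n)
    refine ⟨f, ?_, ?_⟩
    · intro nd hnd a b hab
      rw [List.mem_append, List.mem_singleton] at hnd
      rcases hnd with hnd | hnd
      · exact hf1 nd hnd a b hab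
      · subst hnd
        obtain ⟨rfl, rfl⟩ := hab
        rw [hf2 a s c hu, hf2 b t d hv]
        simp only [hst, if_false, if_true]
    · intro w s1 e hw
      obtain ⟨_, _, h3⟩ := char w s1 e hw
      rcases h3 with ⟨a1, a2, a3⟩ | ⟨a1, a2, a3⟩ | ⟨a1, a2, a3⟩
      · rw [a1, a2, hf2 u' s c' hu']
        simp only [hst, if_false]
      · rw [a1, a2, hf2 v' t d' hv']
        simp only [if_true]
      · rw [hf2 w s1 e a1]
        simp only [a3, if_false]
  · -- src
    obtain ⟨ν, hν1, hν2⟩ := h.src
    refine ⟨ν, ?_, ?_⟩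
    · intro w s1 e hw he
      obtain ⟨w0, s0, h1⟩ := old w s1 e hw he
      obtain ⟨a, b, c2, d2, h2⟩ := hν1 w0 s0 e h1 he
      refine ⟨a, b, c2, d2, ?_⟩
      have hlt : ν (e / 4) < N.length := by
        by_contra hge
        rw [List.getElem?_eq_none (not_lt.mp hge)] at h2
        exact absurd h2 (by simp)
      rw [List.getElem?_append_left hlt]
      exact h2
    · intro G
      have leg0 : ∀ n, leg n 0 = 2 * n := fun n => by simp [leg]
      have leg1 : ∀ n e, e ≠ 0 → leg n e = 2 * e + 1 := fun n e he => by simp [leg, he]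
      set G' : ℕ → Bool := fun n => if c = 0 ∧ n = 2 * s then G (leg s d) else
        if d = 0 ∧ n = 2 * t then G (leg s c) else
        if c ≠ 0 ∧ d ≠ 0 ∧ (n = 2 * c + 1 ∨ n = 2 * d + 1) then false else G n with hG'
      have g0 : c = 0 → G' (2 * s) = G (leg s d) := by
        intro h1
        simp only [hG', h1, true_and, if_true]
      have g1 : d = 0 → G' (2 * t) = G (leg s c) := by
        intro h1
        have h2 : ¬ (c = 0 ∧ 2 * t = 2 * s) := fun hh => hst (by omega)
        simp only [hG', h2, h1, true_and, if_true, if_false]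
      have g2 : ∀ n, n ≠ s → n ≠ t → G' (2 * n) = G (2 * n) := by
        intro n h1 h2
        have k1 : ¬ (c = 0 ∧ 2 * n = 2 * s) := fun hh => h1 (by omega)
        have k2 : ¬ (d = 0 ∧ 2 * n = 2 * t) := fun hh => h2 (by omega)
        have k3 : ¬ (c ≠ 0 ∧ d ≠ 0 ∧ (2 * n = 2 * c + 1 ∨ 2 * n = 2 * d + 1)) := by
          rintro ⟨_, _, hh⟩
          omega
        simp only [hG', k1, k2, k3, if_false]
      have g3 : ∀ e, (c ≠ 0 → d ≠ 0 → e ≠ c ∧ e ≠ d) → G' (2 * e + 1) = G (2 * e + 1) := by
        intro e h1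
        have k1 : ¬ (c = 0 ∧ 2 * e + 1 = 2 * s) := by rintro ⟨_, hh⟩; omega
        have k2 : ¬ (d = 0 ∧ 2 * e + 1 = 2 * t) := by rintro ⟨_, hh⟩; omega
        have k3 : ¬ (c ≠ 0 ∧ d ≠ 0 ∧ (2 * e + 1 = 2 * c + 1 ∨ 2 * e + 1 = 2 * d + 1)) := by
          rintro ⟨q1, q2, hh⟩
          obtain ⟨q3, q4⟩ := h1 q1 q2
          omega
        simp only [hG', k1, k2, k3, if_false]
      have g4 : c ≠ 0 → d ≠ 0 → G' (2 * c + 1) = false ∧ G' (2 * d + 1) = false := by
        intro h1 h2
        constructor
        · simp only [hG', h1, h2, false_and, if_false, ne_eq, not_false_eq_true, true_and, true_or,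
            if_true]
        · simp only [hG', h1, h2, false_and, if_false, ne_eq, not_false_eq_true, true_and, or_true,
            if_true]
      obtain ⟨f, hf1, hf2, hf3⟩ := hν2 G'
      refine ⟨f, ?_, ?_, ?_⟩
      · -- open legs
        intro w s1 e hw
        obtain ⟨h1, h2, h3⟩ := char w s1 e hw
        rcases h3 with ⟨a1, a2, a3⟩ | ⟨a1, a2, a3⟩ | ⟨a1, a2, a3⟩
        · rw [a1, hf1 u' s c' hu', a2, a3]
          split_ifs with k1
          · rw [k1, leg0, g0 (hcc.mp k1)]
          · rw [leg1 _ _ k1, g3 c' (fun _ _ => ⟨hc'c k1, hc'd k1⟩)]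
        · rw [a1, hf1 v' t d' hv', a2, a3]
          split_ifs with k1
          · rw [k1, leg0, g1 (hdd.mp k1)]
          · rw [leg1 _ _ k1, leg1 _ _ k1, g3 d' (fun _ _ => ⟨hd'c k1, hd'd k1⟩)]
        · rw [hf1 w s1 e a1]
          by_cases k1 : e = 0
          · rw [k1, leg0, g2 s1 a2 a3]
          · rw [leg1 _ _ k1, g3 e (fun _ _ => ⟨hoc w s1 e h1 a1 k1, hod w s1 e h2 a1 k1⟩)]
      · -- nodes `P`
        intro a b hab
        rw [List.mem_append, List.mem_singleton] at hab
        rcases hab with hab | hab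
        · exact hf2 a b hab
        · injection hab with e1 e2
          subst e1 e2
          rw [hf1 a s c hu, hf1 b t d hv]
          by_cases k1 : c = 0
          · by_cases k2 : d = 0
            · rw [k1, k2, leg0, leg0, g0 k1, g1 k2, k1, k2]
            · rw [k1, leg0, g0 k1, leg1 _ _ k2, leg1 _ _ k2, g3 d (fun q => absurd k1 q)]
          · by_cases k2 : d = 0
            · rw [k2, leg0, g1 k2, leg1 _ _ k1, g3 c (fun _ q => absurd k2 q)]
            · rw [leg1 _ _ k1, leg1 _ _ k2, (g4 k1 k2).1, (g4 k1 k2).2]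
      · -- corners
        intro i a b c2 d2 hi q w0 hq
        have hlt : i < N.length := by
          by_contra hge
          rw [List.getElem?_append_right (not_lt.mp hge)] at hi
          rcases hk : i - N.length with _ | k
          · rw [hk] at hi
            simp at hi
          · rw [hk] at hi
            simp at hi
        rw [List.getElem?_append_left hlt] at hi
        rw [hf3 i a b c2 d2 hi q w0 hq]
        constructor
        · rintro ⟨w, s0, e, b1, b2, b3, b4, b5⟩
          rw [leg1 _ _ b2] at b5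
          by_cases k1 : w = u
          · subst k1
            rw [hu] at b1
            injection b1 with e1 e2
            subst e1 e2
            by_cases k2 : d = 0
            · refine ⟨v', s, c, ?_, b2, b3, b4, ?_⟩
              · rw [hv'1, if_pos (hdd.mpr k2)]
              · rw [leg1 _ _ b2]
                rw [g3 c (fun _ q => absurd k2 q)] at b5
                exact b5
            · rw [(g4 b2 k2).1] at b5
              exact absurd b5 (by simp)
          by_cases k2 : w = v
          · subst k2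
            rw [hv] at b1
            injection b1 with e1 e2
            subst e1 e2
            by_cases k3 : c = 0
            · refine ⟨u', s, d, ?_, b2, b3, b4, ?_⟩
              · rw [hu'1, if_pos (hcc.mpr k3)]
              · rw [leg1 _ _ b2]
                rw [g3 d (fun q => absurd k3 q)] at b5
                exact b5
            · rw [(g4 k3 b2).2] at b5
              exact absurd b5 (by simp)
          rw [g3 e (fun _ _ => ⟨hoc w s0 e k1 b1 b2, hod w s0 e k2 b1 b2⟩)] at b5
          by_cases k3 : s0 = s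
          · subst k3
            refine ⟨w, s0, e, ?_, b2, b3, b4, ?_⟩
            · rw [Ns w e k1 k2 b1, if_neg b2]
            · rw [leg1 _ _ b2]; exact b5
          by_cases k4 : s0 = t
          · subst k4
            refine ⟨w, s, e, ?_, b2, b3, b4, ?_⟩
            · rw [Nt w e k1 k2 b1, if_neg b2]
            · rw [leg1 _ _ b2]; exact b5
          refine ⟨w, s0, e, No w s0 e k1 k2 k3 k4 b1, b2, b3, b4, ?_⟩
          rw [leg1 _ _ b2]; exact b5
        · rintro ⟨w, s1, e, b1, b2, b3, b4, b5⟩
          rw [leg1 _ _ b2] at b5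
          obtain ⟨h1, h2, h3⟩ := char w s1 e b1
          rcases h3 with ⟨a1, a2, a3⟩ | ⟨a1, a2, a3⟩ | ⟨a1, a2, a3⟩
          · split_ifs at a3 with k1
            · subst a3
              refine ⟨v, t, e, hv, b2, b3, b4, ?_⟩
              rw [leg1 _ _ b2, g3 e (fun q => absurd (hcc.mp k1) q)]
              exact b5
            · subst a3
              refine ⟨u', s, e, hu', b2, b3, b4, ?_⟩
              rw [leg1 _ _ b2, g3 e (fun _ _ => ⟨hc'c k1, hc'd k1⟩)]
              exact b5
          · split_ifs at a3 with k1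
            · subst a3
              refine ⟨u, s, e, hu, b2, b3, b4, ?_⟩
              rw [leg1 _ _ b2, g3 e (fun _ q => absurd (hdd.mp k1) q)]
              exact b5
            · subst a3
              refine ⟨v', t, e, hv', b2, b3, b4, ?_⟩
              rw [leg1 _ _ b2, g3 e (fun _ _ => ⟨hd'c k1, hd'd k1⟩)]
              exact b5
          · refine ⟨w, s1, e, a1, b2, b3, b4, ?_⟩
            rw [leg1 _ _ b2, g3 e (fun _ _ => ⟨hoc w s1 e h1 a1 b2, hod w s1 e h2 a1 b2⟩)]
            exact b5

end Pool.Agent.MP_204846_gt
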