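import Pool.Agent.Lib_MP_204846_gt.InvDef

/-!
# MP_204846_gt, piece InvP: adding a node `P u v`, simple cases
-/

namespace Pool.Agent.MP_204846_gt

theorem Inv.congr {N : Code} {Γ Γ' : ℕ → Ent} (h : Inv N Γ) (h' : ∀ v, Γ v = Γ' v) : Inv N Γ' := by
  have : Γ = Γ' := funext h'
  rw [← this]; exact h

private theorem invP_thru {nd : Node} {a b : ℕ} (h : nd.Thru a b) : a ∈ nd.ends ∧ b ∈ nd.ends := by
  cases nd with
  | X p q r s =>
    simp only [Node.Thru] at h
    rcases h with ⟨rfl, rfl⟩ | ⟨rfl, rfl⟩ <;> simp [Node.ends]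
  | P p q =>
    simp only [Node.Thru] at h
    obtain ⟨rfl, rfl⟩ := h
    simp [Node.ends]

private theorem invP_mem {N : Code} {nd : Node} {a : ℕ} (h : nd ∈ N) (ha : a ∈ nd.ends) : a ∈ ends N :=
  List.mem_flatMap.2 ⟨nd, h, ha⟩

private theorem invP_ends (N : Code) (u v : ℕ) : ends (N ++ [.P u v]) = ends N ++ [u, v] := by
  simp [ends, Node.ends]

private theorem invP_count (N : Code) (u v w : ℕ) : (ends (N ++ [.P u v])).count w =
    (ends N).count w + ((if u = w then 1 else 0) + (if v = w then 1 else 0)) := by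
  rw [invP_ends, List.count_append]
  congr 1
  rw [List.count_cons, List.count_cons, List.count_nil]
  simp only [beq_iff_eq]
  ring

private theorem invP_get {N : Code} {u v i a b c d : ℕ} :
    (N ++ [.P u v])[i]? = some (.X a b c d) ↔ N[i]? = some (.X a b c d) := by
  rw [List.getElem?_append]
  split_ifs with h
  · rfl
  · have h1 : N[i]? = none := List.getElem?_eq_none (by omega)
    rw [h1]
    constructor
    · intro h2
      have h3 := List.mem_of_getElem? h2
      simp at h3
    · intro h2
      exact absurd h2 (by simp)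

private theorem invP_memP {N : Code} {u v a b : ℕ} (h : Node.P a b ∈ N ++ [.P u v]) :
    Node.P a b ∈ N ∨ (a = u ∧ b = v) := by
  rcases List.mem_append.1 h with h | h
  · exact Or.inl h
  · right
    simpa using h

private theorem invP_slot {N : Code} {i a b c d q w : ℕ} (h : N[i]? = some (.X a b c d))
    (hq : [a, b, c, d][q]? = some w) : w ∈ ends N :=
  invP_mem (List.mem_of_getElem? h) (List.mem_of_getElem? hq)

theorem inv_nil : Inv [] (fun _ => .z) where
  zero := fun v _ => by simp [ends]
  one := fun v s c h => by simp at h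
  two := fun v h => by simp at h
  src4 := fun v s c h => by simp at h
  uniq := fun v v' s s' c h => by simp at h
  pair := fun v v' v'' s c c' c'' h => by simp at h
  mate := fun v s c h => by simp at h
  ope := fun h => absurd rfl h
  str := fun g => ⟨fun _ => false, fun nd hnd => by simp at hnd, fun v s c h => by simp at h⟩
  src := ⟨fun _ => 0, fun v s e h => by simp at h, fun G => ⟨fun _ => false,
    fun v s c h => by simp at h, fun a b h => by simp at h, fun i a b c d h => by simp at h⟩⟩

/-- The two ends of a node `P u v` may be exchanged (same `ν`, same colorings). -/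
theorem inv_swap {N : Code} {Γ : ℕ → Ent} {u v : ℕ} (h : Inv (N ++ [.P u v]) Γ) :
    Inv (N ++ [.P v u]) Γ := by
  have hc : ∀ w, (ends (N ++ [.P v u])).count w = (ends (N ++ [.P u v])).count w := by
    intro w
    rw [invP_count, invP_count]
    ring
  refine ⟨fun w hw => ?_, fun w s c hw => ?_, fun w hw => ?_, h.src4, h.uniq, h.pair, h.mate, ?_, ?_, ?_⟩
  · rw [hc]; exact h.zero w hw
  · rw [hc]; exact h.one w s c hw
  · rw [hc]; exact h.two w hw
  · intro _
    exact h.ope (by simp)
  · intro g
    obtain ⟨f, hf, hf'⟩ := h.str g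
    refine ⟨f, fun nd hnd a b hab => ?_, hf'⟩
    rcases List.mem_append.1 hnd with hnd | hnd
    · exact hf nd (List.mem_append.2 (Or.inl hnd)) a b hab
    · have e : nd = .P v u := by simpa using hnd
      subst e
      obtain ⟨rfl, rfl⟩ := hab
      exact (hf (.P b a) (by simp) b a ⟨rfl, rfl⟩).symm
  · obtain ⟨ν, h1, h2⟩ := h.src
    refine ⟨ν, fun w s e hw he => ?_, fun G => ?_⟩
    · obtain ⟨a, b, c, d, h3⟩ := h1 w s e hw he
      exact ⟨a, b, c, d, invP_get.2 (invP_get.1 h3)⟩
    · obtain ⟨f, h3, h4, h5⟩ := h2 G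
      refine ⟨f, h3, fun a b hab => ?_, fun i a b c d hi q w hq => ?_⟩
      · rcases invP_memP hab with hab | ⟨rfl, rfl⟩
        · exact h4 a b (List.mem_append.2 (Or.inl hab))
        · exact (h4 b a (by simp)).symm
      · exact h5 i a b c d (invP_get.2 (invP_get.1 hi)) q w hq

/-- A new strand with the name `i`. (`leg i 0 = 2 * i` is a new leg; the coloring `f` of `N` is changed
at the labels `u` and `v`, which do not occur in `N`.) -/
theorem inv_new {N : Code} {Γ : ℕ → Ent} (h : Inv N Γ) {u v i : ℕ} (huv : u ≠ v) (hu : Γ u = .z)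
    (hv : Γ v = .z) (hi : Fr Γ i) :
    Inv (N ++ [.P u v]) (Function.update (Function.update Γ u (.o i 0)) v (.o i 0)) := by
  obtain ⟨Γ', hΓ'⟩ : ∃ Γ', Γ' = Function.update (Function.update Γ u (.o i 0)) v (.o i 0) := ⟨_, rfl⟩
  rw [← hΓ']
  have gu : Γ' u = .o i 0 := by
    rw [hΓ', Function.update_of_ne huv, Function.update_self]
  have gv : Γ' v = .o i 0 := by
    rw [hΓ', Function.update_self]
  have gw : ∀ w, w ≠ u → w ≠ v → Γ' w = Γ w := by
    intro w h1 h2
    rw [hΓ', Function.update_of_ne h2, Function.update_of_ne h1]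
  clear hΓ'
  -- an old open end
  have old : ∀ w s c, Γ w = .o s c → w ≠ u ∧ w ≠ v ∧ Γ' w = .o s c := by
    intro w s c hw
    have h1 : w ≠ u := by rintro rfl; rw [hu] at hw; cases hw
    have h2 : w ≠ v := by rintro rfl; rw [hv] at hw; cases hw
    exact ⟨h1, h2, by rw [gw w h1 h2]; exact hw⟩
  -- a new open end
  have new : ∀ w s c, Γ' w = .o s c → (w = u ∧ s = i ∧ c = 0) ∨ (w = v ∧ s = i ∧ c = 0) ∨
      (w ≠ u ∧ w ≠ v ∧ Γ w = .o s c) := by
    intro w s c hw
    by_cases h1 : w = u
    · subst h1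
      rw [gu] at hw
      injection hw with e1 e2
      exact Or.inl ⟨rfl, e1.symm, e2.symm⟩
    · by_cases h2 : w = v
      · subst h2
        rw [gv] at hw
        injection hw with e1 e2
        exact Or.inr (Or.inl ⟨rfl, e1.symm, e2.symm⟩)
      · rw [gw w h1 h2] at hw
        exact Or.inr (Or.inr ⟨h1, h2, hw⟩)
  have new' : ∀ w s c, Γ' w = .o s c → c ≠ 0 → w ≠ u ∧ w ≠ v ∧ Γ w = .o s c := by
    intro w s c hw hc
    rcases new w s c hw with ⟨-, -, h0⟩ | ⟨-, -, h0⟩ | h0
    · exact absurd h0 hc
    · exact absurd h0 hc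
    · exact h0
  have newi : ∀ w c, Γ' w = .o i c → w = u ∨ w = v := by
    intro w c hw
    rcases new w i c hw with ⟨h0, -⟩ | ⟨h0, -⟩ | ⟨-, -, h0⟩
    · exact Or.inl h0
    · exact Or.inr h0
    · exact absurd rfl (hi.2 w i c h0).1
  have nu : u ∉ ends N := List.count_eq_zero.1 (h.zero u hu)
  have nv : v ∉ ends N := List.count_eq_zero.1 (h.zero v hv)
  refine ⟨?_, ?_, ?_, ?_, ?_, ?_, ?_, ?_, ?_, ?_⟩
  · intro w hw
    have h1 : w ≠ u := by rintro rfl; rw [gu] at hw; cases hw
    have h2 : w ≠ v := by rintro rfl; rw [gv] at hw; cases hw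
    rw [gw w h1 h2] at hw
    rw [invP_count, h.zero w hw, if_neg (Ne.symm h1), if_neg (Ne.symm h2)]
  · intro w s c hw
    rw [invP_count]
    rcases new w s c hw with ⟨rfl, -⟩ | ⟨rfl, -⟩ | ⟨h1, h2, h0⟩
    · rw [h.zero w hu, if_pos rfl, if_neg (Ne.symm huv)]
    · rw [h.zero w hv, if_pos rfl, if_neg huv]
    · rw [h.one w s c h0, if_neg (Ne.symm h1), if_neg (Ne.symm h2)]
  · intro w hw
    have h1 : w ≠ u := by rintro rfl; rw [gu] at hw; cases hw
    have h2 : w ≠ v := by rintro rfl; rw [gv] at hw; cases hw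
    rw [gw w h1 h2] at hw
    rw [invP_count, h.two w hw, if_neg (Ne.symm h1), if_neg (Ne.symm h2)]
  · intro w s c hw hc
    exact h.src4 w s c (new' w s c hw hc).2.2 hc
  · intro w w' s s' c hw hw' hc
    exact h.uniq w w' s s' c (new' w s c hw hc).2.2 (new' w' s' c hw' hc).2.2 hc
  · intro w w' w'' s c c' c'' h1 h2 h3
    by_cases hs : s = i
    · subst hs
      rcases newi w c h1 with rfl | rfl <;> rcases newi w' c' h2 with rfl | rfl <;>
        rcases newi w'' c'' h3 with rfl | rfl <;> simp
    · have key : ∀ w c, Γ' w = .o s c → Γ w = .o s c := by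
        intro w c hw
        rcases new w s c hw with ⟨-, h0, -⟩ | ⟨-, h0, -⟩ | ⟨-, -, h0⟩
        · exact absurd h0 hs
        · exact absurd h0 hs
        · exact h0
      exact h.pair w w' w'' s c c' c'' (key _ _ h1) (key _ _ h2) (key _ _ h3)
  · intro w s c hw
    rcases new w s c hw with ⟨rfl, rfl, rfl⟩ | ⟨rfl, rfl, rfl⟩ | ⟨h1, h2, h0⟩
    · exact ⟨v, 0, Ne.symm huv, gv, Iff.rfl⟩
    · exact ⟨u, 0, huv, gu, Iff.rfl⟩
    · obtain ⟨w', c', h3, h4, h5⟩ := h.mate w s c h0
      exact ⟨w', c', h3, (old w' s c' h4).2.2, h5⟩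
  · intro _
    exact ⟨u, i, 0, gu⟩
  · intro g
    obtain ⟨f, hf, hf'⟩ := h.str g
    refine ⟨Function.update (Function.update f u (g i)) v (g i), fun nd hnd a b hab => ?_, fun w s c hw => ?_⟩
    · rcases List.mem_append.1 hnd with hnd | hnd
      · have ha := invP_mem hnd (invP_thru hab).1
        have hb := invP_mem hnd (invP_thru hab).2
        have a1 : a ≠ u := fun e => nu (e ▸ ha)
        have a2 : a ≠ v := fun e => nv (e ▸ ha)
        have b1 : b ≠ u := fun e => nu (e ▸ hb)
        have b2 : b ≠ v := fun e => nv (e ▸ hb)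
        rw [Function.update_of_ne a2, Function.update_of_ne a1, Function.update_of_ne b2,
          Function.update_of_ne b1]
        exact hf nd hnd a b hab
      · have e : nd = .P u v := by simpa using hnd
        subst e
        obtain ⟨rfl, rfl⟩ := hab
        rw [Function.update_self, Function.update_of_ne huv, Function.update_self]
    · rcases new w s c hw with ⟨rfl, rfl, rfl⟩ | ⟨rfl, rfl, rfl⟩ | ⟨h1, h2, h0⟩
      · rw [Function.update_of_ne huv, Function.update_self]
      · rw [Function.update_self]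
      · rw [Function.update_of_ne h2, Function.update_of_ne h1]
        exact hf' w s c h0
  · obtain ⟨ν, h1, h2⟩ := h.src
    refine ⟨ν, fun w s e hw he => ?_, fun G => ?_⟩
    · obtain ⟨a, b, c, d, h3⟩ := h1 w s e (new' w s e hw he).2.2 he
      exact ⟨a, b, c, d, invP_get.2 h3⟩
    · obtain ⟨f, h3, h4, h5⟩ := h2 G
      refine ⟨Function.update (Function.update f u (G (leg i 0))) v (G (leg i 0)), fun w s c hw => ?_,
        fun a b hab => ?_, fun j a b c d hj q w hq => ?_⟩
      · rcases new w s c hw with ⟨rfl, rfl, rfl⟩ | ⟨rfl, rfl, rfl⟩ | ⟨h1, h2, h0⟩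
        · rw [Function.update_of_ne huv, Function.update_self]
        · rw [Function.update_self]
        · rw [Function.update_of_ne h2, Function.update_of_ne h1]
          exact h3 w s c h0
      · rcases invP_memP hab with hab | ⟨rfl, rfl⟩
        · have ha : a ∈ ends N := invP_mem hab (by simp [Node.ends])
          have hb : b ∈ ends N := invP_mem hab (by simp [Node.ends])
          have a1 : a ≠ u := fun e => nu (e ▸ ha)
          have a2 : a ≠ v := fun e => nv (e ▸ ha)
          have b1 : b ≠ u := fun e => nu (e ▸ hb)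
          have b2 : b ≠ v := fun e => nv (e ▸ hb)
          rw [Function.update_of_ne a2, Function.update_of_ne a1, Function.update_of_ne b2,
            Function.update_of_ne b1]
          exact h4 a b hab
        · rw [Function.update_self, Function.update_of_ne huv, Function.update_self]
      · have hj' := invP_get.1 hj
        have hw := invP_slot hj' hq
        have w1 : w ≠ u := fun e => nu (e ▸ hw)
        have w2 : w ≠ v := fun e => nv (e ▸ hw)
        rw [Function.update_of_ne w2, Function.update_of_ne w1, h5 j a b c d hj' q w hq]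
        constructor
        · rintro ⟨x, s, e, h6, h7, h8⟩
          exact ⟨x, s, e, (old x s e h6).2.2, h7, h8⟩
        · rintro ⟨x, s, e, h6, h7, h8⟩
          exact ⟨x, s, e, (new' x s e h6 h7).2.2, h7, h8⟩

/-- A strand is extended: the open end `u` is continued to the new label `v`. -/
theorem inv_ext {N : Code} {Γ : ℕ → Ent} (h : Inv N Γ) {u v s c : ℕ} (hu : Γ u = .o s c)
    (hv : Γ v = .z) :
    Inv (N ++ [.P u v]) (Function.update (Function.update Γ u .f) v (.o s c)) := by
  obtain ⟨Γ', hΓ'⟩ : ∃ Γ', Γ' = Function.update (Function.update Γ u .f) v (.o s c) := ⟨_, rfl⟩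
  rw [← hΓ']
  have huv : u ≠ v := by rintro rfl; rw [hu] at hv; cases hv
  have gu : Γ' u = .f := by
    rw [hΓ', Function.update_of_ne huv, Function.update_self]
  have gv : Γ' v = .o s c := by
    rw [hΓ', Function.update_self]
  have gw : ∀ w, w ≠ u → w ≠ v → Γ' w = Γ w := by
    intro w h1 h2
    rw [hΓ', Function.update_of_ne h2, Function.update_of_ne h1]
  clear hΓ'
  -- the old position of an open end
  obtain ⟨φ, hφ⟩ : ∃ φ : ℕ → ℕ, φ = fun w => if w = v then u else w := ⟨_, rfl⟩
  have φv : φ v = u := by rw [hφ]; simp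
  have φw : ∀ w, w ≠ v → φ w = w := by intro w hw; rw [hφ]; simp [hw]
  clear hφ
  have new : ∀ w t d, Γ' w = .o t d → w ≠ u ∧ Γ (φ w) = .o t d := by
    intro w t d hw
    have h1 : w ≠ u := by rintro rfl; rw [gu] at hw; cases hw
    refine ⟨h1, ?_⟩
    by_cases h2 : w = v
    · subst h2
      rw [φv, hu, ← gv, hw]
    · rw [φw w h2, ← gw w h1 h2, hw]
  have old : ∀ w t d, Γ w = .o t d → w ≠ v ∧ ((w = u ∧ Γ' v = .o t d) ∨ (w ≠ u ∧ Γ' w = .o t d)) := by
    intro w t d hw
    have h2 : w ≠ v := by rintro rfl; rw [hv] at hw; cases hw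
    refine ⟨h2, ?_⟩
    by_cases h1 : w = u
    · subst h1
      exact Or.inl ⟨rfl, by rw [gv, ← hu, hw]⟩
    · exact Or.inr ⟨h1, by rw [gw w h1 h2]; exact hw⟩
  have φinj : ∀ w w', w ≠ u → w' ≠ u → φ w = φ w' → w = w' := by
    intro w w' h1 h2 h3
    by_cases h4 : w = v
    · by_cases h5 : w' = v
      · rw [h4, h5]
      · rw [h4, φv, φw w' h5] at h3
        exact absurd h3.symm h2
    · by_cases h5 : w' = v
      · rw [h5, φv, φw w h4] at h3
        exact absurd h3 h1
      · rw [φw w h4, φw w' h5] at h3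
        exact h3
  have nv : v ∉ ends N := List.count_eq_zero.1 (h.zero v hv)
  refine ⟨?_, ?_, ?_, ?_, ?_, ?_, ?_, ?_, ?_, ?_⟩
  · intro w hw
    have h1 : w ≠ u := by rintro rfl; rw [gu] at hw; cases hw
    have h2 : w ≠ v := by rintro rfl; rw [gv] at hw; cases hw
    rw [gw w h1 h2] at hw
    rw [invP_count, h.zero w hw, if_neg (Ne.symm h1), if_neg (Ne.symm h2)]
  · intro w t d hw
    obtain ⟨h1, h2⟩ := new w t d hw
    rw [invP_count, if_neg (Ne.symm h1)]
    by_cases h3 : w = v
    · subst h3
      rw [h.zero w hv, if_pos rfl]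
    · rw [φw w h3] at h2
      rw [h.one w t d h2, if_neg (Ne.symm h3)]
  · intro w hw
    have h2 : w ≠ v := by rintro rfl; rw [gv] at hw; cases hw
    rw [invP_count, if_neg (Ne.symm h2)]
    by_cases h1 : w = u
    · subst h1
      rw [h.one w s c hu, if_pos rfl]
    · rw [gw w h1 h2] at hw
      rw [h.two w hw, if_neg (Ne.symm h1)]
  · intro w t d hw hd
    exact h.src4 _ t d (new w t d hw).2 hd
  · intro w w' t t' d hw hw' hd
    exact φinj w w' (new w t d hw).1 (new w' t' d hw').1
      (h.uniq _ _ t t' d (new w t d hw).2 (new w' t' d hw').2 hd)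
  · intro w w' w'' t d d' d'' h1 h2 h3
    obtain ⟨a1, b1⟩ := new _ _ _ h1
    obtain ⟨a2, b2⟩ := new _ _ _ h2
    obtain ⟨a3, b3⟩ := new _ _ _ h3
    rcases h.pair _ _ _ t d d' d'' b1 b2 b3 with e | e | e
    · exact Or.inl (φinj _ _ a1 a2 e)
    · exact Or.inr (Or.inl (φinj _ _ a2 a3 e))
    · exact Or.inr (Or.inr (φinj _ _ a1 a3 e))
  · intro w t d hw
    obtain ⟨h1, h2⟩ := new w t d hw
    obtain ⟨w', d', h3, h4, h5⟩ := h.mate _ t d h2
    obtain ⟨h6, h7⟩ := old w' t d' h4
    rcases h7 with ⟨rfl, h7⟩ | ⟨h7, h8⟩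
    · refine ⟨v, d', ?_, h7, h5⟩
      intro e
      apply h3
      rw [← e, φv]
    · refine ⟨w', d', ?_, h8, h5⟩
      intro e
      apply h3
      rw [← e, φw w' h6]
  · intro _
    exact ⟨v, s, c, gv⟩
  · intro g
    obtain ⟨f, hf, hf'⟩ := h.str g
    refine ⟨Function.update f v (f u), fun nd hnd a b hab => ?_, fun w t d hw => ?_⟩
    · rcases List.mem_append.1 hnd with hnd | hnd
      · have ha := invP_mem hnd (invP_thru hab).1
        have hb := invP_mem hnd (invP_thru hab).2
        have a2 : a ≠ v := fun e => nv (e ▸ ha)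
        have b2 : b ≠ v := fun e => nv (e ▸ hb)
        rw [Function.update_of_ne a2, Function.update_of_ne b2]
        exact hf nd hnd a b hab
      · have e : nd = .P u v := by simpa using hnd
        subst e
        obtain ⟨rfl, rfl⟩ := hab
        rw [Function.update_self, Function.update_of_ne huv]
    · obtain ⟨h1, h2⟩ := new w t d hw
      have h3 := hf' _ t d h2
      by_cases h4 : w = v
      · subst h4
        rw [φv] at h3
        rw [Function.update_self, h3]
      · rw [φw w h4] at h3
        rw [Function.update_of_ne h4, h3]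
  · obtain ⟨ν, h1, h2⟩ := h.src
    refine ⟨ν, fun w t e hw he => ?_, fun G => ?_⟩
    · obtain ⟨a, b, c, d, h3⟩ := h1 _ t e (new w t e hw).2 he
      exact ⟨a, b, c, d, invP_get.2 h3⟩
    · obtain ⟨f, h3, h4, h5⟩ := h2 G
      refine ⟨Function.update f v (f u), fun w t d hw => ?_,
        fun a b hab => ?_, fun j a b c d hj q w hq => ?_⟩
      · obtain ⟨h6, h7⟩ := new w t d hw
        have h8 := h3 _ t d h7
        by_cases h9 : w = v
        · subst h9
          rw [φv] at h8
          rw [Function.update_self, h8]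
        · rw [φw w h9] at h8
          rw [Function.update_of_ne h9, h8]
      · rcases invP_memP hab with hab | ⟨rfl, rfl⟩
        · have ha : a ∈ ends N := invP_mem hab (by simp [Node.ends])
          have hb : b ∈ ends N := invP_mem hab (by simp [Node.ends])
          have a2 : a ≠ v := fun e => nv (e ▸ ha)
          have b2 : b ≠ v := fun e => nv (e ▸ hb)
          rw [Function.update_of_ne a2, Function.update_of_ne b2]
          exact h4 a b hab
        · rw [Function.update_self, Function.update_of_ne huv]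
      · have hj' := invP_get.1 hj
        have hw := invP_slot hj' hq
        have w2 : w ≠ v := fun e => nv (e ▸ hw)
        rw [Function.update_of_ne w2, h5 j a b c d hj' q w hq]
        constructor
        · rintro ⟨x, t, e, h6, h7, h8⟩
          rcases (old x t e h6).2 with ⟨-, h9⟩ | ⟨-, h9⟩
          · exact ⟨v, t, e, h9, h7, h8⟩
          · exact ⟨x, t, e, h9, h7, h8⟩
        · rintro ⟨x, t, e, h6, h7, h8⟩
          exact ⟨_, t, e, (new x t e h6).2, h7, h8⟩

end Pool.Agent.MP_204846_gt
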