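import Pool.Agent.Lib_MP_204846_gt.InvXS

/-!
# MP_204846_gt, piece InvX0: placing a crossing, only the lower left vertex is open

The new crossing has the number `N.length` in `N ++ [X ..]`, its name is `i`: take `ν' = update ν i N.length`
(for the sources `e` of `Γ`, `e / 4 ≠ i` by `Fr`, and `ν (e / 4) < N.length`). Its corners `bl, br, tr, tl`
have the numbers `0, 1, 2, 3`.

The strand `s` which ends at `bl` is continued to `tr`, with the new source `4 i + 2`; if it was pure
(`c = 0`), its other end (`Inv.mate`) gets the source `4 i` (this is `updM s c (4 * i)`; if `c ≠ 0` all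
entries with the name `s` have a source `≠ 0`, nothing changes). A new strand with the name `i` joins `br`
and `tl`, with the sources `4 i + 1`, `4 i + 3`.

`str`: `f tr = f bl`, `f br = f tl = g i`.
`src`: given `G`, use the coloring of `N` for `G'`, equal to `G` except: if `c = 0`:
`G' (2 * s) = G (2 * (4 * i) + 1)`; if `c ≠ 0`: `G' (leg s c) = false` (the leg joins two crossings now).
The labels `br`, `tr`, `tl` do not occur in `N`, there the coloring is `G (leg _ (4 * i + q))`.
-/

namespace Pool.Agent.MP_204846_gt

theorem inv_X0 {N : Code} {Γ : ℕ → Ent} (h : Inv N Γ) {bl br tr tl s c i : ℕ}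
    (hd : [bl, br, tr, tl].Nodup) (hi : Fr Γ i) (hbl : Γ bl = .o s c) (hbr : Γ br = .z)
    (htr : Γ tr = .z) (htl : Γ tl = .z) :
    Inv (N ++ [.X bl br tr tl])
      (stp Γ bl br tr tl (.o i (4 * i + 1)) (.o s (4 * i + 2)) (.o i (4 * i + 3))
        (updM s c (4 * i))) := by
  refine cross_012 (m := i) h hd hi hbl htr (Or.inl ⟨hbr, htl, rfl, rfl, rfl⟩) ?_ ?_
  · have hcor : ∀ n q w, [bl, br, tr, tl][q]? = some w → Γ w = .o n 0 →
        q = 0 ∧ n = s ∧ c = 0 := by
      intro n q w hq hw
      have hq4 := lt_four hq
      interval_cases q <;> simp at hq <;> subst hq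
      · rw [hbl] at hw
        injection hw with h1 h2
        exact ⟨rfl, h1.symm, h2⟩
      · rw [hbr] at hw
        exact absurd hw (by simp)
      · rw [htr] at hw
        exact absurd hw (by simp)
      · rw [htl] at hw
        exact absurd hw (by simp)
    refine ⟨?_, ?_, ?_, ?_, ?_⟩
    · by_cases hc : c = 0 <;> simp [updM, hc, srcM]
    · by_cases hc : c = 0 <;> simp [updM, hc, srcM]
    · intro n e he
      by_cases hc : c = 0 <;> simp [updM, hc, srcM, he]
    · intro n hn
      by_cases hc : c = 0
      · have h1 : n ≠ s := by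
          rintro rfl
          exact hn bl (by simp) (hc ▸ hbl)
        simp [updM, hc, srcM, h1]
      · simp [updM, hc]
    · intro n q w hq hw
      obtain ⟨rfl, rfl, rfl⟩ := hcor n q w hq hw
      simp [updM, srcM]
  · intro w hw w' hw' n h1 h2
    have hcor : ∀ w ∈ [bl, br, tr, tl], Γ w = .o n 0 → w = bl := by
      intro w hw h1
      simp only [List.mem_cons, List.not_mem_nil, or_false] at hw
      rcases hw with rfl | rfl | rfl | rfl
      · rfl
      · rw [hbr] at h1
        exact absurd h1 (by simp)
      · rw [htr] at h1
        exact absurd h1 (by simp)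
      · rw [htl] at h1
        exact absurd h1 (by simp)
    rw [hcor w hw h1, hcor w' hw' h2]

end Pool.Agent.MP_204846_gt
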