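import Pool.Agent.Lib_MP_204846_gt.InvXS

/-!
# MP_204846_gt, piece InvX2: placing a crossing, the lower left and the upper left vertex are open

See `InvX0`. The new crossing has the number `N.length`, its name is `i` (`ν' = update ν i N.length`), its
corners `bl, br, tr, tl` have the numbers `0, 1, 2, 3`. The strand `s` of `bl` is continued to `tr` (source
`4 i + 2`), the strand `u` of `tl` to `br` (source `4 i + 1`). If `s` (or `u`) was pure, its other end gets
the source `4 i` (or `4 i + 3`). If `s = u`, then `c ≠ 0` and `e ≠ 0` (`Inv.mate` and `hx`), and the two ends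
of this strand are `bl` and `tl` (`Inv.pair`).

`str`: `f tr = f bl`, `f br = f tl`.
`src`: given `G`, use the coloring of `N` for `G'`, equal to `G` except: if `c = 0`:
`G' (2 * s) = G (2 * (4 * i) + 1)`; if `c ≠ 0`: `G' (leg s c) = false`; if `e = 0`:
`G' (2 * u) = G (2 * (4 * i + 3) + 1)`; if `e ≠ 0`: `G' (leg u e) = false`.
-/

namespace Pool.Agent.MP_204846_gt

theorem inv_X2 {N : Code} {Γ : ℕ → Ent} (h : Inv N Γ) {bl br tr tl s c u e i : ℕ}
    (hd : [bl, br, tr, tl].Nodup) (hi : Fr Γ i) (hbl : Γ bl = .o s c) (hbr : Γ br = .z)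
    (htr : Γ tr = .z) (htl : Γ tl = .o u e) (hx : ¬ (c + e = 0 ∧ s = u)) :
    Inv (N ++ [.X bl br tr tl])
      (stp Γ bl br tr tl (.o u (4 * i + 1)) (.o s (4 * i + 2)) .f
        (updM u e (4 * i + 3) ∘ updM s c (4 * i))) := by
  have hi1 := hi.1
  refine cross_012 (m := u) h hd hi hbl htr (Or.inr (Or.inr ⟨e, hbr, htl, rfl, rfl⟩)) ?_ ?_
  · have hcor : ∀ n q w, [bl, br, tr, tl][q]? = some w → Γ w = .o n 0 →
        (q = 0 ∧ n = s ∧ c = 0) ∨ (q = 3 ∧ n = u ∧ e = 0) := by
      intro n q w hq hw
      have hq4 := lt_four hq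
      interval_cases q <;> simp at hq <;> subst hq
      · rw [hbl] at hw
        injection hw with h1 h2
        exact Or.inl ⟨rfl, h1.symm, h2⟩
      · rw [hbr] at hw
        exact absurd hw (by simp)
      · rw [htr] at hw
        exact absurd hw (by simp)
      · rw [htl] at hw
        injection hw with h1 h2
        exact Or.inr ⟨rfl, h1.symm, h2⟩
    refine ⟨?_, ?_, ?_, ?_, ?_⟩
    · by_cases hc : c = 0 <;> by_cases he : e = 0 <;> simp [updM, hc, he, srcM]
    · by_cases hc : c = 0 <;> by_cases he : e = 0 <;> simp [updM, hc, he, srcM]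
    · intro n e' he'
      by_cases hc : c = 0 <;> by_cases he : e = 0 <;> simp [updM, hc, he, srcM, he']
    · intro n hn
      have h1 : c = 0 → n ≠ s := by
        rintro rfl rfl
        exact hn bl (by simp) hbl
      have h2 : e = 0 → n ≠ u := by
        rintro rfl rfl
        exact hn tl (by simp) htl
      by_cases hc : c = 0
      · have h3 := h1 hc
        by_cases he : e = 0
        · have h4 := h2 he
          simp [updM, hc, he, srcM, h3, h4]
        · simp [updM, hc, he, srcM, h3]
      · by_cases he : e = 0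
        · have h4 := h2 he
          simp [updM, hc, he, srcM, h4]
        · simp [updM, hc, he]
    · intro n q w hq hw
      rcases hcor n q w hq hw with ⟨rfl, rfl, rfl⟩ | ⟨rfl, rfl, rfl⟩
      · have h1 : i ≠ 0 := by omega
        by_cases he : e = 0 <;> simp [updM, he, srcM, h1]
      · by_cases hc : c = 0
        · have h1 : n ≠ s := by
            rintro rfl
            exact hx ⟨by omega, rfl⟩
          simp [updM, hc, srcM, h1]
        · simp [updM, hc, srcM]
  · intro w hw w' hw' n h1 h2
    have hcor : ∀ w ∈ [bl, br, tr, tl], Γ w = .o n 0 →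
        (w = bl ∧ n = s ∧ c = 0) ∨ (w = tl ∧ n = u ∧ e = 0) := by
      intro w hw h1
      simp only [List.mem_cons, List.not_mem_nil, or_false] at hw
      rcases hw with rfl | rfl | rfl | rfl
      · rw [hbl] at h1
        injection h1 with h3 h4
        exact Or.inl ⟨rfl, h3.symm, h4⟩
      · rw [hbr] at h1
        exact absurd h1 (by simp)
      · rw [htr] at h1
        exact absurd h1 (by simp)
      · rw [htl] at h1
        injection h1 with h3 h4
        exact Or.inr ⟨rfl, h3.symm, h4⟩
    rcases hcor w hw h1 with ⟨k1, k2, k3⟩ | ⟨k1, k2, k3⟩ <;>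
      rcases hcor w' hw' h2 with ⟨k4, k5, k6⟩ | ⟨k4, k5, k6⟩
    · rw [k1, k4]
    · exact absurd ⟨by omega, k2.symm.trans k5⟩ hx
    · exact absurd ⟨by omega, k5.symm.trans k2⟩ hx
    · rw [k1, k4]

end Pool.Agent.MP_204846_gt
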