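import Pool.Agent.Lib_MP_204846_gt.InvXS

/-!
# MP_204846_gt, piece InvX3: placing a crossing, three vertices are open

See `InvX0`. The new crossing has the number `N.length`, its name is `i` (`ν' = update ν i N.length`), its
corners `bl, br, tr, tl` have the numbers `0, 1, 2, 3`. The strand `s` of `bl` is continued to `tr` (source
`4 i + 2`); if it was pure, its other end gets the source `4 i`. The strands `u` of `tl` and `t` of `br`
are joined, the new name is `u`; if `u` was pure, its other end gets the source `4 i + 3`, if `t` was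
pure, its other end gets `4 i + 1` (`renM`). It is possible that `s = t` or `s = u`, but then this strand
is not pure, and its two ends are `bl` and `br` (or `bl` and `tl`).

`str`: for `g` use the coloring of `N` for `g' n = if n = t then g u else g n`, and `f tr = f bl`.
`src`: given `G`, use the coloring of `N` for `G'`, equal to `G` except: if `c = 0`:
`G' (2 * s) = G (2 * (4 * i) + 1)`; if `c ≠ 0`: `G' (leg s c) = false`; if `d = 0`:
`G' (2 * t) = G (2 * (4 * i + 1) + 1)`; if `d ≠ 0`: `G' (leg t d) = false`; if `e = 0`: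
`G' (2 * u) = G (2 * (4 * i + 3) + 1)`; if `e ≠ 0`: `G' (leg u e) = false`.
-/

namespace Pool.Agent.MP_204846_gt

theorem inv_X3 {N : Code} {Γ : ℕ → Ent} (h : Inv N Γ) {bl br tr tl s c t d u e i : ℕ}
    (hd : [bl, br, tr, tl].Nodup) (hi : Fr Γ i) (hbl : Γ bl = .o s c) (hbr : Γ br = .o t d)
    (htr : Γ tr = .z) (htl : Γ tl = .o u e)
    (hx : ¬ (c = 0 ∧ ((d = 0 ∧ s = t) ∨ (e = 0 ∧ s = u)))) (hut : u ≠ t) :
    Inv (N ++ [.X bl br tr tl])
      (stp Γ bl br tr tl .f (renM u (4 * i + 1) t (4 * i + 3) (.o s (4 * i + 2))) .f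
        (renM u (4 * i + 1) t (4 * i + 3) ∘ updM s c (4 * i))) := by
  have hi0 := hi
  obtain ⟨hi1, hi2⟩ := hi
  have hnd := hd
  simp only [List.nodup_cons, List.mem_cons, List.not_mem_nil, or_false, not_or] at hnd
  obtain ⟨⟨d1, d2, d3⟩, ⟨d4, d5⟩, d6, -⟩ := hnd
  set Γ' := stp Γ bl br tr tl .f (renM u (4 * i + 1) t (4 * i + 3) (.o s (4 * i + 2))) .f
    (renM u (4 * i + 1) t (4 * i + 3) ∘ updM s c (4 * i)) with hΓ'
  set θ : ℕ → ℕ := fun n => if n = t then u else n with hθ
  have θt : θ t = u := by simp [hθ]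
  have θu : θ u = u := by simp [hθ]
  have θn : ∀ n, n ≠ t → θ n = n := fun n hn => by simp [hθ, hn]
  have ren1 : ∀ n x, x ≠ 0 → renM u (4 * i + 1) t (4 * i + 3) (.o n x) = .o (θ n) x := by
    intro n x hx0
    by_cases h1 : n = u
    · subst h1
      simp [renM, hx0, θu]
    · by_cases h2 : n = t
      · subst h2
        simp [renM, hx0, θt, h1]
      · simp [renM, h1, h2, θn n h2]
  have vbl : Γ' bl = .f := by rw [hΓ', stp_bl, hbl]; rfl
  have vbr : Γ' br = .f := stp_br hd
  have vtr : Γ' tr = .o (θ s) (4 * i + 2) := by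
    rw [hΓ', stp_tr hd, ren1 _ _ (by omega)]
  have vtl : Γ' tl = .f := stp_tl hd
  set ρ : Ent → Ent := renM u (4 * i + 1) t (4 * i + 3) ∘ updM s c (4 * i) with hρ
  have vne : ∀ v, v ∉ [bl, br, tr, tl] → Γ' v = ρ (Γ v) := fun v hv => stp_ne hv
  have ρz : ρ .z = .z := by
    by_cases hc : c = 0 <;> simp [hρ, updM, srcM, hc, renM]
  have ρf : ρ .f = .f := by
    by_cases hc : c = 0 <;> simp [hρ, updM, srcM, hc, renM]
  have ρ1 : ∀ n x, x ≠ 0 → ρ (.o n x) = .o (θ n) x := by
    intro n x hx0
    have h1 : updM s c (4 * i) (.o n x) = .o n x := by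
      by_cases hc : c = 0 <;> simp [updM, srcM, hc, hx0]
    rw [hρ, Function.comp_apply, h1, ren1 n x hx0]
  have ρ2 : c = 0 → ρ (.o s 0) = .o (θ s) (4 * i) := by
    intro hc
    have h1 : updM s c (4 * i) (.o s 0) = .o s (4 * i) := by
      simp [updM, srcM, hc]
    rw [hρ, Function.comp_apply, h1, ren1 s _ (by omega)]
  have ρ3 : ∀ n, (c = 0 → n ≠ s) → ρ (.o n 0) = renM u (4 * i + 1) t (4 * i + 3) (.o n 0) := by
    intro n hn
    have h1 : updM s c (4 * i) (.o n 0) = .o n 0 := by
      by_cases hc : c = 0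
      · simp [updM, srcM, hc, hn hc]
      · simp [updM, hc]
    rw [hρ, Function.comp_apply, h1]
  have ρu : (c = 0 → u ≠ s) → ρ (.o u 0) = .o u (4 * i + 3) := by
    intro hn
    rw [ρ3 u hn]
    simp [renM]
  have ρt : (c = 0 → t ≠ s) → ρ (.o t 0) = .o u (4 * i + 1) := by
    intro hn
    rw [ρ3 t hn]
    simp [renM, Ne.symm hut]
  have ρn : ∀ n, n ≠ u → n ≠ t → (c = 0 → n ≠ s) → ρ (.o n 0) = .o n 0 := by
    intro n h1 h2 hn
    rw [ρ3 n hn]
    simp [renM, h1, h2]
  -- names outside
  have ρname : ∀ n e, ∃ e', ρ (.o n e) = .o (θ n) e' := by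
    intro n e
    by_cases he : e = 0
    · subst he
      by_cases h1 : c = 0 ∧ n = s
      · obtain ⟨h1, h2⟩ := h1
        rw [h2]
        exact ⟨_, ρ2 h1⟩
      · have h2 : c = 0 → n ≠ s := fun h3 h4 => h1 ⟨h3, h4⟩
        by_cases h3 : n = u
        · subst h3
          exact ⟨_, by rw [θu]; exact ρu h2⟩
        · by_cases h4 : n = t
          · subst h4
            exact ⟨_, by rw [θt]; exact ρt h2⟩
          · exact ⟨_, by rw [θn n h4]; exact ρn n h3 h4 h2⟩
    · exact ⟨e, ρ1 n e he⟩
  have name : ∀ v, v ∉ [bl, br, tr, tl] → ∀ n e, Γ v = .o n e → ∃ e', Γ' v = .o (θ n) e' := by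
    intro v hv n e hn
    rw [vne v hv, hn]
    exact ρname n e
  -- a pure end outside, whose other end is a corner
  have purec : ∀ v, v ∉ [bl, br, tr, tl] → ∀ n, Γ v = .o n 0 → ∀ w ∈ [bl, br, tr, tl], ∀ x,
      Γ w = .o n x → x = 0 := by
    intro v hv n hn w hw x hx
    obtain ⟨v', c', h1, h2, h3⟩ := h.mate v n 0 hn
    have hc' : c' = 0 := h3.2 rfl
    subst hc'
    rcases h.pair v v' w n 0 0 x hn h2 hx with h4 | h4 | h4
    · exact absurd h4.symm h1
    · subst h4
      rw [h2] at hx
      injection hx with _ h5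
      exact h5.symm
    · subst h4
      exact absurd hw hv
  have C : Crs Γ Γ' [bl, br, tr, tl] i := by
    refine ⟨?_, ?_, ?_, ?_, ?_, ?_, ?_, ?_⟩
    · intro v hv
      constructor
      · intro h1
        rcases hG : Γ v with _ | _ | ⟨n, e⟩
        · rfl
        · rw [vne v hv, hG, ρf] at h1
          exact absurd h1 (by simp)
        · obtain ⟨e', h2⟩ := name v hv n e hG
          rw [h2] at h1
          exact absurd h1 (by simp)
      · intro h1
        rw [vne v hv, h1, ρz]
    · intro v hv
      constructor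
      · intro h1
        rcases hG : Γ v with _ | _ | ⟨n, e⟩
        · rw [vne v hv, hG, ρz] at h1
          exact absurd h1 (by simp)
        · rfl
        · obtain ⟨e', h2⟩ := name v hv n e hG
          rw [h2] at h1
          exact absurd h1 (by simp)
      · intro h1
        rw [vne v hv, h1, ρf]
    · intro v hv n e hn he
      exact ⟨θ n, by rw [vne v hv, hn, ρ1 n e he]⟩
    · intro v hv n hn hc
      rw [vne v hv, hn]
      apply ρn
      · rintro rfl
        have := purec v hv n hn tl (by simp) e htl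
        subst this
        exact hc tl (by simp) htl
      · rintro rfl
        have := purec v hv n hn br (by simp) d hbr
        subst this
        exact hc br (by simp) hbr
      · rintro rfl rfl
        exact hc bl (by simp) hbl
    · intro v hv n q w hn hq hw
      rw [vne v hv, hn]
      have hq4 := lt_four hq
      interval_cases q <;> simp at hq <;> subst hq
      · rw [hbl] at hw
        injection hw with h1 h2
        subst h1
        exact ⟨_, ρ2 h2⟩
      · rw [hbr] at hw
        injection hw with h1 h2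
        subst h1
        exact ⟨_, ρt fun h3 h4 => hx ⟨h3, Or.inl ⟨h2, h4.symm⟩⟩⟩
      · rw [htr] at hw
        exact absurd hw (by simp)
      · rw [htl] at hw
        injection hw with h1 h2
        subst h1
        exact ⟨_, ρu fun h3 h4 => hx ⟨h3, Or.inr ⟨h2, h4.symm⟩⟩⟩
    · intro q w hq hw
      have hq4 := lt_four hq
      interval_cases q <;> simp at hq <;> subst hq
      · rw [hbl] at hw
        exact absurd hw (by simp)
      · rw [hbr] at hw
        exact absurd hw (by simp)
      · exact ⟨_, vtr⟩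
      · rw [htl] at hw
        exact absurd hw (by simp)
    · intro w hw hz
      simp only [List.mem_cons, List.not_mem_nil, or_false] at hw
      rcases hw with rfl | rfl | rfl | rfl
      · exact ⟨vbl, s, c, hbl⟩
      · exact ⟨vbr, t, d, hbr⟩
      · exact absurd htr hz
      · exact ⟨vtl, u, e, htl⟩
    · intro w hw w' hw' n h1 h2
      have hcor : ∀ w ∈ [bl, br, tr, tl], Γ w = .o n 0 →
          (w = bl ∧ n = s ∧ c = 0) ∨ (w = br ∧ n = t ∧ d = 0) ∨ (w = tl ∧ n = u ∧ e = 0) := by
        intro w hw h1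
        simp only [List.mem_cons, List.not_mem_nil, or_false] at hw
        rcases hw with rfl | rfl | rfl | rfl
        · rw [hbl] at h1
          injection h1 with h3 h4
          exact Or.inl ⟨rfl, h3.symm, h4⟩
        · rw [hbr] at h1
          injection h1 with h3 h4
          exact Or.inr (Or.inl ⟨rfl, h3.symm, h4⟩)
        · rw [htr] at h1
          exact absurd h1 (by simp)
        · rw [htl] at h1
          injection h1 with h3 h4
          exact Or.inr (Or.inr ⟨rfl, h3.symm, h4⟩)
      rcases hcor w hw h1 with ⟨k1, k2, k3⟩ | ⟨k1, k2, k3⟩ | ⟨k1, k2, k3⟩ <;>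
        rcases hcor w' hw' h2 with ⟨k4, k5, k6⟩ | ⟨k4, k5, k6⟩ | ⟨k4, k5, k6⟩
      · rw [k1, k4]
      · exact absurd ⟨k3, Or.inl ⟨k6, k2.symm.trans k5⟩⟩ hx
      · exact absurd ⟨k3, Or.inr ⟨k6, k2.symm.trans k5⟩⟩ hx
      · exact absurd ⟨k6, Or.inl ⟨k3, k5.symm.trans k2⟩⟩ hx
      · rw [k1, k4]
      · exact absurd (k5.symm.trans k2) hut
      · exact absurd ⟨k6, Or.inr ⟨k3, k5.symm.trans k2⟩⟩ hx
      · exact absurd (k2.symm.trans k5) hut
      · rw [k1, k4]
  -- the strands
  have hS : ∀ v n, (∃ e, Γ' v = .o n e) ↔ (v ≠ br ∧ v ≠ tl ∧ ∃ n', θ n' = n ∧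
      ∃ e, Γ (opp bl br tr tl v) = .o n' e) := by
    intro v n
    by_cases e1 : v = bl
    · subst e1
      rw [vbl]
      simp [opp, htr]
    by_cases e2 : v = tr
    · subst e2
      rw [vtr]
      simp [opp, hbl, Ne.symm d2, Ne.symm d4, d6]
    by_cases e3 : v = br
    · subst e3
      rw [vbr]
      simp
    by_cases e4 : v = tl
    · subst e4
      rw [vtl]
      simp
    have hv : v ∉ [bl, br, tr, tl] := by simp [e1, e2, e3, e4]
    have e5 : opp bl br tr tl v = v := by simp [opp, e1, e2, e3, e4]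
    rw [e5]
    constructor
    · rintro ⟨e, he⟩
      refine ⟨e3, e4, ?_⟩
      rcases hG : Γ v with _ | _ | ⟨n', e'⟩
      · rw [vne v hv, hG, ρz] at he
        exact absurd he (by simp)
      · rw [vne v hv, hG, ρf] at he
        exact absurd he (by simp)
      · obtain ⟨e'', h2⟩ := name v hv n' e' hG
        rw [he] at h2
        injection h2 with h3 _
        exact ⟨n', h3.symm, e', rfl⟩
    · rintro ⟨-, -, n', h1, e, he⟩
      subst h1
      exact name v hv n' e he
  -- the opposite labels
  have obr : ∀ v, opp bl br tr tl v = br → v = tl := by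
    intro v hv
    rw [← opp_opp hd v, hv]
    simp [opp, Ne.symm d1, d4]
  have otl : ∀ v, opp bl br tr tl v = tl → v = br := by
    intro v hv
    rw [← opp_opp hd v, hv]
    simp [opp, Ne.symm d3, Ne.symm d6, Ne.symm d5]
  -- the mates
  obtain ⟨u', eu, hu1, hu2, -⟩ := h.mate tl u e htl
  obtain ⟨t', et, ht1, ht2, -⟩ := h.mate br t d hbr
  have Fu : ∀ w x, w ≠ tl → Γ w = .o u x → w = u' := by
    intro w x h1 h2
    rcases h.pair tl w u' u e x eu htl h2 hu2 with h3 | h3 | h3
    · exact absurd h3.symm h1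
    · exact h3
    · exact absurd h3.symm hu1
  have Ft : ∀ w x, w ≠ br → Γ w = .o t x → w = t' := by
    intro w x h1 h2
    rcases h.pair br w t' t d x et hbr h2 ht2 with h3 | h3 | h3
    · exact absurd h3.symm h1
    · exact h3
    · exact absurd h3.symm ht1
  have hu'br : u' ≠ br := by
    rintro rfl
    rw [hu2] at hbr
    injection hbr with h1 _
    exact hut h1
  have ht'tl : t' ≠ tl := by
    rintro rfl
    rw [ht2] at htl
    injection htl with h1 _
    exact hut h1.symm
  have hu't' : u' ≠ t' := by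
    rintro rfl
    rw [hu2] at ht2
    injection ht2 with h1 _
    exact hut h1
  have θinv : ∀ n n', θ n' = n → n ≠ u → n' = n ∧ n ≠ t := by
    intro n n' h1 h2
    by_cases h3 : n' = t
    · subst h3
      rw [θt] at h1
      exact absurd h1.symm h2
    · rw [θn n' h3] at h1
      subst h1
      exact ⟨rfl, h3⟩
  have θinvu : ∀ n', θ n' = u → n' = u ∨ n' = t := by
    intro n' h1
    by_cases h3 : n' = t
    · exact Or.inr h3
    · rw [θn n' h3] at h1
      exact Or.inl h1
  have hU : ∀ v e, Γ' v = .o u e → opp bl br tr tl v = u' ∨ opp bl br tr tl v = t' := by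
    intro v e hv
    obtain ⟨h1, h2, n', h3, e', h4⟩ := (hS v u).1 ⟨e, hv⟩
    rcases θinvu n' h3 with h5 | h5
    · subst h5
      exact Or.inl (Fu _ _ (fun h6 => h1 (otl v h6)) h4)
    · subst h5
      exact Or.inr (Ft _ _ (fun h6 => h2 (obr v h6)) h4)
  have hpair : ∀ v v' v'' s c c' c'', Γ' v = .o s c → Γ' v' = .o s c' → Γ' v'' = .o s c'' →
      v = v' ∨ v' = v'' ∨ v = v'' := by
    intro v v' v'' n c c' c'' hv hv' hv''
    by_cases hn : n = u
    · subst hn
      rcases hU v c hv with h1 | h1 <;> rcases hU v' c' hv' with h2 | h2 <;>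
        rcases hU v'' c'' hv'' with h3 | h3
      · exact Or.inl (opp_inj hd (h1.trans h2.symm))
      · exact Or.inl (opp_inj hd (h1.trans h2.symm))
      · exact Or.inr (Or.inr (opp_inj hd (h1.trans h3.symm)))
      · exact Or.inr (Or.inl (opp_inj hd (h2.trans h3.symm)))
      · exact Or.inr (Or.inl (opp_inj hd (h2.trans h3.symm)))
      · exact Or.inr (Or.inr (opp_inj hd (h1.trans h3.symm)))
      · exact Or.inl (opp_inj hd (h1.trans h2.symm))
      · exact Or.inl (opp_inj hd (h1.trans h2.symm))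
    · obtain ⟨-, -, n1, k1, e1, h1⟩ := (hS v n).1 ⟨c, hv⟩
      obtain ⟨-, -, n2, k2, e2, h2⟩ := (hS v' n).1 ⟨c', hv'⟩
      obtain ⟨-, -, n3, k3, e3, h3⟩ := (hS v'' n).1 ⟨c'', hv''⟩
      rw [(θinv n n1 k1 hn).1] at h1
      rw [(θinv n n2 k2 hn).1] at h2
      rw [(θinv n n3 k3 hn).1] at h3
      rcases h.pair _ _ _ _ _ _ _ h1 h2 h3 with h4 | h4 | h4
      · exact Or.inl (opp_inj hd h4)
      · exact Or.inr (Or.inl (opp_inj hd h4))
      · exact Or.inr (Or.inr (opp_inj hd h4))
  have hmate0 : ∀ v s c, Γ' v = .o s c → ∃ v' c', v' ≠ v ∧ Γ' v' = .o s c' := by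
    intro v n c hv
    by_cases hn : n = u
    · subst hn
      have key : ∀ w x n', w ≠ br → w ≠ tl → Γ w = .o n' x → θ n' = n →
          ∃ e', Γ' (opp bl br tr tl w) = .o n e' := by
        intro w x n' h1 h2 h3 h4
        refine (hS _ n).2 ⟨?_, ?_, n', h4, x, ?_⟩
        · intro h5
          apply h2
          rw [← opp_opp hd w, h5]
          simp [opp, Ne.symm d1, d4]
        · intro h5
          apply h1
          rw [← opp_opp hd w, h5]
          simp [opp, Ne.symm d3, Ne.symm d6, Ne.symm d5]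
        · rw [opp_opp hd w]
          exact h3
      rcases hU v c hv with h1 | h1
      · obtain ⟨e', h2⟩ := key t' et t ht1 ht'tl ht2 θt
        refine ⟨_, e', ?_, h2⟩
        intro h3
        rw [← h3, opp_opp hd] at h1
        exact hu't' h1.symm
      · obtain ⟨e', h2⟩ := key u' eu n hu'br hu1 hu2 θu
        refine ⟨_, e', ?_, h2⟩
        intro h3
        rw [← h3, opp_opp hd] at h1
        exact hu't' h1
    · obtain ⟨h1, h2, n', k1, e', h3⟩ := (hS v n).1 ⟨c, hv⟩
      obtain ⟨k2, k3⟩ := θinv n n' k1 hn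
      rw [k2] at h3
      obtain ⟨w, c', h4, h5, -⟩ := h.mate _ _ _ h3
      have hwbr : w ≠ br := by
        rintro rfl
        rw [hbr] at h5
        injection h5 with h6 _
        exact k3 h6.symm
      have hwtl : w ≠ tl := by
        rintro rfl
        rw [htl] at h5
        injection h5 with h6 _
        exact hn h6.symm
      have h6 := opp_opp hd w
      obtain ⟨e'', h7⟩ := (hS (opp bl br tr tl w) n).2 ⟨fun h8 => hwtl (by
          rw [← h6, h8]
          simp [opp, Ne.symm d1, d4]), fun h8 => hwbr (by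
          rw [← h6, h8]
          simp [opp, Ne.symm d3, Ne.symm d6, Ne.symm d5]), n, θn n k3, c', by rw [h6]; exact h5⟩
      refine ⟨_, e'', ?_, h7⟩
      rintro h8
      apply h4
      rw [← h8, h6]
  refine cross_src h hd hi0 C hpair (cross_mate h hi1 C hpair hmate0) ⟨tr, _, _, vtr⟩ ?_
  intro g
  obtain ⟨f, hf1, hf2⟩ := h.str (fun n => g (θ n))
  have hold : ∀ nd ∈ N, ∀ u ∈ nd.ends, Γ u ≠ .z := by
    intro nd hnd u hu hz
    have h1 := h.zero u hz
    have h2 : u ∈ ends N := List.mem_flatMap.2 ⟨nd, hnd, hu⟩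
    have h3 := List.count_pos_iff.2 h2
    omega
  have hthru : ∀ nd : Node, ∀ a b, nd.Thru a b → a ∈ nd.ends ∧ b ∈ nd.ends := by
    intro nd a b hab
    cases nd with
    | X p q r t =>
      rcases hab with ⟨rfl, rfl⟩ | ⟨rfl, rfl⟩ <;> simp [Node.ends]
    | P p q =>
      obtain ⟨rfl, rfl⟩ := hab
      simp [Node.ends]
  refine ⟨fun v => if Γ v = .z then g (θ s) else f v, ?_, ?_⟩
  · intro nd hnd a b hab
    rw [List.mem_append] at hnd
    rcases hnd with hnd | hnd
    · obtain ⟨h1, h2⟩ := hthru nd a b hab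
      simp only [hold nd hnd a h1, hold nd hnd b h2, if_false]
      exact hf1 nd hnd a b hab
    · rw [List.mem_singleton] at hnd
      subst hnd
      rcases hab with ⟨rfl, rfl⟩ | ⟨rfl, rfl⟩
      · simp only [hbl, htr, if_true, reduceCtorEq, if_false]
        exact hf2 _ _ _ hbl
      · simp only [hbr, htl, if_false, reduceCtorEq]
        rw [hf2 _ _ _ hbr, hf2 _ _ _ htl, θt, θu]
  · intro v n x hv
    by_cases e1 : v = bl
    · subst e1
      rw [vbl] at hv
      exact absurd hv (by simp)
    by_cases e2 : v = tr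
    · subst e2
      rw [vtr] at hv
      injection hv with h1 _
      subst h1
      simp only [htr, if_true]
    by_cases e3 : v = br
    · subst e3
      rw [vbr] at hv
      exact absurd hv (by simp)
    by_cases e4 : v = tl
    · subst e4
      rw [vtl] at hv
      exact absurd hv (by simp)
    have e5 : opp bl br tr tl v = v := by simp [opp, e1, e2, e3, e4]
    obtain ⟨-, -, n', h1, e', h2⟩ := (hS v n).1 ⟨x, hv⟩
    rw [e5] at h2
    simp only [h2, reduceCtorEq, if_false]
    rw [hf2 _ _ _ h2, h1]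

end Pool.Agent.MP_204846_gt
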