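import Pool.Agent.Lib_MP_204846_gt.InvDef

/-!
# MP_204846_gt: placing a crossing, the common part of the pieces InvX0 - InvX3
-/

namespace Pool.Agent.MP_204846_gt

theorem stp_br {Γ : ℕ → Ent} {bl br tr tl : ℕ} {BR TR TL : Ent} {ρ : Ent → Ent}
    (hd : [bl, br, tr, tl].Nodup) : stp Γ bl br tr tl BR TR TL ρ br = BR := by
  simp only [List.nodup_cons, List.mem_cons, List.not_mem_nil, or_false, not_or] at hd
  obtain ⟨⟨h1, h2, h3⟩, ⟨h4, h5⟩, h6, -⟩ := hd
  simp [stp, Ne.symm h1]

theorem stp_tr {Γ : ℕ → Ent} {bl br tr tl : ℕ} {BR TR TL : Ent} {ρ : Ent → Ent}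
    (hd : [bl, br, tr, tl].Nodup) : stp Γ bl br tr tl BR TR TL ρ tr = TR := by
  simp only [List.nodup_cons, List.mem_cons, List.not_mem_nil, or_false, not_or] at hd
  obtain ⟨⟨h1, h2, h3⟩, ⟨h4, h5⟩, h6, -⟩ := hd
  simp [stp, Ne.symm h2, Ne.symm h4]

theorem stp_tl {Γ : ℕ → Ent} {bl br tr tl : ℕ} {BR TR TL : Ent} {ρ : Ent → Ent}
    (hd : [bl, br, tr, tl].Nodup) : stp Γ bl br tr tl BR TR TL ρ tl = TL := by
  simp only [List.nodup_cons, List.mem_cons, List.not_mem_nil, or_false, not_or] at hd
  obtain ⟨⟨h1, h2, h3⟩, ⟨h4, h5⟩, h6, -⟩ := hd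
  simp [stp, Ne.symm h3, Ne.symm h5, Ne.symm h6]

theorem stp_bl {Γ : ℕ → Ent} {bl br tr tl : ℕ} {BR TR TL : Ent} {ρ : Ent → Ent} :
    stp Γ bl br tr tl BR TR TL ρ bl = bot (Γ bl) := by
  simp [stp]

theorem stp_ne {Γ : ℕ → Ent} {bl br tr tl : ℕ} {BR TR TL : Ent} {ρ : Ent → Ent} {v : ℕ}
    (hv : v ∉ [bl, br, tr, tl]) : stp Γ bl br tr tl BR TR TL ρ v = ρ (Γ v) := by
  simp only [List.mem_cons, List.not_mem_nil, or_false, not_or] at hv
  obtain ⟨h1, h2, h3, h4⟩ := hv
  simp [stp, h1, h2, h3, h4]

theorem getElem?_inj {K : List ℕ} (hd : K.Nodup) {q q' w : ℕ} (h : K[q]? = some w)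
    (h' : K[q']? = some w) : q = q' := by
  rw [List.getElem?_eq_some_iff] at h h'
  obtain ⟨h1, h2⟩ := h
  obtain ⟨h3, h4⟩ := h'
  exact (hd.getElem_inj_iff).1 (h2.trans h4.symm)

theorem lt_four {a b c d q w : ℕ} (h : [a, b, c, d][q]? = some w) : q < 4 := by
  rw [List.getElem?_eq_some_iff] at h
  obtain ⟨h1, -⟩ := h
  simpa using h1

/-- The hypotheses on the new entries. -/
structure Crs (Γ Γ' : ℕ → Ent) (K : List ℕ) (i : ℕ) : Prop where
  z : ∀ v, v ∉ K → (Γ' v = .z ↔ Γ v = .z)
  f : ∀ v, v ∉ K → (Γ' v = .f ↔ Γ v = .f)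
  src : ∀ v, v ∉ K → ∀ s e, Γ v = .o s e → e ≠ 0 → ∃ s', Γ' v = .o s' e
  pure : ∀ v, v ∉ K → ∀ s, Γ v = .o s 0 → (∀ w ∈ K, Γ w ≠ .o s 0) → Γ' v = .o s 0
  corner : ∀ v, v ∉ K → ∀ s q w, Γ v = .o s 0 → K[q]? = some w → Γ w = .o s 0 →
    ∃ s', Γ' v = .o s' (4 * i + q)
  new : ∀ q w, K[q]? = some w → Γ w = .z → ∃ s', Γ' w = .o s' (4 * i + q)
  old : ∀ w ∈ K, Γ w ≠ .z → Γ' w = .f ∧ ∃ s c, Γ w = .o s c
  sep : ∀ w ∈ K, ∀ w' ∈ K, ∀ s, Γ w = .o s 0 → Γ w' = .o s 0 → w = w'

variable {N : Code} {Γ Γ' : ℕ → Ent} {bl br tr tl i : ℕ}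

theorem Crs.char {K : List ℕ} (C : Crs Γ Γ' K i) {v s' e' : ℕ} (hv : Γ' v = .o s' e') :
    (v ∉ K ∧ ∃ s, Γ v = .o s e' ∧ e' ≠ 0) ∨
    (v ∉ K ∧ Γ v = .o s' 0 ∧ e' = 0 ∧ ∀ w ∈ K, Γ w ≠ .o s' 0) ∨
    (v ∉ K ∧ ∃ s q w, Γ v = .o s 0 ∧ K[q]? = some w ∧ Γ w = .o s 0 ∧ e' = 4 * i + q) ∨
    (∃ q, K[q]? = some v ∧ Γ v = .z ∧ e' = 4 * i + q) := by
  by_cases hK : v ∈ K
  · right; right; right
    obtain ⟨q, hq⟩ := List.mem_iff_getElem?.1 hK
    by_cases hz : Γ v = .z
    · obtain ⟨s1, h1⟩ := C.new q v hq hz
      rw [hv] at h1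
      injection h1 with _ h2
      exact ⟨q, hq, hz, h2⟩
    · have h1 := (C.old v hK hz).1
      rw [hv] at h1
      exact absurd h1 (by simp)
  · rcases hG : Γ v with _ | _ | ⟨s, e⟩
    · rw [(C.z v hK).2 hG] at hv
      exact absurd hv (by simp)
    · rw [(C.f v hK).2 hG] at hv
      exact absurd hv (by simp)
    · by_cases he : e = 0
      · subst he
        by_cases hc : ∀ w ∈ K, Γ w ≠ .o s 0
        · right; left
          have h1 := C.pure v hK s hG hc
          rw [hv] at h1
          injection h1 with h2 h3
          subst h2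
          exact ⟨hK, rfl, h3, hc⟩
        · right; right; left
          push Not at hc
          obtain ⟨w, hw, hws⟩ := hc
          obtain ⟨q, hq⟩ := List.mem_iff_getElem?.1 hw
          obtain ⟨s1, h1⟩ := C.corner v hK s q w hG hq hws
          rw [hv] at h1
          injection h1 with _ h2
          exact ⟨hK, s, q, w, rfl, hq, hws, h2⟩
      · left
        obtain ⟨s1, h1⟩ := C.src v hK s e hG he
        rw [hv] at h1
        injection h1 with _ h2
        subst h2
        exact ⟨hK, s, rfl, he⟩

theorem count_cross (hd : [bl, br, tr, tl].Nodup) (w : ℕ) :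
    (ends (N ++ [.X bl br tr tl])).count w =
      (ends N).count w + (if w ∈ [bl, br, tr, tl] then 1 else 0) := by
  simp only [ends, List.flatMap_append, List.count_append, List.flatMap_cons, List.flatMap_nil,
    Node.ends, List.append_nil]
  congr 1
  split_ifs with h
  · exact List.count_eq_one_of_mem hd h
  · exact List.count_eq_zero_of_not_mem h

/-- The part of the invariant which concerns the numbers of ends and the sources. -/
theorem cross_src (h : Inv N Γ) (hd : [bl, br, tr, tl].Nodup) (hi : Fr Γ i)
    (C : Crs Γ Γ' [bl, br, tr, tl] i)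
    (hpair : ∀ v v' v'' s c c' c'', Γ' v = .o s c → Γ' v' = .o s c' → Γ' v'' = .o s c'' →
      v = v' ∨ v' = v'' ∨ v = v'')
    (hmate : ∀ v s c, Γ' v = .o s c → ∃ v' c', v' ≠ v ∧ Γ' v' = .o s c' ∧ (c' = 0 ↔ c = 0))
    (hope : ∃ v s c, Γ' v = .o s c)
    (hstr : ∀ g : ℕ → Bool, ∃ f : ℕ → Bool,
      (∀ nd ∈ N ++ [.X bl br tr tl], ∀ a b, nd.Thru a b → f a = f b) ∧
      ∀ v s c, Γ' v = .o s c → f v = g s) :
    Inv (N ++ [.X bl br tr tl]) Γ' := by
  have hN := fun w => count_cross (N := N) hd w
  obtain ⟨hi1, hi2⟩ := hi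
  have hne : ∀ v s e, Γ v = .o s e → e / 4 ≠ i := fun v s e hv => (hi2 v s e hv).2
  refine ⟨?_, ?_, ?_, ?_, ?_, hpair, hmate, fun _ => hope, hstr, ?_⟩
  · intro v hv
    rw [hN]
    by_cases hK : v ∈ [bl, br, tr, tl]
    · exfalso
      obtain ⟨q, hq⟩ := List.mem_iff_getElem?.1 hK
      by_cases hz : Γ v = .z
      · obtain ⟨s1, h1⟩ := C.new q v hq hz
        rw [hv] at h1
        exact absurd h1 (by simp)
      · have h1 := (C.old v hK hz).1
        rw [hv] at h1
        exact absurd h1 (by simp)
    · rw [if_neg hK, h.zero v ((C.z v hK).1 hv)]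
  · intro v s c hv
    rw [hN]
    rcases C.char hv with ⟨hK, s1, h1, -⟩ | ⟨hK, h1, -⟩ | ⟨hK, s1, q, w, h1, -⟩ | ⟨q, hq, h1, -⟩
    · rw [if_neg hK, h.one v s1 c h1]
    · rw [if_neg hK, h.one v s 0 h1]
    · rw [if_neg hK, h.one v s1 0 h1]
    · rw [if_pos (List.mem_iff_getElem?.2 ⟨q, hq⟩), h.zero v h1]
  · intro v hv
    rw [hN]
    by_cases hK : v ∈ [bl, br, tr, tl]
    · rw [if_pos hK]
      obtain ⟨q, hq⟩ := List.mem_iff_getElem?.1 hK
      by_cases hz : Γ v = .z
      · obtain ⟨s1, h1⟩ := C.new q v hq hz
        rw [hv] at h1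
        exact absurd h1 (by simp)
      · obtain ⟨-, s1, c1, h1⟩ := C.old v hK hz
        rw [h.one v s1 c1 h1]
    · rw [if_neg hK, h.two v ((C.f v hK).1 hv)]
  · intro v s c hv hc
    rcases C.char hv with ⟨hK, s1, h1, -⟩ | ⟨hK, h1, h2, -⟩ | ⟨hK, s1, q, w, h1, -, -, h2⟩ |
      ⟨q, hq, h1, h2⟩
    · exact h.src4 v s1 c h1 hc
    · exact absurd h2 hc
    · omega
    · omega
  · intro v v' s s' c hv hv' hc
    rcases C.char hv with ⟨hK, s1, h1, -⟩ | ⟨hK, h1, h2, -⟩ | ⟨hK, s1, q, w, h1, hq, hw, h2⟩ |
      ⟨q, hq, h1, h2⟩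
    · rcases C.char hv' with ⟨hK', s1', h1', -⟩ | ⟨hK', h1', h2', -⟩ |
        ⟨hK', s1', q', w', h1', hq', hw', h2'⟩ | ⟨q', hq', h1', h2'⟩
      · exact h.uniq v v' s1 s1' c h1 h1' hc
      · exact absurd h2' hc
      · have := hne v s1 c h1
        have := lt_four hq'
        omega
      · have := hne v s1 c h1
        have := lt_four hq'
        omega
    · exact absurd h2 hc
    · rcases C.char hv' with ⟨hK', s1', h1', -⟩ | ⟨hK', h1', h2', -⟩ |
        ⟨hK', s1', q', w', h1', hq', hw', h2'⟩ | ⟨q', hq', h1', h2'⟩
      · have := hne v' s1' c h1'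
        have := lt_four hq
        omega
      · exact absurd h2' hc
      · have e1 : q = q' := by omega
        subst e1
        rw [hq] at hq'
        injection hq' with e2
        subst e2
        rw [hw] at hw'
        injection hw' with e3 _
        subst e3
        rcases h.pair v v' w s1 0 0 0 h1 h1' hw with h3 | h3 | h3
        · exact h3
        · exact absurd (h3 ▸ List.mem_iff_getElem?.2 ⟨q, hq⟩) hK'
        · exact absurd (h3 ▸ List.mem_iff_getElem?.2 ⟨q, hq⟩) hK
      · have e1 : q = q' := by omega
        subst e1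
        rw [hq] at hq'
        injection hq' with e2
        subst e2
        rw [hw] at h1'
        exact absurd h1' (by simp)
    · rcases C.char hv' with ⟨hK', s1', h1', -⟩ | ⟨hK', h1', h2', -⟩ |
        ⟨hK', s1', q', w', h1', hq', hw', h2'⟩ | ⟨q', hq', h1', h2'⟩
      · have := hne v' s1' c h1'
        have := lt_four hq
        omega
      · exact absurd h2' hc
      · have e1 : q = q' := by omega
        subst e1
        rw [hq] at hq'
        injection hq' with e2
        subst e2
        rw [hw'] at h1
        exact absurd h1 (by simp)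
      · have e1 : q = q' := by omega
        subst e1
        rw [hq] at hq'
        injection hq'
  · obtain ⟨ν, hν1, hν2⟩ := h.src
    classical
    have hlt : ∀ v s e, Γ v = .o s e → e ≠ 0 → ν (e / 4) < N.length := by
      intro v s e hv he
      obtain ⟨a, b, c, d, h1⟩ := hν1 v s e hv he
      rw [List.getElem?_eq_some_iff] at h1
      exact h1.1
    have hget1 : ∀ (j : ℕ) (nd : Node), N[j]? = some nd →
        (N ++ [Node.X bl br tr tl])[j]? = some nd := by
      intro j nd hj
      have h1 := hj
      rw [List.getElem?_eq_some_iff] at h1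
      rw [List.getElem?_append_left h1.1]
      exact hj
    have hget2 : (N ++ [Node.X bl br tr tl])[N.length]? = some (.X bl br tr tl) := by
      rw [List.getElem?_append_right le_rfl, Nat.sub_self]
      rfl
    have hu1 : Function.update ν i N.length i = N.length := Function.update_self _ _ _
    have hu2 : ∀ j, j ≠ i → Function.update ν i N.length j = ν j :=
      fun j hj => Function.update_of_ne hj _ _
    refine ⟨Function.update ν i N.length, ?_, ?_⟩
    · intro v s e hv he
      rcases C.char hv with ⟨hK, s1, h1, -⟩ | ⟨hK, h1, h2, -⟩ | ⟨hK, s1, q, w, h1, hq, hw, h2⟩ |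
        ⟨q, hq, h1, h2⟩
      · rw [hu2 _ (hne v s1 e h1)]
        obtain ⟨a, b, c, d, h3⟩ := hν1 v s1 e h1 he
        exact ⟨a, b, c, d, hget1 _ _ h3⟩
      · exact absurd h2 he
      · have e1 : e / 4 = i := by
          have := lt_four hq
          omega
        rw [e1, hu1]
        exact ⟨_, _, _, _, hget2⟩
      · have e1 : e / 4 = i := by
          have := lt_four hq
          omega
        rw [e1, hu1]
        exact ⟨_, _, _, _, hget2⟩
    · intro G'
      obtain ⟨f, hf1, hf2, hf3⟩ := hν2 (fun n => decide ((∃ q w s, [bl, br, tr, tl][q]? = some w ∧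
        Γ w = .o s 0 ∧ n = 2 * s ∧ G' (2 * (4 * i + q) + 1) = true) ∨
        (G' n = true ∧ ¬ ∃ w ∈ [bl, br, tr, tl], ∃ s c, Γ w = .o s c ∧ n = leg s c)))
      -- values
      have G1 : ∀ q w s, [bl, br, tr, tl][q]? = some w → Γ w = .o s 0 →
          ∀ v, Γ v = .o s 0 → (f v = true ↔ G' (2 * (4 * i + q) + 1) = true) := by
        intro q w s hq hw v hv
        rw [hf1 v s 0 hv, decide_eq_true_iff]
        constructor
        · rintro (⟨q', w', s', h1, h2, h3, h4⟩ | ⟨-, h2⟩)
          · have e1 : s' = s := by
              simp only [leg, if_true] at h3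
              omega
            subst e1
            have e2 := C.sep w (List.mem_iff_getElem?.2 ⟨q, hq⟩) w'
              (List.mem_iff_getElem?.2 ⟨q', h1⟩) s' hw h2
            subst e2
            rw [getElem?_inj hd hq h1]
            exact h4
          · exact absurd ⟨w, List.mem_iff_getElem?.2 ⟨q, hq⟩, s, 0, hw, rfl⟩ h2
        · intro h1
          left
          exact ⟨q, w, s, hq, hw, by simp [leg], h1⟩
      have G2 : ∀ w ∈ [bl, br, tr, tl], ∀ s c, Γ w = .o s c → c ≠ 0 → f w = false := by
        intro w hK s c hw hc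
        rw [hf1 w s c hw, decide_eq_false_iff_not]
        rintro (⟨q', w', s', h1, h2, h3, h4⟩ | ⟨-, h2⟩)
        · simp only [leg, if_neg hc] at h3
          omega
        · exact h2 ⟨w, hK, s, c, hw, rfl⟩
      have G3 : ∀ v, v ∉ [bl, br, tr, tl] → ∀ s e, Γ v = .o s e → e ≠ 0 →
          (f v = true ↔ G' (2 * e + 1) = true) := by
        intro v hK s e hv he
        rw [hf1 v s e hv, decide_eq_true_iff]
        simp only [leg, if_neg he]
        constructor
        · rintro (⟨q', w', s', h1, h2, h3, h4⟩ | ⟨h2, -⟩)
          · omega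
          · exact h2
        · intro h1
          right
          refine ⟨h1, ?_⟩
          rintro ⟨w, hw, s', c', h2, h3⟩
          by_cases hc : c' = 0
          · rw [if_pos hc] at h3
            omega
          · rw [if_neg hc] at h3
            have e1 : e = c' := by omega
            subst e1
            exact hK (h.uniq v w s s' e hv h2 he ▸ hw)
      have G4 : ∀ v s, Γ v = .o s 0 → (∀ w ∈ [bl, br, tr, tl], Γ w ≠ .o s 0) →
          (f v = true ↔ G' (2 * s) = true) := by
        intro v s hv hc
        rw [hf1 v s 0 hv, decide_eq_true_iff]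
        simp only [leg, if_true]
        constructor
        · rintro (⟨q', w', s', h1, h2, h3, h4⟩ | ⟨h2, -⟩)
          · have e1 : s' = s := by omega
            subst e1
            exact absurd h2 (hc w' (List.mem_iff_getElem?.2 ⟨q', h1⟩))
          · exact h2
        · intro h1
          right
          refine ⟨h1, ?_⟩
          rintro ⟨w, hw, s', c', h2, h3⟩
          by_cases hc' : c' = 0
          · rw [if_pos hc'] at h3
            have e1 : s' = s := by omega
            subst e1
            subst hc'
            exact hc w hw h2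
          · rw [if_neg hc'] at h3
            omega
      have hold : ∀ nd ∈ N, ∀ u ∈ nd.ends, Γ u ≠ .z := by
        intro nd hnd u hu hz
        have h1 := h.zero u hz
        have h2 : u ∈ ends N := List.mem_flatMap.2 ⟨nd, hnd, hu⟩
        have h3 := List.count_pos_iff.2 h2
        omega
      refine ⟨fun v => if Γ v = .z then
        decide (∃ q, [bl, br, tr, tl][q]? = some v ∧ G' (2 * (4 * i + q) + 1) = true) else f v,
        ?_, ?_, ?_⟩
      · intro v s e hv
        rw [Bool.eq_iff_iff]
        rcases C.char hv with ⟨hK, s1, h1, h2⟩ | ⟨hK, h1, h2, h3⟩ |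
          ⟨hK, s1, q, w, h1, hq, hw, h2⟩ | ⟨q, hq, h1, h2⟩
        · simp only [h1, reduceCtorEq, if_false]
          rw [G3 v hK s1 e h1 h2, leg, if_neg h2]
        · simp only [h1, reduceCtorEq, if_false]
          rw [G4 v s h1 h3, h2, leg, if_pos rfl]
        · simp only [h1, reduceCtorEq, if_false]
          rw [G1 q w s1 hq hw v h1, leg, if_neg (by omega), h2]
        · simp only [h1, if_true]
          rw [decide_eq_true_iff, leg, if_neg (by omega), h2]
          constructor
          · rintro ⟨q', h3, h4⟩
            rw [getElem?_inj hd hq h3]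
            exact h4
          · intro h3
            exact ⟨q, hq, h3⟩
      · intro a b hab
        rw [List.mem_append] at hab
        rcases hab with hab | hab
        · have h1 := hold _ hab a (by simp [Node.ends])
          have h2 := hold _ hab b (by simp [Node.ends])
          simp only [h1, h2, if_false]
          exact hf2 a b hab
        · simp at hab
      · intro j a b c d hj q u hq
        by_cases hjl : j < N.length
        · rw [List.getElem?_append_left hjl] at hj
          have hmem : Node.X a b c d ∈ N := List.mem_iff_getElem?.2 ⟨j, hj⟩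
          have hu : Γ u ≠ .z := hold _ hmem u (List.mem_iff_getElem?.2 ⟨q, hq⟩)
          simp only [hu, if_false]
          rw [hf3 j a b c d hj q u hq]
          constructor
          · rintro ⟨v, s, e, h1, h2, h3, h4, h5⟩
            have h6 : f v = true := by rw [hf1 v s e h1]; exact h5
            have hK : v ∉ [bl, br, tr, tl] := by
              intro hK
              rw [G2 v hK s e h1 h2] at h6
              exact absurd h6 (by simp)
            obtain ⟨s', h7⟩ := C.src v hK s e h1 h2
            refine ⟨v, s', e, h7, h2, ?_, h4, ?_⟩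
            · rw [hu2 _ (hne v s e h1), h3]
            · rw [leg, if_neg h2]
              exact (G3 v hK s e h1 h2).1 h6
          · rintro ⟨v, s, e, h1, h2, h3, h4, h5⟩
            rcases C.char h1 with ⟨hK, s1, h6, -⟩ | ⟨hK, h6, h7, -⟩ |
              ⟨hK, s1, q', w, h6, hq', hw, h7⟩ | ⟨q', hq', h6, h7⟩
            · refine ⟨v, s1, e, h6, h2, ?_, h4, ?_⟩
              · rw [hu2 _ (hne v s1 e h6)] at h3
                exact h3
              · rw [← hf1 v s1 e h6, G3 v hK s1 e h6 h2]
                rw [leg, if_neg h2] at h5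
                exact h5
            · exact absurd h7 h2
            · have e1 : e / 4 = i := by
                have := lt_four hq'
                omega
              rw [e1, hu1] at h3
              omega
            · have e1 : e / 4 = i := by
                have := lt_four hq'
                omega
              rw [e1, hu1] at h3
              omega
        · have hj' : j = N.length := by
            rw [List.getElem?_eq_some_iff] at hj
            obtain ⟨h1, -⟩ := hj
            rw [List.length_append, List.length_singleton] at h1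
            omega
          subst hj'
          rw [hget2] at hj
          injection hj with hj
          injection hj with e1 e2 e3 e4
          subst e1 e2 e3 e4
          have hK : u ∈ [bl, br, tr, tl] := List.mem_iff_getElem?.2 ⟨q, hq⟩
          have hq4 := lt_four hq
          constructor
          · intro h1
            by_cases hz : Γ u = .z
            · simp only [hz, if_true, decide_eq_true_iff] at h1
              obtain ⟨q', h2, h3⟩ := h1
              obtain ⟨s', h4⟩ := C.new q u hq hz
              rw [getElem?_inj hd h2 hq] at h3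
              refine ⟨u, s', 4 * i + q, h4, by omega, ?_, by omega, ?_⟩
              · rw [show (4 * i + q) / 4 = i by omega, hu1]
              · rw [leg, if_neg (by omega)]
                exact h3
            · simp only [hz, if_false] at h1
              obtain ⟨-, s, c, h2⟩ := C.old u hK hz
              by_cases hc : c = 0
              · subst hc
                obtain ⟨v, c', h3, h4, h5⟩ := h.mate u s 0 h2
                have hc' : c' = 0 := h5.2 rfl
                subst hc'
                have hv : v ∉ [bl, br, tr, tl] := fun hv => h3 (C.sep v hv u hK s h4 h2)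
                obtain ⟨s', h6⟩ := C.corner v hv s q u h4 hq h2
                refine ⟨v, s', 4 * i + q, h6, by omega, ?_, by omega, ?_⟩
                · rw [show (4 * i + q) / 4 = i by omega, hu1]
                · rw [leg, if_neg (by omega)]
                  exact (G1 q u s hq h2 u h2).1 h1
              · rw [G2 u hK s c h2 hc] at h1
                exact absurd h1 (by simp)
          · rintro ⟨v, s, e, h1, h2, h3, h4, h5⟩
            rcases C.char h1 with ⟨hK', s1, h6, -⟩ | ⟨hK', h6, h7, -⟩ |
              ⟨hK', s1, q', w, h6, hq', hw, h7⟩ | ⟨q', hq', h6, h7⟩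
            · rw [hu2 _ (hne v s1 e h6)] at h3
              have := hlt v s1 e h6 h2
              omega
            · exact absurd h7 h2
            · have e1 : q' = q := by
                have := lt_four hq'
                omega
              subst e1
              rw [hq] at hq'
              injection hq' with e2
              subst e2
              simp only [hw, reduceCtorEq, if_false]
              rw [G1 q' u s1 hq hw u hw, ← h7]
              rw [leg, if_neg h2] at h5
              exact h5
            · have e1 : q' = q := by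
                have := lt_four hq'
                omega
              subst e1
              rw [hq] at hq'
              injection hq' with e2
              subst e2
              simp only [h6, if_true, decide_eq_true_iff]
              refine ⟨q', hq, ?_⟩
              rw [← h7]
              rw [leg, if_neg h2] at h5
              exact h5

end Pool.Agent.MP_204846_gt
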