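import Pool.Agent.Lib_MP_204846_gt.InvXG

/-!
# MP_204846_gt: placing a crossing, the strands (pieces InvX0, InvX1, InvX2)
-/

namespace Pool.Agent.MP_204846_gt

theorem cross_mate {N : Code} {Γ Γ' : ℕ → Ent} {a b c d i : ℕ} (h : Inv N Γ) (hi : 1 ≤ i)
    (C : Crs Γ Γ' [a, b, c, d] i)
    (hpair : ∀ v v' v'' s c c' c'', Γ' v = .o s c → Γ' v' = .o s c' → Γ' v'' = .o s c'' →
      v = v' ∨ v' = v'' ∨ v = v'')
    (hm : ∀ v s c, Γ' v = .o s c → ∃ v' c', v' ≠ v ∧ Γ' v' = .o s c') :
    ∀ v s c, Γ' v = .o s c → ∃ v' c', v' ≠ v ∧ Γ' v' = .o s c' ∧ (c' = 0 ↔ c = 0) := by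
  have zero : ∀ v s, Γ' v = .o s 0 → ∃ v', v' ≠ v ∧ Γ' v' = .o s 0 := by
    intro v s hv
    rcases C.char hv with ⟨hK, s1, h1, h2⟩ | ⟨hK, h1, h2, h3⟩ | ⟨hK, s1, q, w, h1, hq, hw, h2⟩ |
      ⟨q, hq, h1, h2⟩
    · exact absurd rfl h2
    · obtain ⟨v', c', h4, h5, h6⟩ := h.mate v s 0 h1
      have hc' : c' = 0 := h6.2 rfl
      subst hc'
      exact ⟨v', h4, C.pure v' (fun hw => h3 v' hw h5) s h5 h3⟩
    · omega
    · omega
  intro v s c hv
  by_cases hc : c = 0
  · subst hc
    obtain ⟨v', h1, h2⟩ := zero v s hv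
    exact ⟨v', 0, h1, h2, Iff.rfl⟩
  · obtain ⟨v', c', h1, h2⟩ := hm v s c hv
    by_cases hc' : c' = 0
    · subst hc'
      obtain ⟨v'', h3, h4⟩ := zero v' s h2
      rcases hpair v v' v'' s c 0 0 hv h2 h4 with h5 | h5 | h5
      · exact absurd h5.symm h1
      · exact absurd h5.symm h3
      · subst h5
        rw [hv] at h4
        injection h4 with _ h6
        exact absurd h6 hc
    · exact ⟨v', c', h1, h2, iff_of_false hc' hc⟩

/-- The swap of the opposite corners. -/
def opp (bl br tr tl v : ℕ) : ℕ :=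
  if v = bl then tr else if v = tr then bl else if v = br then tl else if v = tl then br else v

theorem opp_opp {bl br tr tl : ℕ} (hd : [bl, br, tr, tl].Nodup) (v : ℕ) :
    opp bl br tr tl (opp bl br tr tl v) = v := by
  simp only [List.nodup_cons, List.mem_cons, List.not_mem_nil, or_false, not_or] at hd
  obtain ⟨⟨h1, h2, h3⟩, ⟨h4, h5⟩, h6, -⟩ := hd
  unfold opp
  by_cases e1 : v = bl
  · subst e1
    simp [Ne.symm h2]
  by_cases e2 : v = tr
  · subst e2
    simp [Ne.symm h2]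
  by_cases e3 : v = br
  · subst e3
    simp [Ne.symm h1, h4, Ne.symm h3, Ne.symm h6, Ne.symm h5]
  by_cases e4 : v = tl
  · subst e4
    simp [Ne.symm h1, h4, Ne.symm h3, Ne.symm h6, Ne.symm h5]
  simp [e1, e2, e3, e4]

theorem opp_inj {bl br tr tl : ℕ} (hd : [bl, br, tr, tl].Nodup) {v w : ℕ}
    (h : opp bl br tr tl v = opp bl br tr tl w) : v = w := by
  rw [← opp_opp hd v, h, opp_opp hd w]

/-- the hypotheses on `ρ` for the pieces InvX0 - InvX2 -/
structure RhoOK (Γ : ℕ → Ent) (K : List ℕ) (i : ℕ) (ρ : Ent → Ent) : Prop where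
  z : ρ .z = .z
  f : ρ .f = .f
  src : ∀ n e, e ≠ 0 → ρ (.o n e) = .o n e
  pure : ∀ n, (∀ w ∈ K, Γ w ≠ .o n 0) → ρ (.o n 0) = .o n 0
  corner : ∀ n q w, K[q]? = some w → Γ w = .o n 0 → ρ (.o n 0) = .o n (4 * i + q)

theorem cross_012 {N : Code} {Γ : ℕ → Ent} (h : Inv N Γ) {bl br tr tl s c m i : ℕ}
    {BR TL : Ent} {ρ : Ent → Ent}
    (hd : [bl, br, tr, tl].Nodup) (hi : Fr Γ i) (hbl : Γ bl = .o s c) (htr : Γ tr = .z)
    (hm : (Γ br = .z ∧ Γ tl = .z ∧ m = i ∧ BR = .o m (4 * i + 1) ∧ TL = .o m (4 * i + 3)) ∨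
      (∃ d, Γ br = .o m d ∧ Γ tl = .z ∧ BR = .f ∧ TL = .o m (4 * i + 3)) ∨
      (∃ d, Γ br = .z ∧ Γ tl = .o m d ∧ BR = .o m (4 * i + 1) ∧ TL = .f))
    (hρ : RhoOK Γ [bl, br, tr, tl] i ρ)
    (hsep : ∀ w ∈ [bl, br, tr, tl], ∀ w' ∈ [bl, br, tr, tl], ∀ s, Γ w = .o s 0 →
      Γ w' = .o s 0 → w = w') :
    Inv (N ++ [.X bl br tr tl]) (stp Γ bl br tr tl BR (.o s (4 * i + 2)) TL ρ) := by
  obtain ⟨hi1, hi2⟩ := hi
  have hnd := hd
  simp only [List.nodup_cons, List.mem_cons, List.not_mem_nil, or_false, not_or] at hnd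
  obtain ⟨⟨d1, d2, d3⟩, ⟨d4, d5⟩, d6, -⟩ := hnd
  set Γ' := stp Γ bl br tr tl BR (.o s (4 * i + 2)) TL ρ with hΓ'
  have vbl : Γ' bl = .f := by rw [hΓ', stp_bl, hbl]; rfl
  have vbr : Γ' br = BR := stp_br hd
  have vtr : Γ' tr = .o s (4 * i + 2) := stp_tr hd
  have vtl : Γ' tl = TL := stp_tl hd
  have vne : ∀ v, v ∉ [bl, br, tr, tl] → Γ' v = ρ (Γ v) := fun v hv => stp_ne hv
  -- names outside
  have name : ∀ v, v ∉ [bl, br, tr, tl] → ∀ n e, Γ v = .o n e → ∃ e', Γ' v = .o n e' := by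
    intro v hv n e hn
    rw [vne v hv, hn]
    by_cases he : e = 0
    · subst he
      by_cases hc : ∀ w ∈ [bl, br, tr, tl], Γ w ≠ .o n 0
      · exact ⟨0, hρ.pure n hc⟩
      · push Not at hc
        obtain ⟨w, hw, hws⟩ := hc
        obtain ⟨q, hq⟩ := List.mem_iff_getElem?.1 hw
        exact ⟨_, hρ.corner n q w hq hws⟩
    · exact ⟨e, hρ.src n e he⟩
  have C : Crs Γ Γ' [bl, br, tr, tl] i := by
    refine ⟨?_, ?_, ?_, ?_, ?_, ?_, ?_, hsep⟩
    · intro v hv
      constructor
      · intro h1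
        rcases hG : Γ v with _ | _ | ⟨n, e⟩
        · rfl
        · rw [vne v hv, hG, hρ.f] at h1
          exact absurd h1 (by simp)
        · obtain ⟨e', h2⟩ := name v hv n e hG
          rw [h2] at h1
          exact absurd h1 (by simp)
      · intro h1
        rw [vne v hv, h1, hρ.z]
    · intro v hv
      constructor
      · intro h1
        rcases hG : Γ v with _ | _ | ⟨n, e⟩
        · rw [vne v hv, hG, hρ.z] at h1
          exact absurd h1 (by simp)
        · rfl
        · obtain ⟨e', h2⟩ := name v hv n e hG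
          rw [h2] at h1
          exact absurd h1 (by simp)
      · intro h1
        rw [vne v hv, h1, hρ.f]
    · intro v hv n e hn he
      exact ⟨n, by rw [vne v hv, hn, hρ.src n e he]⟩
    · intro v hv n hn hc
      rw [vne v hv, hn, hρ.pure n hc]
    · intro v hv n q w hn hq hw
      exact ⟨n, by rw [vne v hv, hn, hρ.corner n q w hq hw]⟩
    · intro q w hq hw
      have hq4 := lt_four hq
      interval_cases q
      · simp only [List.getElem?_cons_zero, Option.some.injEq] at hq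
        subst hq
        rw [hbl] at hw
        exact absurd hw (by simp)
      · simp only [List.getElem?_cons_succ, List.getElem?_cons_zero, Option.some.injEq] at hq
        subst hq
        rw [vbr]
        rcases hm with ⟨-, -, -, h1, -⟩ | ⟨d, h1, -⟩ | ⟨d, -, -, h1, -⟩
        · exact ⟨m, h1⟩
        · rw [hw] at h1
          exact absurd h1 (by simp)
        · exact ⟨m, h1⟩
      · simp only [List.getElem?_cons_succ, List.getElem?_cons_zero, Option.some.injEq] at hq
        subst hq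
        exact ⟨s, vtr⟩
      · simp only [List.getElem?_cons_succ, List.getElem?_cons_zero, Option.some.injEq] at hq
        subst hq
        rw [vtl]
        rcases hm with ⟨-, -, -, -, h1⟩ | ⟨d, -, -, -, h1⟩ | ⟨d, -, h1, -⟩
        · exact ⟨m, h1⟩
        · exact ⟨m, h1⟩
        · rw [hw] at h1
          exact absurd h1 (by simp)
    · intro w hw hz
      simp only [List.mem_cons, List.not_mem_nil, or_false] at hw
      rcases hw with rfl | rfl | rfl | rfl
      · exact ⟨vbl, s, c, hbl⟩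
      · rw [vbr]
        rcases hm with ⟨h1, -⟩ | ⟨d, h1, -, h2, -⟩ | ⟨d, h1, -⟩
        · exact absurd h1 hz
        · exact ⟨h2, m, d, h1⟩
        · exact absurd h1 hz
      · exact absurd htr hz
      · rw [vtl]
        rcases hm with ⟨-, h1, -⟩ | ⟨d, -, h1, -⟩ | ⟨d, -, h1, -, h2⟩
        · exact absurd h1 hz
        · exact absurd h1 hz
        · exact ⟨h2, m, d, h1⟩
  -- the strands
  have hS : ∀ v n, (∃ e, Γ' v = .o n e) ↔ ((∃ e, Γ (opp bl br tr tl v) = .o n e) ∨
      (m = i ∧ n = i ∧ (v = br ∨ v = tl))) := by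
    intro v n
    by_cases e1 : v = bl
    · subst e1
      rw [vbl]
      simp [opp, htr, d1, d3]
    by_cases e2 : v = tr
    · subst e2
      rw [vtr]
      simp [opp, hbl, Ne.symm d2, Ne.symm d4, d6]
    by_cases e3 : v = br
    · subst e3
      rw [vbr]
      have e4 : opp bl v tr tl v = tl := by simp [opp, Ne.symm d1, d4]
      rw [e4]
      rcases hm with ⟨h1, h2, h3, h4, h5⟩ | ⟨d, h1, h2, h3, h4⟩ | ⟨d, h1, h2, h3, h4⟩
      · rw [h2, h4]
        simp [h3, eq_comm]
      · rw [h2, h3]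
        have := (hi2 v m d h1).1
        simp [this]
      · rw [h2, h3]
        have := (hi2 tl m d h2).1
        simp [this]
    by_cases e4 : v = tl
    · subst e4
      rw [vtl]
      have e5 : opp bl br tr v v = br := by simp [opp, Ne.symm d3, Ne.symm d6, Ne.symm d5]
      rw [e5]
      rcases hm with ⟨h1, h2, h3, h4, h5⟩ | ⟨d, h1, h2, h3, h4⟩ | ⟨d, h1, h2, h3, h4⟩
      · rw [h1, h5]
        simp [h3, eq_comm]
      · rw [h1, h4]
        have := (hi2 br m d h1).1
        simp [this]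
      · rw [h1, h4]
        have := (hi2 v m d h2).1
        simp [this]
    have hv : v ∉ [bl, br, tr, tl] := by simp [e1, e2, e3, e4]
    have e5 : opp bl br tr tl v = v := by simp [opp, e1, e2, e3, e4]
    rw [e5]
    constructor
    · rintro ⟨e, he⟩
      left
      rcases hG : Γ v with _ | _ | ⟨n', e'⟩
      · rw [vne v hv, hG, hρ.z] at he
        exact absurd he (by simp)
      · rw [vne v hv, hG, hρ.f] at he
        exact absurd he (by simp)
      · obtain ⟨e'', h2⟩ := name v hv n' e' hG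
        rw [he] at h2
        injection h2 with h3 _
        exact ⟨e', by rw [h3]⟩
    · rintro (⟨e, he⟩ | ⟨-, -, h1 | h1⟩)
      · exact name v hv n e he
      · exact absurd h1 e3
      · exact absurd h1 e4
  have hpair : ∀ v v' v'' s c c' c'', Γ' v = .o s c → Γ' v' = .o s c' → Γ' v'' = .o s c'' →
      v = v' ∨ v' = v'' ∨ v = v'' := by
    intro v v' v'' n c c' c'' hv hv' hv''
    have h1 := (hS v n).1 ⟨c, hv⟩
    have h2 := (hS v' n).1 ⟨c', hv'⟩
    have h3 := (hS v'' n).1 ⟨c'', hv''⟩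
    by_cases hn : n = i
    · have k1 : ∀ v, ¬ ∃ e, Γ (opp bl br tr tl v) = .o n e := by
        rintro v ⟨e, he⟩
        exact (hi2 _ _ _ he).1 hn
      rcases h1 with h1 | ⟨-, -, h1⟩
      · exact absurd h1 (k1 _)
      rcases h2 with h2 | ⟨-, -, h2⟩
      · exact absurd h2 (k1 _)
      rcases h3 with h3 | ⟨-, -, h3⟩
      · exact absurd h3 (k1 _)
      rcases h1 with h1 | h1 <;> rcases h2 with h2 | h2 <;> rcases h3 with h3 | h3 <;>
        simp [h1, h2, h3]
    · rcases h1 with ⟨e1, h1⟩ | ⟨-, h1, -⟩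
      swap
      · exact absurd h1 hn
      rcases h2 with ⟨e2, h2⟩ | ⟨-, h2, -⟩
      swap
      · exact absurd h2 hn
      rcases h3 with ⟨e3, h3⟩ | ⟨-, h3, -⟩
      swap
      · exact absurd h3 hn
      rcases h.pair _ _ _ _ _ _ _ h1 h2 h3 with h4 | h4 | h4
      · exact Or.inl (opp_inj hd h4)
      · exact Or.inr (Or.inl (opp_inj hd h4))
      · exact Or.inr (Or.inr (opp_inj hd h4))
  have hmate0 : ∀ v s c, Γ' v = .o s c → ∃ v' c', v' ≠ v ∧ Γ' v' = .o s c' := by
    intro v n c hv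
    rcases (hS v n).1 ⟨c, hv⟩ with ⟨e, h1⟩ | ⟨h1, h2, h3⟩
    · obtain ⟨w, c', h2, h3, -⟩ := h.mate _ _ _ h1
      have h4 := opp_opp hd w
      obtain ⟨e', h5⟩ := (hS (opp bl br tr tl w) n).2 (Or.inl ⟨c', by rw [h4]; exact h3⟩)
      refine ⟨_, e', ?_, h5⟩
      rintro h6
      apply h2
      rw [← h6, h4]
    · rcases h3 with h3 | h3
      · obtain ⟨e', h5⟩ := (hS tl n).2 (Or.inr ⟨h1, h2, Or.inr rfl⟩)
        exact ⟨tl, e', by rw [h3]; exact Ne.symm d5, h5⟩
      · obtain ⟨e', h5⟩ := (hS br n).2 (Or.inr ⟨h1, h2, Or.inl rfl⟩)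
        exact ⟨br, e', by rw [h3]; exact d5, h5⟩
  refine cross_src h hd ⟨hi1, hi2⟩ C hpair (cross_mate h hi1 C hpair hmate0) ⟨tr, s, _, vtr⟩ ?_
  intro g
  obtain ⟨f, hf1, hf2⟩ := h.str g
  have hold : ∀ nd ∈ N, ∀ u ∈ nd.ends, Γ u ≠ .z := by
    intro nd hnd u hu hz
    have h1 := h.zero u hz
    have h2 : u ∈ ends N := List.mem_flatMap.2 ⟨nd, hnd, hu⟩
    have h3 := List.count_pos_iff.2 h2
    omega
  have hthru : ∀ nd : Node, ∀ a b, nd.Thru a b → a ∈ nd.ends ∧ b ∈ nd.ends := by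
    intro nd a b hab
    cases nd with
    | X p q r t =>
      rcases hab with ⟨rfl, rfl⟩ | ⟨rfl, rfl⟩ <;> simp [Node.ends]
    | P p q =>
      obtain ⟨rfl, rfl⟩ := hab
      simp [Node.ends]
  refine ⟨fun v => if Γ v = .z then (if v = tr then g s else g m) else f v, ?_, ?_⟩
  · intro nd hnd a b hab
    rw [List.mem_append] at hnd
    rcases hnd with hnd | hnd
    · obtain ⟨h1, h2⟩ := hthru nd a b hab
      simp only [hold nd hnd a h1, hold nd hnd b h2, if_false]
      exact hf1 nd hnd a b hab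
    · rw [List.mem_singleton] at hnd
      subst hnd
      rcases hab with ⟨rfl, rfl⟩ | ⟨rfl, rfl⟩
      · simp only [hbl, htr, if_true, reduceCtorEq, if_false]
        exact hf2 _ _ _ hbl
      · rcases hm with ⟨h1, h2, h3, h4, h5⟩ | ⟨d, h1, h2, h3, h4⟩ | ⟨d, h1, h2, h3, h4⟩
        · simp only [h1, h2, if_true, d4, Ne.symm d6, if_false]
        · simp only [h1, h2, if_true, Ne.symm d6, if_false, reduceCtorEq]
          exact hf2 _ _ _ h1
        · simp only [h1, h2, if_true, d4, if_false, reduceCtorEq]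
          exact (hf2 _ _ _ h2).symm
  · intro v n e hv
    by_cases e1 : v = bl
    · subst e1
      rw [vbl] at hv
      exact absurd hv (by simp)
    by_cases e2 : v = tr
    · subst e2
      rw [vtr] at hv
      injection hv with h1 _
      subst h1
      simp only [htr, if_true]
    by_cases e3 : v = br
    · subst e3
      rw [vbr] at hv
      rcases hm with ⟨h1, h2, h3, h4, h5⟩ | ⟨d, h1, h2, h3, h4⟩ | ⟨d, h1, h2, h3, h4⟩
      · rw [h4] at hv
        injection hv with h6 _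
        subst h6
        simp only [h1, if_true, e2, if_false]
      · rw [h3] at hv
        exact absurd hv (by simp)
      · rw [h3] at hv
        injection hv with h6 _
        subst h6
        simp only [h1, if_true, e2, if_false]
    by_cases e4 : v = tl
    · subst e4
      rw [vtl] at hv
      rcases hm with ⟨h1, h2, h3, h4, h5⟩ | ⟨d, h1, h2, h3, h4⟩ | ⟨d, h1, h2, h3, h4⟩
      · rw [h5] at hv
        injection hv with h6 _
        subst h6
        simp only [h2, if_true, e2, if_false]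
      · rw [h4] at hv
        injection hv with h6 _
        subst h6
        simp only [h2, if_true, e2, if_false]
      · rw [h4] at hv
        exact absurd hv (by simp)
    have e5 : opp bl br tr tl v = v := by simp [opp, e1, e2, e3, e4]
    rcases (hS v n).1 ⟨e, hv⟩ with ⟨e', h1⟩ | ⟨-, -, h3⟩
    · rw [e5] at h1
      simp only [h1, reduceCtorEq, if_false]
      exact hf2 _ _ _ h1
    · rcases h3 with h3 | h3
      · exact absurd h3 e3
      · exact absurd h3 e4

end Pool.Agent.MP_204846_gt
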