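import Pool.Agent.Lib_MP_204846_gt.Span
import Pool.Agent.Lib_MP_204846_gt.Circ
import Pool.Agent.Lib_MP_204846_gt.BrBasic

/-!
# MP_204846_gt, piece NugL: a diagram with a nugatory crossing
-/

namespace Pool.Agent.MP_204846_gt

open Module LaurentPolynomial

/-- the span of the sums of the ends of the nodes -/
noncomputable def spX (D : Code) : Submodule (ZMod 2) VV :=
  Submodule.span (ZMod 2) {v | ∃ N ∈ D, v = (N.ends.map fun a => Finsupp.single a (1 : ZMod 2)).sum}

private theorem spX_cons {N : Node} {D : Code} {S S1 : Submodule (ZMod 2) VV} (h : S ≤ S1)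
    (hN : (N.ends.map fun a => Finsupp.single a (1 : ZMod 2)).sum ∈ S1) :
    spX (N :: D) ⊔ S ≤ spX D ⊔ S1 := by
  refine sup_le ?_ (h.trans le_sup_right)
  rw [spX, Submodule.span_le]
  rintro v ⟨M, hM, rfl⟩
  rcases List.mem_cons.1 hM with rfl | hM
  · exact Submodule.mem_sup_right hN
  · exact Submodule.mem_sup_left (Submodule.subset_span ⟨M, hM, rfl⟩)

private theorem fnl_EE {f : ℕ → Bool} {x y : ℕ} (h : f x = f y) :
    ∀ v ∈ EE x y, fnl f v = 0 := by
  intro v hv
  obtain ⟨r, rfl⟩ := Submodule.mem_span_singleton.1 hv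
  rw [map_smul, (fnl_ev f x y).2 h, smul_zero]

private theorem fnl_sup {f : ℕ → Bool} {S S' : Submodule (ZMod 2) VV}
    (h : ∀ v ∈ S, fnl f v = 0) (h' : ∀ v ∈ S', fnl f v = 0) :
    ∀ v ∈ S ⊔ S', fnl f v = 0 := by
  intro v hv
  obtain ⟨x, hx, y, hy, rfl⟩ := Submodule.mem_sup.1 hv
  rw [map_add, h x hx, h' y hy, add_zero]

/-- If all states of `D` satisfy `rank (σ ⊔ S₁) + 1 = rank (σ ⊔ S₂)`, where the states `σ` contain
`spX D` and lie in the kernel of each functional which is constant at all nodes of `D`, then the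
brackets differ by the factor `δ`. Here: `ev a b` and `ev c d` lie in `spX D ⊔ S`, `φ` is a functional
which is zero on `S` and whose coloring is constant at all nodes of `D`, but `φ (ev b c) ≠ 0`.
Induction over `D` (generalizing `S`); base case: `S ⊔ EE a b ⊔ EE c d = S` and
`S ⊔ EE b c ⊔ EE d a = S ⊔ EE b c` has dimension one more. -/
theorem br_nug {n : ℕ} {s : Finset ℕ} (hs : s.card ≤ n) {a b c d : ℕ} (ha : a ∈ s) (hb : b ∈ s)
    (hc : c ∈ s) (hd : d ∈ s) (D : Code) (hD : ∀ u ∈ ends D, u ∈ s) (f : ℕ → Bool)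
    (hf : ∀ N ∈ D, ∀ u ∈ N.ends, ∀ v ∈ N.ends, f u = f v) (hbc : f b ≠ f c)
    {S : Submodule (ZMod 2) VV} (hS : S ≤ supp s) (hfS : ∀ v ∈ S, fnl f v = 0)
    (hab' : ev a b ∈ spX D ⊔ S) (hcd' : ev c d ∈ spX D ⊔ S) :
    br n D (S ⊔ EE a b ⊔ EE c d) = δ * br n D (S ⊔ EE b c ⊔ EE d a) := by
  induction D generalizing S with
  | nil =>
    have e0 : spX [] = ⊥ := by
      rw [spX, Submodule.span_eq_bot]
      rintro v ⟨N, hN, -⟩
      simp at hN
    rw [e0, bot_sup_eq] at hab' hcd'
    have e1 : S ⊔ EE a b ⊔ EE c d = S := by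
      rw [sup_eq_left.2 (EE_le.2 hab'), sup_eq_left.2 (EE_le.2 hcd')]
    have e2 : S ⊔ EE b c ⊔ EE d a = S ⊔ EE b c := by
      rw [sup_eq_left]
      apply EE_le.2
      rw [ev_comm d a, ← ev_add a b d, ← ev_add b c d]
      exact Submodule.add_mem _ (Submodule.mem_sup_left hab')
        (Submodule.add_mem _ (Submodule.mem_sup_right (ev_mem_EE b c))
          (Submodule.mem_sup_left hcd'))
    have hn : ev b c ∉ S := ev_notMem (fnl f) hfS (fun h => hbc ((fnl_ev f b c).1 h))
    have h1 := finrank_sup_EE (fg_of_le_supp hS) hn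
    have h2 : finrank (ZMod 2) ↥(S ⊔ EE b c) ≤ n :=
      (finrank_le_card (sup_le hS (EE_le_supp hb hc))).trans hs
    rw [e1, e2, br, br, h1, ← pow_succ']
    congr 1
    omega
  | cons N D ih =>
    have hD' : ∀ a ∈ ends D, a ∈ s := fun a ha => hD a (by
      rw [ends, List.flatMap_cons]
      exact List.mem_append_right _ ha)
    have hN : ∀ a ∈ N.ends, a ∈ s := fun a ha => hD a (by
      rw [ends, List.flatMap_cons]
      exact List.mem_append_left _ ha)
    have hf' : ∀ N ∈ D, ∀ u ∈ N.ends, ∀ v ∈ N.ends, f u = f v := fun M hM =>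
      hf M (List.mem_cons_of_mem _ hM)
    have hfN := hf N List.mem_cons_self
    cases N with
    | P x y =>
      have hx := hN x (by simp [Node.ends])
      have hy := hN y (by simp [Node.ends])
      have hxy : f x = f y := hfN x (by simp [Node.ends]) y (by simp [Node.ends])
      have hle := spX_cons (N := .P x y) (D := D) (S := S) (S1 := S ⊔ EE x y) le_sup_left (by
        have : ((Node.P x y).ends.map fun a => Finsupp.single a (1 : ZMod 2)).sum = ev x y := by
          simp [Node.ends, ev]
        rw [this]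
        exact Submodule.mem_sup_right (ev_mem_EE x y))
      have h1 := ih hD' hf' (S := S ⊔ EE x y) (sup_le hS (EE_le_supp hx hy))
        (fnl_sup hfS (fnl_EE hxy)) (hle hab') (hle hcd')
      rw [br, br]
      have e1 : S ⊔ EE a b ⊔ EE c d ⊔ EE x y = S ⊔ EE x y ⊔ EE a b ⊔ EE c d := by
        ac_rfl
      have e2 : S ⊔ EE b c ⊔ EE d a ⊔ EE x y = S ⊔ EE x y ⊔ EE b c ⊔ EE d a := by
        ac_rfl
      rw [e1, e2]
      exact h1
    | X x y z w =>
      have hx := hN x (by simp [Node.ends])
      have hy := hN y (by simp [Node.ends])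
      have hz := hN z (by simp [Node.ends])
      have hw := hN w (by simp [Node.ends])
      have hxy : f x = f y := hfN x (by simp [Node.ends]) y (by simp [Node.ends])
      have hzw : f z = f w := hfN z (by simp [Node.ends]) w (by simp [Node.ends])
      have hyz : f y = f z := hfN y (by simp [Node.ends]) z (by simp [Node.ends])
      have hwx : f w = f x := hfN w (by simp [Node.ends]) x (by simp [Node.ends])
      have e0 : ((Node.X x y z w).ends.map fun a => Finsupp.single a (1 : ZMod 2)).sum =
          ev x y + ev z w := by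
        simp only [Node.ends, ev, List.map_cons, List.map_nil, List.sum_cons, List.sum_nil,
          add_zero]
        abel
      have e0' : ((Node.X x y z w).ends.map fun a => Finsupp.single a (1 : ZMod 2)).sum =
          ev y z + ev w x := by
        simp only [Node.ends, ev, List.map_cons, List.map_nil, List.sum_cons, List.sum_nil,
          add_zero]
        abel
      have hle := spX_cons (N := .X x y z w) (D := D) (S := S) (S1 := S ⊔ EE x y ⊔ EE z w)
        (le_sup_left.trans le_sup_left) (by
        rw [e0]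
        exact Submodule.add_mem _ (Submodule.mem_sup_left (Submodule.mem_sup_right
          (ev_mem_EE x y))) (Submodule.mem_sup_right (ev_mem_EE z w)))
      have hle' := spX_cons (N := .X x y z w) (D := D) (S := S) (S1 := S ⊔ EE y z ⊔ EE w x)
        (le_sup_left.trans le_sup_left) (by
        rw [e0']
        exact Submodule.add_mem _ (Submodule.mem_sup_left (Submodule.mem_sup_right
          (ev_mem_EE y z))) (Submodule.mem_sup_right (ev_mem_EE w x)))
      have h1 := ih hD' hf' (S := S ⊔ EE x y ⊔ EE z w)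
        (sup_le (sup_le hS (EE_le_supp hx hy)) (EE_le_supp hz hw))
        (fnl_sup (fnl_sup hfS (fnl_EE hxy)) (fnl_EE hzw)) (hle hab') (hle hcd')
      have h2 := ih hD' hf' (S := S ⊔ EE y z ⊔ EE w x)
        (sup_le (sup_le hS (EE_le_supp hy hz)) (EE_le_supp hw hx))
        (fnl_sup (fnl_sup hfS (fnl_EE hyz)) (fnl_EE hwx)) (hle' hab') (hle' hcd')
      rw [br, br]
      have e1 : S ⊔ EE a b ⊔ EE c d ⊔ EE x y ⊔ EE z w =
          S ⊔ EE x y ⊔ EE z w ⊔ EE a b ⊔ EE c d := by
        ac_rfl
      have e2 : S ⊔ EE a b ⊔ EE c d ⊔ EE y z ⊔ EE w x =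
          S ⊔ EE y z ⊔ EE w x ⊔ EE a b ⊔ EE c d := by
        ac_rfl
      have e3 : S ⊔ EE b c ⊔ EE d a ⊔ EE x y ⊔ EE z w =
          S ⊔ EE x y ⊔ EE z w ⊔ EE b c ⊔ EE d a := by
        ac_rfl
      have e4 : S ⊔ EE b c ⊔ EE d a ⊔ EE y z ⊔ EE w x =
          S ⊔ EE y z ⊔ EE w x ⊔ EE b c ⊔ EE d a := by
        ac_rfl
      rw [e1, e2, e3, e4, h1, h2]
      ring

/-! ### Parity -/

private theorem sum_single (L : List ℕ) (v : ℕ) :
    (L.map fun a => Finsupp.single a (1 : ZMod 2)).sum v = (L.count v : ZMod 2) := by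
  induction L with
  | nil => simp
  | cons a L ih =>
    rw [List.map_cons, List.sum_cons, Finsupp.add_apply, ih, List.count_cons,
      Finsupp.single_apply]
    by_cases h : a = v
    · subst h
      simp [add_comm]
    · rw [if_neg h, if_neg (by simpa using h)]
      simp

/-- the sum of the ends of one colour -/
private noncomputable def wsum (f : ℕ → Bool) (t : Bool) (L : List ℕ) : VV :=
  ((L.filter fun a => f a == t).map fun a => Finsupp.single a (1 : ZMod 2)).sum

private theorem wsum_append (f : ℕ → Bool) (t : Bool) (L L' : List ℕ) :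
    wsum f t (L ++ L') = wsum f t L + wsum f t L' := by
  rw [wsum, List.filter_append, List.map_append, List.sum_append]
  rfl

private theorem wsum_even {f : ℕ → Bool} {t : Bool} {L : List ℕ} (h : ∀ a ∈ L, L.count a = 2) :
    wsum f t L = 0 := by
  ext v
  rw [wsum, sum_single, Finsupp.zero_apply]
  by_cases hv : v ∈ L
  · by_cases ht : f v = t
    · rw [List.count_filter (by simpa using ht), h v hv]
      rfl
    · rw [List.count_eq_zero_of_not_mem (by
        rw [List.mem_filter]
        rintro ⟨-, h2⟩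
        exact ht (by simpa using h2))]
      simp
  · rw [List.count_eq_zero_of_not_mem (by
      rw [List.mem_filter]
      rintro ⟨h2, -⟩
      exact hv h2)]
    simp

private theorem wsum_node {f : ℕ → Bool} {t : Bool} {N : Node}
    (h : ∀ u ∈ N.ends, ∀ v ∈ N.ends, f u = f v) :
    wsum f t N.ends = (N.ends.map fun a => Finsupp.single a (1 : ZMod 2)).sum ∨
      wsum f t N.ends = 0 := by
  by_cases h1 : ∀ u ∈ N.ends, f u = t
  · left
    rw [wsum, List.filter_eq_self.2 (fun a ha => by simpa using h1 a ha)]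
  · right
    push Not at h1
    obtain ⟨u, hu, hut⟩ := h1
    have : (N.ends.filter fun a => f a == t) = [] := by
      rw [List.filter_eq_nil_iff]
      intro a ha h2
      apply hut
      rw [← h a ha u hu]
      simpa using h2
    rw [wsum, this]
    rfl

private theorem wsum_mem {f : ℕ → Bool} {t : Bool} {D : Code}
    (h : ∀ N ∈ D, ∀ u ∈ N.ends, ∀ v ∈ N.ends, f u = f v) : wsum f t (ends D) ∈ spX D := by
  induction D with
  | nil =>
    have : wsum f t (ends []) = 0 := rfl
    rw [this]
    exact Submodule.zero_mem _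
  | cons N D ih =>
    have e : ends (N :: D) = N.ends ++ ends D := by rw [ends, List.flatMap_cons, ends]
    have hle : spX D ≤ spX (N :: D) := by
      rw [spX, spX]
      apply Submodule.span_mono
      rintro v ⟨M, hM, hv⟩
      exact ⟨M, List.mem_cons_of_mem _ hM, hv⟩
    have hmem : (N.ends.map fun a => Finsupp.single a (1 : ZMod 2)).sum ∈ spX (N :: D) :=
      Submodule.subset_span ⟨N, List.mem_cons_self, rfl⟩
    rw [e, wsum_append]
    refine Submodule.add_mem _ ?_ (hle (ih fun M hM => h M (List.mem_cons_of_mem _ hM)))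
    rcases wsum_node (t := t) (h N List.mem_cons_self) with h1 | h1
    · rw [h1]; exact hmem
    · rw [h1]; exact Submodule.zero_mem _

private theorem fnl_node {g : ℕ → Bool} {N : Node} (h : ∀ u ∈ N.ends, ∀ v ∈ N.ends, g u = g v) :
    fnl g (N.ends.map fun a => Finsupp.single a (1 : ZMod 2)).sum = 0 := by
  cases N with
  | P x y =>
    have hxy : g x = g y := h x (by simp [Node.ends]) y (by simp [Node.ends])
    have e : ((Node.P x y).ends.map fun a => Finsupp.single a (1 : ZMod 2)).sum = ev x y := by
      simp [Node.ends, ev]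
    rw [e]
    exact (fnl_ev g x y).2 hxy
  | X x y z w =>
    have hxy : g x = g y := h x (by simp [Node.ends]) y (by simp [Node.ends])
    have hzw : g z = g w := h z (by simp [Node.ends]) w (by simp [Node.ends])
    have e : ((Node.X x y z w).ends.map fun a => Finsupp.single a (1 : ZMod 2)).sum =
        ev x y + ev z w := by
      simp only [Node.ends, ev, List.map_cons, List.map_nil, List.sum_cons, List.sum_nil,
        add_zero]
      abel
    rw [e, map_add, (fnl_ev g x y).2 hxy, (fnl_ev g z w).2 hzw, add_zero]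

private theorem fnl_spX {g : ℕ → Bool} {D : Code}
    (h : ∀ N ∈ D, ∀ u ∈ N.ends, ∀ v ∈ N.ends, g u = g v) : ∀ v ∈ spX D, fnl g v = 0 := by
  intro v hv
  have hle : spX D ≤ LinearMap.ker (fnl g) := by
    rw [spX, Submodule.span_le]
    rintro w ⟨N, hN, rfl⟩
    exact fnl_node (h N hN)
  exact hle hv

private theorem closed_perm {D D' : Code} (hp : (ends D').Perm (ends D)) (h : Closed D) :
    Closed D' := by
  intro a ha
  rw [hp.count_eq]
  exact h a (hp.mem_iff.1 ha)

/-- the main computation -/
private theorem nug_core {a b c d : ℕ} {D : Code} (h : Closed (.X a b c d :: D))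
    (hc : Conn (.X a b c d :: D)) {f : ℕ → Bool}
    (hf : ∀ N ∈ D, ∀ u ∈ N.ends, ∀ v ∈ N.ends, f u = f v) (hab : f a = f b) (hcd : f c = f d)
    (hac : f a ≠ f c) {n : ℕ} (hn : nl (.X a b c d :: D) = n) :
    br n D (EE a b ⊔ EE c d) = δ * br n D (EE b c ⊔ EE d a) ∧
    ∃ lo hi : ℤ, Bd (br n D (EE b c ⊔ EE d a)) lo hi ∧ hi - lo ≤ 4 * (crossings D + 1) := by
  have ends_eq : ends (.X a b c d :: D) = [a, b, c, d] ++ ends D := by
    rw [ends, List.flatMap_cons, ends]; rfl
  have ends_eq' : ends (.P b c :: .P d a :: D) = [b, c, d, a] ++ ends D := by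
    rw [ends, List.flatMap_cons, List.flatMap_cons, ends]; rfl
  have hperm : (ends (.P b c :: .P d a :: D)).Perm (ends (.X a b c d :: D)) := by
    rw [ends_eq, ends_eq']
    apply List.Perm.append_right
    have h1 : ([a] ++ [b, c, d]).Perm ([b, c, d] ++ [a]) := List.perm_append_comm
    exact h1.symm
  -- `ev a b` and `ev c d` lie in the span of the nodes
  have hmem : ∀ t, wsum f t (ends D) ∈ spX D := fun t => wsum_mem hf
  have hsum : ∀ t, wsum f t [a, b, c, d] + wsum f t (ends D) = 0 := by
    intro t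
    rw [← wsum_append, ← ends_eq]
    exact wsum_even h
  have hself : ∀ v : VV, v + v = 0 := fun v => by
    rw [← two_smul (ZMod 2) v]
    have : (2 : ZMod 2) = 0 := rfl
    rw [this, zero_smul]
  have heq : ∀ t, wsum f t [a, b, c, d] ∈ spX D := by
    intro t
    have : wsum f t [a, b, c, d] = wsum f t (ends D) := by
      have h1 := hsum t
      have h2 := hself (wsum f t (ends D))
      calc wsum f t [a, b, c, d] = wsum f t [a, b, c, d] +
          (wsum f t (ends D) + wsum f t (ends D)) := by rw [h2, add_zero]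
        _ = (wsum f t [a, b, c, d] + wsum f t (ends D)) + wsum f t (ends D) := by abel
        _ = wsum f t (ends D) := by rw [h1, zero_add]
    rw [this]
    exact hmem t
  have e1 : wsum f (f a) [a, b, c, d] = ev a b := by
    have h1 : ([a, b, c, d].filter fun u => f u == f a) = [a, b] := by
      have k1 : (f b == f a) = true := by rw [hab]; simp
      have k2 : (f c == f a) = false := by simpa using fun h => hac h.symm
      have k3 : (f d == f a) = false := by rw [← hcd]; exact k2
      simp [k1, k2, k3]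
    rw [wsum, h1]
    simp [ev]
  have e2 : wsum f (f c) [a, b, c, d] = ev c d := by
    have h1 : ([a, b, c, d].filter fun u => f u == f c) = [c, d] := by
      have k1 : (f a == f c) = false := by simpa using hac
      have k2 : (f b == f c) = false := by rw [← hab]; exact k1
      have k3 : (f d == f c) = true := by rw [hcd]; simp
      simp [k1, k2, k3]
    rw [wsum, h1]
    simp [ev]
  have hab' : ev a b ∈ spX D := by rw [← e1]; exact heq _
  have hcd' : ev c d ∈ spX D := by rw [← e2]; exact heq _
  have hbc : f b ≠ f c := by rw [← hab]; exact hac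
  set s : Finset ℕ := (ends (.X a b c d :: D)).toFinset with hs
  have hcard : s.card ≤ n := by rw [← hn]; exact le_rfl
  have hmem4 : ∀ u ∈ [a, b, c, d], u ∈ s := by
    intro u hu
    rw [hs, List.mem_toFinset, ends_eq]
    exact List.mem_append_left _ hu
  have hDs : ∀ u ∈ ends D, u ∈ s := by
    intro u hu
    rw [hs, List.mem_toFinset, ends_eq]
    exact List.mem_append_right _ hu
  have key := br_nug hcard (hmem4 a (by simp)) (hmem4 b (by simp)) (hmem4 c (by simp))
    (hmem4 d (by simp)) D hDs f hf hbc (S := ⊥) bot_le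
    (by intro v hv; rw [(Submodule.mem_bot _).1 hv, map_zero])
    (Submodule.mem_sup_left hab') (Submodule.mem_sup_left hcd')
  rw [bot_sup_eq, bot_sup_eq] at key
  refine ⟨key, ?_⟩
  -- the second diagram
  have hclosed : Closed (.P b c :: .P d a :: D) := closed_perm hperm h
  have hnl : nl (.P b c :: .P d a :: D) = n := by
    rw [← hn, nl, nl, List.toFinset_eq_of_perm _ _ hperm]
  have hbr : br n D (EE b c ⊔ EE d a) = bracket (.P b c :: .P d a :: D) := by
    rw [bracket, hnl, br, br, bot_sup_eq]
  have hconn : Conn (.P b c :: .P d a :: D) := by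
    refine ⟨by simp, fun g hg u hu v hv => ?_⟩
    have g1 : g b = g c := hg (.P b c) (by simp) b (by simp [Node.ends]) c (by simp [Node.ends])
    have g2 : g d = g a := hg (.P d a) (by simp) d (by simp [Node.ends]) a (by simp [Node.ends])
    have gD : ∀ N ∈ D, ∀ u ∈ N.ends, ∀ v ∈ N.ends, g u = g v := fun N hN =>
      hg N (List.mem_cons_of_mem _ (List.mem_cons_of_mem _ hN))
    have g3 : g a = g b := (fnl_ev g a b).1 (fnl_spX gD _ hab')
    refine hc.2 g ?_ u (hperm.mem_iff.1 hu) v (hperm.mem_iff.1 hv)
    intro N hN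
    rcases List.mem_cons.1 hN with rfl | hN
    · have hall : ∀ u ∈ (Node.X a b c d).ends, g u = g a := by
        intro u hu
        simp only [Node.ends, List.mem_cons, List.not_mem_nil, or_false] at hu
        rcases hu with rfl | rfl | rfl | rfl
        · rfl
        · exact g3.symm
        · rw [← g1, ← g3]
        · exact g2
      intro u hu v hv
      rw [hall u hu, hall v hv]
    · exact gD N hN
  have hcirc := circles hclosed hconn
  have hbd := bracket_bd (.P b c :: .P d a :: D)
  have hcr : crossings (.P b c :: .P d a :: D) = crossings D := by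
    rw [crossings, crossings, List.countP_cons_of_neg (by simp [Node.isX]),
      List.countP_cons_of_neg (by simp [Node.isX])]
  rw [hcr] at hcirc hbd
  rw [hbr]
  exact ⟨_, _, hbd, by linarith⟩

/-- Let `x = crossings D`. By `br_perm` we may assume that `D = X a b c d :: D₀`. As every label has two
ends, the sum of the vectors of the nodes of `D₀` on which `f` has the value `f a` is `ev a b` (in the
first case of `Nug`), so `ev a b ∈ spX D₀`, similarly `ev c d ∈ spX D₀`. By `br_nug` the
bracket of `D` is `(T δ + T⁻¹) Y = - T³ Y`, `Y = br n D₀ (EE b c ⊔ EE d a)`, which is the bracket of the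
closed code `P b c :: P d a :: D₀`. It is connected: a coloring `g` constant at its nodes satisfies
`g a = g b` since `ev a b ∈ spX D₀` (the ends of a node are an even number), so it is constant at the
node `X a b c d` too. `Y` has the exponents given by `bracket_bd`, `circles` for this code, it has
`x - 1` crossings. The second case of `Nug` is similar, with `- T⁻³`. -/
theorem nug_bd {D : Code} (h : Closed D) (hc : Conn D) (hn : Nug D) :
    ∃ lo hi : ℤ, Bd (bracket D) lo hi ∧ hi - lo ≤ 4 * crossings D := by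
  obtain ⟨l₁, l₂, a, b, c, d, f, rfl, hf, hcase⟩ := hn
  have hp : (l₁ ++ .X a b c d :: l₂).Perm (.X a b c d :: (l₁ ++ l₂)) := List.perm_middle
  have hpe : (ends (.X a b c d :: (l₁ ++ l₂))).Perm (ends (l₁ ++ .X a b c d :: l₂)) :=
    (hp.symm.flatMap_right Node.ends)
  have hcl := closed_perm hpe h
  have hcn : Conn (.X a b c d :: (l₁ ++ l₂)) := by
    refine ⟨by simp, fun g hg u hu v hv => ?_⟩
    exact hc.2 g (fun N hN => hg N (hp.mem_iff.1 hN)) u (hpe.mem_iff.1 hu) v (hpe.mem_iff.1 hv)
  have hbr : bracket (l₁ ++ .X a b c d :: l₂) = bracket (.X a b c d :: (l₁ ++ l₂)) := by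
    rw [bracket, bracket, br_perm hp]
    congr 1
    rw [nl, nl, List.toFinset_eq_of_perm _ _ hpe]
  have hcr : crossings (l₁ ++ .X a b c d :: l₂) = crossings (l₁ ++ l₂) + 1 := by
    rw [crossings, hp.countP_eq, List.countP_cons_of_pos (by simp [Node.isX]), crossings]
  rw [hbr, hcr]
  set D₀ : Code := l₁ ++ l₂ with hD₀
  push_cast
  have hexp : bracket (.X a b c d :: D₀) =
      T 1 * br (nl (.X a b c d :: D₀)) D₀ (EE a b ⊔ EE c d) +
        T (-1) * br (nl (.X a b c d :: D₀)) D₀ (EE b c ⊔ EE d a) := by
    rw [bracket, br, bot_sup_eq, bot_sup_eq]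
  rcases hcase with ⟨h1, h2, h3⟩ | ⟨h1, h2, h3⟩
  · obtain ⟨k1, lo, hi, k2, k3⟩ := nug_core hcl hcn hf h1 h2 h3 rfl
    refine ⟨lo + 3, hi + 3, ?_, by linarith⟩
    have e : bracket (.X a b c d :: D₀) =
        -(T 3 * br (nl (.X a b c d :: D₀)) D₀ (EE b c ⊔ EE d a)) := by
      rw [hexp, k1, δ]
      have t1 : (T 1 * T 2 : ℤ[T;T⁻¹]) = T 3 := by rw [← T_add]; norm_num
      have t2 : (T 1 * T (-2) : ℤ[T;T⁻¹]) = T (-1) := by rw [← T_add]; norm_num
      linear_combination (-br (nl (.X a b c d :: D₀)) D₀ (EE b c ⊔ EE d a)) * t1 +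
        (-br (nl (.X a b c d :: D₀)) D₀ (EE b c ⊔ EE d a)) * t2
    rw [e]
    exact (k2.mul_T 3).neg
  · -- rotate
    have hpe' : (ends (.X b c d a :: D₀)).Perm (ends (.X a b c d :: D₀)) := by
      have e1 : ends (.X a b c d :: D₀) = [a, b, c, d] ++ ends D₀ := by
        rw [ends, List.flatMap_cons, ends]; rfl
      have e2 : ends (.X b c d a :: D₀) = [b, c, d, a] ++ ends D₀ := by
        rw [ends, List.flatMap_cons, ends]; rfl
      rw [e1, e2]
      apply List.Perm.append_right
      have h1 : ([a] ++ [b, c, d]).Perm ([b, c, d] ++ [a]) := List.perm_append_comm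
      exact h1.symm
    have hcl' := closed_perm hpe' hcl
    have hnl' : nl (.X b c d a :: D₀) = nl (.X a b c d :: D₀) := by
      rw [nl, nl, List.toFinset_eq_of_perm _ _ hpe']
    have hcn' : Conn (.X b c d a :: D₀) := by
      refine ⟨by simp, fun g hg u hu v hv => ?_⟩
      refine hcn.2 g ?_ u (hpe'.mem_iff.1 hu) v (hpe'.mem_iff.1 hv)
      intro N hN
      rcases List.mem_cons.1 hN with rfl | hN
      · have hall := hg (.X b c d a) List.mem_cons_self
        intro u hu v hv
        refine hall u ?_ v ?_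
        · simp only [Node.ends, List.mem_cons, List.not_mem_nil, or_false] at hu ⊢
          tauto
        · simp only [Node.ends, List.mem_cons, List.not_mem_nil, or_false] at hv ⊢
          tauto
      · exact hg N (List.mem_cons_of_mem _ hN)
    obtain ⟨k1, lo, hi, k2, k3⟩ := nug_core hcl' hcn' hf h1 h2 (fun hh => h3 (by
      rw [hh, ← h2])) hnl'
    have hsw : EE c d ⊔ EE a b = EE a b ⊔ EE c d := sup_comm _ _
    rw [hsw] at k1 k2
    refine ⟨lo + (-3), hi + (-3), ?_, by linarith⟩
    have e : bracket (.X a b c d :: D₀) =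
        -(T (-3) * br (nl (.X a b c d :: D₀)) D₀ (EE a b ⊔ EE c d)) := by
      rw [hexp, k1, δ]
      have t1 : (T (-1) * T 2 : ℤ[T;T⁻¹]) = T 1 := by rw [← T_add]; norm_num
      have t2 : (T (-1) * T (-2) : ℤ[T;T⁻¹]) = T (-3) := by rw [← T_add]; norm_num
      linear_combination (-br (nl (.X a b c d :: D₀)) D₀ (EE a b ⊔ EE c d)) * t1 +
        (-br (nl (.X a b c d :: D₀)) D₀ (EE a b ⊔ EE c d)) * t2
    rw [e]
    exact (k2.mul_T (-3)).neg

end Pool.Agent.MP_204846_gt
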