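import Pool.Agent.Lib_MP_204846_gt.Coef
import Pool.Agent.Lib_MP_204846_gt.NugL
import Pool.Agent.Lib_MP_204846_gt.BrType

/-!
# MP_204846_gt: diagrams of the knot type of `D₈`
-/

namespace Pool.Agent.MP_204846_gt

open Module LaurentPolynomial

theorem sm_spA_spB (D : Code) : Sm D (spA D) (spB D) := by
  induction D with
  | nil => exact Sm.nil
  | cons N D ih =>
    cases N with
    | X a b c d => exact Sm.X1 a b c d ih
    | P a b => exact Sm.P a b ih

/-- the bracket has nonzero coefficients at two places of distance 36 -/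
theorem extreme {D : Diagram} (h : D.type = D₈.type) :
    ∃ k : ℤ, (bracket D.code).coeff (18 + 3 * k) ≠ 0 ∧ (bracket D.code).coeff (-18 + 3 * k) ≠ 0 := by
  obtain ⟨k, hk⟩ := same_of_type h
  refine ⟨k, ?_⟩
  rcases hk with hk | hk
  · rw [hk, coeff_T_mul, coeff_T_mul]
    constructor
    · have := coeff_top
      rwa [show (18 + 3 * k - 3 * k : ℤ) = 18 by ring]
    · have := coeff_bot
      rwa [show (-18 + 3 * k - 3 * k : ℤ) = -18 by ring]
  · rw [hk]
    have h1 : ∀ (p : ℤ[T;T⁻¹]) (e : ℤ), (-p).coeff e = - p.coeff e := fun p e => rfl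
    rw [h1, h1, coeff_T_mul, coeff_T_mul, neg_ne_zero, neg_ne_zero]
    constructor
    · have := coeff_top
      rwa [show (18 + 3 * k - 3 * k : ℤ) = 18 by ring]
    · have := coeff_bot
      rwa [show (-18 + 3 * k - 3 * k : ℤ) = -18 by ring]

theorem bd_extreme {D : Diagram} (h : D.type = D₈.type) {lo hi : ℤ} (hb : Bd (bracket D.code) lo hi) :
    ∃ k : ℤ, 18 + 3 * k ≤ hi ∧ lo ≤ -18 + 3 * k := by
  obtain ⟨k, h1, h2⟩ := extreme h
  exact ⟨k, (hb _ h1).2, (hb _ h2).1⟩

/-- the crossing number of the knot type is 8 -/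
theorem eight_le {D : Diagram} (h : D.type = D₈.type) : 8 ≤ crossings D.code := by
  obtain ⟨k, h1, h2⟩ := bd_extreme h (bracket_bd D.code)
  have h3 := circles D.closed D.oneComp.conn
  omega

theorem good_of_eight {D : Diagram} (h : D.type = D₈.type) (h8 : crossings D.code = 8) :
    GoodCode D.code := by
  refine ⟨D.closed, D.oneComp, ?_, ?_⟩
  · intro hn
    obtain ⟨lo, hi, hb, hl⟩ := nug_bd D.closed D.oneComp.conn hn
    obtain ⟨k, h1, h2⟩ := bd_extreme h hb
    omega
  · obtain ⟨k, h1, h2⟩ := bd_extreme h (bracket_bd D.code)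
    have h3 := circles D.closed D.oneComp.conn
    have h4 := cA_pos D.oneComp.conn.1
    have h5 := cB_pos D.oneComp.conn.1
    refine ⟨_, _, sm_spA_spB D.code, ?_⟩
    rw [h8] at h1 h2 h3
    simp only [cA, cB] at h1 h2 h3 h4 h5
    have h6 : 2 * ((nl D.code : ℤ) - Module.finrank (ZMod 2) (spA D.code)) = 10 + 3 * k := by
      push_cast at h1 h2 h3; omega
    have h7 : 2 * ((nl D.code : ℤ) - Module.finrank (ZMod 2) (spB D.code)) = 10 - 3 * k := by
      push_cast at h1 h2 h3; omega
    obtain ⟨j, hj⟩ : ∃ j, k = 2 * j := ⟨k / 2, by omega⟩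
    subst hj
    have h8 : -1 ≤ j := by omega
    have h9 : j ≤ 1 := by omega
    interval_cases j <;> omega

theorem crossingNumber_D₈ : D₈.type.crossingNumber = 8 := by
  unfold KnotType.crossingNumber
  apply le_antisymm
  · exact Nat.sInf_le ⟨D₈, rfl, crossings_D₈⟩
  · refine le_csInf ?_ ?_
    · exact ⟨8, D₈, rfl, crossings_D₈⟩
    · rintro c ⟨D, hD, rfl⟩
      exact eight_le hD

end Pool.Agent.MP_204846_gt
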