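import Pool.Agent.Lib_MP_204846_gt.Rank

/-!
# MP_204846_gt, piece Rep: spaces given by renamings
-/

namespace Pool.Agent.MP_204846_gt

open Module

/-- `S` is spanned by the pairs `a, b` with `f a = f b`. -/
def Rep (S : Submodule (ZMod 2) VV) (f : ℕ → ℕ) : Prop := S = LinearMap.ker (ren f)

theorem rep_bot : Rep ⊥ id := by
  unfold Rep ren
  rw [Finsupp.lmapDomain_id, LinearMap.ker_id]

private theorem rep_ev_ne {a b : ℕ} (hab : a ≠ b) : ev a b ≠ 0 := by
  intro h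
  have h6 : (ev a b) a = 0 := by rw [h]; rfl
  unfold ev at h6
  rw [Finsupp.add_apply, Finsupp.single_eq_same, Finsupp.single_eq_of_ne hab, add_zero] at h6
  exact one_ne_zero h6

theorem rep_same {S : Submodule (ZMod 2) VV} {f : ℕ → ℕ} (h : Rep S f) {a b : ℕ}
    (hab : f a = f b) : S ⊔ EE a b = S := by
  rw [sup_eq_left, EE_le, h, LinearMap.mem_ker, ren_ev, hab, ev_self]

/-- `ker (ren (rn (f a) (f b) ∘ f)) = comap (ren f) (ker (ren (rn (f a) (f b))))`, this is the preimage of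
`EE (f a) (f b) = (EE a b).map (ren f)` (`ker_ren_rn`), so it is `EE a b ⊔ ker (ren f)`. -/
theorem rep_join {S : Submodule (ZMod 2) VV} {f : ℕ → ℕ} (h : Rep S f) {a b : ℕ}
    (hab : f a ≠ f b) : Rep (S ⊔ EE a b) (rn (f a) (f b) ∘ f) := by
  unfold Rep at h ⊢
  have h1 : ren (rn (f a) (f b) ∘ f) = (ren (rn (f a) (f b))).comp (ren f) := by
    unfold ren
    exact Finsupp.lmapDomain_comp _ _ _ _
  rw [h1, LinearMap.ker_comp, ker_ren_rn hab, ← map_EE, Submodule.comap_map_eq, ← h, sup_comm]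

/-- `ren f (ev a b) ≠ 0`, so `ev a b ∉ S`. -/
theorem rep_finrank {S : Submodule (ZMod 2) VV} {f : ℕ → ℕ} (h : Rep S f) (hS : S.FG) {a b : ℕ}
    (hab : f a ≠ f b) : finrank (ZMod 2) ↥(S ⊔ EE a b) = finrank (ZMod 2) S + 1 := by
  refine finrank_sup_EE hS fun h1 => ?_
  rw [h, LinearMap.mem_ker, ren_ev] at h1
  exact rep_ev_ne hab h1

end Pool.Agent.MP_204846_gt
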