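import Pool.Agent.Lib_MP_204846_gt.SmL
import Pool.Agent.Lib_MP_204846_gt.SSpec
import Pool.Agent.Lib_MP_204846_gt.Rep

/-!
# MP_204846_gt, piece LeafA: the check of the states (`conK`, `chkS`)

`Rep S f` means `S = ker (ren f)`; joining `a`, `b` with `f a ≠ f b` gives the map
`rn (f a) (f b) ∘ f` (`rep_join`) and the dimension of the space increases by one (`rep_finrank`);
if `f a = f b`, nothing changes (`rep_same`). Note `Nat.pred (n - r) = n - (r + 1)`.
-/

namespace Pool.Agent.MP_204846_gt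

open Module

def Q2.map (f : ℕ → ℕ) : Q2 → Q2
  | .mk a b => .mk (f a) (f b)

def Q4.map (f : ℕ → ℕ) : Q4 → Q4
  | .mk a b c d => .mk (f a) (f b) (f c) (f d)

private theorem leafA_beq (a b : ℕ) : Nat.beq a b = decide (a = b) := by
  by_cases h : a = b
  · subst h
    rw [decide_eq_true rfl]
    exact Nat.beq_refl a
  · rw [decide_eq_false h]
    exact Bool.eq_false_iff.2 (fun h' => h (Nat.eq_of_beq_eq_true h'))

private theorem leafA_beq_pos {a b : ℕ} (h : a = b) : Nat.beq a b = true := by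
  rw [leafA_beq, decide_eq_true h]

private theorem leafA_beq_neg {a b : ℕ} (h : a ≠ b) : Nat.beq a b = false := by
  rw [leafA_beq, decide_eq_false h]

theorem rnK_eq (a b v : ℕ) (k : ℕ → Bool) : rnK a b v k = k (rn a b v) := by
  unfold rnK rn
  by_cases h : v = b
  · rw [leafA_beq_pos h, if_pos h, cond_true]
  · rw [leafA_beq_neg h, if_neg h, cond_false]

theorem rnL_eq (a b : ℕ) (l : List Q4) (k : List Q4 → Bool) :
    rnL a b l k = k (l.map (Q4.map (rn a b))) := by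
  induction l generalizing k with
  | nil => rfl
  | cons q l ih =>
    obtain ⟨p, q, r, s⟩ := q
    change (rnK a b p fun p => rnK a b q fun q => rnK a b r fun r => rnK a b s fun s =>
        rnL a b l fun l => k (.mk p q r s :: l)) = _
    rw [rnK_eq, rnK_eq, rnK_eq, rnK_eq, ih]
    rfl

theorem rnL2_eq (a b : ℕ) (l : List Q2) (k : List Q2 → Bool) :
    rnL2 a b l k = k (l.map (Q2.map (rn a b))) := by
  induction l generalizing k with
  | nil => rfl
  | cons q l ih =>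
    obtain ⟨p, q⟩ := q
    change (rnK a b p fun p => rnK a b q fun q => rnL2 a b l fun l => k (.mk p q :: l)) = _
    rw [rnK_eq, rnK_eq, ih]
    rfl

private theorem leafA_map4 (f g : ℕ → ℕ) (l : List Q4) :
    (l.map (Q4.map f)).map (Q4.map g) = l.map (Q4.map (g ∘ f)) := by
  rw [List.map_map]
  rfl

private theorem leafA_map2 (f g : ℕ → ℕ) (l : List Q2) :
    (l.map (Q2.map f)).map (Q2.map g) = l.map (Q2.map (g ∘ f)) := by
  rw [List.map_map]
  rfl

private theorem leafA_EE (a b : ℕ) : (EE a b).FG := Submodule.fg_span_singleton _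

theorem mg2_spec {S : Submodule (ZMod 2) VV} (hS : S.FG) {f : ℕ → ℕ} (hf : Rep S f) (N : ℕ)
    (a b c d : ℕ) (l : List Q4) (k : List Q4 → ℕ → Bool) :
    ∃ f', Rep (S ⊔ (EE a b ⊔ EE c d)) f' ∧
      mg2 (f a) (f b) (f c) (f d) (l.map (Q4.map f)) (N - finrank (ZMod 2) S) k =
        k (l.map (Q4.map f')) (N - finrank (ZMod 2) ↥(S ⊔ (EE a b ⊔ EE c d))) := by
  unfold mg2
  rw [← sup_assoc]
  by_cases hab : f a = f b
  · rw [leafA_beq_pos hab, cond_true, rep_same hf hab]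
    by_cases hcd : f c = f d
    · rw [leafA_beq_pos hcd, cond_true, rep_same hf hcd]
      exact ⟨f, hf, rfl⟩
    · rw [leafA_beq_neg hcd, cond_false, rnL_eq, leafA_map4, rep_finrank hf hS hcd]
      refine ⟨_, rep_join hf hcd, ?_⟩
      congr 1
  · rw [leafA_beq_neg hab, cond_false, rnK_eq, rnK_eq, rnL_eq, leafA_map4]
    have hf1 := rep_join hf hab
    have hS1 : (S ⊔ EE a b).FG := hS.sup (leafA_EE a b)
    have e1 := rep_finrank hf hS hab
    change ∃ f', Rep (S ⊔ EE a b ⊔ EE c d) f' ∧ (cond (Nat.beq ((rn (f a) (f b) ∘ f) c) ((rn (f a) (f b) ∘ f) d))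
      (k (l.map (Q4.map (rn (f a) (f b) ∘ f))) (N - finrank (ZMod 2) S).pred)
      (rnL ((rn (f a) (f b) ∘ f) c) ((rn (f a) (f b) ∘ f) d) (l.map (Q4.map (rn (f a) (f b) ∘ f)))
        fun l => k l (N - finrank (ZMod 2) S).pred.pred)) = _
    by_cases hcd : (rn (f a) (f b) ∘ f) c = (rn (f a) (f b) ∘ f) d
    · rw [leafA_beq_pos hcd, cond_true, rep_same hf1 hcd, e1]
      exact ⟨_, hf1, rfl⟩
    · rw [leafA_beq_neg hcd, cond_false, rnL_eq, leafA_map4, rep_finrank hf1 hS1 hcd, e1]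
      exact ⟨_, rep_join hf1 hcd, rfl⟩

/-- Induction over `ps`. -/
theorem conK_spec {fuel : ℕ} {ps : List Q2} (hp : ps.length < fuel) {S : Submodule (ZMod 2) VV}
    (hS : S.FG) {f : ℕ → ℕ} (hf : Rep S f) (N : ℕ) (xs : List Q4) (k : List Q4 → ℕ → Bool) :
    ∃ f', Rep (S ⊔ spP ps) f' ∧
      conK fuel (ps.map (Q2.map f)) (xs.map (Q4.map f)) (N - finrank (ZMod 2) S) k =
        k (xs.map (Q4.map f')) (N - finrank (ZMod 2) ↥(S ⊔ spP ps)) := by
  induction ps generalizing fuel S f with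
  | nil =>
    obtain ⟨fuel, rfl⟩ : ∃ n, fuel = n + 1 := ⟨fuel - 1, by simp at hp; omega⟩
    have e : S ⊔ spP [] = S := by
      unfold spP
      exact sup_bot_eq S
    rw [e]
    exact ⟨f, hf, rfl⟩
  | cons q ps ih =>
    obtain ⟨a, b⟩ := q
    rw [List.length_cons] at hp
    obtain ⟨fuel, rfl⟩ : ∃ n, fuel = n + 1 := ⟨fuel - 1, by omega⟩
    have e : S ⊔ spP (.mk a b :: ps) = (S ⊔ EE a b) ⊔ spP ps := by
      rw [show spP (.mk a b :: ps) = EE a b ⊔ spP ps from rfl, sup_assoc]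
    rw [e]
    change ∃ f', Rep ((S ⊔ EE a b) ⊔ spP ps) f' ∧
      (cond (Nat.beq (f a) (f b))
        (conK fuel (ps.map (Q2.map f)) (xs.map (Q4.map f)) (N - finrank (ZMod 2) S) k)
        (rnL2 (f a) (f b) (ps.map (Q2.map f)) fun ps => rnL (f a) (f b) (xs.map (Q4.map f)) fun xs =>
          conK fuel ps xs (N - finrank (ZMod 2) S).pred k)) = _
    by_cases hab : f a = f b
    · rw [leafA_beq_pos hab, cond_true, rep_same hf hab]
      exact ih (by omega) hS hf
    · rw [leafA_beq_neg hab, cond_false, rnL2_eq, rnL_eq, leafA_map4, leafA_map2]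
      have h1 := ih (fuel := fuel) (by omega) (hS.sup (leafA_EE a b)) (rep_join hf hab)
      rw [rep_finrank hf hS hab] at h1
      exact h1

/-- Induction over `xs`. -/
theorem chkS_spec (xs : List Q4) {S₁ S₂ : Submodule (ZMod 2) VV} (h₁ : S₁.FG) (h₂ : S₂.FG)
    {f₁ f₂ : ℕ → ℕ} (hf₁ : Rep S₁ f₁) (hf₂ : Rep S₂ f₂) (N : ℕ)
    (h : chkS xs.length (xs.map (Q4.map f₁)) (xs.map (Q4.map f₂)) (N - finrank (ZMod 2) S₁)
      (N - finrank (ZMod 2) S₂) = true) {A B : Submodule (ZMod 2) VV}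
    (hs : Sm (xs.map Q4.node) A B) :
    notBad (N - finrank (ZMod 2) ↥(S₁ ⊔ A)) (N - finrank (ZMod 2) ↥(S₂ ⊔ B)) = true := by
  induction xs generalizing S₁ S₂ f₁ f₂ A B with
  | nil =>
    rw [List.map_nil] at hs
    cases hs
    rw [sup_bot_eq, sup_bot_eq]
    exact h
  | cons q xs ih =>
    obtain ⟨a, b, c, d⟩ := q
    change (cond (mg2 (f₁ a) (f₁ b) (f₁ c) (f₁ d) (xs.map (Q4.map f₁)) (N - finrank (ZMod 2) S₁)
          fun xs' m' => mg2 (f₂ b) (f₂ c) (f₂ d) (f₂ a) (xs.map (Q4.map f₂)) (N - finrank (ZMod 2) S₂)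
            fun ys' n' => chkS xs.length xs' ys' m' n')
        (mg2 (f₁ b) (f₁ c) (f₁ d) (f₁ a) (xs.map (Q4.map f₁)) (N - finrank (ZMod 2) S₁)
          fun xs' m' => mg2 (f₂ a) (f₂ b) (f₂ c) (f₂ d) (xs.map (Q4.map f₂)) (N - finrank (ZMod 2) S₂)
            fun ys' n' => chkS xs.length xs' ys' m' n') false) = true at h
    have hand : ∀ u v : Bool, cond u v false = true → u = true ∧ v = true := by
      intro u v huv
      cases u <;> simp_all
    obtain ⟨hA, hB⟩ := hand _ _ h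
    clear h
    change Sm (.X a b c d :: xs.map Q4.node) A B at hs
    cases hs with
    | X1 _ _ _ _ hs' =>
      obtain ⟨g₁, hg₁, e₁⟩ := mg2_spec h₁ hf₁ N a b c d xs
        (fun xs' m' => mg2 (f₂ b) (f₂ c) (f₂ d) (f₂ a) (xs.map (Q4.map f₂)) (N - finrank (ZMod 2) S₂)
            fun ys' n' => chkS xs.length xs' ys' m' n')
      rw [e₁] at hA
      obtain ⟨g₂, hg₂, e₂⟩ := mg2_spec h₂ hf₂ N b c d a xs
        (fun ys' n' => chkS xs.length (xs.map (Q4.map g₁)) ys'
          (N - finrank (ZMod 2) ↥(S₁ ⊔ (EE a b ⊔ EE c d))) n')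
      rw [e₂] at hA
      have := ih (h₁.sup ((leafA_EE a b).sup (leafA_EE c d)))
        (h₂.sup ((leafA_EE b c).sup (leafA_EE d a))) hg₁ hg₂ hA hs'
      rw [sup_assoc S₁, sup_assoc S₂] at this
      exact this
    | X2 _ _ _ _ hs' =>
      obtain ⟨g₁, hg₁, e₁⟩ := mg2_spec h₁ hf₁ N b c d a xs
        (fun xs' m' => mg2 (f₂ a) (f₂ b) (f₂ c) (f₂ d) (xs.map (Q4.map f₂)) (N - finrank (ZMod 2) S₂)
            fun ys' n' => chkS xs.length xs' ys' m' n')
      rw [e₁] at hB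
      obtain ⟨g₂, hg₂, e₂⟩ := mg2_spec h₂ hf₂ N a b c d xs
        (fun ys' n' => chkS xs.length (xs.map (Q4.map g₁)) ys'
          (N - finrank (ZMod 2) ↥(S₁ ⊔ (EE b c ⊔ EE d a))) n')
      rw [e₂] at hB
      have := ih (h₁.sup ((leafA_EE b c).sup (leafA_EE d a)))
        (h₂.sup ((leafA_EE a b).sup (leafA_EE c d))) hg₁ hg₂ hB hs'
      rw [sup_assoc S₁, sup_assoc S₂] at this
      exact this

theorem notBad_iff (m n : ℕ) :
    notBad m n = true ↔ ¬ ((m = 5 ∧ n = 5) ∨ (m = 2 ∧ n = 8) ∨ (m = 8 ∧ n = 2)) := by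
  unfold notBad
  simp only [leafA_beq]
  by_cases h1 : m = 5
  · subst h1
    by_cases h2 : n = 5 <;> simp [h2]
  · by_cases h3 : m = 2
    · subst h3
      by_cases h4 : n = 8 <;> simp [h4]
    · by_cases h5 : m = 8
      · subst h5
        by_cases h6 : n = 2 <;> simp [h6]
      · simp [h1, h3, h5]

end Pool.Agent.MP_204846_gt
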