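import Pool.Agent.Lib_MP_204846_gt.ArrL

/-!
# MP_204846_gt, piece ListL: profiles as lists
-/

namespace Pool.Agent.MP_204846_gt

theorem up_cons (Γ : ℕ → Ent) (x y : ℕ) :
    up Γ x y = Γ (vert x (y + 1)) :: ((List.range x).map fun j => Γ (vert j (y + 1))).reverse := by
  unfold up
  rw [List.range_succ, List.map_append, List.reverse_append]
  rfl

theorem up_succ (Γ : ℕ → Ent) (x y : ℕ) : up Γ (x + 1) y = Γ (vert (x + 1) (y + 1)) :: up Γ x y := by
  rw [up_cons]
  rfl

theorem low_cons (Γ : ℕ → Ent) {w x : ℕ} (y : ℕ) (hx : x ≤ w) :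
    low Γ w x y = Γ (vert x y) :: low Γ w (x + 1) y := by
  unfold low
  have h : w + 1 - x = (w + 1 - (x + 1)) + 1 := by omega
  rw [h, List.range'_succ, List.map_cons]

theorem low_end_nil (Γ : ℕ → Ent) (w y : ℕ) : low Γ w (w + 1) y = [] := by
  unfold low
  rw [Nat.sub_self]
  rfl

/-- the profiles after placing a tile -/
theorem up_stp (Γ : ℕ → Ent) (x y : ℕ) (BR TR TL : Ent) (ρ : Ent → Ent) :
    up (stp Γ (vert x y) (vert (x + 1) y) (vert (x + 1) (y + 1)) (vert x (y + 1)) BR TR TL ρ)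
      (x + 1) y = TR :: TL :: (((List.range x).map fun j => Γ (vert j (y + 1))).reverse).map ρ := by
  rw [up_succ, up_cons]
  have h1 : stp Γ (vert x y) (vert (x + 1) y) (vert (x + 1) (y + 1)) (vert x (y + 1)) BR TR TL ρ
      (vert (x + 1) (y + 1)) = TR := by
    unfold stp
    rw [if_neg (by rw [vert_inj]; omega), if_neg (by rw [vert_inj]; omega), if_pos rfl]
  have h2 : stp Γ (vert x y) (vert (x + 1) y) (vert (x + 1) (y + 1)) (vert x (y + 1)) BR TR TL ρ
      (vert x (y + 1)) = TL := by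
    unfold stp
    rw [if_neg (by rw [vert_inj]; omega), if_neg (by rw [vert_inj]; omega),
      if_neg (by rw [vert_inj]; omega), if_pos rfl]
  rw [h1, h2, List.map_reverse, List.map_map]
  congr 3
  apply List.map_congr_left
  intro j hj
  rw [List.mem_range] at hj
  unfold stp
  rw [if_neg (by rw [vert_inj]; omega), if_neg (by rw [vert_inj]; omega),
    if_neg (by rw [vert_inj]; omega), if_neg (by rw [vert_inj]; omega)]
  rfl

theorem low_stp (Γ : ℕ → Ent) {w x : ℕ} (y : ℕ) (hx : x < w) (BR TR TL : Ent) (ρ : Ent → Ent) :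
    low (stp Γ (vert x y) (vert (x + 1) y) (vert (x + 1) (y + 1)) (vert x (y + 1)) BR TR TL ρ)
      w (x + 1) y = BR :: (low Γ w (x + 2) y).map ρ := by
  rw [low_cons _ y (by omega)]
  have h1 : stp Γ (vert x y) (vert (x + 1) y) (vert (x + 1) (y + 1)) (vert x (y + 1)) BR TR TL ρ
      (vert (x + 1) y) = BR := by
    unfold stp
    rw [if_neg (by rw [vert_inj]; omega), if_pos rfl]
  rw [h1]
  congr 1
  unfold low
  rw [List.map_map]
  apply List.map_congr_left
  intro j hj
  rw [List.mem_range'_1] at hj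
  unfold stp
  rw [if_neg (by rw [vert_inj]; omega), if_neg (by rw [vert_inj]; omega),
    if_neg (by rw [vert_inj]; omega), if_neg (by rw [vert_inj]; omega)]
  rfl

/-- at the end of the row: the new lower profile -/
theorem low_next (Γ : ℕ → Ent) (w y : ℕ) : low Γ w 0 (y + 1) = (up Γ w y).reverse := by
  unfold low up
  rw [List.reverse_reverse, Nat.sub_zero, List.range_eq_range']

theorem mem_up {Γ : ℕ → Ent} {x y : ℕ} {e : Ent} :
    e ∈ up Γ x y ↔ ∃ j ≤ x, e = Γ (vert j (y + 1)) := by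
  unfold up
  rw [List.mem_reverse, List.mem_map]
  constructor
  · rintro ⟨j, hj, rfl⟩
    rw [List.mem_range] at hj
    exact ⟨j, by omega, rfl⟩
  · rintro ⟨j, hj, rfl⟩
    exact ⟨j, List.mem_range.mpr (by omega), rfl⟩

theorem mem_low {Γ : ℕ → Ent} {w x y : ℕ} {e : Ent} :
    e ∈ low Γ w x y ↔ ∃ j, x ≤ j ∧ j ≤ w ∧ e = Γ (vert j y) := by
  unfold low
  rw [List.mem_map]
  constructor
  · rintro ⟨j, hj, rfl⟩
    rw [List.mem_range'_1] at hj
    exact ⟨j, by omega, by omega, rfl⟩
  · rintro ⟨j, hj, hj', rfl⟩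
    exact ⟨j, List.mem_range'_1.mpr (by omega), rfl⟩

theorem hist_succ (A : Arr) (w x y : ℕ) : hist A w (x + 1) y = A x y :: hist A w x y := by
  unfold hist histF
  rw [List.range_succ (n := x), List.map_append, ← List.append_assoc, List.reverse_append]
  rfl

theorem hist_next (A : Arr) (w y : ℕ) : hist A w 0 (y + 1) = hist A w w y := by
  unfold hist histF
  rw [List.range_succ (n := y), List.flatMap_append]
  simp

/-- openness of the entries of a state -/
theorem opn_iff {N : Code} {Γ : ℕ → Ent} (h : Inv N Γ) (v : ℕ) :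
    opn (Γ v) = if (ends N).count v = 1 then 1 else 0 := by
  cases hv : Γ v with
  | z =>
    rw [h.zero v hv]
    rfl
  | f =>
    rw [h.two v hv]
    rfl
  | o s c =>
    rw [h.one v s c hv]
    rfl

end Pool.Agent.MP_204846_gt
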