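import Pool.Agent.Lib_MP_204846_gt.ArrDef

/-!
# MP_204846_gt, piece PlaceNm: the names after placing a tile
-/

namespace Pool.Agent.MP_204846_gt

/-- the names (strand and crossing) of the entry are allowed -/
def NmOK (w m : ℕ) (e : Ent) : Prop :=
  ∀ s c, e = .o s c → (s ≤ w + 1 ∨ m < s) ∧ (c / 4 ≤ w + 1 ∨ m < c / 4)

namespace PlaceNm

set_option linter.unusedSimpArgs false

/-- an allowed name -/
def Nn (w m s : ℕ) : Prop := s ≤ w + 1 ∨ m < s

theorem nmo {w m s c : ℕ} : NmOK w m (.o s c) ↔ Nn w m s ∧ Nn w m (c / 4) := by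
  constructor
  · intro h
    exact h s c rfl
  · intro h s' c' he
    cases he
    exact h

theorem nmz {w m : ℕ} : NmOK w m .z ↔ True := ⟨fun _ => trivial, fun _ s c h => by cases h⟩

theorem nmf {w m : ℕ} : NmOK w m .f ↔ True := ⟨fun _ => trivial, fun _ s c h => by cases h⟩

theorem ren {w m s c t d : ℕ} (hs : Nn w m s) (hc : Nn w m (c / 4))
    (hd : Nn w m (d / 4)) (e : Ent) (he : NmOK w m e) : NmOK w m (renM s c t d e) := by
  cases e with
  | z => exact he
  | f => exact he
  | o u x =>
    rw [nmo] at he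
    simp only [renM]
    split_ifs <;> rw [nmo]
    · exact ⟨hs, hd⟩
    · exact ⟨hs, he.2⟩
    · exact ⟨hs, hc⟩
    · exact ⟨hs, he.2⟩
    · exact he

theorem upd {w m s c X : ℕ} (hX : Nn w m (X / 4)) (e : Ent) (he : NmOK w m e) :
    NmOK w m (updM s c X e) := by
  unfold updM
  split_ifs
  · cases e with
    | z => exact he
    | f => exact he
    | o u x =>
      rw [nmo] at he
      simp only [srcM]
      split_ifs <;> rw [nmo]
      · exact ⟨he.1, hX⟩
      · exact he
      · exact he
  · exact he

/-- the conclusion -/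
def Good (w m : ℕ) : Out → Prop
  | .ok _ TR TL BR ρ => NmOK w m TR ∧ NmOK w m TL ∧ NmOK w m BR ∧ ∀ e, NmOK w m e → NmOK w m (ρ e)
  | _ => True

theorem jnGood {w m s c t d : ℕ} {v W : Out} (h1 : Good w m v) (h2 : Good w m W) :
    Good w m (jn s c t d v W) := by
  unfold jn
  split_ifs
  · trivial
  · exact h1
  · exact h2

theorem iteGood {w m : ℕ} {c : Prop} [Decidable c] {v W : Out} (h1 : Good w m v)
    (h2 : Good w m W) : Good w m (if c then v else W) := by
  split_ifs
  · exact h1
  · exact h2

theorem goodN {w m i : ℕ} {k : Kd} {l r1 : Ent} (hi : Nn w m i) (hz : Nn w m (0 / 4))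
    (hl : NmOK w m l) (h1 : NmOK w m r1) : Good w m (placeN i k l r1) := by
  have e0 : ∀ e, NmOK w m e → NmOK w m (id e) := fun e he => he
  cases l with
  | f => trivial
  | z =>
    cases r1 with
    | z =>
      cases k <;> simp only [placeN, Good, nmo, nmz, nmf, hi, hz, and_true, true_and] <;> exact e0
    | f =>
      cases k <;> simp only [placeN, Good, nmo, nmz, nmf, hi, hz, and_true, true_and] <;> exact e0
    | o t d =>
      rw [nmo] at h1
      cases k <;> simp only [placeN, Good, nmo, nmz, nmf, hi, hz, h1, and_true, true_and] <;> exact e0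
  | o u e =>
    rw [nmo] at hl
    cases r1 with
    | z =>
      cases k <;> simp only [placeN, Good, nmo, nmz, nmf, hi, hz, hl, and_true, true_and] <;> exact e0
    | f =>
      cases k <;> simp only [placeN, Good, nmo, nmz, nmf, hi, hz, hl, and_true, true_and] <;> exact e0
    | o t d =>
      rw [nmo] at h1
      cases k
      case dD =>
        exact jnGood trivial ⟨nmz.mpr trivial, nmf.mpr trivial, nmf.mpr trivial,
          ren hl.1 hl.2 h1.2⟩
      all_goals
        simp only [placeN, Good, nmo, nmz, nmf, hi, hz, hl, h1, and_true, true_and]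
      all_goals exact e0

theorem goodO {w m i s c : ℕ} {k : Kd} {l r1 : Ent} (hi : Nn w m i) (hz : Nn w m (0 / 4))
    (hq0 : Nn w m ((4 * i) / 4)) (hq1 : Nn w m ((4 * i + 1) / 4)) (hq2 : Nn w m ((4 * i + 2) / 4))
    (hq3 : Nn w m ((4 * i + 3) / 4)) (hs : Nn w m s) (hc : Nn w m (c / 4))
    (hl : NmOK w m l) (h1 : NmOK w m r1) : Good w m (placeO i s c k l r1) := by
  have e0 : ∀ e, NmOK w m e → NmOK w m (id e) := fun e he => he
  cases l with
  | f => trivial
  | z =>
    cases r1 with
    | z =>
      cases k <;>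
        simp only [placeO, Good, nmo, nmz, nmf, hi, hz, hq0, hq1, hq2, hq3, hs, hc, and_true,
          true_and] <;> first | exact e0 | exact upd hq0
    | f =>
      cases k <;>
        simp only [placeO, Good, nmo, nmz, nmf, hi, hz, hs, hc, and_true, true_and] <;> exact e0
    | o t d =>
      rw [nmo] at h1
      cases k
      case x =>
        exact iteGood trivial ⟨nmo.mpr ⟨hs, hq2⟩, nmo.mpr ⟨h1.1, hq3⟩, nmf.mpr trivial,
          fun e he => upd hq1 _ (upd hq0 _ he)⟩
      case aB =>
        exact jnGood trivial ⟨nmz.mpr trivial, nmz.mpr trivial, nmf.mpr trivial,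
          ren hs hc h1.2⟩
      case hh =>
        exact jnGood trivial ⟨nmo.mpr ⟨hi, hz⟩, nmo.mpr ⟨hi, hz⟩, nmf.mpr trivial,
          ren hs hc h1.2⟩
      all_goals
        simp only [placeO, Good, nmo, nmz, nmf, hi, hz, hs, hc, h1, and_true, true_and]
      all_goals exact e0
  | o u e =>
    rw [nmo] at hl
    cases r1 with
    | z =>
      cases k
      case x =>
        exact iteGood trivial ⟨nmo.mpr ⟨hs, hq2⟩, nmf.mpr trivial, nmo.mpr ⟨hl.1, hq1⟩,
          fun e he => upd hq3 _ (upd hq0 _ he)⟩
      case aL =>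
        exact jnGood trivial ⟨nmz.mpr trivial, nmf.mpr trivial, nmz.mpr trivial,
          ren hs hc hl.2⟩
      case vv =>
        exact jnGood trivial ⟨nmo.mpr ⟨hi, hz⟩, nmf.mpr trivial, nmo.mpr ⟨hi, hz⟩,
          ren hs hc hl.2⟩
      all_goals
        simp only [placeO, Good, nmo, nmz, nmf, hi, hz, hs, hc, hl, and_true, true_and]
      all_goals exact e0
    | f =>
      cases k
      case aL =>
        exact jnGood trivial ⟨nmz.mpr trivial, nmf.mpr trivial, nmf.mpr trivial,
          ren hs hc hl.2⟩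
      all_goals
        simp only [placeO, Good, nmo, nmz, nmf, hi, hz, hs, hc, hl, and_true, true_and]
      all_goals exact e0
    | o t d =>
      rw [nmo] at h1
      cases k
      case x =>
        exact iteGood trivial ⟨ren hl.1 hq1 hq3 _ (nmo.mpr ⟨hs, hq2⟩), nmf.mpr trivial,
          nmf.mpr trivial, fun e he => ren hl.1 hq1 hq3 _ (upd hq0 _ he)⟩
      case aB =>
        exact jnGood trivial ⟨nmz.mpr trivial, ren hs hc h1.2 _ (nmo.mpr hl), nmf.mpr trivial,
          ren hs hc h1.2⟩
      case hh =>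
        exact jnGood trivial ⟨ren hs hc h1.2 _ (nmo.mpr hl), nmf.mpr trivial, nmf.mpr trivial,
          ren hs hc h1.2⟩
      case aL =>
        exact jnGood trivial ⟨nmz.mpr trivial, nmf.mpr trivial, ren hs hc hl.2 _ (nmo.mpr h1),
          ren hs hc hl.2⟩
      case vv =>
        exact jnGood trivial ⟨ren hs hc hl.2 _ (nmo.mpr h1), nmf.mpr trivial, nmf.mpr trivial,
          ren hs hc hl.2⟩
      all_goals
        simp only [placeO, Good, nmo, nmz, nmf, hi, hz, hs, hc, hl, h1, and_true, true_and]
      all_goals exact e0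

end PlaceNm

open PlaceNm in
/-- The names in the new state: all new names are `i`, all new sources are `4 * i + q` or sources of
`l`, `r0`, `r1`. -/
theorem place_names {w m i κ : ℕ} {k : Kd} {l r0 r1 TR TL BR : Ent} {ρ : Ent → Ent}
    (h : place i k l r0 r1 = .ok κ TR TL BR ρ) (him : m < i) (hl : NmOK w m l)
    (h0 : NmOK w m r0) (h1 : NmOK w m r1) :
    NmOK w m TR ∧ NmOK w m TL ∧ NmOK w m BR ∧ ∀ e, NmOK w m e → NmOK w m (ρ e) := by
  have hi : Nn w m i := Or.inr him
  have hz : Nn w m (0 / 4) := Or.inl (by omega)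
  have hq0 : Nn w m ((4 * i) / 4) := Or.inr (by omega)
  have hq1 : Nn w m ((4 * i + 1) / 4) := Or.inr (by omega)
  have hq2 : Nn w m ((4 * i + 2) / 4) := Or.inr (by omega)
  have hq3 : Nn w m ((4 * i + 3) / 4) := Or.inr (by omega)
  have key : Good w m (place i k l r0 r1) := by
    cases r0 with
    | z => exact goodN hi hz hl h1
    | f => exact goodN hi hz hl h1
    | o s c =>
      rw [nmo] at h0
      exact goodO hi hz hq0 hq1 hq2 hq3 h0.1 h0.2 hl h1
  rw [h] at key
  exact key

end Pool.Agent.MP_204846_gt
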