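import Pool.Agent.Lib_MP_204846_gt.ListL

/-!
# MP_204846_gt, piece PotL: the potential
-/

namespace Pool.Agent.MP_204846_gt

theorem rem_succ {A : Arr} {w h x y : ℕ} (hx : x < w) (hy : y < h) (p : Kd → Bool) :
    rem A w h x y p = rem A w h (x + 1) y p + if p (A x y) = true then 1 else 0 := by
  unfold rem
  by_cases hp : p (A x y) = true
  · rw [if_pos hp]
    have : ((Finset.range w ×ˢ Finset.range h).filter fun c =>
        p (A c.1 c.2) = true ∧ (y < c.2 ∨ (c.2 = y ∧ x ≤ c.1))) =
        insert (x, y) ((Finset.range w ×ˢ Finset.range h).filter fun c =>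
          p (A c.1 c.2) = true ∧ (y < c.2 ∨ (c.2 = y ∧ x + 1 ≤ c.1))) := by
      ext ⟨a, b⟩
      simp only [Finset.mem_filter, Finset.mem_product, Finset.mem_range, Finset.mem_insert,
        Prod.mk.injEq]
      constructor
      · rintro ⟨⟨ha, hb⟩, hq, hc⟩
        by_cases hab : a = x ∧ b = y
        · exact Or.inl hab
        · refine Or.inr ⟨⟨ha, hb⟩, hq, ?_⟩
          rcases hc with hc | ⟨hc, hc'⟩
          · exact Or.inl hc
          · refine Or.inr ⟨hc, ?_⟩
            rcases Nat.lt_or_ge x a with h1 | h1
            · exact h1
            · exact absurd ⟨le_antisymm h1 hc', hc⟩ hab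
      · rintro (⟨rfl, rfl⟩ | ⟨⟨ha, hb⟩, hq, hc⟩)
        · exact ⟨⟨hx, hy⟩, hp, Or.inr ⟨rfl, le_refl _⟩⟩
        · refine ⟨⟨ha, hb⟩, hq, ?_⟩
          rcases hc with hc | ⟨hc, hc'⟩
          · exact Or.inl hc
          · exact Or.inr ⟨hc, by omega⟩
    rw [this, Finset.card_insert_of_notMem]
    simp
  · rw [if_neg hp, add_zero]
    congr 1
    ext ⟨a, b⟩
    simp only [Finset.mem_filter, Finset.mem_product, Finset.mem_range]
    constructor
    · rintro ⟨⟨ha, hb⟩, hq, hc⟩
      refine ⟨⟨ha, hb⟩, hq, ?_⟩
      rcases hc with hc | ⟨hc, hc'⟩
      · exact Or.inl hc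
      · refine Or.inr ⟨hc, ?_⟩
        rcases Nat.lt_or_ge x a with h1 | h1
        · exact h1
        · have h2 := le_antisymm h1 hc'
          subst h2; subst hc
          exact absurd hq hp
    · rintro ⟨⟨ha, hb⟩, hq, hc⟩
      refine ⟨⟨ha, hb⟩, hq, ?_⟩
      rcases hc with hc | ⟨hc, hc'⟩
      · exact Or.inl hc
      · exact Or.inr ⟨hc, by omega⟩

theorem rem_next (A : Arr) (w h y : ℕ) (p : Kd → Bool) :
    rem A w h w y p = rem A w h 0 (y + 1) p := by
  unfold rem
  congr 1
  ext ⟨a, b⟩
  simp only [Finset.mem_filter, Finset.mem_product, Finset.mem_range]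
  constructor
  · rintro ⟨⟨ha, hb⟩, hq, hc⟩
    exact ⟨⟨ha, hb⟩, hq, by omega⟩
  · rintro ⟨⟨ha, hb⟩, hq, hc⟩
    exact ⟨⟨ha, hb⟩, hq, by omega⟩

theorem rem_zero (A : Arr) (w h : ℕ) :
    rem A w h 0 0 Kd.isX = nX A w h ∧ rem A w h 0 0 Kd.isC = nC A w h := by
  have key : ∀ a b : ℕ, (0 < b ∨ (b = 0 ∧ 0 ≤ a)) := fun a b => by omega
  have hX : ∀ k : Kd, Kd.isX k = true ↔ k = .x := by
    intro k; cases k <;> simp [Kd.isX]
  constructor
  · unfold rem nX
    congr 1
    ext ⟨a, b⟩
    simp only [Finset.mem_filter, Finset.mem_product, Finset.mem_range, hX, key, and_true]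
  · unfold rem nC
    congr 1
    ext ⟨a, b⟩
    simp only [Finset.mem_filter, Finset.mem_product, Finset.mem_range, key, and_true]

/-- the parity of the number of ends -/
def par (D : Code) (v : ℕ) : ℕ := if (ends D).count v = 1 then 1 else 0

/-- the potential, in terms of the counts -/
def potC (A : Arr) (w x y : ℕ) : ℕ :=
  ((List.range x).map fun j => par (preCode A w x y) (vert j (y + 1))).sum +
    ((List.range' (x + 1) (w - x)).map fun j => par (preCode A w x y) (vert j y)).sum +
    xr (par (preCode A w x y) (vert x (y + 1))) (par (preCode A w x y) (vert x y))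

theorem par_le (D : Code) (v : ℕ) : par D v ≤ 1 := by
  unfold par; split_ifs <;> omega

theorem xr_zero {a : ℕ} (h : a ≤ 1) : xr a 0 = a := by
  unfold xr; split_ifs <;> omega

theorem zero_xr {a : ℕ} (h : a ≤ 1) : xr 0 a = a := by
  unfold xr; split_ifs <;> omega

theorem xr_one {a : ℕ} (h : a ≤ 1) : xr a 1 = 1 - a := by
  unfold xr; split_ifs <;> omega

theorem one_xr {a : ℕ} (h : a ≤ 1) : xr 1 a = 1 - a := by
  unfold xr; split_ifs <;> omega

theorem pot_eq {A : Arr} {w x y : ℕ} (hx : x ≤ w) {Γ : ℕ → Ent}
    (hΓ : ∀ v, opn (Γ v) = par (preCode A w x y) v) :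
    pot (up Γ x y) (low Γ w x y) = potC A w x y := by
  rw [up_cons, low_cons Γ y hx]
  simp only [pot, potC, cnt, low]
  have e1 : w + 1 - (x + 1) = w - x := by omega
  rw [e1, hΓ, hΓ, List.map_reverse, List.sum_reverse, List.map_map, List.map_map]
  congr 2
  · congr 1
    exact List.map_congr_left fun j _ => hΓ _
  · congr 1
    exact List.map_congr_left fun j _ => hΓ _

theorem par_append {D E : Code} {v : ℕ} (h : (ends E).count v = 0) : par (D ++ E) v = par D v := by
  unfold par
  rw [ends_append, List.count_append, h, add_zero]

theorem cell_other {A : Arr} {x y v : ℕ} (h1 : v ≠ vert x y) (h2 : v ≠ vert (x + 1) y)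
    (h3 : v ≠ vert (x + 1) (y + 1)) (h4 : v ≠ vert x (y + 1)) : (ends (cellCode A x y)).count v = 0 := by
  rw [List.count_eq_zero]
  unfold cellCode ends
  cases A x y <;> simp [Kd.code, Node.ends, h1, h2, h3, h4]

/-- one step within a row -/
theorem potC_succ {A : Arr} {w h x y : ℕ} (hc : Closed (arrCode A w h)) (hx : x < w) (hy : y < h) :
    potC A w x y ≤ potC A w (x + 1) y + 2 * if (A x y).isC = true then 1 else 0 := by
  set D := preCode A w x y with hD
  set E := preCode A w (x + 1) y with hE
  have hDE : E = D ++ cellCode A x y := preCode_succ A w x y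
  have ce : ∀ v, (ends E).count v = (ends D).count v + (ends (cellCode A x y)).count v := by
    intro v; rw [hDE, ends_append, List.count_append]
  -- the unchanged terms
  have s1 : ((List.range x).map fun j => par D (vert j (y + 1))).sum =
      ((List.range x).map fun j => par E (vert j (y + 1))).sum := by
    congr 1
    refine List.map_congr_left fun j hj => ?_
    rw [List.mem_range] at hj
    rw [hDE, par_append]
    apply cell_other <;> rw [Ne, vert_inj] <;> omega
  have s2 : ((List.range' (x + 2) (w - (x + 1))).map fun j => par D (vert j y)).sum =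
      ((List.range' (x + 2) (w - (x + 1))).map fun j => par E (vert j y)).sum := by
    congr 1
    refine List.map_congr_left fun j hj => ?_
    rw [List.mem_range'_1] at hj
    rw [hDE, par_append]
    apply cell_other <;> rw [Ne, vert_inj] <;> omega
  have s3 : w - x = (w - (x + 1)) + 1 := by omega
  unfold potC
  rw [← hD, ← hE, s3, List.range'_succ, List.map_cons, List.sum_cons, s1, s2, List.range_succ,
    List.map_append, List.sum_append, List.map_singleton, List.sum_singleton]
  suffices H : par D (vert (x + 1) y) + xr (par D (vert x (y + 1))) (par D (vert x y)) ≤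
      par E (vert x (y + 1)) + xr (par E (vert (x + 1) (y + 1))) (par E (vert (x + 1) y)) +
        2 * if (A x y).isC = true then 1 else 0 by
    have e2 : x + 1 + 1 = x + 2 := rfl
    rw [e2]
    omega
  have xle : ∀ a b, xr a b ≤ 1 := by intro a b; unfold xr; split_ifs <;> omega
  have p1 := par_le D (vert (x + 1) y)
  have p2 := xle (par D (vert x (y + 1))) (par D (vert x y))
  by_cases hC : (A x y).isC = true
  · rw [if_pos hC]; omega
  rw [if_neg hC]
  have hcl : ∀ v, v ∉ ends (restCode A w h x y) → (ends E).count v ≠ 1 := by
    intro v hv h1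
    have h2 : (ends (arrCode A w h)).count v = 1 := by
      rw [arrCode_split hx hy, ← hD, ← hDE, ends_append, List.count_append, h1,
        List.count_eq_zero.2 hv]
    have h3 := hc v (by rw [← List.count_pos_iff]; omega)
    omega
  have hle : ∀ v, (ends E).count v ≤ 2 := by
    intro v
    by_cases hv : v ∈ ends (arrCode A w h)
    · have h3 := hc v hv
      rw [arrCode_split hx hy, ← hD, ← hDE, ends_append, List.count_append] at h3
      omega
    · have h3 := List.count_eq_zero.2 hv
      rw [arrCode_split hx hy, ← hD, ← hDE, ends_append, List.count_append] at h3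
      omega
  have q0 := hcl _ (bl_rest A w h x y)
  have q1 := tr_fresh A w x y
  have q2 := tl_count A w x y
  rw [← hD] at q1 q2
  have hk : A x y = .bl ∨ A x y = .x := by
    cases hA : A x y <;> simp_all [Kd.isC]
  rcases hk with hk | hk
  · -- blank
    have hcell : cellCode A x y = [] := by unfold cellCode; rw [hk]; rfl
    have hED : E = D := by rw [hDE, hcell, List.append_nil]
    rw [hED] at q0 ⊢
    have r0 : par D (vert x y) = 0 := by unfold par; rw [if_neg q0]
    have r3 : par D (vert (x + 1) (y + 1)) = 0 := by unfold par; rw [if_neg (by omega)]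
    rw [r0, r3, xr_zero (par_le _ _), zero_xr (par_le _ _)]
    omega
  · -- a crossing
    have hnd := corners_nodup x y
    have hcell : ends (cellCode A x y) =
        [vert x y, vert (x + 1) y, vert (x + 1) (y + 1), vert x (y + 1)] := by
      unfold cellCode ends; rw [hk]; rfl
    have c0 : (ends (cellCode A x y)).count (vert x y) = 1 := by
      rw [hcell]; exact List.count_eq_one_of_mem hnd (by simp)
    have c1 : (ends (cellCode A x y)).count (vert (x + 1) y) = 1 := by
      rw [hcell]; exact List.count_eq_one_of_mem hnd (by simp)
    have c2 : (ends (cellCode A x y)).count (vert (x + 1) (y + 1)) = 1 := by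
      rw [hcell]; exact List.count_eq_one_of_mem hnd (by simp)
    have c3 : (ends (cellCode A x y)).count (vert x (y + 1)) = 1 := by
      rw [hcell]; exact List.count_eq_one_of_mem hnd (by simp)
    have d0 := ce (vert x y)
    have d1 := ce (vert (x + 1) y)
    have d2 := ce (vert (x + 1) (y + 1))
    have d3 := ce (vert x (y + 1))
    have l0 := hle (vert x y)
    have l1 := hle (vert (x + 1) y)
    have v0 : par D (vert x y) = 1 := if_pos (by omega)
    have v1 : par E (vert (x + 1) (y + 1)) = 1 := if_pos (by omega)
    have v2 : par E (vert (x + 1) y) = 1 - par D (vert (x + 1) y) := by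
      unfold par; split_ifs <;> omega
    have v3 : par E (vert x (y + 1)) = 1 - par D (vert x (y + 1)) := by
      unfold par; split_ifs <;> omega
    have p3 := par_le D (vert x (y + 1))
    rw [v0, v1, v2, v3, xr_one p3, one_xr (by omega)]
    omega

theorem potC_le {A : Arr} {w h : ℕ} (hc : Closed (arrCode A w h)) :
    ∀ n x y : ℕ, x ≤ w → y < h → (h - y) * (w + 1) - x = n →
      potC A w x y ≤ 2 * rem A w h x y Kd.isC := by
  intro n
  induction n using Nat.strong_induction_on with
  | _ n ih =>
    intro x y hx hy hn
    rcases Nat.lt_or_ge x w with hxw | hxw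
    · -- within a row
      have h1 : (h - y) * (w + 1) ≥ w + 1 := Nat.le_mul_of_pos_left _ (by omega)
      have h2 := ih ((h - y) * (w + 1) - (x + 1)) (by omega) (x + 1) y hxw hy rfl
      have h3 := potC_succ hc hxw hy
      rw [rem_succ hxw hy]
      omega
    · have hxw' : x = w := le_antisymm hx hxw
      subst hxw'
      have hl := low_end hc hy
      have r0 : par (preCode A x x y) (vert x y) = 0 := by unfold par; rw [if_neg hl]
      by_cases hy' : y + 1 = h
      · -- the last row
        have ht := top_end hc hy'
        have r1 : ∀ v, par (preCode A x x y) v = 0 := fun v => by unfold par; rw [if_neg (ht v)]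
        have : potC A x x y = 0 := by
          unfold potC
          simp [r1, xr]
        omega
      · -- the end of a row
        have hy1 : y + 1 < h := by omega
        have h1 : (h - y) * (x + 1) = (h - (y + 1)) * (x + 1) + (x + 1) := by
          have : h - y = (h - (y + 1)) + 1 := by omega
          rw [this]; ring
        have h2 := ih ((h - (y + 1)) * (x + 1) - 0) (by omega) 0 (y + 1) (Nat.zero_le _) hy1 rfl
        rw [rem_next]
        refine le_trans (le_of_eq ?_) h2
        have e1 : preCode A x x y = preCode A x 0 (y + 1) := by rw [preCode_row, preCode_zero]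
        have r2 : par (preCode A x 0 (y + 1)) (vert 0 (y + 1 + 1)) = 0 := by
          unfold par; rw [if_neg (by rw [next_zero]; omega)]
        unfold potC
        rw [r0, xr_zero (par_le _ _), r2, zero_xr (par_le _ _), e1]
        have e2 : x - x = 0 := Nat.sub_self x
        rw [e2]
        simp only [List.range_zero, List.map_nil, List.sum_nil, List.range'_zero, Nat.sub_zero]
        have e3 : ∀ f : ℕ → ℕ, ((List.range x).map f).sum + f x =
            f 0 + ((List.range' (0 + 1) x).map f).sum := by
          intro f
          have a1 : ((List.range (x + 1)).map f).sum = ((List.range x).map f).sum + f x := by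
            rw [List.range_succ]; simp
          have a2 : ((List.range (x + 1)).map f).sum = f 0 + ((List.range' (0 + 1) x).map f).sum := by
            rw [List.range_eq_range', List.range'_succ]; simp
          omega
        have e4 := e3 fun j => par (preCode A x 0 (y + 1)) (vert j (y + 1))
        omega

/-- The potential is at most twice the number of the remaining connectors.

Proof. All entries may be replaced by the counts (`opn_iff`). Let `o v = 1` if the count of `v` in
the nodes before the cell is one, otherwise `0`; it is the parity of the count. Backward induction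
over the cells (for example induction over the number of cells from `(x, y)` on). At a cell with a
connector the potential decreases by at most two: only the terms `opn r1 + xr (opn l) (opn r0)` change
(before the tile: `r1 = (x + 1, y)`, `l = (x, y + 1)`, `r0 = (x, y)`; after it: `opn TL + xr (opn TR) (opn BR)`).
At a blank tile and at a crossing it does not change: a blank tile: `opn r0 = 0` since the vertex
`(x, y)` is complete now, `TR` is not open; a crossing: `opn r0 = 1`, `opn TL = 1 - opn l`,
`opn TR = 1`, `opn BR = 1 - opn r1`. At the end of a row the potential of the new state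
is the same: the head of the new upper profile is not open (`next_zero`), the head of the old
lower profile is not open (`low_end`). At the end of the last row it is zero. -/
theorem pot_le {A : Arr} {w h x y : ℕ} (hc : Closed (arrCode A w h)) (hx : x ≤ w) (hy : y < h)
    {Γ : ℕ → Ent} (hΓ : ∀ v, opn (Γ v) = if (ends (preCode A w x y)).count v = 1 then 1 else 0) :
    pot (up Γ x y) (low Γ w x y) ≤ 2 * rem A w h x y Kd.isC := by
  rw [pot_eq hx (fun v => hΓ v)]
  exact potC_le hc _ x y hx hy rfl

end Pool.Agent.MP_204846_gt
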