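import Pool.Agent.Lib_MP_204846_gt.InvDef

/-!
# MP_204846_gt, piece Rename: renaming of strands and crossings in the invariant
-/

namespace Pool.Agent.MP_204846_gt

/-- renaming of the strands by `σ` and of the crossings by `γ` -/
def rnm (σ γ : ℕ → ℕ) : Ent → Ent
  | .z => .z
  | .f => .f
  | .o s c => .o (σ s) (if c = 0 then 0 else 4 * γ (c / 4) + c % 4)

/-- `σ` and `γ` are good for the entries in `l`. -/
structure RnOK (l : LL) (σ γ : ℕ → ℕ) (m : ℕ) : Prop where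
  bs : ∀ s c, Ent.o s c ∈ l → 1 ≤ σ s ∧ σ s ≤ m
  bg : ∀ s c, Ent.o s c ∈ l → c ≠ 0 → 1 ≤ γ (c / 4) ∧ γ (c / 4) ≤ m
  is : ∀ s c s' c', Ent.o s c ∈ l → Ent.o s' c' ∈ l → σ s = σ s' → s = s'
  ig : ∀ s c s' c', Ent.o s c ∈ l → Ent.o s' c' ∈ l → c ≠ 0 → c' ≠ 0 → γ (c / 4) = γ (c' / 4) →
    c / 4 = c' / 4

theorem opn_rnm (σ γ : ℕ → ℕ) (e : Ent) : opn (rnm σ γ e) = opn e := by
  cases e <;> rfl

private theorem rnm_z {σ γ : ℕ → ℕ} {e : Ent} (h : rnm σ γ e = .z) : e = .z := by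
  cases e <;> simp_all [rnm]

private theorem rnm_f {σ γ : ℕ → ℕ} {e : Ent} (h : rnm σ γ e = .f) : e = .f := by
  cases e <;> simp_all [rnm]

private theorem rnm_o {σ γ : ℕ → ℕ} {e : Ent} {s c : ℕ} (h : rnm σ γ e = .o s c) :
    ∃ s' c', e = .o s' c' ∧ s = σ s' ∧ c = if c' = 0 then 0 else 4 * γ (c' / 4) + c' % 4 := by
  cases e with
  | z => simp [rnm] at h
  | f => simp [rnm] at h
  | o s' c' =>
    simp only [rnm, Ent.o.injEq] at h
    exact ⟨s', c', rfl, h.1.symm, h.2.symm⟩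

private theorem rc_zero {γ : ℕ → ℕ} {c : ℕ} (h : c ≠ 0 → 1 ≤ γ (c / 4)) :
    (if c = 0 then 0 else 4 * γ (c / 4) + c % 4) = 0 ↔ c = 0 := by
  by_cases hc : c = 0
  · simp [hc]
  · have := h hc
    rw [if_neg hc]
    omega

/-- Renaming in the invariant; all open entries are in the list `l`. (`ν'` is determined by
`ν' (γ g) = ν g` for the crossings `g = c / 4` which occur in `l`; for `g : ℕ → Bool` in `str`
use `fun s => g (σ s)`; for `G` in `src` use `G'` with `G' (leg s c) = G (leg of the renamed entry)`.) -/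
theorem inv_rename {N : Code} {Γ : ℕ → Ent} (h : Inv N Γ) {l : LL} {σ γ : ℕ → ℕ} {m : ℕ}
    (hr : RnOK l σ γ m) (hl : ∀ v s c, Γ v = .o s c → Ent.o s c ∈ l) :
    Inv N (fun v => rnm σ γ (Γ v)) := by
  classical
  have h0 : ∀ {v s c}, Γ v = .o s c → ((if c = 0 then 0 else 4 * γ (c / 4) + c % 4) = 0 ↔ c = 0) :=
    fun {v s c} hv => rc_zero fun hc => (hr.bg s c (hl v s c hv) hc).1
  refine ⟨?_, ?_, ?_, ?_, ?_, ?_, ?_, ?_, ?_, ?_⟩
  · intro v hv
    exact h.zero v (rnm_z hv)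
  · intro v s c hv
    obtain ⟨s', c', hv', _, _⟩ := rnm_o hv
    exact h.one v s' c' hv'
  · intro v hv
    exact h.two v (rnm_f hv)
  · intro v s c hv hc
    obtain ⟨s', c', hv', _, e⟩ := rnm_o hv
    have hc' : c' ≠ 0 := by
      intro h1
      apply hc
      rw [e, if_pos h1]
    have := (hr.bg s' c' (hl v s' c' hv') hc').1
    rw [e, if_neg hc']
    omega
  · intro v v' s s' c hv hv' hc
    obtain ⟨s1, c1, h1, _, e1⟩ := rnm_o hv
    obtain ⟨s2, c2, h2, _, e2⟩ := rnm_o hv'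
    have hc1 : c1 ≠ 0 := by
      intro h1
      apply hc
      rw [e1, if_pos h1]
    have hc2 : c2 ≠ 0 := by
      intro h1
      apply hc
      rw [e2, if_pos h1]
    rw [if_neg hc1] at e1
    rw [if_neg hc2] at e2
    have e3 : c1 / 4 = c2 / 4 :=
      hr.ig s1 c1 s2 c2 (hl _ _ _ h1) (hl _ _ _ h2) hc1 hc2 (by omega)
    have e4 : c1 = c2 := by omega
    subst e4
    exact h.uniq v v' s1 s2 c1 h1 h2 hc1
  · intro v v' v'' s c c' c'' hv hv' hv''
    obtain ⟨s1, c1, h1, e1, _⟩ := rnm_o hv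
    obtain ⟨s2, c2, h2, e2, _⟩ := rnm_o hv'
    obtain ⟨s3, c3, h3, e3, _⟩ := rnm_o hv''
    have a2 : s1 = s2 := hr.is s1 c1 s2 c2 (hl _ _ _ h1) (hl _ _ _ h2) (by rw [← e1, ← e2])
    have a3 : s1 = s3 := hr.is s1 c1 s3 c3 (hl _ _ _ h1) (hl _ _ _ h3) (by rw [← e1, ← e3])
    subst a2
    subst a3
    exact h.pair v v' v'' s1 c1 c2 c3 h1 h2 h3
  · intro v s c hv
    obtain ⟨s1, c1, h1, e1, e2⟩ := rnm_o hv
    obtain ⟨v', c', hne, h2, h3⟩ := h.mate v s1 c1 h1
    refine ⟨v', if c' = 0 then 0 else 4 * γ (c' / 4) + c' % 4, hne, ?_, ?_⟩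
    · show rnm σ γ (Γ v') = _
      rw [h2, e1]
      rfl
    · rw [h0 h2, h3, e2, h0 h1]
  · intro hN
    obtain ⟨v, s, c, hv⟩ := h.ope hN
    exact ⟨v, σ s, _, by show rnm σ γ (Γ v) = _; rw [hv]; rfl⟩
  · intro g
    obtain ⟨f, h1, h2⟩ := h.str (fun s => g (σ s))
    refine ⟨f, h1, ?_⟩
    intro v s c hv
    obtain ⟨s1, c1, h3, e1, _⟩ := rnm_o hv
    rw [e1]
    exact h2 v s1 c1 h3
  · obtain ⟨ν, h1, h2⟩ := h.src
    let ν' : ℕ → ℕ := fun x => if hx : ∃ c, c ≠ 0 ∧ (∃ s, Ent.o s c ∈ l) ∧ γ (c / 4) = x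
      then ν (hx.choose / 4) else 0
    have hν : ∀ {s c}, Ent.o s c ∈ l → c ≠ 0 → ν' (γ (c / 4)) = ν (c / 4) := by
      intro s c hm hc
      have hx : ∃ c', c' ≠ 0 ∧ (∃ s, Ent.o s c' ∈ l) ∧ γ (c' / 4) = γ (c / 4) :=
        ⟨c, hc, ⟨s, hm⟩, rfl⟩
      have e1 : ν' (γ (c / 4)) = ν (hx.choose / 4) := dif_pos hx
      obtain ⟨a1, ⟨s', a2⟩, a3⟩ := hx.choose_spec
      rw [e1, hr.ig s' hx.choose s c a2 hm a1 hc a3]
    have hq : ∀ {s c : ℕ}, Ent.o s c ∈ l → c ≠ 0 →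
        ν' ((if c = 0 then 0 else 4 * γ (c / 4) + c % 4) / 4) = ν (c / 4) ∧
        (if c = 0 then 0 else 4 * γ (c / 4) + c % 4) % 4 = c % 4 := by
      intro s c hm hc
      rw [if_neg hc]
      constructor
      · rw [← hν hm hc]
        congr 1
        omega
      · omega
    refine ⟨ν', ?_, ?_⟩
    · intro v s e hv he
      obtain ⟨s1, c1, h3, e1, e2⟩ := rnm_o hv
      have hc1 : c1 ≠ 0 := by
        intro h1
        apply he
        rw [e2, if_pos h1]
      rw [e2, (hq (hl _ _ _ h3) hc1).1]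
      exact h1 v s1 c1 h3 hc1
    · intro G
      let G' : ℕ → Bool := fun n => if n % 2 = 0 then G (2 * σ (n / 2)) else
        G (2 * (if n / 2 = 0 then 0 else 4 * γ (n / 2 / 4) + n / 2 % 4) + 1)
      have hG : ∀ {v s c}, Γ v = .o s c → G' (leg s c) =
          G (leg (σ s) (if c = 0 then 0 else 4 * γ (c / 4) + c % 4)) := by
        intro v s c hv
        by_cases hc : c = 0
        · subst hc
          have e1 : (2 * s) % 2 = 0 := by omega
          have e2 : (2 * s) / 2 = s := by omega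
          simp only [leg, G', if_true, e1, e2]
        · have hc' : ¬ (if c = 0 then 0 else 4 * γ (c / 4) + c % 4) = 0 := fun hx => hc ((h0 hv).1 hx)
          have e1 : ¬ (2 * c + 1) % 2 = 0 := by omega
          have e2 : (2 * c + 1) / 2 = c := by omega
          have e3 : leg s c = 2 * c + 1 := if_neg hc
          have e4 : leg (σ s) (if c = 0 then 0 else 4 * γ (c / 4) + c % 4) =
            2 * (if c = 0 then 0 else 4 * γ (c / 4) + c % 4) + 1 := if_neg hc'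
          rw [e3, e4]
          show (if (2 * c + 1) % 2 = 0 then G (2 * σ ((2 * c + 1) / 2)) else
            G (2 * (if (2 * c + 1) / 2 = 0 then 0 else
              4 * γ ((2 * c + 1) / 2 / 4) + (2 * c + 1) / 2 % 4) + 1)) = _
          rw [if_neg e1, e2]
      obtain ⟨f, g1, g2, g3⟩ := h2 G'
      refine ⟨f, ?_, g2, ?_⟩
      · intro v s c hv
        obtain ⟨s1, c1, h3, e1, e2⟩ := rnm_o hv
        rw [g1 v s1 c1 h3, hG h3, e1, e2]
      · intro i a b c d hi q u hu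
        rw [g3 i a b c d hi q u hu]
        constructor
        · rintro ⟨v, s, e, k1, k2, k3, k4, k5⟩
          refine ⟨v, σ s, if e = 0 then 0 else 4 * γ (e / 4) + e % 4, ?_, ?_, ?_, ?_, ?_⟩
          · show rnm σ γ (Γ v) = _
            rw [k1]
            rfl
          · exact fun hx => k2 ((h0 k1).1 hx)
          · rw [(hq (hl _ _ _ k1) k2).1, k3]
          · rw [(hq (hl _ _ _ k1) k2).2, k4]
          · rw [← hG k1, k5]
        · rintro ⟨v, s', e', k1, k2, k3, k4, k5⟩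
          obtain ⟨s, e, k0, e1, e2⟩ := rnm_o k1
          have he : e ≠ 0 := by
            intro hx
            apply k2
            rw [e2, if_pos hx]
          refine ⟨v, s, e, k0, he, ?_, ?_, ?_⟩
          · rw [← (hq (hl _ _ _ k0) he).1, ← e2, k3]
          · rw [← (hq (hl _ _ _ k0) he).2, ← e2, k4]
          · rw [hG k0, ← e1, ← e2, k5]

end Pool.Agent.MP_204846_gt
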