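import Pool.Agent.Lib_MP_204846_gt.InvP
import Pool.Agent.Lib_MP_204846_gt.InvJ
import Pool.Agent.Lib_MP_204846_gt.InvBad
import Pool.Agent.Lib_MP_204846_gt.InvX0
import Pool.Agent.Lib_MP_204846_gt.InvX1
import Pool.Agent.Lib_MP_204846_gt.InvX2
import Pool.Agent.Lib_MP_204846_gt.InvX3

/-!
# MP_204846_gt, piece Tile: placing a tile

Case distinction over the tile `k` and the entries of `tl`, `bl`, `br`. The cases where the result of
`place` is `bad` for a trivial reason: `bl` is open, but the tile does not use `bl` (then the count of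
`bl` is one in a closed code, as `bl` does not occur in `rest`), `bl` is not open, but the tile uses it,
or the tile uses a full vertex. Otherwise the new state is given by one or two of the lemmas
`inv_new`, `inv_ext`, `inv_join` (with `inv_swap` if the order of the two ends is different; for `hh` and
`vv` the nodes are added in the order of `Kd.code`) or by `inv_X0`, ..., `inv_X3`, and `Inv.congr`
(compare the functions at `bl`, `br`, `tr`, `tl` and elsewhere). For `vv` the node `P br tr` is added first;
if the second node closes a strand, then `circ_done` for `N ++ [P br tr]` gives a contradiction since `tr`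
is open. (`mono c e` and `mono e c` agree if the sources are those of open ends.)
-/

namespace Pool.Agent.MP_204846_gt

theorem stp_ext {Γ Γ' : ℕ → Ent} {bl br tr tl : ℕ} {BR TR TL : Ent} {ρ : Ent → Ent}
    (h1 : Γ' bl = bot (Γ bl)) (h2 : Γ' br = BR) (h3 : Γ' tr = TR) (h4 : Γ' tl = TL)
    (h5 : ∀ v, v ≠ bl → v ≠ br → v ≠ tr → v ≠ tl → Γ' v = ρ (Γ v)) (v : ℕ) :
    Γ' v = stp Γ bl br tr tl BR TR TL ρ v := by
  unfold stp
  by_cases a : v = bl
  · rw [if_pos a, a, h1]
  by_cases b : v = br
  · rw [if_neg a, if_pos b, b, h2]
  by_cases c : v = tr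
  · rw [if_neg a, if_neg b, if_pos c, c, h3]
  by_cases d : v = tl
  · rw [if_neg a, if_neg b, if_neg c, if_pos d, d, h4]
  · rw [if_neg a, if_neg b, if_neg c, if_neg d, h5 v a b c d]

theorem Fr.upd {Γ : ℕ → Ent} {i : ℕ} (hi : Fr Γ i) {v : ℕ} {e : Ent}
    (he : ∀ s c, e = .o s c → s ≠ i ∧ c / 4 ≠ i) : Fr (Function.update Γ v e) i := by
  refine ⟨hi.1, ?_⟩
  intro w s c hw
  by_cases h : w = v
  · subst h
    rw [Function.update_self] at hw
    exact he s c hw
  · rw [Function.update_of_ne h] at hw
    exact hi.2 w s c hw

theorem renM_open {s c t d u e : ℕ} : ∃ s' c', renM s c t d (.o u e) = .o s' c' ∧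
    (s' = s ∨ s' = u) ∧ (c' = c ∨ c' = d ∨ c' = e) := by
  unfold renM
  dsimp only
  split_ifs
  · exact ⟨s, d, rfl, Or.inl rfl, Or.inr (Or.inl rfl)⟩
  · exact ⟨s, e, rfl, Or.inl rfl, Or.inr (Or.inr rfl)⟩
  · exact ⟨s, c, rfl, Or.inl rfl, Or.inl rfl⟩
  · exact ⟨s, e, rfl, Or.inl rfl, Or.inr (Or.inr rfl)⟩
  · exact ⟨u, e, rfl, Or.inr rfl, Or.inr (Or.inr rfl)⟩

theorem Fr.join {Γ : ℕ → Ent} {i : ℕ} (hi : Fr Γ i) {u v s c t d : ℕ}
    (hu : Γ u = .o s c) (hv : Γ v = .o t d) :
    Fr (fun w => if w = u ∨ w = v then .f else renM s c t d (Γ w)) i := by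
  refine ⟨hi.1, ?_⟩
  intro w s1 c1 hw
  dsimp only at hw
  split_ifs at hw with h
  rcases hG : Γ w with _ | _ | ⟨s0, x⟩
  · rw [hG] at hw
    simp [renM] at hw
  · rw [hG] at hw
    simp [renM] at hw
  · rw [hG] at hw
    obtain ⟨s', c', h1, h2, h3⟩ := @renM_open s c t d s0 x
    rw [h1] at hw
    injection hw with e1 e2
    subst e1 e2
    obtain ⟨a1, a2⟩ := hi.2 u s c hu
    obtain ⟨b1, b2⟩ := hi.2 v t d hv
    obtain ⟨c1, c2⟩ := hi.2 w s0 x hG
    constructor
    · rcases h2 with rfl | rfl
      · exact a1
      · exact c1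
    · rcases h3 with rfl | rfl | rfl
      · exact a2
      · exact b2
      · exact c2

theorem mono_symm' {N : Code} {Γ : ℕ → Ent} (h : Inv N Γ) {u s c d : ℕ} (hu : Γ u = .o s c)
    (hm : mono c d = true) : mono d c = true := by
  unfold mono at hm ⊢
  rcases hc : Nat.beq c 0 with _ | _
  · have hc0 : c ≠ 0 := by
      rintro rfl
      simp at hc
    have h4 := h.src4 u s c hu hc0
    rw [hc, cond_false] at hm
    rcases hq : Nat.beq (Nat.div c 4) (Nat.div d 4) with _ | _
    · rw [hq, cond_false] at hm
      exact absurd hm (by simp)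
    · rw [hq, cond_true] at hm
      have hq' : c / 4 = d / 4 := Nat.eq_of_beq_eq_true hq
      have hd0 : Nat.beq d 0 = false := by
        rcases hd : Nat.beq d 0 with _ | _
        · rfl
        · have : d = 0 := Nat.eq_of_beq_eq_true hd
          subst this
          omega
      have hq2 : Nat.beq (Nat.div d 4) (Nat.div c 4) = true := by
        show Nat.beq (d / 4) (c / 4) = true
        rw [← hq']
        exact Nat.beq_refl _
      rw [hd0, cond_false, hq2, cond_true]
      have : Nat.add d c = Nat.add c d := Nat.add_comm d c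
      rw [this]
      exact hm
  · rw [hc, cond_true] at hm
    exact absurd hm (by simp)

theorem count_app (N K rest : Code) (v : ℕ) : (ends (N ++ K ++ rest)).count v =
    (ends N).count v + (ends K).count v + (ends rest).count v := by
  simp only [ends, List.flatMap_append, List.count_append]

theorem closed_cnt {D : Code} (h : Closed D) (v : ℕ) : (ends D).count v = 0 ∨ (ends D).count v = 2 := by
  by_cases hv : v ∈ ends D
  · exact Or.inr (h v hv)
  · exact Or.inl (List.count_eq_zero.mpr hv)

theorem renM_z {s c t d : ℕ} : renM s c t d .z = .z := rfl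

theorem renM_f {s c t d : ℕ} : renM s c t d .f = .f := rfl

theorem jn_ok {N : Code} {Γ : ℕ → Ent} {bl br tr tl : ℕ} {rest : Code} {k : Kd} {s c t d : ℕ}
    {v w : Out} (h1 : mono c d = true → False) (h2 : s = t → TileOK N Γ bl br tr tl rest k v)
    (h3 : s ≠ t → TileOK N Γ bl br tr tl rest k w) :
    TileOK N Γ bl br tr tl rest k (jn s c t d v w) := by
  unfold jn
  split_ifs with a b
  · exact h1 a
  · exact h2 b
  · exact h3 b

theorem two_app {N : Code} {a b : Node} : N ++ [a, b] = (N ++ [a]) ++ [b] := by simp

set_option linter.unusedSimpArgs false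

set_option maxHeartbeats 4000000 in
theorem tile_N {N : Code} {Γ : ℕ → Ent} (h : Inv N Γ) {bl br tr tl i : ℕ}
    (hd : [bl, br, tr, tl].Nodup) (hi : Fr Γ i) (htr : Γ tr = .z) (htl : Γ tl ≠ .f) (k : Kd)
    {rest : Code} (hb : Γ bl = .z ∨ Γ bl = .f)
    (hcb : (ends (k.code bl br tr tl)).count bl = 0)
    (hfr : Γ br = .f → (ends (k.code bl br tr tl)).count br = 0)
    (hc : Closed (N ++ k.code bl br tr tl ++ rest))
    (ho : OneComp (N ++ k.code bl br tr tl ++ rest))
    (hn : ¬ Nug (N ++ k.code bl br tr tl ++ rest)) :
    TileOK N Γ bl br tr tl rest k (placeN i k (Γ tl) (Γ br)) := by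
  have hd' := hd
  simp only [List.nodup_cons, List.mem_cons, List.not_mem_nil, or_false, not_or,
    not_false_eq_true, List.nodup_nil, and_true] at hd'
  obtain ⟨⟨n1, n2, n3⟩, ⟨n4, n5⟩, n6⟩ := hd'
  have m1 : br ≠ bl := Ne.symm n1
  have m2 : tr ≠ bl := Ne.symm n2
  have m3 : tl ≠ bl := Ne.symm n3
  have m4 : tr ≠ br := Ne.symm n4
  have m5 : tl ≠ br := Ne.symm n5
  have m6 : tl ≠ tr := Ne.symm n6
  rcases htl' : Γ tl with _ | _ | ⟨u, e⟩
  · rcases hbr : Γ br with _ | _ | ⟨t, d⟩
    · cases k
      case bl =>
        show Inv (N ++ []) _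
        rw [List.append_nil]
        refine h.congr (stp_ext ?_ ?_ ?_ ?_ ?_) <;> rcases hb with hbl | hbl <;> (first
            | (simp [Function.update_apply, bot, hbl, hbr, htl', htr, n1, n2, n3, n4, n5, n6,
                m1, m2, m3, m4, m5, m6, renM_z, renM_f]; done)
            | (intro v a1 a2 a3 a4; simp [Function.update_apply, bot, hbl, hbr, htl', htr, n1, n2, n3,
                n4, n5, n6, m1, m2, m3, m4, m5, m6, a1, a2, a3, a4, renM_z, renM_f]; done))
      case aR =>
        refine (inv_new h n4 hbr htr hi).congr (stp_ext ?_ ?_ ?_ ?_ ?_) <;> rcases hb with hbl | hbl <;> (first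
            | (simp [Function.update_apply, bot, hbl, hbr, htl', htr, n1, n2, n3, n4, n5, n6,
                m1, m2, m3, m4, m5, m6, renM_z, renM_f]; done)
            | (intro v a1 a2 a3 a4; simp [Function.update_apply, bot, hbl, hbr, htl', htr, n1, n2, n3,
                n4, n5, n6, m1, m2, m3, m4, m5, m6, a1, a2, a3, a4, renM_z, renM_f]; done))
      case aT =>
        refine (inv_new h n6 htr htl' hi).congr (stp_ext ?_ ?_ ?_ ?_ ?_) <;> rcases hb with hbl | hbl <;> (first
            | (simp [Function.update_apply, bot, hbl, hbr, htl', htr, n1, n2, n3, n4, n5, n6,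
                m1, m2, m3, m4, m5, m6, renM_z, renM_f]; done)
            | (intro v a1 a2 a3 a4; simp [Function.update_apply, bot, hbl, hbr, htl', htr, n1, n2, n3,
                n4, n5, n6, m1, m2, m3, m4, m5, m6, a1, a2, a3, a4, renM_z, renM_f]; done))
      case dD =>
        refine (inv_new h n5 hbr htl' hi).congr (stp_ext ?_ ?_ ?_ ?_ ?_) <;> rcases hb with hbl | hbl <;> (first
            | (simp [Function.update_apply, bot, hbl, hbr, htl', htr, n1, n2, n3, n4, n5, n6,
                m1, m2, m3, m4, m5, m6, renM_z, renM_f]; done)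
            | (intro v a1 a2 a3 a4; simp [Function.update_apply, bot, hbl, hbr, htl', htr, n1, n2, n3,
                n4, n5, n6, m1, m2, m3, m4, m5, m6, a1, a2, a3, a4, renM_z, renM_f]; done))
      all_goals (exfalso; simp [Kd.code, ends, Node.ends, List.count_cons, n1, n2, n3, n4, n5, n6, m1, m2, m3, m4, m5, m6] at hcb)
    · have hcr := hfr hbr
      cases k
      case bl =>
        show Inv (N ++ []) _
        rw [List.append_nil]
        refine h.congr (stp_ext ?_ ?_ ?_ ?_ ?_) <;> rcases hb with hbl | hbl <;> (first
            | (simp [Function.update_apply, bot, hbl, hbr, htl', htr, n1, n2, n3, n4, n5, n6,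
                m1, m2, m3, m4, m5, m6, renM_z, renM_f]; done)
            | (intro v a1 a2 a3 a4; simp [Function.update_apply, bot, hbl, hbr, htl', htr, n1, n2, n3,
                n4, n5, n6, m1, m2, m3, m4, m5, m6, a1, a2, a3, a4, renM_z, renM_f]; done))
      case aT =>
        refine (inv_new h n6 htr htl' hi).congr (stp_ext ?_ ?_ ?_ ?_ ?_) <;> rcases hb with hbl | hbl <;> (first
            | (simp [Function.update_apply, bot, hbl, hbr, htl', htr, n1, n2, n3, n4, n5, n6,
                m1, m2, m3, m4, m5, m6, renM_z, renM_f]; done)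
            | (intro v a1 a2 a3 a4; simp [Function.update_apply, bot, hbl, hbr, htl', htr, n1, n2, n3,
                n4, n5, n6, m1, m2, m3, m4, m5, m6, a1, a2, a3, a4, renM_z, renM_f]; done))
      case aR => (exfalso; simp [Kd.code, ends, Node.ends, List.count_cons, n1, n2, n3, n4, n5, n6, m1, m2, m3, m4, m5, m6] at hcr)
      case dD => (exfalso; simp [Kd.code, ends, Node.ends, List.count_cons, n1, n2, n3, n4, n5, n6, m1, m2, m3, m4, m5, m6] at hcr)
      all_goals (exfalso; simp [Kd.code, ends, Node.ends, List.count_cons, n1, n2, n3, n4, n5, n6, m1, m2, m3, m4, m5, m6] at hcb)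
    · cases k
      case bl =>
        show Inv (N ++ []) _
        rw [List.append_nil]
        refine h.congr (stp_ext ?_ ?_ ?_ ?_ ?_) <;> rcases hb with hbl | hbl <;> (first
            | (simp [Function.update_apply, bot, hbl, hbr, htl', htr, n1, n2, n3, n4, n5, n6,
                m1, m2, m3, m4, m5, m6, renM_z, renM_f]; done)
            | (intro v a1 a2 a3 a4; simp [Function.update_apply, bot, hbl, hbr, htl', htr, n1, n2, n3,
                n4, n5, n6, m1, m2, m3, m4, m5, m6, a1, a2, a3, a4, renM_z, renM_f]; done))
      case aR =>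
        refine (inv_ext h hbr htr).congr (stp_ext ?_ ?_ ?_ ?_ ?_) <;> rcases hb with hbl | hbl <;> (first
            | (simp [Function.update_apply, bot, hbl, hbr, htl', htr, n1, n2, n3, n4, n5, n6,
                m1, m2, m3, m4, m5, m6, renM_z, renM_f]; done)
            | (intro v a1 a2 a3 a4; simp [Function.update_apply, bot, hbl, hbr, htl', htr, n1, n2, n3,
                n4, n5, n6, m1, m2, m3, m4, m5, m6, a1, a2, a3, a4, renM_z, renM_f]; done))
      case aT =>
        refine (inv_new h n6 htr htl' hi).congr (stp_ext ?_ ?_ ?_ ?_ ?_) <;> rcases hb with hbl | hbl <;> (first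
            | (simp [Function.update_apply, bot, hbl, hbr, htl', htr, n1, n2, n3, n4, n5, n6,
                m1, m2, m3, m4, m5, m6, renM_z, renM_f]; done)
            | (intro v a1 a2 a3 a4; simp [Function.update_apply, bot, hbl, hbr, htl', htr, n1, n2, n3,
                n4, n5, n6, m1, m2, m3, m4, m5, m6, a1, a2, a3, a4, renM_z, renM_f]; done))
      case dD =>
        refine (inv_ext h hbr htl').congr (stp_ext ?_ ?_ ?_ ?_ ?_) <;> rcases hb with hbl | hbl <;> (first
            | (simp [Function.update_apply, bot, hbl, hbr, htl', htr, n1, n2, n3, n4, n5, n6,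
                m1, m2, m3, m4, m5, m6, renM_z, renM_f]; done)
            | (intro v a1 a2 a3 a4; simp [Function.update_apply, bot, hbl, hbr, htl', htr, n1, n2, n3,
                n4, n5, n6, m1, m2, m3, m4, m5, m6, a1, a2, a3, a4, renM_z, renM_f]; done))
      all_goals (exfalso; simp [Kd.code, ends, Node.ends, List.count_cons, n1, n2, n3, n4, n5, n6, m1, m2, m3, m4, m5, m6] at hcb)
  · exact absurd htl' htl
  · rcases hbr : Γ br with _ | _ | ⟨t, d⟩
    · cases k
      case bl =>
        show Inv (N ++ []) _
        rw [List.append_nil]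
        refine h.congr (stp_ext ?_ ?_ ?_ ?_ ?_) <;> rcases hb with hbl | hbl <;> (first
            | (simp [Function.update_apply, bot, hbl, hbr, htl', htr, n1, n2, n3, n4, n5, n6,
                m1, m2, m3, m4, m5, m6, renM_z, renM_f]; done)
            | (intro v a1 a2 a3 a4; simp [Function.update_apply, bot, hbl, hbr, htl', htr, n1, n2, n3,
                n4, n5, n6, m1, m2, m3, m4, m5, m6, a1, a2, a3, a4, renM_z, renM_f]; done))
      case aR =>
        refine (inv_new h n4 hbr htr hi).congr (stp_ext ?_ ?_ ?_ ?_ ?_) <;> rcases hb with hbl | hbl <;> (first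
            | (simp [Function.update_apply, bot, hbl, hbr, htl', htr, n1, n2, n3, n4, n5, n6,
                m1, m2, m3, m4, m5, m6, renM_z, renM_f]; done)
            | (intro v a1 a2 a3 a4; simp [Function.update_apply, bot, hbl, hbr, htl', htr, n1, n2, n3,
                n4, n5, n6, m1, m2, m3, m4, m5, m6, a1, a2, a3, a4, renM_z, renM_f]; done))
      case aT =>
        refine (inv_swap (inv_ext h htl' htr)).congr (stp_ext ?_ ?_ ?_ ?_ ?_) <;> rcases hb with hbl | hbl <;> (first
            | (simp [Function.update_apply, bot, hbl, hbr, htl', htr, n1, n2, n3, n4, n5, n6,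
                m1, m2, m3, m4, m5, m6, renM_z, renM_f]; done)
            | (intro v a1 a2 a3 a4; simp [Function.update_apply, bot, hbl, hbr, htl', htr, n1, n2, n3,
                n4, n5, n6, m1, m2, m3, m4, m5, m6, a1, a2, a3, a4, renM_z, renM_f]; done))
      case dD =>
        refine (inv_swap (inv_ext h htl' hbr)).congr (stp_ext ?_ ?_ ?_ ?_ ?_) <;> rcases hb with hbl | hbl <;> (first
            | (simp [Function.update_apply, bot, hbl, hbr, htl', htr, n1, n2, n3, n4, n5, n6,
                m1, m2, m3, m4, m5, m6, renM_z, renM_f]; done)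
            | (intro v a1 a2 a3 a4; simp [Function.update_apply, bot, hbl, hbr, htl', htr, n1, n2, n3,
                n4, n5, n6, m1, m2, m3, m4, m5, m6, a1, a2, a3, a4, renM_z, renM_f]; done))
      all_goals (exfalso; simp [Kd.code, ends, Node.ends, List.count_cons, n1, n2, n3, n4, n5, n6, m1, m2, m3, m4, m5, m6] at hcb)
    · have hcr := hfr hbr
      cases k
      case bl =>
        show Inv (N ++ []) _
        rw [List.append_nil]
        refine h.congr (stp_ext ?_ ?_ ?_ ?_ ?_) <;> rcases hb with hbl | hbl <;> (first
            | (simp [Function.update_apply, bot, hbl, hbr, htl', htr, n1, n2, n3, n4, n5, n6,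
                m1, m2, m3, m4, m5, m6, renM_z, renM_f]; done)
            | (intro v a1 a2 a3 a4; simp [Function.update_apply, bot, hbl, hbr, htl', htr, n1, n2, n3,
                n4, n5, n6, m1, m2, m3, m4, m5, m6, a1, a2, a3, a4, renM_z, renM_f]; done))
      case aT =>
        refine (inv_swap (inv_ext h htl' htr)).congr (stp_ext ?_ ?_ ?_ ?_ ?_) <;> rcases hb with hbl | hbl <;> (first
            | (simp [Function.update_apply, bot, hbl, hbr, htl', htr, n1, n2, n3, n4, n5, n6,
                m1, m2, m3, m4, m5, m6, renM_z, renM_f]; done)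
            | (intro v a1 a2 a3 a4; simp [Function.update_apply, bot, hbl, hbr, htl', htr, n1, n2, n3,
                n4, n5, n6, m1, m2, m3, m4, m5, m6, a1, a2, a3, a4, renM_z, renM_f]; done))
      case aR => (exfalso; simp [Kd.code, ends, Node.ends, List.count_cons, n1, n2, n3, n4, n5, n6, m1, m2, m3, m4, m5, m6] at hcr)
      case dD => (exfalso; simp [Kd.code, ends, Node.ends, List.count_cons, n1, n2, n3, n4, n5, n6, m1, m2, m3, m4, m5, m6] at hcr)
      all_goals (exfalso; simp [Kd.code, ends, Node.ends, List.count_cons, n1, n2, n3, n4, n5, n6, m1, m2, m3, m4, m5, m6] at hcb)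
    · cases k
      case bl =>
        show Inv (N ++ []) _
        rw [List.append_nil]
        refine h.congr (stp_ext ?_ ?_ ?_ ?_ ?_) <;> rcases hb with hbl | hbl <;> (first
            | (simp [Function.update_apply, bot, hbl, hbr, htl', htr, n1, n2, n3, n4, n5, n6,
                m1, m2, m3, m4, m5, m6, renM_z, renM_f]; done)
            | (intro v a1 a2 a3 a4; simp [Function.update_apply, bot, hbl, hbr, htl', htr, n1, n2, n3,
                n4, n5, n6, m1, m2, m3, m4, m5, m6, a1, a2, a3, a4, renM_z, renM_f]; done))
      case aR =>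
        refine (inv_ext h hbr htr).congr (stp_ext ?_ ?_ ?_ ?_ ?_) <;> rcases hb with hbl | hbl <;> (first
            | (simp [Function.update_apply, bot, hbl, hbr, htl', htr, n1, n2, n3, n4, n5, n6,
                m1, m2, m3, m4, m5, m6, renM_z, renM_f]; done)
            | (intro v a1 a2 a3 a4; simp [Function.update_apply, bot, hbl, hbr, htl', htr, n1, n2, n3,
                n4, n5, n6, m1, m2, m3, m4, m5, m6, a1, a2, a3, a4, renM_z, renM_f]; done))
      case aT =>
        refine (inv_swap (inv_ext h htl' htr)).congr (stp_ext ?_ ?_ ?_ ?_ ?_) <;> rcases hb with hbl | hbl <;> (first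
            | (simp [Function.update_apply, bot, hbl, hbr, htl', htr, n1, n2, n3, n4, n5, n6,
                m1, m2, m3, m4, m5, m6, renM_z, renM_f]; done)
            | (intro v a1 a2 a3 a4; simp [Function.update_apply, bot, hbl, hbr, htl', htr, n1, n2, n3,
                n4, n5, n6, m1, m2, m3, m4, m5, m6, a1, a2, a3, a4, renM_z, renM_f]; done))
      case dD =>
        have e1 : N ++ Kd.dD.code bl br tr tl ++ rest = N ++ .P br tl :: rest := by simp [Kd.code]
        rw [e1] at hc ho hn
        refine jn_ok (fun hm => ?_) (fun hs => ?_) (fun hs => ?_)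
        · exact hn (mono_nug h n5 hbr htl' (mono_symm' h htl' hm) hc)
        · subst hs
          obtain ⟨q1, q2⟩ := circ_done h n5 hbr htl' hc ho
          exact ⟨q1, rfl, fun v s c hv => by rcases q2 v s c hv with rfl | rfl <;> simp⟩
        · refine (inv_swap (inv_join h m5 hs htl' hbr)).congr (stp_ext ?_ ?_ ?_ ?_ ?_) <;>
            rcases hb with hbl | hbl <;> (first
                | (simp [Function.update_apply, bot, hbl, hbr, htl', htr, n1, n2, n3, n4, n5, n6,
                    m1, m2, m3, m4, m5, m6, renM_z, renM_f]; done)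
                | (intro v a1 a2 a3 a4; simp [Function.update_apply, bot, hbl, hbr, htl', htr, n1, n2, n3,
                    n4, n5, n6, m1, m2, m3, m4, m5, m6, a1, a2, a3, a4, renM_z, renM_f]; done))
      all_goals (exfalso; simp [Kd.code, ends, Node.ends, List.count_cons, n1, n2, n3, n4, n5, n6, m1, m2, m3, m4, m5, m6] at hcb)

set_option maxHeartbeats 4000000 in
theorem tile_O {N : Code} {Γ : ℕ → Ent} (h : Inv N Γ) {bl br tr tl i s c : ℕ}
    (hd : [bl, br, tr, tl].Nodup) (hi : Fr Γ i) (htr : Γ tr = .z) (htl : Γ tl ≠ .f) (k : Kd)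
    {rest : Code} (hbl : Γ bl = .o s c)
    (hcb : (ends (k.code bl br tr tl)).count bl = 1)
    (hfr : Γ br = .f → (ends (k.code bl br tr tl)).count br = 0)
    (hc : Closed (N ++ k.code bl br tr tl ++ rest))
    (ho : OneComp (N ++ k.code bl br tr tl ++ rest))
    (hn : ¬ Nug (N ++ k.code bl br tr tl ++ rest)) :
    TileOK N Γ bl br tr tl rest k (placeO i s c k (Γ tl) (Γ br)) := by
  have hd' := hd
  simp only [List.nodup_cons, List.mem_cons, List.not_mem_nil, or_false, not_or,
    not_false_eq_true, List.nodup_nil, and_true] at hd'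
  obtain ⟨⟨n1, n2, n3⟩, ⟨n4, n5⟩, n6⟩ := hd'
  have m1 : br ≠ bl := Ne.symm n1
  have m2 : tr ≠ bl := Ne.symm n2
  have m3 : tl ≠ bl := Ne.symm n3
  have m4 : tr ≠ br := Ne.symm n4
  have m5 : tl ≠ br := Ne.symm n5
  have m6 : tl ≠ tr := Ne.symm n6
  have is1 : s ≠ i := (hi.2 bl s c hbl).1
  have is2 : i ≠ s := Ne.symm is1
  rcases htl' : Γ tl with _ | _ | ⟨u, e⟩
  · rcases hbr : Γ br with _ | _ | ⟨t, d⟩
    · cases k
      case x => exact inv_X0 h hd hi hbl hbr htr htl'
      case aB =>
        refine (inv_ext h hbl hbr).congr (stp_ext ?_ ?_ ?_ ?_ ?_) <;> (first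
            | (simp [Function.update_apply, bot, hbl, hbr, htl', htr, n1, n2, n3, n4, n5, n6,
                m1, m2, m3, m4, m5, m6, renM_z, renM_f]; done)
            | (intro v a1 a2 a3 a4; simp [Function.update_apply, bot, hbl, hbr, htl', htr, n1, n2, n3,
                n4, n5, n6, m1, m2, m3, m4, m5, m6, a1, a2, a3, a4, renM_z, renM_f]; done))
      case aL =>
        refine (inv_swap (inv_ext h hbl htl')).congr (stp_ext ?_ ?_ ?_ ?_ ?_) <;> (first
            | (simp [Function.update_apply, bot, hbl, hbr, htl', htr, n1, n2, n3, n4, n5, n6,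
                m1, m2, m3, m4, m5, m6, renM_z, renM_f]; done)
            | (intro v a1 a2 a3 a4; simp [Function.update_apply, bot, hbl, hbr, htl', htr, n1, n2, n3,
                n4, n5, n6, m1, m2, m3, m4, m5, m6, a1, a2, a3, a4, renM_z, renM_f]; done))
      case dU =>
        refine (inv_ext h hbl htr).congr (stp_ext ?_ ?_ ?_ ?_ ?_) <;> (first
            | (simp [Function.update_apply, bot, hbl, hbr, htl', htr, n1, n2, n3, n4, n5, n6,
                m1, m2, m3, m4, m5, m6, renM_z, renM_f]; done)
            | (intro v a1 a2 a3 a4; simp [Function.update_apply, bot, hbl, hbr, htl', htr, n1, n2, n3,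
                n4, n5, n6, m1, m2, m3, m4, m5, m6, a1, a2, a3, a4, renM_z, renM_f]; done))
      case hh =>
        have h1 := inv_ext h hbl hbr
        have f1 : Fr (Function.update (Function.update Γ bl .f) br (.o s c)) i :=
          (hi.upd (by simp)).upd (by
            intro s' c' hs'
            injection hs' with e1 e2
            subst e1 e2
            exact hi.2 bl s c hbl)
        have h2 := inv_new h1 (u := tr) (v := tl) m6.symm (by (first
            | (simp [Function.update_apply, bot, hbl, hbr, htl', htr, n1, n2, n3, n4, n5, n6,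
                m1, m2, m3, m4, m5, m6, renM_z, renM_f]; done)
            | (intro v a1 a2 a3 a4; simp [Function.update_apply, bot, hbl, hbr, htl', htr, n1, n2, n3,
                n4, n5, n6, m1, m2, m3, m4, m5, m6, a1, a2, a3, a4, renM_z, renM_f]; done))) (by (first
            | (simp [Function.update_apply, bot, hbl, hbr, htl', htr, n1, n2, n3, n4, n5, n6,
                m1, m2, m3, m4, m5, m6, renM_z, renM_f]; done)
            | (intro v a1 a2 a3 a4; simp [Function.update_apply, bot, hbl, hbr, htl', htr, n1, n2, n3,
                n4, n5, n6, m1, m2, m3, m4, m5, m6, a1, a2, a3, a4, renM_z, renM_f]; done))) f1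
        show Inv (N ++ [.P bl br, .P tr tl]) _
        rw [two_app]
        refine h2.congr (stp_ext ?_ ?_ ?_ ?_ ?_) <;> (first
            | (simp [Function.update_apply, bot, hbl, hbr, htl', htr, n1, n2, n3, n4, n5, n6,
                m1, m2, m3, m4, m5, m6, renM_z, renM_f]; done)
            | (intro v a1 a2 a3 a4; simp [Function.update_apply, bot, hbl, hbr, htl', htr, n1, n2, n3,
                n4, n5, n6, m1, m2, m3, m4, m5, m6, a1, a2, a3, a4, renM_z, renM_f]; done))
      case vv =>
        have h1 := inv_new h n4 hbr htr hi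
        have h2 := inv_swap (inv_ext h1 (u := bl) (v := tl) (s := s) (c := c) (by (first
            | (simp [Function.update_apply, bot, hbl, hbr, htl', htr, n1, n2, n3, n4, n5, n6,
                m1, m2, m3, m4, m5, m6, renM_z, renM_f]; done)
            | (intro v a1 a2 a3 a4; simp [Function.update_apply, bot, hbl, hbr, htl', htr, n1, n2, n3,
                n4, n5, n6, m1, m2, m3, m4, m5, m6, a1, a2, a3, a4, renM_z, renM_f]; done))) (by (first
            | (simp [Function.update_apply, bot, hbl, hbr, htl', htr, n1, n2, n3, n4, n5, n6,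
                m1, m2, m3, m4, m5, m6, renM_z, renM_f]; done)
            | (intro v a1 a2 a3 a4; simp [Function.update_apply, bot, hbl, hbr, htl', htr, n1, n2, n3,
                n4, n5, n6, m1, m2, m3, m4, m5, m6, a1, a2, a3, a4, renM_z, renM_f]; done))))
        show Inv (N ++ [.P br tr, .P tl bl]) _
        rw [two_app]
        refine h2.congr (stp_ext ?_ ?_ ?_ ?_ ?_) <;> (first
            | (simp [Function.update_apply, bot, hbl, hbr, htl', htr, n1, n2, n3, n4, n5, n6,
                m1, m2, m3, m4, m5, m6, renM_z, renM_f]; done)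
            | (intro v a1 a2 a3 a4; simp [Function.update_apply, bot, hbl, hbr, htl', htr, n1, n2, n3,
                n4, n5, n6, m1, m2, m3, m4, m5, m6, a1, a2, a3, a4, renM_z, renM_f]; done))
      all_goals (exfalso; simp [Kd.code, ends, Node.ends, List.count_cons, n1, n2, n3, n4, n5, n6, m1, m2, m3, m4, m5, m6] at hcb)
    · have hcr := hfr hbr
      cases k
      case aL =>
        refine (inv_swap (inv_ext h hbl htl')).congr (stp_ext ?_ ?_ ?_ ?_ ?_) <;> (first
            | (simp [Function.update_apply, bot, hbl, hbr, htl', htr, n1, n2, n3, n4, n5, n6,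
                m1, m2, m3, m4, m5, m6, renM_z, renM_f]; done)
            | (intro v a1 a2 a3 a4; simp [Function.update_apply, bot, hbl, hbr, htl', htr, n1, n2, n3,
                n4, n5, n6, m1, m2, m3, m4, m5, m6, a1, a2, a3, a4, renM_z, renM_f]; done))
      case dU =>
        refine (inv_ext h hbl htr).congr (stp_ext ?_ ?_ ?_ ?_ ?_) <;> (first
            | (simp [Function.update_apply, bot, hbl, hbr, htl', htr, n1, n2, n3, n4, n5, n6,
                m1, m2, m3, m4, m5, m6, renM_z, renM_f]; done)
            | (intro v a1 a2 a3 a4; simp [Function.update_apply, bot, hbl, hbr, htl', htr, n1, n2, n3,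
                n4, n5, n6, m1, m2, m3, m4, m5, m6, a1, a2, a3, a4, renM_z, renM_f]; done))
      case bl => (exfalso; simp [Kd.code, ends, Node.ends, List.count_cons, n1, n2, n3, n4, n5, n6, m1, m2, m3, m4, m5, m6] at hcb)
      case aR => (exfalso; simp [Kd.code, ends, Node.ends, List.count_cons, n1, n2, n3, n4, n5, n6, m1, m2, m3, m4, m5, m6] at hcb)
      case aT => (exfalso; simp [Kd.code, ends, Node.ends, List.count_cons, n1, n2, n3, n4, n5, n6, m1, m2, m3, m4, m5, m6] at hcb)
      case dD => (exfalso; simp [Kd.code, ends, Node.ends, List.count_cons, n1, n2, n3, n4, n5, n6, m1, m2, m3, m4, m5, m6] at hcb)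
      all_goals (exfalso; simp [Kd.code, ends, Node.ends, List.count_cons, n1, n2, n3, n4, n5, n6, m1, m2, m3, m4, m5, m6] at hcr)
    · cases k
      case x =>
        have e1 : N ++ Kd.x.code bl br tr tl ++ rest = N ++ .X bl br tr tl :: rest := by simp [Kd.code]
        rw [e1] at hc ho hn
        show TileOK _ _ _ _ _ _ _ _ (if c + d = 0 ∧ s = t then Out.bad else _)
        split_ifs with hx
        · obtain ⟨x1, x2⟩ := hx
          subst x2
          have hc0 : c = 0 := by omega
          have hd0 : d = 0 := by omega
          subst hc0 hd0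
          exact hn (pureX_nug h hd hbl (Or.inl hbr) hc)
        · exact inv_X1 h hd hi hbl hbr htr htl' hx
      case aB =>
        have e1 : N ++ Kd.aB.code bl br tr tl ++ rest = N ++ .P bl br :: rest := by simp [Kd.code]
        rw [e1] at hc ho hn
        refine jn_ok (fun hm => ?_) (fun hs => ?_) (fun hs => ?_)
        · exact hn (mono_nug h n1 hbl hbr hm hc)
        · subst hs
          obtain ⟨q1, q2⟩ := circ_done h n1 hbl hbr hc ho
          exact ⟨q1, rfl, fun v s c hv => by rcases q2 v s c hv with rfl | rfl <;> simp⟩
        · refine (inv_join h n1 hs hbl hbr).congr (stp_ext ?_ ?_ ?_ ?_ ?_) <;> (first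
            | (simp [Function.update_apply, bot, hbl, hbr, htl', htr, n1, n2, n3, n4, n5, n6,
                m1, m2, m3, m4, m5, m6, renM_z, renM_f]; done)
            | (intro v a1 a2 a3 a4; simp [Function.update_apply, bot, hbl, hbr, htl', htr, n1, n2, n3,
                n4, n5, n6, m1, m2, m3, m4, m5, m6, a1, a2, a3, a4, renM_z, renM_f]; done))
      case aL =>
        refine (inv_swap (inv_ext h hbl htl')).congr (stp_ext ?_ ?_ ?_ ?_ ?_) <;> (first
            | (simp [Function.update_apply, bot, hbl, hbr, htl', htr, n1, n2, n3, n4, n5, n6,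
                m1, m2, m3, m4, m5, m6, renM_z, renM_f]; done)
            | (intro v a1 a2 a3 a4; simp [Function.update_apply, bot, hbl, hbr, htl', htr, n1, n2, n3,
                n4, n5, n6, m1, m2, m3, m4, m5, m6, a1, a2, a3, a4, renM_z, renM_f]; done))
      case dU =>
        refine (inv_ext h hbl htr).congr (stp_ext ?_ ?_ ?_ ?_ ?_) <;> (first
            | (simp [Function.update_apply, bot, hbl, hbr, htl', htr, n1, n2, n3, n4, n5, n6,
                m1, m2, m3, m4, m5, m6, renM_z, renM_f]; done)
            | (intro v a1 a2 a3 a4; simp [Function.update_apply, bot, hbl, hbr, htl', htr, n1, n2, n3,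
                n4, n5, n6, m1, m2, m3, m4, m5, m6, a1, a2, a3, a4, renM_z, renM_f]; done))
      case hh =>
        have e1 : N ++ Kd.hh.code bl br tr tl ++ rest = N ++ .P bl br :: (.P tr tl :: rest) := by
          simp [Kd.code]
        rw [e1] at hc ho hn
        refine jn_ok (fun hm => ?_) (fun hs => ?_) (fun hs => ?_)
        · exact hn (mono_nug h n1 hbl hbr hm hc)
        · subst hs
          obtain ⟨q1, q2⟩ := circ_done h n1 hbl hbr hc ho
          exact absurd q1 (by simp)
        · have h1 := inv_join h n1 hs hbl hbr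
          have f1 := hi.join hbl hbr
          have h2 := inv_new h1 (u := tr) (v := tl) m6.symm (by (first
              | (simp [Function.update_apply, bot, hbl, hbr, htl', htr, n1, n2, n3, n4, n5, n6,
                  m1, m2, m3, m4, m5, m6, renM_z, renM_f]; done)
              | (intro v a1 a2 a3 a4; simp [Function.update_apply, bot, hbl, hbr, htl', htr, n1, n2, n3,
                  n4, n5, n6, m1, m2, m3, m4, m5, m6, a1, a2, a3, a4, renM_z, renM_f]; done))) (by (first
              | (simp [Function.update_apply, bot, hbl, hbr, htl', htr, n1, n2, n3, n4, n5, n6,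
                  m1, m2, m3, m4, m5, m6, renM_z, renM_f]; done)
              | (intro v a1 a2 a3 a4; simp [Function.update_apply, bot, hbl, hbr, htl', htr, n1, n2, n3,
                  n4, n5, n6, m1, m2, m3, m4, m5, m6, a1, a2, a3, a4, renM_z, renM_f]; done))) f1
          show Inv (N ++ [.P bl br, .P tr tl]) _
          rw [two_app]
          refine h2.congr (stp_ext ?_ ?_ ?_ ?_ ?_) <;> (first
              | (simp [Function.update_apply, bot, hbl, hbr, htl', htr, n1, n2, n3, n4, n5, n6,
                  m1, m2, m3, m4, m5, m6, renM_z, renM_f]; done)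
              | (intro v a1 a2 a3 a4; simp [Function.update_apply, bot, hbl, hbr, htl', htr, n1, n2, n3,
                  n4, n5, n6, m1, m2, m3, m4, m5, m6, a1, a2, a3, a4, renM_z, renM_f]; done))
      case vv =>
        have h1 := inv_ext h hbr htr
        have h2 := inv_swap (inv_ext h1 (u := bl) (v := tl) (s := s) (c := c) (by (first
            | (simp [Function.update_apply, bot, hbl, hbr, htl', htr, n1, n2, n3, n4, n5, n6,
                m1, m2, m3, m4, m5, m6, renM_z, renM_f]; done)
            | (intro v a1 a2 a3 a4; simp [Function.update_apply, bot, hbl, hbr, htl', htr, n1, n2, n3,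
                n4, n5, n6, m1, m2, m3, m4, m5, m6, a1, a2, a3, a4, renM_z, renM_f]; done))) (by (first
            | (simp [Function.update_apply, bot, hbl, hbr, htl', htr, n1, n2, n3, n4, n5, n6,
                m1, m2, m3, m4, m5, m6, renM_z, renM_f]; done)
            | (intro v a1 a2 a3 a4; simp [Function.update_apply, bot, hbl, hbr, htl', htr, n1, n2, n3,
                n4, n5, n6, m1, m2, m3, m4, m5, m6, a1, a2, a3, a4, renM_z, renM_f]; done))))
        show Inv (N ++ [.P br tr, .P tl bl]) _
        rw [two_app]
        refine h2.congr (stp_ext ?_ ?_ ?_ ?_ ?_) <;> (first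
            | (simp [Function.update_apply, bot, hbl, hbr, htl', htr, n1, n2, n3, n4, n5, n6,
                m1, m2, m3, m4, m5, m6, renM_z, renM_f]; done)
            | (intro v a1 a2 a3 a4; simp [Function.update_apply, bot, hbl, hbr, htl', htr, n1, n2, n3,
                n4, n5, n6, m1, m2, m3, m4, m5, m6, a1, a2, a3, a4, renM_z, renM_f]; done))
      all_goals (exfalso; simp [Kd.code, ends, Node.ends, List.count_cons, n1, n2, n3, n4, n5, n6, m1, m2, m3, m4, m5, m6] at hcb)
  · exact absurd htl' htl
  · have iu1 : u ≠ i := (hi.2 tl u e htl').1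
    have iu2 : i ≠ u := Ne.symm iu1
    rcases hbr : Γ br with _ | _ | ⟨t, d⟩
    · cases k
      case x =>
        have e1 : N ++ Kd.x.code bl br tr tl ++ rest = N ++ .X bl br tr tl :: rest := by simp [Kd.code]
        rw [e1] at hc ho hn
        show TileOK _ _ _ _ _ _ _ _ (if c + e = 0 ∧ s = u then Out.bad else _)
        split_ifs with hx
        · obtain ⟨x1, x2⟩ := hx
          subst x2
          have hc0 : c = 0 := by omega
          have hd0 : e = 0 := by omega
          subst hc0 hd0
          exact hn (pureX_nug h hd hbl (Or.inr htl') hc)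
        · exact inv_X2 h hd hi hbl hbr htr htl' hx
      case aB =>
        refine (inv_ext h hbl hbr).congr (stp_ext ?_ ?_ ?_ ?_ ?_) <;> (first
            | (simp [Function.update_apply, bot, hbl, hbr, htl', htr, n1, n2, n3, n4, n5, n6,
                m1, m2, m3, m4, m5, m6, renM_z, renM_f]; done)
            | (intro v a1 a2 a3 a4; simp [Function.update_apply, bot, hbl, hbr, htl', htr, n1, n2, n3,
                n4, n5, n6, m1, m2, m3, m4, m5, m6, a1, a2, a3, a4, renM_z, renM_f]; done))
      case aL =>
        have e1 : N ++ Kd.aL.code bl br tr tl ++ rest = N ++ .P tl bl :: rest := by simp [Kd.code]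
        rw [e1] at hc ho hn
        refine jn_ok (fun hm => ?_) (fun hs => ?_) (fun hs => ?_)
        · exact hn (mono_nug h m3 htl' hbl (mono_symm' h hbl hm) hc)
        · subst hs
          obtain ⟨q1, q2⟩ := circ_done h m3 htl' hbl hc ho
          exact ⟨q1, rfl, fun v s c hv => by rcases q2 v s c hv with rfl | rfl <;> simp⟩
        · refine (inv_swap (inv_join h n3 hs hbl htl')).congr (stp_ext ?_ ?_ ?_ ?_ ?_) <;> (first
            | (simp [Function.update_apply, bot, hbl, hbr, htl', htr, n1, n2, n3, n4, n5, n6,
                m1, m2, m3, m4, m5, m6, renM_z, renM_f]; done)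
            | (intro v a1 a2 a3 a4; simp [Function.update_apply, bot, hbl, hbr, htl', htr, n1, n2, n3,
                n4, n5, n6, m1, m2, m3, m4, m5, m6, a1, a2, a3, a4, renM_z, renM_f]; done))
      case dU =>
        refine (inv_ext h hbl htr).congr (stp_ext ?_ ?_ ?_ ?_ ?_) <;> (first
            | (simp [Function.update_apply, bot, hbl, hbr, htl', htr, n1, n2, n3, n4, n5, n6,
                m1, m2, m3, m4, m5, m6, renM_z, renM_f]; done)
            | (intro v a1 a2 a3 a4; simp [Function.update_apply, bot, hbl, hbr, htl', htr, n1, n2, n3,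
                n4, n5, n6, m1, m2, m3, m4, m5, m6, a1, a2, a3, a4, renM_z, renM_f]; done))
      case hh =>
        have h1 := inv_ext h hbl hbr
        have h2 := inv_swap (inv_ext h1 (u := tl) (v := tr) (s := u) (c := e) (by (first
            | (simp [Function.update_apply, bot, hbl, hbr, htl', htr, n1, n2, n3, n4, n5, n6,
                m1, m2, m3, m4, m5, m6, renM_z, renM_f]; done)
            | (intro v a1 a2 a3 a4; simp [Function.update_apply, bot, hbl, hbr, htl', htr, n1, n2, n3,
                n4, n5, n6, m1, m2, m3, m4, m5, m6, a1, a2, a3, a4, renM_z, renM_f]; done))) (by (first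
            | (simp [Function.update_apply, bot, hbl, hbr, htl', htr, n1, n2, n3, n4, n5, n6,
                m1, m2, m3, m4, m5, m6, renM_z, renM_f]; done)
            | (intro v a1 a2 a3 a4; simp [Function.update_apply, bot, hbl, hbr, htl', htr, n1, n2, n3,
                n4, n5, n6, m1, m2, m3, m4, m5, m6, a1, a2, a3, a4, renM_z, renM_f]; done))))
        show Inv (N ++ [.P bl br, .P tr tl]) _
        rw [two_app]
        refine h2.congr (stp_ext ?_ ?_ ?_ ?_ ?_) <;> (first
            | (simp [Function.update_apply, bot, hbl, hbr, htl', htr, n1, n2, n3, n4, n5, n6,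
                m1, m2, m3, m4, m5, m6, renM_z, renM_f]; done)
            | (intro v a1 a2 a3 a4; simp [Function.update_apply, bot, hbl, hbr, htl', htr, n1, n2, n3,
                n4, n5, n6, m1, m2, m3, m4, m5, m6, a1, a2, a3, a4, renM_z, renM_f]; done))
      case vv =>
        have e1 : N ++ Kd.vv.code bl br tr tl ++ rest = (N ++ [.P br tr]) ++ .P tl bl :: rest := by
          simp [Kd.code]
        rw [e1] at hc ho hn
        have h1 := inv_new h n4 hbr htr hi
        have g1 : Function.update (Function.update Γ br (.o i 0)) tr (.o i 0) tl = .o u e := by (first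
            | (simp [Function.update_apply, bot, hbl, hbr, htl', htr, n1, n2, n3, n4, n5, n6,
                m1, m2, m3, m4, m5, m6, renM_z, renM_f]; done)
            | (intro v a1 a2 a3 a4; simp [Function.update_apply, bot, hbl, hbr, htl', htr, n1, n2, n3,
                n4, n5, n6, m1, m2, m3, m4, m5, m6, a1, a2, a3, a4, renM_z, renM_f]; done))
        have g2 : Function.update (Function.update Γ br (.o i 0)) tr (.o i 0) bl = .o s c := by (first
            | (simp [Function.update_apply, bot, hbl, hbr, htl', htr, n1, n2, n3, n4, n5, n6,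
                m1, m2, m3, m4, m5, m6, renM_z, renM_f]; done)
            | (intro v a1 a2 a3 a4; simp [Function.update_apply, bot, hbl, hbr, htl', htr, n1, n2, n3,
                n4, n5, n6, m1, m2, m3, m4, m5, m6, a1, a2, a3, a4, renM_z, renM_f]; done))
        have g3 : Function.update (Function.update Γ br (.o i 0)) tr (.o i 0) tr = .o i 0 := by (first
            | (simp [Function.update_apply, bot, hbl, hbr, htl', htr, n1, n2, n3, n4, n5, n6,
                m1, m2, m3, m4, m5, m6, renM_z, renM_f]; done)
            | (intro v a1 a2 a3 a4; simp [Function.update_apply, bot, hbl, hbr, htl', htr, n1, n2, n3,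
                n4, n5, n6, m1, m2, m3, m4, m5, m6, a1, a2, a3, a4, renM_z, renM_f]; done))
        refine jn_ok (fun hm => ?_) (fun hs => ?_) (fun hs => ?_)
        · exact hn (mono_nug h1 m3 g1 g2 (mono_symm' h hbl hm) hc)
        · subst hs
          obtain ⟨q1, q2⟩ := circ_done h1 m3 g1 g2 hc ho
          rcases q2 tr i 0 g3 with q | q
          · exact absurd q m6.symm
          · exact absurd q m2
        · have h2 := inv_swap (inv_join h1 n3 hs g2 g1)
          show Inv (N ++ [.P br tr, .P tl bl]) _
          rw [two_app]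
          have ren1 : renM s c u e (.o i 0) = .o i 0 := by simp [renM, is2, iu2]
          refine h2.congr (stp_ext ?_ ?_ ?_ ?_ ?_) <;>
            first
            | (first
                | (simp [Function.update_apply, bot, hbl, hbr, htl', htr, n1, n2, n3, n4, n5, n6,
                    m1, m2, m3, m4, m5, m6, renM_z, renM_f]; done)
                | (intro v a1 a2 a3 a4; simp [Function.update_apply, bot, hbl, hbr, htl', htr, n1, n2, n3,
                    n4, n5, n6, m1, m2, m3, m4, m5, m6, a1, a2, a3, a4, renM_z, renM_f]; done))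
            | simp [n1, n2, n3, n4, n5, n6, m1, m2, m3, m4, m5, m6, ren1]
      all_goals (exfalso; simp [Kd.code, ends, Node.ends, List.count_cons, n1, n2, n3, n4, n5, n6, m1, m2, m3, m4, m5, m6] at hcb)
    · have hcr := hfr hbr
      cases k
      case aL =>
        have e1 : N ++ Kd.aL.code bl br tr tl ++ rest = N ++ .P tl bl :: rest := by simp [Kd.code]
        rw [e1] at hc ho hn
        refine jn_ok (fun hm => ?_) (fun hs => ?_) (fun hs => ?_)
        · exact hn (mono_nug h m3 htl' hbl (mono_symm' h hbl hm) hc)
        · subst hs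
          obtain ⟨q1, q2⟩ := circ_done h m3 htl' hbl hc ho
          exact ⟨q1, rfl, fun v s c hv => by rcases q2 v s c hv with rfl | rfl <;> simp⟩
        · refine (inv_swap (inv_join h n3 hs hbl htl')).congr (stp_ext ?_ ?_ ?_ ?_ ?_) <;> (first
            | (simp [Function.update_apply, bot, hbl, hbr, htl', htr, n1, n2, n3, n4, n5, n6,
                m1, m2, m3, m4, m5, m6, renM_z, renM_f]; done)
            | (intro v a1 a2 a3 a4; simp [Function.update_apply, bot, hbl, hbr, htl', htr, n1, n2, n3,
                n4, n5, n6, m1, m2, m3, m4, m5, m6, a1, a2, a3, a4, renM_z, renM_f]; done))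
      case dU =>
        refine (inv_ext h hbl htr).congr (stp_ext ?_ ?_ ?_ ?_ ?_) <;> (first
            | (simp [Function.update_apply, bot, hbl, hbr, htl', htr, n1, n2, n3, n4, n5, n6,
                m1, m2, m3, m4, m5, m6, renM_z, renM_f]; done)
            | (intro v a1 a2 a3 a4; simp [Function.update_apply, bot, hbl, hbr, htl', htr, n1, n2, n3,
                n4, n5, n6, m1, m2, m3, m4, m5, m6, a1, a2, a3, a4, renM_z, renM_f]; done))
      case bl => (exfalso; simp [Kd.code, ends, Node.ends, List.count_cons, n1, n2, n3, n4, n5, n6, m1, m2, m3, m4, m5, m6] at hcb)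
      case aR => (exfalso; simp [Kd.code, ends, Node.ends, List.count_cons, n1, n2, n3, n4, n5, n6, m1, m2, m3, m4, m5, m6] at hcb)
      case aT => (exfalso; simp [Kd.code, ends, Node.ends, List.count_cons, n1, n2, n3, n4, n5, n6, m1, m2, m3, m4, m5, m6] at hcb)
      case dD => (exfalso; simp [Kd.code, ends, Node.ends, List.count_cons, n1, n2, n3, n4, n5, n6, m1, m2, m3, m4, m5, m6] at hcb)
      all_goals (exfalso; simp [Kd.code, ends, Node.ends, List.count_cons, n1, n2, n3, n4, n5, n6, m1, m2, m3, m4, m5, m6] at hcr)
    · cases k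
      case x =>
        have e1 : N ++ Kd.x.code bl br tr tl ++ rest = N ++ .X bl br tr tl :: rest := by simp [Kd.code]
        rw [e1] at hc ho hn
        show TileOK _ _ _ _ _ _ _ _
          (if (c = 0 ∧ ((d = 0 ∧ s = t) ∨ (e = 0 ∧ s = u))) ∨ u = t then Out.bad else _)
        split_ifs with hx
        · rcases hx with ⟨rfl, ⟨rfl, rfl⟩ | ⟨rfl, rfl⟩⟩ | rfl
          · exact hn (pureX_nug h hd hbl (Or.inl hbr) hc)
          · exact hn (pureX_nug h hd hbl (Or.inr htl') hc)
          · exact circX_bad h hd hbr htl' htr hc ho
        · rw [not_or] at hx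
          exact inv_X3 h hd hi hbl hbr htr htl' hx.1 hx.2
      case aB =>
        have e1 : N ++ Kd.aB.code bl br tr tl ++ rest = N ++ .P bl br :: rest := by simp [Kd.code]
        rw [e1] at hc ho hn
        refine jn_ok (fun hm => ?_) (fun hs => ?_) (fun hs => ?_)
        · exact hn (mono_nug h n1 hbl hbr hm hc)
        · subst hs
          obtain ⟨q1, q2⟩ := circ_done h n1 hbl hbr hc ho
          rcases q2 tl u e htl' with q | q
          · exact absurd q m3
          · exact absurd q m5
        · refine (inv_join h n1 hs hbl hbr).congr (stp_ext ?_ ?_ ?_ ?_ ?_) <;> (first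
            | (simp [Function.update_apply, bot, hbl, hbr, htl', htr, n1, n2, n3, n4, n5, n6,
                m1, m2, m3, m4, m5, m6, renM_z, renM_f]; done)
            | (intro v a1 a2 a3 a4; simp [Function.update_apply, bot, hbl, hbr, htl', htr, n1, n2, n3,
                n4, n5, n6, m1, m2, m3, m4, m5, m6, a1, a2, a3, a4, renM_z, renM_f]; done))
      case aL =>
        have e1 : N ++ Kd.aL.code bl br tr tl ++ rest = N ++ .P tl bl :: rest := by simp [Kd.code]
        rw [e1] at hc ho hn
        refine jn_ok (fun hm => ?_) (fun hs => ?_) (fun hs => ?_)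
        · exact hn (mono_nug h m3 htl' hbl (mono_symm' h hbl hm) hc)
        · subst hs
          obtain ⟨q1, q2⟩ := circ_done h m3 htl' hbl hc ho
          rcases q2 br t d hbr with q | q
          · exact absurd q n5
          · exact absurd q m1
        · refine (inv_swap (inv_join h n3 hs hbl htl')).congr (stp_ext ?_ ?_ ?_ ?_ ?_) <;> (first
            | (simp [Function.update_apply, bot, hbl, hbr, htl', htr, n1, n2, n3, n4, n5, n6,
                m1, m2, m3, m4, m5, m6, renM_z, renM_f]; done)
            | (intro v a1 a2 a3 a4; simp [Function.update_apply, bot, hbl, hbr, htl', htr, n1, n2, n3,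
                n4, n5, n6, m1, m2, m3, m4, m5, m6, a1, a2, a3, a4, renM_z, renM_f]; done))
      case dU =>
        refine (inv_ext h hbl htr).congr (stp_ext ?_ ?_ ?_ ?_ ?_) <;> (first
            | (simp [Function.update_apply, bot, hbl, hbr, htl', htr, n1, n2, n3, n4, n5, n6,
                m1, m2, m3, m4, m5, m6, renM_z, renM_f]; done)
            | (intro v a1 a2 a3 a4; simp [Function.update_apply, bot, hbl, hbr, htl', htr, n1, n2, n3,
                n4, n5, n6, m1, m2, m3, m4, m5, m6, a1, a2, a3, a4, renM_z, renM_f]; done))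
      case hh =>
        have e1 : N ++ Kd.hh.code bl br tr tl ++ rest = N ++ .P bl br :: (.P tr tl :: rest) := by
          simp [Kd.code]
        rw [e1] at hc ho hn
        refine jn_ok (fun hm => ?_) (fun hs => ?_) (fun hs => ?_)
        · exact hn (mono_nug h n1 hbl hbr hm hc)
        · subst hs
          obtain ⟨q1, q2⟩ := circ_done h n1 hbl hbr hc ho
          exact absurd q1 (by simp)
        · have h1 := inv_join h n1 hs hbl hbr
          obtain ⟨s', c', hr', -, -⟩ := @renM_open s c t d u e
          have h2 := inv_swap (inv_ext h1 (u := tl) (v := tr) (s := s') (c := c')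
            (by simp [m3, m5, htl', hr']) (by (first
                | (simp [Function.update_apply, bot, hbl, hbr, htl', htr, n1, n2, n3, n4, n5, n6,
                    m1, m2, m3, m4, m5, m6, renM_z, renM_f]; done)
                | (intro v a1 a2 a3 a4; simp [Function.update_apply, bot, hbl, hbr, htl', htr, n1, n2, n3,
                    n4, n5, n6, m1, m2, m3, m4, m5, m6, a1, a2, a3, a4, renM_z, renM_f]; done))))
          show Inv (N ++ [.P bl br, .P tr tl]) (stp Γ bl br tr tl .f (renM s c t d (.o u e)) .f _)
          rw [two_app, hr']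
          refine h2.congr (stp_ext ?_ ?_ ?_ ?_ ?_) <;> (first
              | (simp [Function.update_apply, bot, hbl, hbr, htl', htr, n1, n2, n3, n4, n5, n6,
                  m1, m2, m3, m4, m5, m6, renM_z, renM_f]; done)
              | (intro v a1 a2 a3 a4; simp [Function.update_apply, bot, hbl, hbr, htl', htr, n1, n2, n3,
                  n4, n5, n6, m1, m2, m3, m4, m5, m6, a1, a2, a3, a4, renM_z, renM_f]; done))
      case vv =>
        have e1 : N ++ Kd.vv.code bl br tr tl ++ rest = (N ++ [.P br tr]) ++ .P tl bl :: rest := by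
          simp [Kd.code]
        rw [e1] at hc ho hn
        have h1 := inv_ext h hbr htr
        have g1 : Function.update (Function.update Γ br .f) tr (.o t d) tl = .o u e := by (first
            | (simp [Function.update_apply, bot, hbl, hbr, htl', htr, n1, n2, n3, n4, n5, n6,
                m1, m2, m3, m4, m5, m6, renM_z, renM_f]; done)
            | (intro v a1 a2 a3 a4; simp [Function.update_apply, bot, hbl, hbr, htl', htr, n1, n2, n3,
                n4, n5, n6, m1, m2, m3, m4, m5, m6, a1, a2, a3, a4, renM_z, renM_f]; done))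
        have g2 : Function.update (Function.update Γ br .f) tr (.o t d) bl = .o s c := by (first
            | (simp [Function.update_apply, bot, hbl, hbr, htl', htr, n1, n2, n3, n4, n5, n6,
                m1, m2, m3, m4, m5, m6, renM_z, renM_f]; done)
            | (intro v a1 a2 a3 a4; simp [Function.update_apply, bot, hbl, hbr, htl', htr, n1, n2, n3,
                n4, n5, n6, m1, m2, m3, m4, m5, m6, a1, a2, a3, a4, renM_z, renM_f]; done))
        have g3 : Function.update (Function.update Γ br .f) tr (.o t d) tr = .o t d := by (first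
            | (simp [Function.update_apply, bot, hbl, hbr, htl', htr, n1, n2, n3, n4, n5, n6,
                m1, m2, m3, m4, m5, m6, renM_z, renM_f]; done)
            | (intro v a1 a2 a3 a4; simp [Function.update_apply, bot, hbl, hbr, htl', htr, n1, n2, n3,
                n4, n5, n6, m1, m2, m3, m4, m5, m6, a1, a2, a3, a4, renM_z, renM_f]; done))
        refine jn_ok (fun hm => ?_) (fun hs => ?_) (fun hs => ?_)
        · exact hn (mono_nug h1 m3 g1 g2 (mono_symm' h hbl hm) hc)
        · subst hs
          obtain ⟨q1, q2⟩ := circ_done h1 m3 g1 g2 hc ho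
          rcases q2 tr t d g3 with q | q
          · exact absurd q m6.symm
          · exact absurd q m2
        · have h2 := inv_swap (inv_join h1 n3 hs g2 g1)
          show Inv (N ++ [.P br tr, .P tl bl]) _
          rw [two_app]
          refine h2.congr (stp_ext ?_ ?_ ?_ ?_ ?_) <;> (first
              | (simp [Function.update_apply, bot, hbl, hbr, htl', htr, n1, n2, n3, n4, n5, n6,
                  m1, m2, m3, m4, m5, m6, renM_z, renM_f]; done)
              | (intro v a1 a2 a3 a4; simp [Function.update_apply, bot, hbl, hbr, htl', htr, n1, n2, n3,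
                  n4, n5, n6, m1, m2, m3, m4, m5, m6, a1, a2, a3, a4, renM_z, renM_f]; done))
      all_goals (exfalso; simp [Kd.code, ends, Node.ends, List.count_cons, n1, n2, n3, n4, n5, n6, m1, m2, m3, m4, m5, m6] at hcb)

theorem tile_sound {N : Code} {Γ : ℕ → Ent} (h : Inv N Γ) {bl br tr tl i : ℕ}
    (hd : [bl, br, tr, tl].Nodup) (hi : Fr Γ i) (htr : Γ tr = .z) (htl : Γ tl ≠ .f) (k : Kd)
    {rest : Code} (hr : bl ∉ ends rest) (hc : Closed (N ++ k.code bl br tr tl ++ rest))
    (ho : OneComp (N ++ k.code bl br tr tl ++ rest))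
    (hn : ¬ Nug (N ++ k.code bl br tr tl ++ rest)) :
    TileOK N Γ bl br tr tl rest k (place i k (Γ tl) (Γ bl) (Γ br)) := by
  have kbl := closed_cnt hc bl
  have kbr := closed_cnt hc br
  rw [count_app] at kbl kbr
  have hr0 : (ends rest).count bl = 0 := List.count_eq_zero.mpr hr
  rw [hr0] at kbl
  have hfr : Γ br = .f → (ends (k.code bl br tr tl)).count br = 0 := by
    intro hf
    rw [h.two br hf] at kbr
    omega
  have hle : (ends (k.code bl br tr tl)).count bl ≤ 1 := by
    have hd' := hd
    simp only [List.nodup_cons, List.mem_cons, List.not_mem_nil, or_false, not_or,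
      not_false_eq_true, List.nodup_nil, and_true] at hd'
    obtain ⟨⟨n1, n2, n3⟩, ⟨n4, n5⟩, n6⟩ := hd'
    cases k <;> simp [Kd.code, ends, Node.ends, Ne.symm n1, Ne.symm n2, Ne.symm n3]
  rcases hbl : Γ bl with _ | _ | ⟨s, c⟩
  · rw [h.zero bl hbl] at kbl
    exact tile_N h hd hi htr htl k (Or.inl hbl) (by omega) hfr hc ho hn
  · rw [h.two bl hbl] at kbl
    exact tile_N h hd hi htr htl k (Or.inr hbl) (by omega) hfr hc ho hn
  · rw [h.one bl s c hbl] at kbl
    exact tile_O h hd hi htr htl k hbl (by omega) hfr hc ho hn

end Pool.Agent.MP_204846_gt
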