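import Pool.Agent.Lib_MP_204846_gt.BudL
import Pool.Agent.Lib_MP_204846_gt.Canon
import Pool.Agent.Lib_MP_204846_gt.PlaceNm
import Pool.Agent.Lib_MP_204846_gt.Tile

/-!
# MP_204846_gt, Row: the search in one row
-/

namespace Pool.Agent.MP_204846_gt

theorem opn_o {e : Ent} (h : opn e ≠ 0) : ∃ s c, e = .o s c := by
  cases e with
  | z => exact absurd rfl h
  | f => exact absurd rfl h
  | o s c => exact ⟨s, c, rfl⟩

theorem opn_zero_iff {e : Ent} : opn e = 0 ↔ ∀ s c, e ≠ .o s c := by
  cases e <;> simp [opn]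

theorem cnt_zero {l : LL} (h : cl l = true) : cnt l = 0 := by
  rw [cl_iff] at h
  unfold cnt
  apply List.sum_eq_zero
  intro n hn
  obtain ⟨e, he, rfl⟩ := List.mem_map.mp hn
  exact h e he

theorem names_iff {Γ : ℕ → Ent} {w m : ℕ} : Names Γ w m ↔ ∀ v, NmOK w m (Γ v) :=
  ⟨fun h v s c hv => h v s c hv, fun h v s c hv => h v s c hv⟩

theorem NmOK.mono {w m m' : ℕ} {e : Ent} (h : NmOK w m e) (hm : m' ≤ m) : NmOK w m' e := by
  intro s c he
  obtain ⟨h1, h2⟩ := h s c he
  omega

theorem names_stp {Γ : ℕ → Ent} {w m bl br tr tl : ℕ} {BR TR TL : Ent} {ρ : Ent → Ent}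
    (hBR : NmOK w m BR) (hTR : NmOK w m TR) (hTL : NmOK w m TL)
    (hρ : ∀ e, NmOK w m e → NmOK w m (ρ e)) (hΓ : ∀ v, NmOK w m (Γ v)) :
    ∀ v, NmOK w m (stp Γ bl br tr tl BR TR TL ρ v) := by
  intro v
  unfold stp
  split_ifs
  · intro s c hs
    cases hb : Γ bl with
    | z => rw [hb] at hs; simp [bot] at hs
    | f => rw [hb] at hs; simp [bot] at hs
    | o s c => rw [hb] at hs; simp [bot] at hs
  · exact hBR
  · exact hTR
  · exact hTL
  · exact hρ _ (hΓ v)

theorem rem_fin {A : Arr} {w h x y : ℕ} (hr : restCode A w h x y = []) (hC : (A x y).isC = true) :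
    rem A w h x y Kd.isX = 0 := by
  unfold rem
  rw [Finset.card_eq_zero, Finset.filter_eq_empty_iff]
  rintro ⟨a, b⟩ hab ⟨h1, h2⟩
  simp only [Finset.mem_product, Finset.mem_range] at hab h1 h2
  have h3 : (a = x ∧ b = y) ∨ (y < b ∨ (b = y ∧ x < a)) := by omega
  rcases h3 with ⟨rfl, rfl⟩ | h3
  · revert hC h1
    cases A a b <;> simp [Kd.isC, Kd.isX]
  · rw [rest_nil hr a b hab.1 hab.2 h3] at h1
    simp [Kd.isX] at h1

theorem row_sound {A : Arr} {w h top : ℕ} (hS : Std A w h) {y : ℕ} (hy : y < h)
    (fin : List Kd → Bool) (nx : List Kd → LL → ℕ → Bool) (n : ℕ) :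
    ∀ (x : ℕ) (T : List Kd) (L R : LL) (P : ℕ), x + n = w → St A w h top x y T L R P →
      rowM fin nx (w + 20 - x) T L R P = true →
      (∃ x', x' < w ∧ restCode A w h x' y = [] ∧ fin (hist A w (x' + 1) y) = true) ∨
      (∃ T' L' R' P', St A w h top w y T' L' R' P' ∧ nx T' L' P' = true) := by
  have hcl := hS.good.good.closed
  have hone := hS.good.good.oneComp
  have hnug := hS.good.good.nug
  have hw15 : w ≤ 15 := hS.wh.trans hS.h15
  induction n with
  | zero =>
    intro x T L R P hx hSt hrow
    obtain rfl : x = w := by omega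
    obtain ⟨Γ, hI, hL, hR, hNm⟩ := hSt.ex
    have hR' : R = [Γ (vert x y)] := by
      rw [hR, low_cons Γ y le_rfl, low_end_nil]
    have hL' := hL
    rw [up_cons] at hL'
    have hop : opn (Γ (vert x y)) = 0 := by
      rw [opn_iff hI, if_neg (low_end hcl hy)]
    have hf : x + 20 - x = 19 + 1 := by omega
    rw [hf, hR', hL', rowM_end _ _ _ _ _ _ _ _ hop, ← hL'] at hrow
    exact Or.inr ⟨T, L, R, P, hSt, hrow⟩
  | succ n ih =>
    intro x T L R P hx hSt hrow
    have hxw : x < w := by omega
    have hSt' := hSt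
    obtain ⟨Γ, hI, hL, hR, hNm⟩ := hSt.ex
    set i := w + 20 - x with hi
    have hfuel : i = (w + 20 - (x + 1)) + 1 := by omega
    rw [up_cons] at hL
    rw [low_cons Γ y hxw.le, low_cons Γ y (show x + 1 ≤ w by omega)] at hR
    set L0 : LL := ((List.range x).map fun j => Γ (vert j (y + 1))).reverse with hL0
    set R0 : LL := low Γ w (x + 1 + 1) y with hR0
    rw [hfuel, hL, hR, rowM_cell, ← hfuel] at hrow
    have hcell := cell_spec _ _ _ _ _ _ _ _ _ hrow (A x y)
    have hsplit := arrCode_split (A := A) hxw hy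
    have hFr : Fr Γ i := by
      refine ⟨by omega, fun v s c hv => ?_⟩
      obtain ⟨h1, h2⟩ := hNm v s c hv
      omega
    have htr : Γ (vert (x + 1) (y + 1)) = .z := by
      cases hv : Γ (vert (x + 1) (y + 1)) with
      | z => rfl
      | f => exact absurd (hI.two _ hv) (by rw [tr_fresh]; omega)
      | o s c => exact absurd (hI.one _ _ _ hv) (by rw [tr_fresh]; omega)
    have htl : Γ (vert x (y + 1)) ≠ .f := by
      intro hv
      have h1 := hI.two _ hv
      have h2 := tl_count A w x y
      omega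
    have htile := tile_sound hI (corners_nodup x y) hFr htr htl (A x y)
      (rest := restCode A w h x y) (bl_rest A w h x y)
      (by have := hcl; rw [hsplit] at this; exact this)
      (by have := hone; rw [hsplit] at this; exact this)
      (by have := hnug; rw [hsplit] at this; exact this)
    cases hpl : place i (A x y) (Γ (vert x (y + 1))) (Γ (vert x y)) (Γ (vert (x + 1) y)) with
    | bad => rw [hpl] at htile; exact absurd htile id
    | fin κ =>
      rw [hpl] at htile hcell
      obtain ⟨hrest, hC, hop⟩ := htile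
      left
      refine ⟨x, hxw, hrest, ?_⟩
      have hL0c : cl L0 = true := by
        rw [cl_iff]
        intro e he
        rw [hL0, List.mem_reverse, List.mem_map] at he
        obtain ⟨j, hj, rfl⟩ := he
        rw [List.mem_range] at hj
        rw [opn_zero_iff]
        intro s c hv
        have := hop _ s c hv
        simp only [vert_inj] at this
        omega
      have hR0c : cl R0 = true := by
        rw [cl_iff]
        intro e he
        rw [hR0, mem_low] at he
        obtain ⟨j, hj, hj', rfl⟩ := he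
        rw [opn_zero_iff]
        intro s c hv
        have := hop _ s c hv
        simp only [vert_inj] at this
        omega
      have hB := hSt.bud
      rw [hL, hR] at hB
      obtain ⟨hb1, hb2, hb3⟩ := bud_fin hxw hy hB hpl hC (cnt_zero hL0c) (cnt_zero hR0c)
        (rem_fin hrest hC)
      have := hcell hL0c hR0c hb1 hb2 hb3
      rw [hist_succ, ← hSt.hist]
      exact this
    | ok κ TR TL BR ρ =>
      rw [hpl] at htile hcell
      have hI' : Inv (preCode A w (x + 1) y) (stp Γ (vert x y) (vert (x + 1) y)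
          (vert (x + 1) (y + 1)) (vert x (y + 1)) BR TR TL ρ) := by
        rw [preCode_succ]; exact htile
      have hup := up_stp Γ x y BR TR TL ρ
      have hlow := low_stp Γ y hxw BR TR TL ρ
      have hpot := pot_le hcl (show x + 1 ≤ w by omega) hy (opn_iff hI')
      rw [hup, hlow] at hpot
      have hB := hSt.bud
      rw [hL, hR] at hB
      obtain ⟨hpay, hB'⟩ := bud_step hxw hy hB hpl hpot
      have hnext := hcell hpay
      refine ih (x + 1) (A x y :: T) _ _ _ (by omega) ?_ hnext
      refine ⟨⟨_, hI', hup.symm, hlow.symm, ?_⟩, ?_, hB'⟩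
      · rw [names_iff] at hNm ⊢
        obtain ⟨h1, h2, h3, h4⟩ := place_names hpl (m := w + 20 - (x + 1)) (w := w) (by omega)
          ((hNm _).mono (by omega)) ((hNm _).mono (by omega)) ((hNm _).mono (by omega))
        exact names_stp h3 h1 h2 h4 fun v => (hNm v).mono (by omega)
      · rw [hist_succ, hSt.hist]

end Pool.Agent.MP_204846_gt
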