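import Pool.Agent.Lib_MP_204846_gt.SFun

/-!
# MP_204846_gt: the search for the width 10
-/

namespace Pool.Agent.MP_204846_gt

set_option maxRecDepth 100000 in
theorem runs10 :
    optR 10 0 = true ∧
    optT 10 0 = true ∧
    optD 10 0 = true ∧
    optR 10 1 = true ∧
    optT 10 1 = true ∧
    optD 10 1 = true ∧
    optR 10 2 = true ∧
    optT 10 2 = true ∧
    optD 10 2 = true ∧
    optR 10 3 = true ∧
    optT 10 3 = true ∧
    optD 10 3 = true ∧
    optR 10 4 = true ∧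
    optT 10 4 = true ∧
    optD 10 4 = true ∧
    optR 10 5 = true ∧
    optT 10 5 = true ∧
    optD 10 5 = true ∧
    optR 10 6 = true ∧
    optT 10 6 = true ∧
    optD 10 6 = true ∧
    optR 10 7 = true ∧
    optT 10 7 = true ∧
    optD 10 7 = true ∧
    optR 10 8 = true ∧
    optT 10 8 = true ∧
    optD 10 8 = true ∧
    optR 10 9 = true ∧
    optT 10 9 = true ∧
    optD 10 9 = true := by
  refine ⟨?_, ?_, ?_, ?_, ?_, ?_, ?_, ?_, ?_, ?_, ?_, ?_, ?_, ?_, ?_, ?_, ?_, ?_, ?_, ?_, ?_, ?_, ?_, ?_, ?_, ?_, ?_, ?_, ?_, ?_⟩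
  all_goals decide +kernel

end Pool.Agent.MP_204846_gt
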