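import Pool.Agent.Lib_MP_204846_gt.SFun

/-!
# MP_204846_gt: the search for the width 13
-/

namespace Pool.Agent.MP_204846_gt

set_option maxRecDepth 100000 in
theorem runs13 :
    optR 13 0 = true ∧
    optT 13 0 = true ∧
    optD 13 0 = true ∧
    optR 13 1 = true ∧
    optT 13 1 = true ∧
    optD 13 1 = true ∧
    optR 13 2 = true ∧
    optT 13 2 = true ∧
    optD 13 2 = true ∧
    optR 13 3 = true ∧
    optT 13 3 = true ∧
    optD 13 3 = true ∧
    optR 13 4 = true ∧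
    optT 13 4 = true ∧
    optD 13 4 = true ∧
    optR 13 5 = true ∧
    optT 13 5 = true ∧
    optD 13 5 = true ∧
    optR 13 6 = true ∧
    optT 13 6 = true ∧
    optD 13 6 = true ∧
    optR 13 7 = true ∧
    optT 13 7 = true ∧
    optD 13 7 = true ∧
    optR 13 8 = true ∧
    optT 13 8 = true ∧
    optD 13 8 = true ∧
    optR 13 9 = true ∧
    optT 13 9 = true ∧
    optD 13 9 = true ∧
    optR 13 10 = true ∧
    optT 13 10 = true ∧
    optD 13 10 = true ∧
    optR 13 11 = true ∧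
    optT 13 11 = true ∧
    optD 13 11 = true ∧
    optR 13 12 = true ∧
    optT 13 12 = true ∧
    optD 13 12 = true := by
  refine ⟨?_, ?_, ?_, ?_, ?_, ?_, ?_, ?_, ?_, ?_, ?_, ?_, ?_, ?_, ?_, ?_, ?_, ?_, ?_, ?_, ?_, ?_, ?_, ?_, ?_, ?_, ?_, ?_, ?_, ?_, ?_, ?_, ?_, ?_, ?_, ?_, ?_, ?_, ?_⟩
  all_goals decide +kernel

end Pool.Agent.MP_204846_gt
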