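import Pool.Agent.Lib_MP_204846_gt.SFun

/-!
# MP_204846_gt: the search for the width 14
-/

namespace Pool.Agent.MP_204846_gt

set_option maxRecDepth 100000 in
theorem runs14 :
    optR 14 0 = true ∧
    optT 14 0 = true ∧
    optD 14 0 = true ∧
    optR 14 1 = true ∧
    optT 14 1 = true ∧
    optD 14 1 = true ∧
    optR 14 2 = true ∧
    optT 14 2 = true ∧
    optD 14 2 = true ∧
    optR 14 3 = true ∧
    optT 14 3 = true ∧
    optD 14 3 = true ∧
    optR 14 4 = true ∧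
    optT 14 4 = true ∧
    optD 14 4 = true ∧
    optR 14 5 = true ∧
    optT 14 5 = true ∧
    optD 14 5 = true ∧
    optR 14 6 = true ∧
    optT 14 6 = true ∧
    optD 14 6 = true ∧
    optR 14 7 = true ∧
    optT 14 7 = true ∧
    optD 14 7 = true ∧
    optR 14 8 = true ∧
    optT 14 8 = true ∧
    optD 14 8 = true ∧
    optR 14 9 = true ∧
    optT 14 9 = true ∧
    optD 14 9 = true ∧
    optR 14 10 = true ∧
    optT 14 10 = true ∧
    optD 14 10 = true ∧
    optR 14 11 = true ∧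
    optT 14 11 = true ∧
    optD 14 11 = true ∧
    optR 14 12 = true ∧
    optT 14 12 = true ∧
    optD 14 12 = true ∧
    optR 14 13 = true ∧
    optT 14 13 = true ∧
    optD 14 13 = true := by
  refine ⟨?_, ?_, ?_, ?_, ?_, ?_, ?_, ?_, ?_, ?_, ?_, ?_, ?_, ?_, ?_, ?_, ?_, ?_, ?_, ?_, ?_, ?_, ?_, ?_, ?_, ?_, ?_, ?_, ?_, ?_, ?_, ?_, ?_, ?_, ?_, ?_, ?_, ?_, ?_, ?_, ?_, ?_⟩
  all_goals decide +kernel

end Pool.Agent.MP_204846_gt
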