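import Pool.Agent.Lib_MP_204846_gt.SFun

/-!
# MP_204846_gt: the search for the width 15
-/

namespace Pool.Agent.MP_204846_gt

set_option maxRecDepth 100000 in
theorem runs15 :
    optR 15 0 = true ∧
    optT 15 0 = true ∧
    optD 15 0 = true ∧
    optR 15 1 = true ∧
    optT 15 1 = true ∧
    optD 15 1 = true ∧
    optR 15 2 = true ∧
    optT 15 2 = true ∧
    optD 15 2 = true ∧
    optR 15 3 = true ∧
    optT 15 3 = true ∧
    optD 15 3 = true ∧
    optR 15 4 = true ∧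
    optT 15 4 = true ∧
    optD 15 4 = true ∧
    optR 15 5 = true ∧
    optT 15 5 = true ∧
    optD 15 5 = true ∧
    optR 15 6 = true ∧
    optT 15 6 = true ∧
    optD 15 6 = true ∧
    optR 15 7 = true ∧
    optT 15 7 = true ∧
    optD 15 7 = true ∧
    optR 15 8 = true ∧
    optT 15 8 = true ∧
    optD 15 8 = true ∧
    optR 15 9 = true ∧
    optT 15 9 = true ∧
    optD 15 9 = true ∧
    optR 15 10 = true ∧
    optT 15 10 = true ∧
    optD 15 10 = true ∧
    optR 15 11 = true ∧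
    optT 15 11 = true ∧
    optD 15 11 = true ∧
    optR 15 12 = true ∧
    optT 15 12 = true ∧
    optD 15 12 = true ∧
    optR 15 13 = true ∧
    optT 15 13 = true ∧
    optD 15 13 = true ∧
    optR 15 14 = true ∧
    optT 15 14 = true ∧
    optD 15 14 = true := by
  refine ⟨?_, ?_, ?_, ?_, ?_, ?_, ?_, ?_, ?_, ?_, ?_, ?_, ?_, ?_, ?_, ?_, ?_, ?_, ?_, ?_, ?_, ?_, ?_, ?_, ?_, ?_, ?_, ?_, ?_, ?_, ?_, ?_, ?_, ?_, ?_, ?_, ?_, ?_, ?_, ?_, ?_, ?_, ?_, ?_, ?_⟩
  all_goals decide +kernel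

end Pool.Agent.MP_204846_gt
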