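import Pool.Agent.Lib_MP_204846_gt.SFun

/-!
# MP_204846_gt: the search for the width 2
-/

namespace Pool.Agent.MP_204846_gt

set_option maxRecDepth 100000 in
theorem runs2 :
    optR 2 0 = true ∧
    optT 2 0 = true ∧
    optD 2 0 = true ∧
    optR 2 1 = true ∧
    optT 2 1 = true ∧
    optD 2 1 = true := by
  refine ⟨?_, ?_, ?_, ?_, ?_, ?_⟩
  all_goals decide +kernel

end Pool.Agent.MP_204846_gt
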