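import Pool.Agent.Lib_MP_204846_gt.SSpec

/-!
# MP_204846_gt, RunSplit: the search is divided according to the first tile of the first row
-/

namespace Pool.Agent.MP_204846_gt

theorem cl_replicate (n : ℕ) : cl (List.replicate n .z) = true := by
  rw [cl_iff]
  intro e he
  rw [List.eq_of_mem_replicate he]
  rfl

theorem run_split {w : ℕ} (h : ∀ x < w, optR w x = true ∧ optT w x = true ∧ optD w x = true) :
    RunOK w := by
  have key : ∀ n x, x + n = w →
      rowM (fun T => cond (Nat.ble 16 (14 + w)) true (leafK w T))
        (fun T L P => nextK (w / 2) 14 L P fun R P => mainS (leafK w) w (w / 2) w 14 T R P)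
        (w + 20 - x) (List.replicate x .bl) (List.replicate (x + 1) .z)
        (List.replicate (w + 1 - x) .z) (startP (w / 2)) = true := by
    intro n
    induction n with
    | zero =>
      intro x hx
      obtain rfl : x = w := by omega
      rw [show x + 20 - x = 19 + 1 by omega, show x + 1 - x = 0 + 1 by omega,
        List.replicate_succ (n := x), List.replicate_succ (n := 0), List.replicate_zero,
        rowM_end _ _ _ _ _ _ _ _ rfl, ← List.replicate_succ]
      unfold nextK
      rw [cl_replicate]
      rfl
    | succ n ih =>
      intro x hx
      have hxw : x < w := by omega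
      obtain ⟨h1, h2, h3⟩ := h x hxw
      have ih' := ih (x + 1) (by omega)
      have e1 : w + 20 - x = (w + 19 - x) + 1 := by omega
      have e2 : w + 1 - x = (w - 1 - x) + 1 + 1 := by omega
      have e3 : w + 20 - (x + 1) = w + 19 - x := by omega
      have e4 : w + 1 - (x + 1) = (w - 1 - x) + 1 := by omega
      rw [e3, e4] at ih'
      unfold optR opt at h1
      unfold optT opt at h2
      unfold optD opt at h3
      rw [e1] at h1 h2 h3 ⊢
      rw [e2, List.replicate_succ (n := x), List.replicate_succ (n := w - 1 - x + 1),
        List.replicate_succ (n := w - 1 - x), rowM_cell]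
      simp only [cell, cellN, nzz, cond_and, Bool.and_eq_true]
      refine ⟨?_, h1, ?_⟩
      · simpa only [List.replicate_succ] using ih'
      · simp only [pay_eq] at h2 h3 ⊢
        split_ifs at h2 h3 ⊢ with hp
        · simp only [Bool.and_eq_true]
          exact ⟨h2, h3⟩
        · trivial
  have h0 := key w 0 (by omega)
  unfold RunOK
  rw [mainS_succ]
  have e : w + 20 - 0 = w + 20 := rfl
  rw [e] at h0
  cases dead w (w / 2) w (14 + 1) (emp w) (startP (w / 2)) with
  | true => rfl
  | false =>
    rw [cond_false]
    exact h0

end Pool.Agent.MP_204846_gt
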