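import Pool.Agent.Lib_MP_204846_gt.Run1
import Pool.Agent.Lib_MP_204846_gt.Run2
import Pool.Agent.Lib_MP_204846_gt.Run3
import Pool.Agent.Lib_MP_204846_gt.Run4
import Pool.Agent.Lib_MP_204846_gt.Run5
import Pool.Agent.Lib_MP_204846_gt.Run6
import Pool.Agent.Lib_MP_204846_gt.Run7
import Pool.Agent.Lib_MP_204846_gt.Run8
import Pool.Agent.Lib_MP_204846_gt.Run9
import Pool.Agent.Lib_MP_204846_gt.Run10
import Pool.Agent.Lib_MP_204846_gt.Run11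
import Pool.Agent.Lib_MP_204846_gt.Run12
import Pool.Agent.Lib_MP_204846_gt.Run13
import Pool.Agent.Lib_MP_204846_gt.Run14
import Pool.Agent.Lib_MP_204846_gt.Run15
import Pool.Agent.Lib_MP_204846_gt.RunSplit

/-!
# MP_204846_gt: the search for all widths
-/

namespace Pool.Agent.MP_204846_gt

theorem run1 : RunOK 1 := by
  obtain ⟨r0R, r0T, r0D⟩ := runs1
  apply run_split
  intro x hx
  interval_cases x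
  · exact ⟨r0R, r0T, r0D⟩

theorem run2 : RunOK 2 := by
  obtain ⟨r0R, r0T, r0D, r1R, r1T, r1D⟩ := runs2
  apply run_split
  intro x hx
  interval_cases x
  · exact ⟨r0R, r0T, r0D⟩
  · exact ⟨r1R, r1T, r1D⟩

theorem run3 : RunOK 3 := by
  obtain ⟨r0R, r0T, r0D, r1R, r1T, r1D, r2R, r2T, r2D⟩ := runs3
  apply run_split
  intro x hx
  interval_cases x
  · exact ⟨r0R, r0T, r0D⟩
  · exact ⟨r1R, r1T, r1D⟩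
  · exact ⟨r2R, r2T, r2D⟩

theorem run4 : RunOK 4 := by
  obtain ⟨r0R, r0T, r0D, r1R, r1T, r1D, r2R, r2T, r2D, r3R, r3T, r3D⟩ := runs4
  apply run_split
  intro x hx
  interval_cases x
  · exact ⟨r0R, r0T, r0D⟩
  · exact ⟨r1R, r1T, r1D⟩
  · exact ⟨r2R, r2T, r2D⟩
  · exact ⟨r3R, r3T, r3D⟩

theorem run5 : RunOK 5 := by
  obtain ⟨r0R, r0T, r0D, r1R, r1T, r1D, r2R, r2T, r2D, r3R, r3T, r3D, r4R, r4T, r4D⟩ := runs5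
  apply run_split
  intro x hx
  interval_cases x
  · exact ⟨r0R, r0T, r0D⟩
  · exact ⟨r1R, r1T, r1D⟩
  · exact ⟨r2R, r2T, r2D⟩
  · exact ⟨r3R, r3T, r3D⟩
  · exact ⟨r4R, r4T, r4D⟩

theorem run6 : RunOK 6 := by
  obtain ⟨r0R, r0T, r0D, r1R, r1T, r1D, r2R, r2T, r2D, r3R, r3T, r3D, r4R, r4T, r4D, r5R, r5T, r5D⟩ := runs6
  apply run_split
  intro x hx
  interval_cases x
  · exact ⟨r0R, r0T, r0D⟩
  · exact ⟨r1R, r1T, r1D⟩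
  · exact ⟨r2R, r2T, r2D⟩
  · exact ⟨r3R, r3T, r3D⟩
  · exact ⟨r4R, r4T, r4D⟩
  · exact ⟨r5R, r5T, r5D⟩

theorem run7 : RunOK 7 := by
  obtain ⟨r0R, r0T, r0D, r1R, r1T, r1D, r2R, r2T, r2D, r3R, r3T, r3D, r4R, r4T, r4D, r5R, r5T, r5D, r6R, r6T, r6D⟩ := runs7
  apply run_split
  intro x hx
  interval_cases x
  · exact ⟨r0R, r0T, r0D⟩
  · exact ⟨r1R, r1T, r1D⟩
  · exact ⟨r2R, r2T, r2D⟩
  · exact ⟨r3R, r3T, r3D⟩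
  · exact ⟨r4R, r4T, r4D⟩
  · exact ⟨r5R, r5T, r5D⟩
  · exact ⟨r6R, r6T, r6D⟩

theorem run8 : RunOK 8 := by
  obtain ⟨r0R, r0T, r0D, r1R, r1T, r1D, r2R, r2T, r2D, r3R, r3T, r3D, r4R, r4T, r4D, r5R, r5T, r5D, r6R, r6T, r6D, r7R, r7T, r7D⟩ := runs8
  apply run_split
  intro x hx
  interval_cases x
  · exact ⟨r0R, r0T, r0D⟩
  · exact ⟨r1R, r1T, r1D⟩
  · exact ⟨r2R, r2T, r2D⟩
  · exact ⟨r3R, r3T, r3D⟩
  · exact ⟨r4R, r4T, r4D⟩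
  · exact ⟨r5R, r5T, r5D⟩
  · exact ⟨r6R, r6T, r6D⟩
  · exact ⟨r7R, r7T, r7D⟩

theorem run9 : RunOK 9 := by
  obtain ⟨r0R, r0T, r0D, r1R, r1T, r1D, r2R, r2T, r2D, r3R, r3T, r3D, r4R, r4T, r4D, r5R, r5T, r5D, r6R, r6T, r6D, r7R, r7T, r7D, r8R, r8T, r8D⟩ := runs9
  apply run_split
  intro x hx
  interval_cases x
  · exact ⟨r0R, r0T, r0D⟩
  · exact ⟨r1R, r1T, r1D⟩
  · exact ⟨r2R, r2T, r2D⟩
  · exact ⟨r3R, r3T, r3D⟩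
  · exact ⟨r4R, r4T, r4D⟩
  · exact ⟨r5R, r5T, r5D⟩
  · exact ⟨r6R, r6T, r6D⟩
  · exact ⟨r7R, r7T, r7D⟩
  · exact ⟨r8R, r8T, r8D⟩

theorem run10 : RunOK 10 := by
  obtain ⟨r0R, r0T, r0D, r1R, r1T, r1D, r2R, r2T, r2D, r3R, r3T, r3D, r4R, r4T, r4D, r5R, r5T, r5D, r6R, r6T, r6D, r7R, r7T, r7D, r8R, r8T, r8D, r9R, r9T, r9D⟩ := runs10
  apply run_split
  intro x hx
  interval_cases x
  · exact ⟨r0R, r0T, r0D⟩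
  · exact ⟨r1R, r1T, r1D⟩
  · exact ⟨r2R, r2T, r2D⟩
  · exact ⟨r3R, r3T, r3D⟩
  · exact ⟨r4R, r4T, r4D⟩
  · exact ⟨r5R, r5T, r5D⟩
  · exact ⟨r6R, r6T, r6D⟩
  · exact ⟨r7R, r7T, r7D⟩
  · exact ⟨r8R, r8T, r8D⟩
  · exact ⟨r9R, r9T, r9D⟩

theorem run11 : RunOK 11 := by
  obtain ⟨r0R, r0T, r0D, r1R, r1T, r1D, r2R, r2T, r2D, r3R, r3T, r3D, r4R, r4T, r4D, r5R, r5T, r5D, r6R, r6T, r6D, r7R, r7T, r7D, r8R, r8T, r8D, r9R, r9T, r9D, r10R, r10T, r10D⟩ := runs11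
  apply run_split
  intro x hx
  interval_cases x
  · exact ⟨r0R, r0T, r0D⟩
  · exact ⟨r1R, r1T, r1D⟩
  · exact ⟨r2R, r2T, r2D⟩
  · exact ⟨r3R, r3T, r3D⟩
  · exact ⟨r4R, r4T, r4D⟩
  · exact ⟨r5R, r5T, r5D⟩
  · exact ⟨r6R, r6T, r6D⟩
  · exact ⟨r7R, r7T, r7D⟩
  · exact ⟨r8R, r8T, r8D⟩
  · exact ⟨r9R, r9T, r9D⟩
  · exact ⟨r10R, r10T, r10D⟩

theorem run12 : RunOK 12 := by
  obtain ⟨r0R, r0T, r0D, r1R, r1T, r1D, r2R, r2T, r2D, r3R, r3T, r3D, r4R, r4T, r4D, r5R, r5T, r5D, r6R, r6T, r6D, r7R, r7T, r7D, r8R, r8T, r8D, r9R, r9T, r9D, r10R, r10T, r10D, r11R, r11T, r11D⟩ := runs12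
  apply run_split
  intro x hx
  interval_cases x
  · exact ⟨r0R, r0T, r0D⟩
  · exact ⟨r1R, r1T, r1D⟩
  · exact ⟨r2R, r2T, r2D⟩
  · exact ⟨r3R, r3T, r3D⟩
  · exact ⟨r4R, r4T, r4D⟩
  · exact ⟨r5R, r5T, r5D⟩
  · exact ⟨r6R, r6T, r6D⟩
  · exact ⟨r7R, r7T, r7D⟩
  · exact ⟨r8R, r8T, r8D⟩
  · exact ⟨r9R, r9T, r9D⟩
  · exact ⟨r10R, r10T, r10D⟩
  · exact ⟨r11R, r11T, r11D⟩

theorem run13 : RunOK 13 := by
  obtain ⟨r0R, r0T, r0D, r1R, r1T, r1D, r2R, r2T, r2D, r3R, r3T, r3D, r4R, r4T, r4D, r5R, r5T, r5D, r6R, r6T, r6D, r7R, r7T, r7D, r8R, r8T, r8D, r9R, r9T, r9D, r10R, r10T, r10D, r11R, r11T, r11D, r12R, r12T, r12D⟩ := runs13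
  apply run_split
  intro x hx
  interval_cases x
  · exact ⟨r0R, r0T, r0D⟩
  · exact ⟨r1R, r1T, r1D⟩
  · exact ⟨r2R, r2T, r2D⟩
  · exact ⟨r3R, r3T, r3D⟩
  · exact ⟨r4R, r4T, r4D⟩
  · exact ⟨r5R, r5T, r5D⟩
  · exact ⟨r6R, r6T, r6D⟩
  · exact ⟨r7R, r7T, r7D⟩
  · exact ⟨r8R, r8T, r8D⟩
  · exact ⟨r9R, r9T, r9D⟩
  · exact ⟨r10R, r10T, r10D⟩
  · exact ⟨r11R, r11T, r11D⟩
  · exact ⟨r12R, r12T, r12D⟩

theorem run14 : RunOK 14 := by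
  obtain ⟨r0R, r0T, r0D, r1R, r1T, r1D, r2R, r2T, r2D, r3R, r3T, r3D, r4R, r4T, r4D, r5R, r5T, r5D, r6R, r6T, r6D, r7R, r7T, r7D, r8R, r8T, r8D, r9R, r9T, r9D, r10R, r10T, r10D, r11R, r11T, r11D, r12R, r12T, r12D, r13R, r13T, r13D⟩ := runs14
  apply run_split
  intro x hx
  interval_cases x
  · exact ⟨r0R, r0T, r0D⟩
  · exact ⟨r1R, r1T, r1D⟩
  · exact ⟨r2R, r2T, r2D⟩
  · exact ⟨r3R, r3T, r3D⟩
  · exact ⟨r4R, r4T, r4D⟩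
  · exact ⟨r5R, r5T, r5D⟩
  · exact ⟨r6R, r6T, r6D⟩
  · exact ⟨r7R, r7T, r7D⟩
  · exact ⟨r8R, r8T, r8D⟩
  · exact ⟨r9R, r9T, r9D⟩
  · exact ⟨r10R, r10T, r10D⟩
  · exact ⟨r11R, r11T, r11D⟩
  · exact ⟨r12R, r12T, r12D⟩
  · exact ⟨r13R, r13T, r13D⟩

theorem run15 : RunOK 15 := by
  obtain ⟨r0R, r0T, r0D, r1R, r1T, r1D, r2R, r2T, r2D, r3R, r3T, r3D, r4R, r4T, r4D, r5R, r5T, r5D, r6R, r6T, r6D, r7R, r7T, r7D, r8R, r8T, r8D, r9R, r9T, r9D, r10R, r10T, r10D, r11R, r11T, r11D, r12R, r12T, r12D, r13R, r13T, r13D, r14R, r14T, r14D⟩ := runs15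
  apply run_split
  intro x hx
  interval_cases x
  · exact ⟨r0R, r0T, r0D⟩
  · exact ⟨r1R, r1T, r1D⟩
  · exact ⟨r2R, r2T, r2D⟩
  · exact ⟨r3R, r3T, r3D⟩
  · exact ⟨r4R, r4T, r4D⟩
  · exact ⟨r5R, r5T, r5D⟩
  · exact ⟨r6R, r6T, r6D⟩
  · exact ⟨r7R, r7T, r7D⟩
  · exact ⟨r8R, r8T, r8D⟩
  · exact ⟨r9R, r9T, r9D⟩
  · exact ⟨r10R, r10T, r10D⟩
  · exact ⟨r11R, r11T, r11D⟩
  · exact ⟨r12R, r12T, r12D⟩
  · exact ⟨r13R, r13T, r13D⟩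
  · exact ⟨r14R, r14T, r14D⟩

theorem runAll : ∀ w, 1 ≤ w → w ≤ 15 → RunOK w := by
  intro w h1 h2
  interval_cases w
  · exact run1
  · exact run2
  · exact run3
  · exact run4
  · exact run5
  · exact run6
  · exact run7
  · exact run8
  · exact run9
  · exact run10
  · exact run11
  · exact run12
  · exact run13
  · exact run14
  · exact run15

end Pool.Agent.MP_204846_gt
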