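import Mathlib.Data.Nat.Pairing

/-!
# MP_204846_gt: the search

All functions of the search which are evaluated by the kernel are written with recursors and
continuations. (This file imports only a small part of Mathlib, to save memory in the evaluations.)
-/

namespace Pool.Agent.MP_204846_gt

/-- the tiles, up to the sign of the crossing: blank, crossing, one arc at the bottom, right, top,
left side, diagonal up, diagonal down, arcs at bottom and top, arcs at left and right -/
inductive Kd where
  | bl | x | aB | aR | aT | aL | dU | dD | hh | vv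
deriving DecidableEq

/-- The entry of a vertex: not used by a tile, used by two tiles, or used by one tile so far. In the
last case `s` is a name of the strand which ends there, and `c = 0` if the end is the end of an
arc which does not meet a crossing so far, and `c = 4 g + q` if it starts at the corner `q` of the
crossing number `g`. -/
inductive Ent where
  | z : Ent
  | f : Ent
  | o (s c : ℕ) : Ent
deriving DecidableEq

abbrev LL := List Ent

/-- no open end -/
noncomputable def cl (l : LL) : Bool :=
  @List.rec Ent (fun _ => Bool) true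
    (fun e _ ih => @Ent.rec (fun _ => Bool) ih ih (fun _ _ => false) e) l

/-- rename after joining `(s,c)` and `(t,d)` -/
noncomputable def renE (s c t d : ℕ) (e : Ent) (k : Ent → Bool) : Bool :=
  @Ent.rec (fun _ => Bool) (k .z) (k .f)
    (fun u x => cond (Nat.beq u s) (cond (Nat.beq x 0) (k (.o s d)) (k (.o s x)))
      (cond (Nat.beq u t) (cond (Nat.beq x 0) (k (.o s c)) (k (.o s x))) (k (.o u x)))) e

noncomputable def renK (s c t d : ℕ) (l : LL) : (LL → Bool) → Bool :=
  @List.rec Ent (fun _ => (LL → Bool) → Bool) (fun k => k [])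
    (fun e _ ih k => renE s c t d e fun e' => ih fun l => k (e' :: l)) l

/-- change the source of the ends of the strand `s` from `0` to `c` -/
noncomputable def srcE (s c : ℕ) (e : Ent) (k : Ent → Bool) : Bool :=
  @Ent.rec (fun _ => Bool) (k .z) (k .f)
    (fun u x => cond (Nat.beq x 0) (cond (Nat.beq u s) (k (.o u c)) (k (.o u x))) (k (.o u x))) e

noncomputable def srcK (s c : ℕ) (l : LL) : (LL → Bool) → Bool :=
  @List.rec Ent (fun _ => (LL → Bool) → Bool) (fun k => k [])
    (fun e _ ih k => srcE s c e fun e' => ih fun l => k (e' :: l)) l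

/-- the ends come from neighbouring corners of the same crossing -/
noncomputable def mono (c d : ℕ) : Bool :=
  cond (Nat.beq c 0) false
    (cond (Nat.beq (Nat.div c 4) (Nat.div d 4)) (Nat.beq (Nat.mod (Nat.add c d) 2) 1) false)

/-- continuation with tile, state lists and budget -/
abbrev KK := Kd → LL → LL → ℕ → Bool

/-- pay for a connecting tile; the budget is `P = b + 16 * r + 256 * m` -/
noncomputable def pay (κ P : ℕ) (k : ℕ → Bool) : Bool :=
  cond (Nat.ble 256 P)
    (cond (Nat.ble κ (Nat.mod P 16)) (k (Nat.sub P (Nat.add 256 κ))) true) true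

/-- pay for a crossing -/
noncomputable def payX (P : ℕ) (k : ℕ → Bool) : Bool :=
  cond (Nat.ble 16 (Nat.mod P 256)) (k (Nat.sub P 16)) true

/-- join two open ends and rename in both lists; `fin` if they are the ends of the same strand -/
noncomputable def joinK (s c t d : ℕ) (L R : LL) (fin : Bool) (k : LL → LL → Bool) : Bool :=
  cond (mono c d) true
    (cond (Nat.beq s t) fin (renK s c t d L fun L => renK s c t d R fun R => k L R))

/-- the value for a closed component -/
noncomputable def finK (κ : ℕ) (L R : LL) (P : ℕ) (v : Bool) : Bool :=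
  cond (cl L) (cond (cl R)
    (cond (Nat.ble 16 (Nat.mod P 256)) true (pay κ P fun _ => v)) true) true

/-- source update if pure -/
noncomputable def updK (s c X : ℕ) (L R : LL) (k : LL → LL → Bool) : Bool :=
  cond (Nat.beq c 0) (srcK s X L fun L => srcK s X R fun R => k L R) (k L R)

noncomputable def ozz (ih : KK) (i s c : ℕ) (L R : LL) (P : ℕ) : Bool :=
  cond (payX P fun P => updK s c (4 * i) L R fun L R =>
    ih .x (.o s (4 * i + 2) :: .o i (4 * i + 3) :: L) (.o i (4 * i + 1) :: R) P)
  (pay 1 P fun P =>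
    cond (ih .aB (.z :: .z :: L) (.o s c :: R) P)
    (cond (ih .aL (.z :: .o s c :: L) (.z :: R) P)
    (cond (ih .dU (.o s c :: .z :: L) (.z :: R) P)
    (cond (ih .hh (.o i 0 :: .o i 0 :: L) (.o s c :: R) P)
    (ih .vv (.o i 0 :: .o s c :: L) (.o i 0 :: R) P) false) false) false) false) false

noncomputable def ozf (ih : KK) (s c : ℕ) (L R : LL) (P : ℕ) : Bool :=
  pay 1 P fun P =>
    cond (ih .aL (.z :: .o s c :: L) (.f :: R) P)
    (ih .dU (.o s c :: .z :: L) (.f :: R) P) false

noncomputable def ozo (fin : Kd → Bool) (ih : KK) (i s c t d : ℕ) (L R : LL) (P : ℕ) : Bool :=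
  cond (cond (cond (Nat.beq (Nat.add c d) 0) (Nat.beq s t) false) true
    (payX P fun P => updK s c (4 * i) L R fun L R => updK t d (4 * i + 1) L R fun L R =>
      ih .x (.o s (4 * i + 2) :: .o t (4 * i + 3) :: L) (.f :: R) P))
  (cond (joinK s c t d L R (finK 0 L R P (fin .aB)) fun L R =>
      cond (pay 0 P fun P => ih .aB (.z :: .z :: L) (.f :: R) P)
      (pay 1 P fun P => ih .hh (.o i 0 :: .o i 0 :: L) (.f :: R) P) false)
  (cond (pay 0 P fun P => ih .dU (.o s c :: .z :: L) (.o t d :: R) P)
  (pay 1 P fun P => cond (ih .aL (.z :: .o s c :: L) (.o t d :: R) P)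
    (ih .vv (.o t d :: .o s c :: L) (.f :: R) P) false) false) false) false

noncomputable def ooz (fin : Kd → Bool) (ih : KK) (i s c u e : ℕ) (L R : LL) (P : ℕ) : Bool :=
  cond (cond (cond (Nat.beq (Nat.add c e) 0) (Nat.beq s u) false) true
    (payX P fun P => updK s c (4 * i) L R fun L R => updK u e (4 * i + 3) L R fun L R =>
      ih .x (.o s (4 * i + 2) :: .f :: L) (.o u (4 * i + 1) :: R) P))
  (cond (joinK s c u e L R (finK 1 L R P (fin .aL)) fun L R =>
      pay 1 P fun P => cond (ih .aL (.z :: .f :: L) (.z :: R) P)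
        (ih .vv (.o i 0 :: .f :: L) (.o i 0 :: R) P) false)
  (cond (pay 2 P fun P => cond (ih .aB (.z :: .o u e :: L) (.o s c :: R) P)
    (ih .dU (.o s c :: .o u e :: L) (.z :: R) P) false)
  (pay 1 P fun P => ih .hh (.o u e :: .f :: L) (.o s c :: R) P) false) false) false

noncomputable def oof (fin : Kd → Bool) (ih : KK) (s c u e : ℕ) (L R : LL) (P : ℕ) : Bool :=
  cond (joinK s c u e L R (finK 1 L R P (fin .aL)) fun L R =>
    pay 1 P fun P => ih .aL (.z :: .f :: L) (.f :: R) P)
  (pay 2 P fun P => ih .dU (.o s c :: .o u e :: L) (.f :: R) P) false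

noncomputable def ooo (ih : KK) (i s c u e t d : ℕ) (L R : LL) (P : ℕ) : Bool :=
  cond (cond (cond (Nat.beq c 0) (cond (cond (Nat.beq d 0) (Nat.beq s t) false) true
      (cond (Nat.beq e 0) (Nat.beq s u) false)) false) true
    (cond (Nat.beq u t) true (payX P fun P => updK s c (4 * i) L R fun L R =>
      renE u (4 * i + 1) t (4 * i + 3) (.o s (4 * i + 2)) fun TR =>
        renK u (4 * i + 1) t (4 * i + 3) L fun L =>
          renK u (4 * i + 1) t (4 * i + 3) R fun R => ih .x (TR :: .f :: L) (.f :: R) P)))
  (cond (joinK s c t d L R true fun L R => renE s c t d (.o u e) fun U =>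
      pay 1 P fun P => cond (ih .aB (.z :: U :: L) (.f :: R) P)
        (ih .hh (U :: .f :: L) (.f :: R) P) false)
  (cond (joinK s c u e L R true fun L R => renE s c u e (.o t d) fun T =>
      pay 1 P fun P => cond (ih .aL (.z :: .f :: L) (T :: R) P)
        (ih .vv (T :: .f :: L) (.f :: R) P) false)
  (pay 1 P fun P => ih .dU (.o s c :: .o u e :: L) (.o t d :: R) P) false) false) false

noncomputable def nzz (ih : KK) (i : ℕ) (L R : LL) (P : ℕ) : Bool :=
  cond (ih .bl (.z :: .z :: L) (.z :: R) P)
  (cond (pay 1 P fun P => ih .aR (.o i 0 :: .z :: L) (.o i 0 :: R) P)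
  (pay 2 P fun P => cond (ih .aT (.o i 0 :: .o i 0 :: L) (.z :: R) P)
    (ih .dD (.z :: .o i 0 :: L) (.o i 0 :: R) P) false) false) false

noncomputable def nzf (ih : KK) (i : ℕ) (L R : LL) (P : ℕ) : Bool :=
  cond (ih .bl (.z :: .z :: L) (.f :: R) P)
  (pay 2 P fun P => ih .aT (.o i 0 :: .o i 0 :: L) (.f :: R) P) false

noncomputable def nzo (ih : KK) (i t d : ℕ) (L R : LL) (P : ℕ) : Bool :=
  cond (ih .bl (.z :: .z :: L) (.o t d :: R) P)
  (pay 1 P fun P => cond (ih .aR (.o t d :: .z :: L) (.f :: R) P)
    (cond (ih .aT (.o i 0 :: .o i 0 :: L) (.o t d :: R) P)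
      (ih .dD (.z :: .o t d :: L) (.f :: R) P) false) false) false

noncomputable def noz (ih : KK) (i u e : ℕ) (L R : LL) (P : ℕ) : Bool :=
  cond (ih .bl (.z :: .o u e :: L) (.z :: R) P)
  (pay 1 P fun P => cond (ih .aR (.o i 0 :: .o u e :: L) (.o i 0 :: R) P)
    (cond (ih .aT (.o u e :: .f :: L) (.z :: R) P)
      (ih .dD (.z :: .f :: L) (.o u e :: R) P) false) false) false

noncomputable def nof (ih : KK) (u e : ℕ) (L R : LL) (P : ℕ) : Bool :=
  cond (ih .bl (.z :: .o u e :: L) (.f :: R) P)
  (pay 1 P fun P => ih .aT (.o u e :: .f :: L) (.f :: R) P) false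

noncomputable def noo (fin : Kd → Bool) (ih : KK) (u e t d : ℕ) (L R : LL) (P : ℕ) : Bool :=
  cond (ih .bl (.z :: .o u e :: L) (.o t d :: R) P)
  (cond (pay 1 P fun P => ih .aR (.o t d :: .o u e :: L) (.f :: R) P)
  (cond (pay 0 P fun P => ih .aT (.o u e :: .f :: L) (.o t d :: R) P)
  (joinK u e t d L R (finK 0 L R P (fin .dD)) fun L R =>
    pay 0 P fun P => ih .dD (.z :: .f :: L) (.f :: R) P) false) false) false

noncomputable def cellO (fin : Kd → Bool) (ih : KK) (i s c : ℕ) (l r1 : Ent) (L R : LL) (P : ℕ) :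
    Bool :=
  @Ent.rec (fun _ => Bool)
    (@Ent.rec (fun _ => Bool) (ozz ih i s c L R P) (ozf ih s c L R P)
      (fun t d => ozo fin ih i s c t d L R P) r1)
    true
    (fun u e => @Ent.rec (fun _ => Bool) (ooz fin ih i s c u e L R P) (oof fin ih s c u e L R P)
      (fun t d => ooo ih i s c u e t d L R P) r1) l

noncomputable def cellN (fin : Kd → Bool) (ih : KK) (i : ℕ) (l r1 : Ent) (L R : LL) (P : ℕ) :
    Bool :=
  @Ent.rec (fun _ => Bool)
    (@Ent.rec (fun _ => Bool) (nzz ih i L R P) (nzf ih i L R P) (fun t d => nzo ih i t d L R P) r1)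
    true
    (fun u e => @Ent.rec (fun _ => Bool) (noz ih i u e L R P) (nof ih u e L R P)
      (fun t d => noo fin ih u e t d L R P) r1) l

/-- all tiles at one cell; `l`, `r0`, `r1` are the entries of the upper left, lower left and lower
right vertex, `i` is a new name -/
noncomputable def cell (fin : Kd → Bool) (ih : KK) (i : ℕ) (l r0 r1 : Ent) (L R : LL) (P : ℕ) :
    Bool :=
  @Ent.rec (fun _ => Bool) (cellN fin ih i l r1 L R P) (cellN fin ih i l r1 L R P)
    (fun s c => cellO fin ih i s c l r1 L R P) r0

/-- one row, without history; `nx` is called at the end of the row with the (reversed) upper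
profile -/
noncomputable def rowD (fo : Bool) (nx : LL → ℕ → Bool) (fuel : ℕ) : LL → LL → ℕ → Bool :=
  @Nat.rec (fun _ => LL → LL → ℕ → Bool) (fun _ _ _ => false)
    (fun i ih L R P => @List.rec Ent (fun _ => Bool) false (fun l L _ =>
      @List.rec Ent (fun _ => Bool) false (fun r0 R' _ =>
        @List.rec Ent (fun _ => Bool)
          (@Ent.rec (fun _ => Bool) (nx (l :: L) P) (nx (l :: L) P) (fun _ _ => true) r0)
          (fun r1 R _ => cell (fun _ => fo) (fun _ => ih) (Nat.succ i) l r0 r1 L R P) R') R) L) fuel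

/-- one row, with history -/
noncomputable def rowM (fin : List Kd → Bool) (nx : List Kd → LL → ℕ → Bool) (fuel : ℕ) :
    List Kd → LL → LL → ℕ → Bool :=
  @Nat.rec (fun _ => List Kd → LL → LL → ℕ → Bool) (fun _ _ _ _ => false)
    (fun i ih T L R P => @List.rec Ent (fun _ => Bool) false (fun l L _ =>
      @List.rec Ent (fun _ => Bool) false (fun r0 R' _ =>
        @List.rec Ent (fun _ => Bool)
          (@Ent.rec (fun _ => Bool) (nx T (l :: L) P) (nx T (l :: L) P) (fun _ _ => true) r0)
          (fun r1 R _ => cell (fun k => fin (k :: T)) (fun k => ih (k :: T)) (Nat.succ i)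
            l r0 r1 L R P) R') R) L) fuel

noncomputable def revK (l : LL) : LL → (LL → Bool) → Bool :=
  @List.rec Ent (fun _ => LL → (LL → Bool) → Bool) (fun acc k => k acc)
    (fun e _ ih acc k => ih (e :: acc) k) l

/-- association lists -/
inductive AL where
  | nil : AL
  | cons (k v : ℕ) (t : AL) : AL

noncomputable def look (S : AL) (key : ℕ) (nf : Bool) (fd : ℕ → Bool) : Bool :=
  @AL.rec (fun _ => Bool) nf (fun k v _ ih => cond (Nat.beq k key) (fd v) ih) S

noncomputable def force (n : ℕ) (k : ℕ → Bool) : Bool :=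
  @Nat.rec (fun _ => Bool) (k 0) (fun m _ => k (Nat.succ m)) n

/-- canonical names: strands and groups are named by the position of their first occurrence -/
noncomputable def canG (c p : ℕ) (G : AL) (k : ℕ → AL → Bool) : Bool :=
  cond (Nat.beq c 0) (k 0 G)
    (look G (Nat.div c 4)
      (force (Nat.add (Nat.mul 4 p) (Nat.mod c 4)) fun c' => k c' (.cons (Nat.div c 4) p G))
      (fun v => force (Nat.add (Nat.mul 4 v) (Nat.mod c 4)) fun c' => k c' G))

noncomputable def canK (l : LL) : ℕ → AL → AL → (LL → Bool) → Bool :=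
  @List.rec Ent (fun _ => ℕ → AL → AL → (LL → Bool) → Bool) (fun _ _ _ k => k [])
    (fun e _ ih p S G k => @Ent.rec (fun _ => Bool)
      (ih (Nat.succ p) S G fun l => k (.z :: l)) (ih (Nat.succ p) S G fun l => k (.f :: l))
      (fun s c => look S s
        (canG c p G fun c' G => ih (Nat.succ p) (.cons s p S) G fun l => k (.o p c' :: l))
        (fun v => canG c p G fun c' G => ih (Nat.succ p) S G fun l => k (.o v c' :: l))) e) l

/-- the end of a row: `j` rows may still follow -/
noncomputable def nextK (top j : ℕ) (L : LL) (P : ℕ) (k : LL → ℕ → Bool) : Bool :=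
  cond (cl L) true (revK L [] fun R => canK R 1 .nil .nil fun R =>
    force (cond (Nat.beq (Nat.add j top) 15) (Nat.add P 1024) P) fun P => k R P)

/-- `dead hmin top w j R P = true`: there is no completion; `j` rows are possible from here,
`R` is the lower profile -/
noncomputable def dead (hmin top w : ℕ) (fuel : ℕ) : LL → ℕ → Bool :=
  @Nat.rec (fun _ => LL → ℕ → Bool) (fun _ _ => true)
    (fun j ih R P => rowD (Nat.ble 16 (Nat.add j hmin))
      (fun L P => nextK top j L P fun R P => cond (ih R P) true false)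
      (Nat.add w 20) [.z] R P) fuel

/-- the search; `T` is the list of the tiles so far, in reverse order -/
noncomputable def mainS (leaf : List Kd → Bool) (hmin top w : ℕ) (fuel : ℕ) :
    List Kd → LL → ℕ → Bool :=
  @Nat.rec (fun _ => List Kd → LL → ℕ → Bool) (fun _ _ _ => true)
    (fun j ih T R P => cond (dead hmin top w (Nat.succ j) R P) true
      (rowM (fun T => cond (Nat.ble 16 (Nat.add j hmin)) true (leaf T))
        (fun T L P => nextK top j L P fun R P => ih T R P)
        (Nat.add w 20) T [.z] R P)) fuel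

/-! ### the check of a complete mosaic -/

/-- the edges at a crossing -/
inductive Q4 where
  | mk (a b c d : ℕ) : Q4

inductive Q2 where
  | mk (a b : ℕ) : Q2

noncomputable def rnK (a b v : ℕ) (k : ℕ → Bool) : Bool := cond (Nat.beq v b) (k a) (k v)

noncomputable def rnL (a b : ℕ) (l : List Q4) : (List Q4 → Bool) → Bool :=
  @List.rec Q4 (fun _ => (List Q4 → Bool) → Bool) (fun k => k [])
    (fun q _ ih k => @Q4.rec (fun _ => Bool) (fun p q r s =>
      rnK a b p fun p => rnK a b q fun q => rnK a b r fun r => rnK a b s fun s =>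
        ih fun l => k (.mk p q r s :: l)) q) l

noncomputable def rnL2 (a b : ℕ) (l : List Q2) : (List Q2 → Bool) → Bool :=
  @List.rec Q2 (fun _ => (List Q2 → Bool) → Bool) (fun k => k [])
    (fun q _ ih k => @Q2.rec (fun _ => Bool) (fun p q =>
      rnK a b p fun p => rnK a b q fun q => ih fun l => k (.mk p q :: l)) q) l

/-- join `a`, `b` and `c`, `d`; `n` is the number of classes -/
noncomputable def mg2 (a b c d : ℕ) (l : List Q4) (n : ℕ) (k : List Q4 → ℕ → Bool) : Bool :=
  cond (Nat.beq a b)
    (cond (Nat.beq c d) (k l n) (rnL c d l fun l => k l (Nat.pred n)))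
    (rnK a b c fun c => rnK a b d fun d => rnL a b l fun l =>
      cond (Nat.beq c d) (k l (Nat.pred n)) (rnL c d l fun l => k l (Nat.pred (Nat.pred n))))

noncomputable def notBad (m n : ℕ) : Bool :=
  cond (Nat.beq m 5) (cond (Nat.beq n 5) false true)
    (cond (Nat.beq m 2) (cond (Nat.beq n 8) false true)
      (cond (Nat.beq m 8) (cond (Nat.beq n 2) false true) true))

/-- all pairs of opposite states -/
noncomputable def chkS (fuel : ℕ) : List Q4 → List Q4 → ℕ → ℕ → Bool :=
  @Nat.rec (fun _ => List Q4 → List Q4 → ℕ → ℕ → Bool) (fun _ _ m n => notBad m n)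
    (fun _ ih xs ys m n => @List.rec Q4 (fun _ => Bool) false (fun q xs _ =>
      @List.rec Q4 (fun _ => Bool) false (fun q' ys _ =>
        @Q4.rec (fun _ => Bool) (fun a b c d => @Q4.rec (fun _ => Bool) (fun a' b' c' d' =>
          cond (mg2 a b c d xs m fun xs m' => mg2 b' c' d' a' ys n fun ys n' => ih xs ys m' n')
            (mg2 b c d a xs m fun xs m' => mg2 a' b' c' d' ys n fun ys n' => ih xs ys m' n')
            false) q') q) ys) xs) fuel

/-- contract the pairs -/
noncomputable def conK (fuel : ℕ) : List Q2 → List Q4 → ℕ → (List Q4 → ℕ → Bool) → Bool :=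
  @Nat.rec (fun _ => List Q2 → List Q4 → ℕ → (List Q4 → ℕ → Bool) → Bool) (fun _ _ _ _ => false)
    (fun _ ih ps xs n k => @List.rec Q2 (fun _ => Bool) (k xs n) (fun p ps _ =>
      @Q2.rec (fun _ => Bool) (fun a b => cond (Nat.beq a b) (ih ps xs n k)
        (rnL2 a b ps fun ps => rnL a b xs fun xs => ih ps xs (Nat.pred n) k)) p) ps) fuel

/-- collect the nodes; `n` is the number of labels, half of the number of ends -/
noncomputable def addK (k : Kd) (bl br tr tl : ℕ) (ps : List Q2) (xs : List Q4) (n : ℕ)
    (c : List Q2 → List Q4 → ℕ → Bool) : Bool :=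
  @Kd.rec (fun _ => Bool)
    (c ps xs n)
    (c ps (.mk bl br tr tl :: xs) (Nat.add n 2))
    (c (.mk bl br :: ps) xs (Nat.succ n))
    (c (.mk br tr :: ps) xs (Nat.succ n))
    (c (.mk tr tl :: ps) xs (Nat.succ n))
    (c (.mk tl bl :: ps) xs (Nat.succ n))
    (c (.mk bl tr :: ps) xs (Nat.succ n))
    (c (.mk br tl :: ps) xs (Nat.succ n))
    (c (.mk bl br :: .mk tr tl :: ps) xs (Nat.add n 2))
    (c (.mk br tr :: .mk tl bl :: ps) xs (Nat.add n 2)) k

/-- `x`, `y` is the position of the next tile of `l` -/
noncomputable def colK (w : ℕ) (l : List Kd) : ℕ → ℕ → List Q2 → List Q4 → ℕ →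
    (List Q2 → List Q4 → ℕ → Bool) → Bool :=
  @List.rec Kd (fun _ => ℕ → ℕ → List Q2 → List Q4 → ℕ → (List Q2 → List Q4 → ℕ → Bool) → Bool)
    (fun _ _ ps xs n c => c ps xs n)
    (fun k _ ih x y ps xs n c =>
      force (Nat.pair x y) fun bl => force (Nat.pair (Nat.succ x) y) fun br =>
      force (Nat.pair (Nat.succ x) (Nat.succ y)) fun tr => force (Nat.pair x (Nat.succ y)) fun tl =>
      addK k bl br tr tl ps xs n fun ps xs n =>
        cond (Nat.beq (Nat.succ x) w) (ih 0 (Nat.succ y) ps xs n c) (ih (Nat.succ x) y ps xs n c)) l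

noncomputable def isBl (k : Kd) : Bool :=
  @Kd.rec (fun _ => Bool) true false false false false false false false false false k

/-- all tiles of the column `x₀` are blank -/
noncomputable def colBl (x₀ w : ℕ) (l : List Kd) : ℕ → Bool :=
  @List.rec Kd (fun _ => ℕ → Bool) (fun _ => true)
    (fun k _ ih x => cond (cond (Nat.beq x x₀) (isBl k) true)
      (cond (Nat.beq (Nat.succ x) w) (ih 0) (ih (Nat.succ x))) false) l

noncomputable def revT (l : List Kd) : List Kd → (List Kd → Bool) → Bool :=
  @List.rec Kd (fun _ => List Kd → (List Kd → Bool) → Bool) (fun acc k => k acc)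
    (fun e _ ih acc k => ih (e :: acc) k) l

noncomputable def leafK (w : ℕ) (T : List Kd) : Bool :=
  revT T [] fun T => cond (colBl 0 w T 0) true (cond (colBl (Nat.pred w) w T 0) true
    (colK w T 0 0 [] [] 0 fun ps xs n => conK 20 ps xs n fun xs n => chkS 8 xs xs n n))

/-- the empty profile -/
def emp (w : ℕ) : LL := List.replicate (w + 1) .z

/-- the start budget -/
def startP (top : ℕ) : ℕ := 7 + 16 * 8 + 256 * (if top = 0 then 7 else 3)

/-- the search for the width `w` -/
def RunOK (w : ℕ) : Prop := mainS (leafK w) w (w / 2) w 15 [] (emp w) (startP (w / 2)) = true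

/-- the search after the first nonblank tile `k` in the column `x` -/
noncomputable def opt (w x κ : ℕ) (k : Kd) (tr tl br : Ent) : Bool :=
  pay κ (startP (w / 2)) fun P => rowM (fun T => cond (Nat.ble 16 (14 + w)) true (leafK w T))
    (fun T L P => nextK (w / 2) 14 L P fun R P => mainS (leafK w) w (w / 2) w 14 T R P)
    (w + 19 - x) (k :: List.replicate x .bl) (tr :: tl :: List.replicate x .z)
    (br :: List.replicate (w - 1 - x) .z) P

noncomputable def optR (w x : ℕ) : Bool :=
  opt w x 1 .aR (.o (w + 20 - x) 0) .z (.o (w + 20 - x) 0)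

noncomputable def optT (w x : ℕ) : Bool :=
  opt w x 2 .aT (.o (w + 20 - x) 0) (.o (w + 20 - x) 0) .z

noncomputable def optD (w x : ℕ) : Bool :=
  opt w x 2 .dD .z (.o (w + 20 - x) 0) (.o (w + 20 - x) 0)

end Pool.Agent.MP_204846_gt
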