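import Pool.Agent.Lib_MP_204846_gt.BDefs
import Pool.Agent.Lib_MP_204846_gt.SFun

/-!
# MP_204846_gt: arrays of (unsigned) tiles
-/

namespace Pool.Agent.MP_204846_gt

def Kd.code (k : Kd) (bl br tr tl : ℕ) : Code :=
  match k with
  | .bl => []
  | .x => [.X bl br tr tl]
  | .aB => [.P bl br]
  | .aR => [.P br tr]
  | .aT => [.P tr tl]
  | .aL => [.P tl bl]
  | .dU => [.P bl tr]
  | .dD => [.P br tl]
  | .hh => [.P bl br, .P tr tl]
  | .vv => [.P br tr, .P tl bl]

/-- a nonblank tile without crossing -/
def Kd.isC : Kd → Bool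
  | .bl => false
  | .x => false
  | _ => true

def Tile.kind : Tile → Kd
  | .blank => .bl
  | .bottom => .aB
  | .right => .aR
  | .top => .aT
  | .left => .aL
  | .up => .dU
  | .down => .dD
  | .bottomTop => .hh
  | .leftRight => .vv
  | .crossUnder => .x
  | .crossOver => .x

/-- an array of tiles; `A x y` is the tile in column `x` and row `y` -/
abbrev Arr := ℕ → ℕ → Kd

def cellCode (A : Arr) (x y : ℕ) : Code :=
  (A x y).code (vert x y) (vert (x + 1) y) (vert (x + 1) (y + 1)) (vert x (y + 1))

/-- the first `x` cells of the row `y` -/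
def rowCode (A : Arr) (x y : ℕ) : Code := (List.range x).flatMap fun x => cellCode A x y

/-- the rows `0, ..., y - 1` of length `w` -/
def arrCode (A : Arr) (w y : ℕ) : Code := (List.range y).flatMap fun y => rowCode A w y

/-- the cells before the cell `(x, y)` -/
def preCode (A : Arr) (w x y : ℕ) : Code := arrCode A w y ++ rowCode A x y

def nX (A : Arr) (w h : ℕ) : ℕ :=
  ((Finset.range w ×ˢ Finset.range h).filter fun p => A p.1 p.2 = .x).card

def nC (A : Arr) (w h : ℕ) : ℕ :=
  ((Finset.range w ×ˢ Finset.range h).filter fun p => (A p.1 p.2).isC = true).card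

structure GoodArr (A : Arr) (w h : ℕ) : Prop where
  good : GoodCode (arrCode A w h)
  nX : nX A w h = 8
  nC : nC A w h ≤ 7

end Pool.Agent.MP_204846_gt
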