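import Pool.Agent.Lib_MP_204846_gt.SDefs

/-!
# MP_204846_gt: one step of the search as a plain function (definitions)
-/

namespace Pool.Agent.MP_204846_gt

/-- plain form of `renE` -/
def renM (s c t d : ℕ) : Ent → Ent
  | .z => .z
  | .f => .f
  | .o u x => if u = s then (if x = 0 then .o s d else .o s x)
      else if u = t then (if x = 0 then .o s c else .o s x) else .o u x

/-- plain form of `srcE` -/
def srcM (s c : ℕ) : Ent → Ent
  | .z => .z
  | .f => .f
  | .o u x => if x = 0 then (if u = s then .o u c else .o u x) else .o u x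

/-- the effect of `updK s c X` on the entries -/
def updM (s c X : ℕ) : Ent → Ent := if c = 0 then srcM s X else id

/-- The result of placing a tile: impossible, closes the last strand, or a new state: the new entries
of the upper right, the upper left and the lower right vertex, and the renaming of the entries
of the other vertices. `κ` is the price. -/
inductive Out where
  | bad : Out
  | fin (κ : ℕ) : Out
  | ok (κ : ℕ) (tr tl br : Ent) (ρ : Ent → Ent) : Out

/-- a join of `(s, c)` and `(t, d)`: `bad`, `v` (same strand) or `w` -/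
noncomputable def jn (s c t d : ℕ) (v w : Out) : Out :=
  if mono c d = true then .bad else if s = t then v else w

/-- the lower left vertex is open -/
noncomputable def placeO (i s c : ℕ) (k : Kd) (l r1 : Ent) : Out :=
  match l, r1 with
  | .f, _ => .bad
  | .z, .z =>
    match k with
    | .x => .ok 0 (.o s (4 * i + 2)) (.o i (4 * i + 3)) (.o i (4 * i + 1)) (updM s c (4 * i))
    | .aB => .ok 1 .z .z (.o s c) id
    | .aL => .ok 1 .z (.o s c) .z id
    | .dU => .ok 1 (.o s c) .z .z id
    | .hh => .ok 1 (.o i 0) (.o i 0) (.o s c) id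
    | .vv => .ok 1 (.o i 0) (.o s c) (.o i 0) id
    | _ => .bad
  | .z, .f =>
    match k with
    | .aL => .ok 1 .z (.o s c) .f id
    | .dU => .ok 1 (.o s c) .z .f id
    | _ => .bad
  | .z, .o t d =>
    match k with
    | .x => if c + d = 0 ∧ s = t then .bad else
        .ok 0 (.o s (4 * i + 2)) (.o t (4 * i + 3)) .f (updM t d (4 * i + 1) ∘ updM s c (4 * i))
    | .aB => jn s c t d (.fin 0) (.ok 0 .z .z .f (renM s c t d))
    | .hh => jn s c t d .bad (.ok 1 (.o i 0) (.o i 0) .f (renM s c t d))
    | .dU => .ok 0 (.o s c) .z (.o t d) id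
    | .aL => .ok 1 .z (.o s c) (.o t d) id
    | .vv => .ok 1 (.o t d) (.o s c) .f id
    | _ => .bad
  | .o u e, .z =>
    match k with
    | .x => if c + e = 0 ∧ s = u then .bad else
        .ok 0 (.o s (4 * i + 2)) .f (.o u (4 * i + 1)) (updM u e (4 * i + 3) ∘ updM s c (4 * i))
    | .aL => jn s c u e (.fin 1) (.ok 1 .z .f .z (renM s c u e))
    | .vv => jn s c u e .bad (.ok 1 (.o i 0) .f (.o i 0) (renM s c u e))
    | .aB => .ok 2 .z (.o u e) (.o s c) id
    | .dU => .ok 2 (.o s c) (.o u e) .z id
    | .hh => .ok 1 (.o u e) .f (.o s c) id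
    | _ => .bad
  | .o u e, .f =>
    match k with
    | .aL => jn s c u e (.fin 1) (.ok 1 .z .f .f (renM s c u e))
    | .dU => .ok 2 (.o s c) (.o u e) .f id
    | _ => .bad
  | .o u e, .o t d =>
    match k with
    | .x => if (c = 0 ∧ ((d = 0 ∧ s = t) ∨ (e = 0 ∧ s = u))) ∨ u = t then .bad else
        .ok 0 (renM u (4 * i + 1) t (4 * i + 3) (.o s (4 * i + 2))) .f .f
          (renM u (4 * i + 1) t (4 * i + 3) ∘ updM s c (4 * i))
    | .aB => jn s c t d .bad (.ok 1 .z (renM s c t d (.o u e)) .f (renM s c t d))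
    | .hh => jn s c t d .bad (.ok 1 (renM s c t d (.o u e)) .f .f (renM s c t d))
    | .aL => jn s c u e .bad (.ok 1 .z .f (renM s c u e (.o t d)) (renM s c u e))
    | .vv => jn s c u e .bad (.ok 1 (renM s c u e (.o t d)) .f .f (renM s c u e))
    | .dU => .ok 1 (.o s c) (.o u e) (.o t d) id
    | _ => .bad

/-- the lower left vertex is not open -/
noncomputable def placeN (i : ℕ) (k : Kd) (l r1 : Ent) : Out :=
  match l, r1 with
  | .f, _ => .bad
  | .z, .z =>
    match k with
    | .bl => .ok 0 .z .z .z id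
    | .aR => .ok 1 (.o i 0) .z (.o i 0) id
    | .aT => .ok 2 (.o i 0) (.o i 0) .z id
    | .dD => .ok 2 .z (.o i 0) (.o i 0) id
    | _ => .bad
  | .z, .f =>
    match k with
    | .bl => .ok 0 .z .z .f id
    | .aT => .ok 2 (.o i 0) (.o i 0) .f id
    | _ => .bad
  | .z, .o t d =>
    match k with
    | .bl => .ok 0 .z .z (.o t d) id
    | .aR => .ok 1 (.o t d) .z .f id
    | .aT => .ok 1 (.o i 0) (.o i 0) (.o t d) id
    | .dD => .ok 1 .z (.o t d) .f id
    | _ => .bad
  | .o u e, .z =>
    match k with
    | .bl => .ok 0 .z (.o u e) .z id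
    | .aR => .ok 1 (.o i 0) (.o u e) (.o i 0) id
    | .aT => .ok 1 (.o u e) .f .z id
    | .dD => .ok 1 .z .f (.o u e) id
    | _ => .bad
  | .o u e, .f =>
    match k with
    | .bl => .ok 0 .z (.o u e) .f id
    | .aT => .ok 1 (.o u e) .f .f id
    | _ => .bad
  | .o u e, .o t d =>
    match k with
    | .bl => .ok 0 .z (.o u e) (.o t d) id
    | .aR => .ok 1 (.o t d) (.o u e) .f id
    | .aT => .ok 0 (.o u e) .f (.o t d) id
    | .dD => jn u e t d (.fin 0) (.ok 0 .z .f .f (renM u e t d))
    | _ => .bad

/-- the result of placing the tile `k`; `l`, `r0`, `r1` are the entries of the upper left, lower left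
and lower right vertex, `i` is a new name -/
noncomputable def place (i : ℕ) (k : Kd) (l r0 r1 : Ent) : Out :=
  match r0 with
  | .o s c => placeO i s c k l r1
  | _ => placeN i k l r1

/-- the tile can be paid -/
def Pays (k : Kd) (κ P : ℕ) : Prop :=
  match k with
  | .bl => True
  | .x => 16 ≤ P % 256
  | _ => 256 ≤ P ∧ κ ≤ P % 16

/-- the new budget -/
def newP (k : Kd) (κ P : ℕ) : ℕ :=
  match k with
  | .bl => P
  | .x => P - 16
  | _ => P - (256 + κ)

/-- what the value `true` of the search at a cell means for the tile `k` -/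
def CellOK (fin : Kd → Bool) (ih : KK) (L R : LL) (P : ℕ) (k : Kd) : Out → Prop
  | .bad => True
  | .fin κ => cl L = true → cl R = true → P % 256 < 16 → 256 ≤ P → κ ≤ P % 16 → fin k = true
  | .ok κ tr tl br ρ => Pays k κ P →
      ih k (tr :: tl :: L.map ρ) (br :: R.map ρ) (newP k κ P) = true

/-- 1 if the entry is open -/
def opn : Ent → ℕ
  | .o _ _ => 1
  | _ => 0

def xr (a b : ℕ) : ℕ := if a = b then 0 else 1

end Pool.Agent.MP_204846_gt
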