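import Pool.Agent.Lib_MP_204846_gt.SDefs

/-!
# MP_204846_gt, piece SmL: opposite states
-/

namespace Pool.Agent.MP_204846_gt

def Q2.node : Q2 → Node
  | .mk a b => .P a b

def Q4.node : Q4 → Node
  | .mk a b c d => .X a b c d

/-- the span of the pairs -/
noncomputable def spP : List Q2 → Submodule (ZMod 2) VV
  | [] => ⊥
  | .mk a b :: l => EE a b ⊔ spP l

private theorem SmL_cast {D : Code} {A B A' B' : Submodule (ZMod 2) VV} (h : Sm D A B) (h1 : A = A')
    (h2 : B = B') : Sm D A' B' := by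
  subst h1; subst h2; exact h

/-- Induction over `List.Perm`; in the case `swap` use `sup_left_comm`. -/
theorem Sm_perm {D D' : Code} (h : D.Perm D') {A B : Submodule (ZMod 2) VV} (hs : Sm D A B) :
    Sm D' A B := by
  induction h generalizing A B with
  | nil => exact hs
  | cons N _ ih =>
    cases hs with
    | P a b h => exact Sm.P a b (ih h)
    | X1 a b c d h => exact Sm.X1 a b c d (ih h)
    | X2 a b c d h => exact Sm.X2 a b c d (ih h)
  | swap x y l =>
    cases hs with
    | P a b h =>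
      cases h with
      | P a' b' h => exact SmL_cast (Sm.P a' b' (Sm.P a b h)) (sup_left_comm _ _ _) (sup_left_comm _ _ _)
      | X1 a' b' c' d' h =>
        exact SmL_cast (Sm.X1 a' b' c' d' (Sm.P a b h)) (sup_left_comm _ _ _) (sup_left_comm _ _ _)
      | X2 a' b' c' d' h =>
        exact SmL_cast (Sm.X2 a' b' c' d' (Sm.P a b h)) (sup_left_comm _ _ _) (sup_left_comm _ _ _)
    | X1 a b c d h =>
      cases h with
      | P a' b' h =>
        exact SmL_cast (Sm.P a' b' (Sm.X1 a b c d h)) (sup_left_comm _ _ _) (sup_left_comm _ _ _)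
      | X1 a' b' c' d' h =>
        exact SmL_cast (Sm.X1 a' b' c' d' (Sm.X1 a b c d h)) (sup_left_comm _ _ _) (sup_left_comm _ _ _)
      | X2 a' b' c' d' h =>
        exact SmL_cast (Sm.X2 a' b' c' d' (Sm.X1 a b c d h)) (sup_left_comm _ _ _) (sup_left_comm _ _ _)
    | X2 a b c d h =>
      cases h with
      | P a' b' h =>
        exact SmL_cast (Sm.P a' b' (Sm.X2 a b c d h)) (sup_left_comm _ _ _) (sup_left_comm _ _ _)
      | X1 a' b' c' d' h =>
        exact SmL_cast (Sm.X1 a' b' c' d' (Sm.X2 a b c d h)) (sup_left_comm _ _ _) (sup_left_comm _ _ _)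
      | X2 a' b' c' d' h =>
        exact SmL_cast (Sm.X2 a' b' c' d' (Sm.X2 a b c d h)) (sup_left_comm _ _ _) (sup_left_comm _ _ _)
  | trans _ _ ih1 ih2 => exact ih2 (ih1 hs)

theorem Sm_points {ps : List Q2} {D : Code} {A B : Submodule (ZMod 2) VV}
    (h : Sm (ps.map Q2.node ++ D) A B) :
    ∃ A' B', Sm D A' B' ∧ A = spP ps ⊔ A' ∧ B = spP ps ⊔ B' := by
  induction ps generalizing A B with
  | nil => exact ⟨A, B, h, by simp [spP], by simp [spP]⟩
  | cons q ps ih =>
    cases q with
    | mk a b =>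
      have h1 : Sm (.P a b :: (ps.map Q2.node ++ D)) A B := h
      cases h1 with
      | P _ _ h2 =>
        obtain ⟨A', B', h3, h4, h5⟩ := ih h2
        refine ⟨A', B', h3, ?_, ?_⟩
        · rw [h4, spP, sup_assoc]
        · rw [h5, spP, sup_assoc]

private theorem SmL_EE_fg (a b : ℕ) : (EE a b).FG := by
  unfold EE
  exact Submodule.fg_span_singleton _

theorem spP_fg (ps : List Q2) : (spP ps).FG := by
  induction ps with
  | nil => exact Submodule.fg_bot
  | cons q ps ih =>
    cases q with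
    | mk a b => exact (SmL_EE_fg a b).sup ih

theorem Sm_fg {D : Code} {A B : Submodule (ZMod 2) VV} (h : Sm D A B) : A.FG ∧ B.FG := by
  induction h with
  | nil => exact ⟨Submodule.fg_bot, Submodule.fg_bot⟩
  | P a b _ ih => exact ⟨(SmL_EE_fg a b).sup ih.1, (SmL_EE_fg a b).sup ih.2⟩
  | X1 a b c d _ ih =>
    exact ⟨((SmL_EE_fg a b).sup (SmL_EE_fg c d)).sup ih.1,
      ((SmL_EE_fg b c).sup (SmL_EE_fg d a)).sup ih.2⟩
  | X2 a b c d _ ih =>
    exact ⟨((SmL_EE_fg b c).sup (SmL_EE_fg d a)).sup ih.1,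
      ((SmL_EE_fg a b).sup (SmL_EE_fg c d)).sup ih.2⟩

end Pool.Agent.MP_204846_gt
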