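import Pool.Agent.Lib_MP_204846_gt.Rank

/-!
# MP_204846_gt, piece Span: the exponents of the bracket
-/

namespace Pool.Agent.MP_204846_gt

open Module LaurentPolynomial

theorem coeff_T_mul (k e : ℤ) (q : ℤ[T;T⁻¹]) : (T k * q).coeff e = q.coeff (e - k) := by
  have h := AddMonoidAlgebra.coeff_single_mul_apply q (1 : ℤ) k e
  rw [one_mul] at h
  rw [sub_eq_neg_add]
  exact h

theorem Bd.mono {p : ℤ[T;T⁻¹]} {lo hi lo' hi' : ℤ} (h : Bd p lo hi) (h₁ : lo' ≤ lo)
    (h₂ : hi ≤ hi') : Bd p lo' hi' := by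
  intro e he
  obtain ⟨h3, h4⟩ := h e he
  exact ⟨h₁.trans h3, h4.trans h₂⟩

theorem Bd.add {p q : ℤ[T;T⁻¹]} {lo hi : ℤ} (h : Bd p lo hi) (h' : Bd q lo hi) :
    Bd (p + q) lo hi := by
  intro e he
  by_cases h1 : p.coeff e = 0
  · refine h' e fun h2 => he ?_
    have h3 : (p + q).coeff e = p.coeff e + q.coeff e := rfl
    rw [h3, h1, h2, add_zero]
  · exact h e h1

theorem Bd.mul_T {p : ℤ[T;T⁻¹]} {lo hi : ℤ} (h : Bd p lo hi) (k : ℤ) :
    Bd (T k * p) (lo + k) (hi + k) := by
  intro e he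
  rw [coeff_T_mul] at he
  obtain ⟨h1, h2⟩ := h _ he
  constructor <;> linarith

theorem Bd.neg {p : ℤ[T;T⁻¹]} {lo hi : ℤ} (h : Bd p lo hi) : Bd (-p) lo hi := by
  intro e he
  refine h e fun h2 => he ?_
  have h3 : (-p).coeff e = -(p.coeff e) := rfl
  rw [h3, h2, neg_zero]

theorem Bd_δ_pow (k : ℕ) : Bd (δ ^ k) (-2 * k) (2 * k) := by
  induction k with
  | zero =>
    intro e he
    rw [pow_zero, ← T_zero, T_apply] at he
    split_ifs at he with h
    · subst h
      simp
    · exact absurd rfl he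
  | succ k ih =>
    have e1 : δ ^ (k + 1) = -(T 2 * δ ^ k) + -(T (-2) * δ ^ k) := by
      rw [pow_succ, δ]
      ring
    rw [e1]
    push_cast
    refine Bd.add ?_ ?_
    · exact ((ih.mul_T 2).neg).mono (by linarith) (by linarith)
    · exact ((ih.mul_T (-2)).neg).mono (by linarith) (by linarith)

private theorem span_spA {D : Code} {s : Finset ℕ} (hD : ∀ a ∈ ends D, a ∈ s) :
    spA D ≤ supp s ∧ spB D ≤ supp s := by
  induction D with
  | nil => exact ⟨bot_le, bot_le⟩
  | cons N D ih =>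
    have hD' : ∀ a ∈ ends D, a ∈ s := fun a ha => hD a (by
      rw [ends, List.flatMap_cons]
      exact List.mem_append_right _ ha)
    obtain ⟨i1, i2⟩ := ih hD'
    have hN : ∀ a ∈ N.ends, a ∈ s := fun a ha => hD a (by
      rw [ends, List.flatMap_cons]
      exact List.mem_append_left _ ha)
    cases N with
    | X a b c d =>
      have ha := hN a (by simp [Node.ends])
      have hb := hN b (by simp [Node.ends])
      have hc := hN c (by simp [Node.ends])
      have hd := hN d (by simp [Node.ends])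
      exact ⟨sup_le (sup_le (EE_le_supp ha hb) (EE_le_supp hc hd)) i1,
        sup_le (sup_le (EE_le_supp hb hc) (EE_le_supp hd ha)) i2⟩
    | P a b =>
      have ha := hN a (by simp [Node.ends])
      have hb := hN b (by simp [Node.ends])
      exact ⟨sup_le (EE_le_supp ha hb) i1, sup_le (EE_le_supp ha hb) i2⟩

private theorem span_step {Z Z' : Submodule (ZMod 2) VV} {s : Finset ℕ} (hZ : Z ≤ supp s)
    (hZ' : Z' ≤ supp s) {x y : ℕ} (h : Z' ≤ Z ⊔ EE x y) :
    finrank (ZMod 2) Z' ≤ finrank (ZMod 2) Z + 1 := by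
  have h1 := finrank_sup_EE_le (fg_of_le_supp hZ) x y
  have h2 := finrank_le_sup (fg_of_le_supp hZ') ((fg_of_le_supp hZ).sup (EE_fg x y))
  rw [sup_eq_right.2 h] at h2
  exact h2.trans h1

/-- Induction over `D`. At a crossing the second smoothing has the exponent smaller by `2`, and the
dimension changes by at most one, since
`EE a b ⊔ EE c d ≤ (EE b c ⊔ EE d a) ⊔ EE a b` (`ev c d = ev a b + ev b c + ev d a`). All spaces are
contained in `supp s`, so that their dimension is at most `n` (`finrank_le_card`). -/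
theorem br_bd {n : ℕ} {s : Finset ℕ} (hs : s.card ≤ n) (D : Code) (hD : ∀ a ∈ ends D, a ∈ s)
    {S : Submodule (ZMod 2) VV} (hS : S ≤ supp s) :
    Bd (br n D S) (-crossings D - 2 * (n - finrank (ZMod 2) ↥(S ⊔ spB D)))
      (crossings D + 2 * (n - finrank (ZMod 2) ↥(S ⊔ spA D))) := by
  induction D generalizing S with
  | nil =>
    have h1 : finrank (ZMod 2) S ≤ n := (finrank_le_card hS).trans hs
    have h2 := Bd_δ_pow (n - finrank (ZMod 2) S)
    rw [Nat.cast_sub h1] at h2
    have e1 : S ⊔ spA [] = S := by rw [spA, sup_bot_eq]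
    have e2 : S ⊔ spB [] = S := by rw [spB, sup_bot_eq]
    rw [e1, e2]
    have e3 : ((crossings [] : ℕ) : ℤ) = 0 := rfl
    rw [e3]
    exact h2.mono (by linarith) (by linarith)
  | cons N D ih =>
    have hD' : ∀ a ∈ ends D, a ∈ s := fun a ha => hD a (by
      rw [ends, List.flatMap_cons]
      exact List.mem_append_right _ ha)
    have hN : ∀ a ∈ N.ends, a ∈ s := fun a ha => hD a (by
      rw [ends, List.flatMap_cons]
      exact List.mem_append_left _ ha)
    obtain ⟨sA, sB⟩ := span_spA hD'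
    cases N with
    | P a b =>
      have ha := hN a (by simp [Node.ends])
      have hb := hN b (by simp [Node.ends])
      have h1 := ih hD' (S := S ⊔ EE a b) (sup_le hS (EE_le_supp ha hb))
      have e1 : S ⊔ spA (.P a b :: D) = S ⊔ EE a b ⊔ spA D := (sup_assoc _ _ _).symm
      have e2 : S ⊔ spB (.P a b :: D) = S ⊔ EE a b ⊔ spB D := (sup_assoc _ _ _).symm
      rw [e1, e2]
      have e3 : crossings (.P a b :: D) = crossings D := by
        rw [crossings, crossings, List.countP_cons_of_neg (by simp [Node.isX])]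
      rw [e3]
      exact h1
    | X a b c d =>
      have ha := hN a (by simp [Node.ends])
      have hb := hN b (by simp [Node.ends])
      have hc := hN c (by simp [Node.ends])
      have hd := hN d (by simp [Node.ends])
      have hS1 : S ⊔ EE a b ⊔ EE c d ≤ supp s :=
        sup_le (sup_le hS (EE_le_supp ha hb)) (EE_le_supp hc hd)
      have hS2 : S ⊔ EE b c ⊔ EE d a ≤ supp s :=
        sup_le (sup_le hS (EE_le_supp hb hc)) (EE_le_supp hd ha)
      have h1 := (ih hD' hS1).mul_T 1
      have h2 := (ih hD' hS2).mul_T (-1)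
      have e1 : S ⊔ spA (.X a b c d :: D) = S ⊔ EE a b ⊔ EE c d ⊔ spA D := by
        rw [spA]; simp only [sup_assoc]
      have e2 : S ⊔ spB (.X a b c d :: D) = S ⊔ EE b c ⊔ EE d a ⊔ spB D := by
        rw [spB]; simp only [sup_assoc]
      rw [e1, e2]
      have e3 : crossings (.X a b c d :: D) = crossings D + 1 := by
        rw [crossings, crossings, List.countP_cons_of_pos (by simp [Node.isX])]
      rw [e3]
      have m1 : finrank (ZMod 2) ↥(S ⊔ EE b c ⊔ EE d a ⊔ spB D) ≤
          finrank (ZMod 2) ↥(S ⊔ EE a b ⊔ EE c d ⊔ spB D) + 1 := by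
        refine span_step (sup_le hS1 sB) (sup_le hS2 sB) (x := b) (y := c) ?_
        have k1 : ev b c ∈ S ⊔ EE a b ⊔ EE c d ⊔ spB D ⊔ EE b c :=
          Submodule.mem_sup_right (ev_mem_EE b c)
        have k2 : ev a b ∈ S ⊔ EE a b ⊔ EE c d ⊔ spB D ⊔ EE b c :=
          Submodule.mem_sup_left (Submodule.mem_sup_left (Submodule.mem_sup_left
            (Submodule.mem_sup_right (ev_mem_EE a b))))
        have k3 : ev c d ∈ S ⊔ EE a b ⊔ EE c d ⊔ spB D ⊔ EE b c :=
          Submodule.mem_sup_left (Submodule.mem_sup_left (Submodule.mem_sup_right (ev_mem_EE c d)))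
        have k4 : ev d a ∈ S ⊔ EE a b ⊔ EE c d ⊔ spB D ⊔ EE b c := by
          rw [ev_comm d a, ← ev_add a b d, ← ev_add b c d]
          exact Submodule.add_mem _ k2 (Submodule.add_mem _ k1 k3)
        refine sup_le (sup_le (sup_le ?_ (EE_le.2 k1)) (EE_le.2 k4)) ?_
        · exact le_sup_left.trans (le_sup_left.trans (le_sup_left.trans le_sup_left))
        · exact le_sup_right.trans le_sup_left
      have m2 : finrank (ZMod 2) ↥(S ⊔ EE a b ⊔ EE c d ⊔ spA D) ≤
          finrank (ZMod 2) ↥(S ⊔ EE b c ⊔ EE d a ⊔ spA D) + 1 := by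
        refine span_step (sup_le hS2 sA) (sup_le hS1 sA) (x := a) (y := b) ?_
        have k1 : ev a b ∈ S ⊔ EE b c ⊔ EE d a ⊔ spA D ⊔ EE a b :=
          Submodule.mem_sup_right (ev_mem_EE a b)
        have k2 : ev b c ∈ S ⊔ EE b c ⊔ EE d a ⊔ spA D ⊔ EE a b :=
          Submodule.mem_sup_left (Submodule.mem_sup_left (Submodule.mem_sup_left
            (Submodule.mem_sup_right (ev_mem_EE b c))))
        have k3 : ev d a ∈ S ⊔ EE b c ⊔ EE d a ⊔ spA D ⊔ EE a b :=
          Submodule.mem_sup_left (Submodule.mem_sup_left (Submodule.mem_sup_right (ev_mem_EE d a)))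
        have k4 : ev c d ∈ S ⊔ EE b c ⊔ EE d a ⊔ spA D ⊔ EE a b := by
          rw [ev_comm c d, ← ev_add d a c, ← ev_add a b c]
          exact Submodule.add_mem _ k3 (Submodule.add_mem _ k1 k2)
        refine sup_le (sup_le (sup_le ?_ (EE_le.2 k1)) (EE_le.2 k4)) ?_
        · exact le_sup_left.trans (le_sup_left.trans (le_sup_left.trans le_sup_left))
        · exact le_sup_right.trans le_sup_left
      have m1' : ((finrank (ZMod 2) ↥(S ⊔ EE b c ⊔ EE d a ⊔ spB D) : ℕ) : ℤ) ≤
          finrank (ZMod 2) ↥(S ⊔ EE a b ⊔ EE c d ⊔ spB D) + 1 := by exact_mod_cast m1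
      have m2' : ((finrank (ZMod 2) ↥(S ⊔ EE a b ⊔ EE c d ⊔ spA D) : ℕ) : ℤ) ≤
          finrank (ZMod 2) ↥(S ⊔ EE b c ⊔ EE d a ⊔ spA D) + 1 := by exact_mod_cast m2
      rw [br]
      push_cast
      refine Bd.add ?_ ?_
      · exact h1.mono (by linarith) (by linarith)
      · exact h2.mono (by linarith) (by linarith)

theorem bracket_bd (D : Code) :
    Bd (bracket D) (-crossings D - 2 * cB D) (crossings D + 2 * cA D) := by
  have h := br_bd (n := nl D) (s := (ends D).toFinset) le_rfl D (by simp) (S := ⊥) bot_le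
  rw [bot_sup_eq, bot_sup_eq] at h
  exact h

end Pool.Agent.MP_204846_gt
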