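import Pool.Agent.Lib_MP_204846_gt.ArrSum

/-!
# MP_204846_gt, piece Trans: transposition, flip, translation of arrays

All three theorems follow from `good_transfer`. Labels: `vert x y = Nat.pair x y`, `Nat.unpair`.
-/

namespace Pool.Agent.MP_204846_gt

/-- reflection of a tile in the diagonal -/
def Kd.tp : Kd → Kd
  | .bl => .bl
  | .x => .x
  | .aB => .aL
  | .aL => .aB
  | .aR => .aT
  | .aT => .aR
  | .dU => .dU
  | .dD => .dD
  | .hh => .vv
  | .vv => .hh

/-- reflection of a tile in a horizontal line -/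
def Kd.fl : Kd → Kd
  | .bl => .bl
  | .x => .x
  | .aB => .aT
  | .aT => .aB
  | .aL => .aL
  | .aR => .aR
  | .dU => .dD
  | .dD => .dU
  | .hh => .hh
  | .vv => .vv

theorem rel_tp (k : Kd) (bl br tr tl : ℕ) :
    Multiset.Rel DEq (k.code bl br tr tl : Multiset Node) (k.tp.code bl tl tr br : Multiset Node) := by
  have hs : ∀ a b, DEq (.P a b) (.P b a) := fun a b => DEq.swap (DEq.rfl _)
  cases k
  · exact Multiset.Rel.zero
  · exact Multiset.Rel.cons (DEq.rot (DEq.rot (DEq.rot (DEq.refl (DEq.rfl _))))) Multiset.Rel.zero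
  · exact Multiset.Rel.cons (hs _ _) Multiset.Rel.zero
  · exact Multiset.Rel.cons (hs _ _) Multiset.Rel.zero
  · exact Multiset.Rel.cons (hs _ _) Multiset.Rel.zero
  · exact Multiset.Rel.cons (hs _ _) Multiset.Rel.zero
  · exact Multiset.Rel.cons (DEq.rfl _) Multiset.Rel.zero
  · exact Multiset.Rel.cons (hs _ _) Multiset.Rel.zero
  · have h := Multiset.Rel.cons (hs bl br) (Multiset.Rel.cons (hs tr tl) Multiset.Rel.zero)
    rw [Multiset.cons_swap (Node.P br bl)] at h
    exact h
  · have h := Multiset.Rel.cons (hs br tr) (Multiset.Rel.cons (hs tl bl) Multiset.Rel.zero)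
    rw [Multiset.cons_swap (Node.P tr br)] at h
    exact h

theorem rel_fl (k : Kd) (bl br tr tl : ℕ) :
    Multiset.Rel DEq (k.code bl br tr tl : Multiset Node) (k.fl.code tl tr br bl : Multiset Node) := by
  have hs : ∀ a b, DEq (.P a b) (.P b a) := fun a b => DEq.swap (DEq.rfl _)
  cases k
  · exact Multiset.Rel.zero
  · exact Multiset.Rel.cons (DEq.refl (DEq.rfl _)) Multiset.Rel.zero
  · exact Multiset.Rel.cons (hs _ _) Multiset.Rel.zero
  · exact Multiset.Rel.cons (hs _ _) Multiset.Rel.zero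
  · exact Multiset.Rel.cons (hs _ _) Multiset.Rel.zero
  · exact Multiset.Rel.cons (hs _ _) Multiset.Rel.zero
  · exact Multiset.Rel.cons (hs _ _) Multiset.Rel.zero
  · exact Multiset.Rel.cons (hs _ _) Multiset.Rel.zero
  · have h := Multiset.Rel.cons (hs bl br) (Multiset.Rel.cons (hs tr tl) Multiset.Rel.zero)
    rw [Multiset.cons_swap (Node.P br bl)] at h
    exact h
  · have h := Multiset.Rel.cons (hs br tr) (Multiset.Rel.cons (hs tl bl) Multiset.Rel.zero)
    exact h

/-- the transposed array -/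
def tpA (A : Arr) : Arr := fun x y => (A y x).tp

/-- the flipped array -/
def flA (A : Arr) (h : ℕ) : Arr := fun x y => (A x (h - 1 - y)).fl

/-- the translated array -/
def trA (A : Arr) (x₀ y₀ : ℕ) : Arr := fun x y => A (x + x₀) (y + y₀)

private theorem Trans_map (k : Kd) (f : ℕ → ℕ) (a b c d : ℕ) :
    (k.code a b c d).map (Node.map f) = k.code (f a) (f b) (f c) (f d) := by
  cases k <;> rfl

private theorem Trans_ends {A : Arr} {w h v : ℕ} (hv : v ∈ ends (arrCode A w h)) :
    ∃ x y a b, x < w ∧ y < h ∧ A x y ≠ .bl ∧ v = vert a b ∧ (a = x ∨ a = x + 1) ∧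
      (b = y ∨ b = y + 1) := by
  unfold ends arrCode rowCode at hv
  simp only [List.mem_flatMap, List.mem_range] at hv
  obtain ⟨N, ⟨y, hy, x, hx, hN⟩, hv⟩ := hv
  have hb : A x y ≠ .bl := by
    intro hb
    simp [cellCode, hb, Kd.code] at hN
  have h4 : v = vert x y ∨ v = vert (x + 1) y ∨ v = vert (x + 1) (y + 1) ∨ v = vert x (y + 1) := by
    have h5 : v ∈ ends (cellCode A x y) := List.mem_flatMap.mpr ⟨N, hN, hv⟩
    unfold cellCode at h5
    cases hk : A x y <;> rw [hk] at h5 <;> simp [Kd.code, ends, Node.ends] at h5 <;> tauto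
  rcases h4 with h | h | h | h
  · exact ⟨x, y, x, y, hx, hy, hb, h, Or.inl rfl, Or.inl rfl⟩
  · exact ⟨x, y, x + 1, y, hx, hy, hb, h, Or.inr rfl, Or.inl rfl⟩
  · exact ⟨x, y, x + 1, y + 1, hx, hy, hb, h, Or.inr rfl, Or.inr rfl⟩
  · exact ⟨x, y, x, y + 1, hx, hy, hb, h, Or.inl rfl, Or.inr rfl⟩

/-- the map of the labels given by a map of the vertices -/
private def lab (g : ℕ → ℕ → ℕ × ℕ) (v : ℕ) : ℕ :=
  vert (g (Nat.unpair v).1 (Nat.unpair v).2).1 (g (Nat.unpair v).1 (Nat.unpair v).2).2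

private theorem lab_vert (g : ℕ → ℕ → ℕ × ℕ) (a b : ℕ) :
    lab g (vert a b) = vert (g a b).1 (g a b).2 := by
  simp [lab, vert, Nat.unpair_pair]

private theorem tp_ne {k : Kd} (hk : k ≠ .bl) : k.tp ≠ .bl := by
  cases k <;> simp [Kd.tp] at hk ⊢

private theorem fl_ne {k : Kd} (hk : k ≠ .bl) : k.fl ≠ .bl := by
  cases k <;> simp [Kd.fl] at hk ⊢

private theorem tp_ne' {k : Kd} (hk : k.tp ≠ .bl) : k ≠ .bl := by
  cases k <;> simp [Kd.tp] at hk ⊢

private theorem fl_ne' {k : Kd} (hk : k.fl ≠ .bl) : k ≠ .bl := by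
  cases k <;> simp [Kd.fl] at hk ⊢

private theorem tp_isC (k : Kd) : k.tp.isC = k.isC := by cases k <;> rfl

private theorem fl_isC (k : Kd) : k.fl.isC = k.isC := by cases k <;> rfl

private theorem rel_refl (s : Multiset Node) : Multiset.Rel DEq s s :=
  Multiset.rel_refl_of_refl_on fun N _ => DEq.rfl N

theorem good_tp {A : Arr} {w h : ℕ} (hG : GoodArr A w h) : GoodArr (tpA A) h w := by
  refine good_transfer hG Prod.swap Prod.swap (lab fun a b => (b, a)) ?_ ?_ ?_
  · intro v hv v' hv' he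
    obtain ⟨x, y, a, b, -, -, -, rfl, -, -⟩ := Trans_ends hv
    obtain ⟨x', y', a', b', -, -, -, rfl, -, -⟩ := Trans_ends hv'
    rw [lab_vert, lab_vert, vert_inj] at he
    rw [vert_inj]
    exact ⟨he.2, he.1⟩
  · intro x y hx hy hb
    refine ⟨hy, hx, tp_ne hb, rfl, tp_isC _, ?_⟩
    unfold cellCode
    rw [Trans_map, lab_vert, lab_vert, lab_vert, lab_vert]
    exact rel_tp _ _ _ _ _
  · intro x y hx hy hb
    exact ⟨hy, hx, tp_ne' hb, rfl⟩

theorem good_fl {A : Arr} {w h : ℕ} (hG : GoodArr A w h) : GoodArr (flA A h) w h := by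
  refine good_transfer hG (fun p => (p.1, h - 1 - p.2)) (fun p => (p.1, h - 1 - p.2))
    (lab fun a b => (a, h - b)) ?_ ?_ ?_
  · intro v hv v' hv' he
    obtain ⟨x, y, a, b, h1, h2, -, rfl, h3, h4⟩ := Trans_ends hv
    obtain ⟨x', y', a', b', h1', h2', -, rfl, h3', h4'⟩ := Trans_ends hv'
    rw [lab_vert, lab_vert, vert_inj] at he
    rw [vert_inj]
    dsimp only at he
    omega
  · intro x y hx hy hb
    have e1 : h - 1 - (h - 1 - y) = y := by omega
    have e2 : h - 1 - y + 1 = h - y := by omega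
    have e3 : h - (y + 1) = h - 1 - y := by omega
    refine ⟨hx, by dsimp only; omega, ?_, ?_, ?_, ?_⟩
    · dsimp only [flA]
      rw [e1]
      exact fl_ne hb
    · dsimp only
      rw [e1]
    · dsimp only [flA]
      rw [e1]
      exact fl_isC _
    · unfold cellCode
      rw [Trans_map, lab_vert, lab_vert, lab_vert, lab_vert]
      dsimp only [flA]
      rw [e1, e2, e3]
      exact rel_fl _ _ _ _ _
  · intro x y hx hy hb
    have e1 : h - 1 - (h - 1 - y) = y := by omega
    refine ⟨hx, by dsimp only; omega, fl_ne' hb, ?_⟩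
    dsimp only
    rw [e1]

/-- all nonblank tiles are in the rectangle with the lower left cell `(x₀, y₀)`, width `w'` and
height `h'` -/
theorem good_tr {A : Arr} {w h x₀ y₀ w' h' : ℕ} (hG : GoodArr A w h) (hw : x₀ + w' ≤ w)
    (hh : y₀ + h' ≤ h) (hb : ∀ x y, x < w → y < h → A x y ≠ .bl →
      x₀ ≤ x ∧ x < x₀ + w' ∧ y₀ ≤ y ∧ y < y₀ + h') : GoodArr (trA A x₀ y₀) w' h' := by
  refine good_transfer hG (fun p => (p.1 - x₀, p.2 - y₀)) (fun p => (p.1 + x₀, p.2 + y₀))
    (lab fun a b => (a - x₀, b - y₀)) ?_ ?_ ?_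
  · intro v hv v' hv' he
    obtain ⟨x, y, a, b, h1, h2, h5, rfl, h3, h4⟩ := Trans_ends hv
    obtain ⟨x', y', a', b', h1', h2', h5', rfl, h3', h4'⟩ := Trans_ends hv'
    rw [lab_vert, lab_vert, vert_inj] at he
    rw [vert_inj]
    dsimp only at he
    have := hb x y h1 h2 h5
    have := hb x' y' h1' h2' h5'
    omega
  · intro x y hx hy hb'
    have h6 := hb x y hx hy hb'
    have e1 : x - x₀ + x₀ = x := by omega
    have e2 : y - y₀ + y₀ = y := by omega
    have e3 : x + 1 - x₀ = x - x₀ + 1 := by omega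
    have e4 : y + 1 - y₀ = y - y₀ + 1 := by omega
    refine ⟨by dsimp only; omega, by dsimp only; omega, ?_, ?_, ?_, ?_⟩
    · dsimp only [trA]
      rw [e1, e2]
      exact hb'
    · dsimp only
      rw [e1, e2]
    · dsimp only [trA]
      rw [e1, e2]
    · unfold cellCode
      rw [Trans_map, lab_vert, lab_vert, lab_vert, lab_vert]
      dsimp only [trA]
      rw [e1, e2, e3, e4]
      exact rel_refl _
  · intro x y hx hy hb'
    refine ⟨by dsimp only; omega, by dsimp only; omega, hb', ?_⟩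
    dsimp only
    rw [Nat.add_sub_cancel, Nat.add_sub_cancel]

end Pool.Agent.MP_204846_gt
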